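import Mathlib

open Matrix Matrix.SpecialLinearGroup OnePoint CongruenceSubgroup Finset PowerSeries
open scoped MatrixGroups

namespace Pool.Agent.MZ

/-- A modular symbol for `Γ₀(N)` with values in `A`: a function `φ{x, y}` of two points of
`P¹(ℚ) = ℚ ∪ {∞}` which is additive on chains and invariant under `Γ₀(N)` acting by Moebius
transformations. -/
structure ModSym (N : ℕ) (A : Type*) [AddCommGroup A] where
  val : OnePoint ℚ → OnePoint ℚ → A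
  chain : ∀ x y z : OnePoint ℚ, val x y + val y z = val x z
  inv : ∀ γ ∈ Gamma0 N, ∀ x y : OnePoint ℚ, val (mapGL ℚ γ • x) (mapGL ℚ γ • y) = val x y

/-- `T_l φ = a φ`, where
`(T_l φ){x, y} = φ{l x, l y} + ∑_{k = 0}^{l-1} φ{(x + k)/l, (y + k)/l}`. -/
def ModSym.HeckeEigen {N : ℕ} {A : Type*} [CommRing A] (φ : ModSym N A) (l : ℕ) (a : A) : Prop :=
  ∀ x y : OnePoint ℚ,
    φ.val (OnePoint.map (fun t : ℚ => (l : ℚ) * t) x) (OnePoint.map (fun t : ℚ => (l : ℚ) * t) y) +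
      ∑ k ∈ range l, φ.val (OnePoint.map (fun t : ℚ => (t + k) / (l : ℚ)) x)
        (OnePoint.map (fun t : ℚ => (t + k) / (l : ℚ)) y) = a * φ.val x y

/-- The Mazur-Swinnerton-Dyer measure: `msd φ α n a` is the value
`μ(a + p^(n+1) ℤ_p) = α^{-(n+1)} φ{∞, a/p^(n+1)} - α^{-(n+2)} φ{∞, a/p^n}`. -/
noncomputable def msd {N : ℕ} {A : Type*} [CommRing A] (φ : ModSym N A) (p : ℕ) (α : Aˣ) (n : ℕ)
    (a : ℤ) : A :=
  ((α⁻¹ : Aˣ) : A) ^ (n + 1) * φ.val ∞ (((a : ℚ) / (p : ℚ) ^ (n + 1) : ℚ) : OnePoint ℚ) -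
    ((α⁻¹ : Aˣ) : A) ^ (n + 2) * φ.val ∞ (((a : ℚ) / (p : ℚ) ^ n : ℚ) : OnePoint ℚ)

/-- `theta φ p α n` is the image of the measure in `ℤ_p[T]` at level `n`: the sum over the
classes `a` mod `p^(n+1)` prime to `p` of `μ(a + p^(n+1)) (1 + T)^j`, where `0 ≤ j < p^n` and
`a = ζ (1 + p)^j` mod `p^(n+1)` for a `(p-1)`-st root of unity `ζ` (that is
`a^(p-1) = (1+p)^(j(p-1))` mod `p^(n+1)`). -/
noncomputable def theta {N : ℕ} {A : Type*} [CommRing A] (φ : ModSym N A) (p : ℕ) (α : Aˣ)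
    (n : ℕ) : PowerSeries A :=
  ∑ a ∈ (range (p ^ (n + 1))).filter (fun a => ¬ p ∣ a),
    ∑ j ∈ (range (p ^ n)).filter (fun j => a ^ (p - 1) ≡ (1 + p) ^ (j * (p - 1)) [MOD p ^ (n + 1)]),
      C (msd φ p α n a) * (1 + X) ^ j

/-- `L ∈ ℤ_p[[T]]` is the (trivial branch of the) `p`-adic `L`-function of `φ`: it is congruent to
`theta φ p α n` modulo `(1 + T)^(p^n) - 1` for all `n`. -/
def IsPadicL {N : ℕ} {A : Type*} [CommRing A] (φ : ModSym N A) (p : ℕ) (α : Aˣ)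
    (L : PowerSeries A) : Prop :=
  ∀ n : ℕ, ((1 + X) ^ (p ^ n) - 1 : PowerSeries A) ∣ L - theta φ p α n

end Pool.Agent.MZ
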