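import Mathlib
import Pool.Agent.MZ.Defs

open Matrix Matrix.SpecialLinearGroup OnePoint CongruenceSubgroup Finset PowerSeries
open scoped MatrixGroups

namespace Pool.Agent.MZ

/-- `thetaBr φ p α ψ n` is the image in `A[T]` at level `n` of the measure twisted by the Dirichlet
character `ψ` modulo `p`: the sum over the classes `a` mod `p^(n+1)` prime to `p` of
`ψ(a) μ(a + p^(n+1)) (1 + T)^j`, where `0 ≤ j < p^n` and `a = ζ (1 + p)^j` mod `p^(n+1)` for a
`(p-1)`-st root of unity `ζ` (that is `a^(p-1) = (1+p)^(j(p-1))` mod `p^(n+1)`). -/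
noncomputable def thetaBr {N : ℕ} {A : Type*} [CommRing A] (φ : ModSym N A) (p : ℕ) (α : Aˣ)
    (ψ : DirichletCharacter A p) (n : ℕ) : PowerSeries A :=
  ∑ a ∈ (range (p ^ (n + 1))).filter (fun a => ¬ p ∣ a),
    ∑ j ∈ (range (p ^ n)).filter (fun j => a ^ (p - 1) ≡ (1 + p) ^ (j * (p - 1)) [MOD p ^ (n + 1)]),
      C (ψ (a : ZMod p) * msd φ p α n a) * (1 + X) ^ j

/-- `L ∈ A[[T]]` is the `ψ`-branch of the `p`-adic `L`-function of `φ`: it is congruent to
`thetaBr φ p α ψ n` modulo `(1 + T)^(p^n) - 1` for all `n`. -/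
def IsPadicLBr {N : ℕ} {A : Type*} [CommRing A] (φ : ModSym N A) (p : ℕ) (α : Aˣ)
    (ψ : DirichletCharacter A p) (L : PowerSeries A) : Prop :=
  ∀ n : ℕ, ((1 + X) ^ (p ^ n) - 1 : PowerSeries A) ∣ L - thetaBr φ p α ψ n

/-- `φ` has sign `ε` under `z ↦ -z` -/
def ModSym.HasSign {N : ℕ} {A : Type*} [CommRing A] (φ : ModSym N A) (ε : A) : Prop :=
  ∀ x y : OnePoint ℚ,
    φ.val (OnePoint.map (fun t : ℚ => -t) x) (OnePoint.map (fun t : ℚ => -t) y) = ε * φ.val x y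

end Pool.Agent.MZ
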