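import Mathlib

open Polynomial

namespace Pool.Agent.MZ

lemma toZMod_sub_mem {p : ℕ} [Fact p.Prime] {x y : ℤ_[p]}
    (h : x - y ∈ IsLocalRing.maximalIdeal ℤ_[p]) : PadicInt.toZMod x = PadicInt.toZMod y := by
  rw [← PadicInt.ker_toZMod, RingHom.mem_ker, map_sub] at h
  exact sub_eq_zero.1 h

/-- Hensel: every `(p-1)`-st root of unity modulo `p` lifts. -/
lemma exists_lift {p : ℕ} [hp : Fact p.Prime] (g : (ZMod p)ˣ) :
    ∃ z : ℤ_[p], z ^ (p - 1) = 1 ∧ PadicInt.toZMod z = (g : ZMod p) := by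
  have h1 : 0 < p - 1 := by have := hp.out.two_le; omega
  obtain ⟨a, ha⟩ := ZMod.ringHom_surjective (PadicInt.toZMod (p := p)) (g : ZMod p)
  have hmon : (X ^ (p - 1) - 1 : ℤ_[p][X]).Monic := monic_X_pow_sub_C 1 h1.ne'
  have hga : PadicInt.toZMod (a ^ (p - 1)) = 1 := by
    rw [map_pow, ha, ← Units.val_pow_eq_pow_val, ZMod.units_pow_card_sub_one_eq_one, Units.val_one]
  have hev : (X ^ (p - 1) - 1 : ℤ_[p][X]).eval a ∈ IsLocalRing.maximalIdeal ℤ_[p] := by
    rw [← PadicInt.ker_toZMod, RingHom.mem_ker]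
    simp only [eval_sub, eval_pow, eval_X, eval_one, map_sub, map_one]
    rw [hga, sub_self]
  have hder : IsUnit (Ideal.Quotient.mk (IsLocalRing.maximalIdeal ℤ_[p])
      ((derivative (X ^ (p - 1) - 1 : ℤ_[p][X])).eval a)) := by
    apply IsUnit.map
    by_contra hnu
    have hm : (derivative (X ^ (p - 1) - 1 : ℤ_[p][X])).eval a ∈
        IsLocalRing.maximalIdeal ℤ_[p] := (IsLocalRing.mem_maximalIdeal _).2 hnu
    rw [← PadicInt.ker_toZMod, RingHom.mem_ker] at hm
    simp only [derivative_sub, derivative_X_pow, derivative_one, sub_zero, eval_mul,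
      eval_natCast, eval_pow, eval_X, map_mul, map_pow, ha, map_natCast] at hm
    rcases mul_eq_zero.1 hm with h2 | h2
    · rw [ZMod.natCast_eq_zero_iff] at h2
      have := Nat.le_of_dvd h1 h2
      omega
    · exact (g ^ (p - 1 - 1)).ne_zero (by rw [Units.val_pow_eq_pow_val]; exact h2)
  obtain ⟨z, hz, hza⟩ := HenselianRing.is_henselian (I := IsLocalRing.maximalIdeal ℤ_[p])
    _ hmon a hev hder
  refine ⟨z, ?_, ?_⟩
  · have := hz
    rw [IsRoot.def] at this
    simp only [eval_sub, eval_pow, eval_X, eval_one] at this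
    exact sub_eq_zero.1 this
  · rw [toZMod_sub_mem hza, ha]

instance enough {p : ℕ} [hp : Fact p.Prime] : HasEnoughRootsOfUnity ℤ_[p] (p - 1) := by
  have h1 : 0 < p - 1 := by have := hp.out.two_le; omega
  have : NeZero (p - 1) := ⟨h1.ne'⟩
  refine ⟨?_, inferInstance⟩
  obtain ⟨g, hg⟩ := IsCyclic.exists_generator (α := (ZMod p)ˣ)
  have hog : orderOf g = p - 1 := by
    rw [orderOf_eq_card_of_forall_mem_zpowers hg, Nat.card_eq_fintype_card, ZMod.card_units]
  obtain ⟨z, hz1, hz2⟩ := exists_lift g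
  refine ⟨z, hz1, ?_⟩
  intro l hl
  rw [← hog]
  apply orderOf_dvd_of_pow_eq_one
  apply Units.ext
  rw [Units.val_pow_eq_pow_val, ← hz2, ← map_pow, hl, map_one, Units.val_one]

instance enough' {p : ℕ} [hp : Fact p.Prime] :
    HasEnoughRootsOfUnity ℤ_[p] (Monoid.exponent (ZMod p)ˣ) := by
  have h1 : 0 < p - 1 := by have := hp.out.two_le; omega
  have : NeZero (p - 1) := ⟨h1.ne'⟩
  apply HasEnoughRootsOfUnity.of_dvd ℤ_[p] (n := p - 1)
  apply Monoid.exponent_dvd_of_forall_pow_eq_one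
  intro g
  exact ZMod.units_pow_card_sub_one_eq_one p g

end Pool.Agent.MZ
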