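import Mathlib

namespace Pool.Agent.MZ

/-- `Phi x` stands for the value `phi{oo, x}` of a `Gamma_0(N)`-invariant modular symbol. -/
structure IsSym {A : Type*} [AddCommGroup A] (N : ℕ) (Φ : ℚ → A) : Prop where
  trans : ∀ (x : ℚ) (n : ℤ), Φ (x + n) = Φ x
  mob : ∀ a b c d : ℤ, a * d - b * c = 1 → (N : ℤ) ∣ c → c ≠ 0 → ∀ y : ℚ, (c : ℚ) * y + d ≠ 0 →
    Φ (((a : ℚ) * y + b) / (c * y + d)) = Φ y + Φ ((a : ℚ) / c)

variable {A : Type*} [AddCommGroup A] {N : ℕ} {Φ : ℚ → A}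

/-- pairs of points which are `p`-adjacent -/
lemma adj (h : IsSym N Φ) {p : ℕ} (hp : p.Prime) (hpN : ¬ p ∣ N) {c0 : A}
    (hR : ∀ (m : ℤ) (n : ℕ), Φ ((m : ℚ) / (p : ℚ) ^ n) = c0)
    {a b c d : ℤ} {n : ℕ} (hdet : a * d - b * c = (p : ℤ) ^ n) (hN : (N : ℤ) ∣ c) (hc : c ≠ 0)
    (hd : d ≠ 0) : Φ ((b : ℚ) / d) = c0 + Φ ((a : ℚ) / c) := by
  have hp0 : (p : ℚ) ≠ 0 := by exact_mod_cast hp.ne_zero
  set g : ℕ := Int.gcd a c with hg
  have hgpos : 0 < g := Int.gcd_pos_of_ne_zero_right _ hc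
  obtain ⟨a', ha'⟩ : (g : ℤ) ∣ a := Int.gcd_dvd_left _ _
  obtain ⟨c', hc'⟩ : (g : ℤ) ∣ c := Int.gcd_dvd_right _ _
  have hgdvd : (g : ℤ) ∣ (p : ℤ) ^ n := by
    rw [← hdet]
    exact dvd_sub (Dvd.dvd.mul_right (Int.gcd_dvd_left _ _) _)
      (Dvd.dvd.mul_left (Int.gcd_dvd_right _ _) _)
  have hgdvd' : g ∣ p ^ n := by exact_mod_cast hgdvd
  obtain ⟨t, htn, ht⟩ := (Nat.dvd_prime_pow hp).1 hgdvd'
  have hcop : IsCoprime a' c' := by
    have := Int.isCoprime_iff_gcd_eq_one.2 (Int.gcd_div_gcd_div_gcd (i := a) (j := c) hgpos)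
    have e1 : a / (Int.gcd a c : ℤ) = a' := by
      rw [← hg]
      exact Int.ediv_eq_of_eq_mul_right (by exact_mod_cast hgpos.ne') ha'
    have e2 : c / (Int.gcd a c : ℤ) = c' := by
      rw [← hg]
      exact Int.ediv_eq_of_eq_mul_right (by exact_mod_cast hgpos.ne') hc'
    rwa [e1, e2] at this
  obtain ⟨v, w, hvw⟩ := hcop
  -- v * a' + w * c' = 1
  have hc'0 : c' ≠ 0 := by
    rintro rfl
    simp at hc'
    exact hc hc'
  have hNc' : (N : ℤ) ∣ c' := by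
    have hco : IsCoprime (N : ℤ) (g : ℤ) := by
      rw [ht]
      push_cast
      apply IsCoprime.pow_right
      rw [Nat.isCoprime_iff_coprime]
      exact ((Nat.Prime.coprime_iff_not_dvd hp).2 hpN).symm
    rw [hc'] at hN
    exact hco.dvd_of_dvd_mul_left hN
  have hgp : (g : ℤ) = (p : ℤ) ^ t := by rw [ht]; push_cast; rfl
  have hdet' : a' * d - b * c' = (p : ℤ) ^ (n - t) := by
    have h1 : (g : ℤ) * (a' * d - b * c') = (g : ℤ) * (p : ℤ) ^ (n - t) := by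
      have : (g : ℤ) * (a' * d - b * c') = a * d - b * c := by
        rw [ha', hc']; ring
      rw [this, hdet, hgp, ← pow_add]
      congr 1
      omega
    exact mul_left_cancel₀ (by exact_mod_cast hgpos.ne') h1
  set P : ℤ := (p : ℤ) ^ (n - t) with hP
  have hP0 : (P : ℚ) ≠ 0 := by
    rw [hP]; push_cast; exact pow_ne_zero _ hp0
  have hdq : (d : ℚ) ≠ 0 := by exact_mod_cast hd
  have hcq : (c' : ℚ) ≠ 0 := by exact_mod_cast hc'0
  have hgq : (g : ℚ) ≠ 0 := by exact_mod_cast hgpos.ne'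
  -- matrix (a', -w; c', v)
  have hvwq : (v : ℚ) * a' + w * c' = 1 := by exact_mod_cast hvw
  have hdetq : (a' : ℚ) * d - b * c' = P := by exact_mod_cast hdet'
  have e3 : (c' : ℚ) * (((v * b + w * d : ℤ) : ℚ) / (p : ℚ) ^ (n - t)) + v = d / P := by
    have : (p : ℚ) ^ (n - t) = P := by rw [hP]; push_cast; rfl
    rw [this]
    push_cast
    field_simp
    rw [← hdetq]
    linear_combination (d : ℚ) * hvwq
  have e4 : (a' : ℚ) * (((v * b + w * d : ℤ) : ℚ) / (p : ℚ) ^ (n - t)) + (-w : ℤ) = b / P := by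
    have : (p : ℚ) ^ (n - t) = P := by rw [hP]; push_cast; rfl
    rw [this]
    push_cast
    field_simp
    rw [← hdetq]
    linear_combination (b : ℚ) * hvwq
  have key := h.mob a' (-w) c' v (by linear_combination hvw) hNc' hc'0
    (((v * b + w * d : ℤ) : ℚ) / (p : ℚ) ^ (n - t)) (by rw [e3]; positivity)
  rw [e3, e4, hR] at key
  have e5 : (b : ℚ) / P / (d / P) = b / d := by field_simp
  rw [e5] at key
  rw [key]
  congr 2
  rw [ha', hc']
  push_cast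
  field_simp

/-- one step of the translation invariance -/
lemma step (h : IsSym N Φ) {p : ℕ} (hp : p.Prime) (hpN : ¬ p ∣ N) {c0 : A}
    (hR : ∀ (m : ℤ) (n : ℕ), Φ ((m : ℚ) / (p : ℚ) ^ n) = c0)
    {a b c d M : ℤ} {i : ℕ} (hdet : a * d - b * c = 1) (hN : (N : ℤ) ∣ c) (hc : c ≠ 0)
    (hd : d ≠ 0) (hM : (p : ℤ) ^ i = 1 + c * d * M) (y : ℤ) :
    Φ ((b : ℚ) / d + ((y + M : ℤ) : ℚ) / (p : ℚ) ^ i) =
      Φ ((b : ℚ) / d + (y : ℚ) / (p : ℚ) ^ i) := by
  have hp0 : (p : ℚ) ≠ 0 := by exact_mod_cast hp.ne_zero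
  have hp0' : (p : ℤ) ≠ 0 := by exact_mod_cast hp.ne_zero
  have hdq : (d : ℚ) ≠ 0 := by exact_mod_cast hd
  set q : ℤ := (p : ℤ) ^ i with hq
  have hq0 : q ≠ 0 := pow_ne_zero _ hp0'
  have hqq : (p : ℚ) ^ i = q := by rw [hq]; push_cast; rfl
  have hq0' : (q : ℚ) ≠ 0 := by exact_mod_cast hq0
  have h1 := adj h hp hpN hR (a := q * a + y * c) (b := q * b + y * d) (c := q * c) (d := q * d)
    (n := 2 * i) (by rw [pow_mul', ← hq]; linear_combination q ^ 2 * hdet)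
    (Dvd.dvd.mul_left hN _) (mul_ne_zero hq0 hc) (mul_ne_zero hq0 hd)
  have h2 := adj h hp hpN hR (a := q * a + y * c) (b := (q * b + y * d) * q + q * d * M)
    (c := q * c) (d := q * d * q)
    (n := 2 * i) (by
      rw [pow_mul', ← hq]
      linear_combination q ^ 3 * hdet + q ^ 2 * hM)
    (Dvd.dvd.mul_left hN _) (mul_ne_zero hq0 hc) (mul_ne_zero (mul_ne_zero hq0 hd) hq0)
  have e1 : (b : ℚ) / d + (y : ℚ) / (p : ℚ) ^ i = ((q * b + y * d : ℤ) : ℚ) / ((q * d : ℤ) : ℚ) := by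
    rw [hqq]; push_cast; field_simp
  have e2 : (b : ℚ) / d + ((y + M : ℤ) : ℚ) / (p : ℚ) ^ i =
      (((q * b + y * d) * q + q * d * M : ℤ) : ℚ) / ((q * d * q : ℤ) : ℚ) := by
    rw [hqq]; push_cast; field_simp; ring
  rw [e1, e2, h1, h2]

/-- translation invariance under `Z[1/p]` at points `b/d` with `d` prime to `p N` -/
lemma transl (h : IsSym N Φ) {p : ℕ} (hp : p.Prime) (hpN : ¬ p ∣ N) {c0 : A}
    (hR : ∀ (m : ℤ) (n : ℕ), Φ ((m : ℚ) / (p : ℚ) ^ n) = c0)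
    {b d : ℤ} (hbd : IsCoprime b d) (hdN : IsCoprime d (N : ℤ)) (hdp : IsCoprime d (p : ℤ))
    (s : ℤ) (j : ℕ) : Φ ((b : ℚ) / d + (s : ℚ) / (p : ℚ) ^ j) = Φ ((b : ℚ) / d) := by
  have hp0 : (p : ℚ) ≠ 0 := by exact_mod_cast hp.ne_zero
  have hpZ : Prime (p : ℤ) := Nat.prime_iff_prime_int.1 hp
  have hd : d ≠ 0 := by
    rintro rfl
    rw [isCoprime_zero_left] at hdp
    exact hpZ.not_isUnit hdp
  -- choose `a, c`
  obtain ⟨a, c, hdet, hNc, hpc⟩ : ∃ a c : ℤ, a * d - b * c = 1 ∧ (N : ℤ) ∣ c ∧ ¬ (p : ℤ) ∣ c := by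
    have hco : IsCoprime d (b * N) := IsCoprime.mul_right hbd.symm hdN
    obtain ⟨u, v, huv⟩ := hco
    -- u * d + v * (b * N) = 1
    by_cases hpv : (p : ℤ) ∣ (N : ℤ) * v
    · refine ⟨u + b * N, -(N * (v - d)), by linear_combination huv, ⟨-(v - d), by ring⟩, ?_⟩
      intro hh
      rw [dvd_neg, mul_sub, dvd_sub_right hpv] at hh
      rcases hpZ.dvd_or_dvd hh with h1 | h1
      · exact hpN (by exact_mod_cast h1)
      · exact hpZ.not_isUnit (hdp.isUnit_of_dvd' h1 dvd_rfl)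
    · refine ⟨u, -(N * v), by linear_combination huv, ⟨-v, by ring⟩, ?_⟩
      rwa [dvd_neg]
  have hc : c ≠ 0 := by
    rintro rfl
    exact hpc (dvd_zero _)
  -- choose `i`
  have hcop : IsCoprime (p : ℤ) (c * d) := by
    refine IsCoprime.mul_right ?_ hdp.symm
    exact (Prime.coprime_iff_not_dvd hpZ).2 hpc
  set n : ℕ := (c * d).natAbs with hn
  have hn0 : n ≠ 0 := by
    rw [hn]
    exact Int.natAbs_ne_zero.2 (mul_ne_zero hc hd)
  set i : ℕ := n.totient * (j + 1) with hi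
  have htot : 0 < n.totient := Nat.totient_pos.2 (Nat.pos_of_ne_zero hn0)
  have hij : j < i := by
    rw [hi]
    nlinarith
  obtain ⟨M, hM⟩ : c * d ∣ (p : ℤ) ^ i - 1 := by
    have h1 : Nat.Coprime p n := by
      have := Int.isCoprime_iff_gcd_eq_one.1 hcop
      rwa [Int.gcd, Int.natAbs_natCast] at this
    have h2 : p ^ i ≡ 1 [MOD n] := by
      rw [hi, pow_mul]
      have := (Nat.ModEq.pow_totient h1).pow (j + 1)
      rwa [one_pow] at this
    have h3 : (n : ℤ) ∣ (p : ℤ) ^ i - 1 := by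
      have := (Nat.modEq_iff_dvd.1 h2.symm)
      push_cast at this
      exact this
    rwa [hn, Int.natCast_natAbs, abs_dvd] at h3
  have hM' : (p : ℤ) ^ i = 1 + c * d * M := by rw [← hM]; ring
  have hMp : IsCoprime M ((p : ℤ) ^ i) := by
    refine ⟨-(c * d), 1, ?_⟩
    rw [hM']; ring
  -- iterate
  have hit : ∀ (k : ℕ) (y : ℤ), Φ ((b : ℚ) / d + ((y + k * M : ℤ) : ℚ) / (p : ℚ) ^ i) =
      Φ ((b : ℚ) / d + (y : ℚ) / (p : ℚ) ^ i) := by
    intro k
    induction k with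
    | zero => intro y; simp
    | succ k ih =>
      intro y
      rw [← ih y, ← step h hp hpN hR hdet hNc hc hd hM' (y + k * M)]
      congr 4
      push_cast
      ring
  -- write `s p^(i-j) = k M + p^i t`
  obtain ⟨u, v, huv⟩ := hMp
  -- u * M + v * p^i = 1
  set s' : ℤ := s * (p : ℤ) ^ (i - j) with hs'
  set k : ℕ := (s' * u % (p : ℤ) ^ i).toNat with hk
  have hpi : (0 : ℤ) < (p : ℤ) ^ i := by
    have : (0 : ℤ) < p := by exact_mod_cast hp.pos
    positivity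
  have hk' : (k : ℤ) = s' * u % (p : ℤ) ^ i := Int.toNat_of_nonneg (Int.emod_nonneg _ hpi.ne')
  set e : ℤ := s' * u / (p : ℤ) ^ i with he
  have hke : (k : ℤ) = s' * u - (p : ℤ) ^ i * e := by
    rw [hk', he, Int.emod_def]
  have hfin : s' = (k : ℤ) * M + (p : ℤ) ^ i * (e * M + s' * v) := by
    rw [hke]
    linear_combination (-s') * huv
  have e1 : (b : ℚ) / d + (s : ℚ) / (p : ℚ) ^ j =
      ((b : ℚ) / d + ((0 + k * M : ℤ) : ℚ) / (p : ℚ) ^ i) + ((e * M + s' * v : ℤ) : ℚ) := by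
    have h1 : (s : ℚ) / (p : ℚ) ^ j = (s' : ℚ) / (p : ℚ) ^ i := by
      rw [hs']
      push_cast
      rw [div_eq_div_iff (pow_ne_zero _ hp0) (pow_ne_zero _ hp0), mul_assoc, ← pow_add]
      congr 2
      omega
    rw [h1]
    have h2 : (s' : ℚ) = (k : ℚ) * M + (p : ℚ) ^ i * (((e * M + s' * v : ℤ) : ℚ)) := by
      exact_mod_cast hfin
    rw [h2]
    push_cast
    field_simp
    ring
  rw [e1, h.trans, hit k 0]
  simp

/-- invariance under multiplication by `p^2` -/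
lemma mul_sq (h : IsSym N Φ) (hN0 : N ≠ 0) {p : ℕ} (hp : p.Prime) (hpN : ¬ p ∣ N) {c0 : A}
    (hR : ∀ (m : ℤ) (n : ℕ), Φ ((m : ℚ) / (p : ℚ) ^ n) = c0)
    {x m : ℤ} (hxm : IsCoprime x m) (hmN : IsCoprime m (N : ℤ)) (hmp : IsCoprime m (p : ℤ)) :
    Φ ((p : ℚ) ^ 2 * ((x : ℚ) / m)) = Φ ((x : ℚ) / m) := by
  have hp0 : (p : ℚ) ≠ 0 := by exact_mod_cast hp.ne_zero
  have hp0' : (p : ℤ) ≠ 0 := by exact_mod_cast hp.ne_zero
  have hpZ : Prime (p : ℤ) := Nat.prime_iff_prime_int.1 hp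
  have hNZ : (N : ℤ) ≠ 0 := by exact_mod_cast hN0
  have hNq : (N : ℚ) ≠ 0 := by exact_mod_cast hN0
  have hco : IsCoprime (p : ℤ) (N : ℤ) := by
    rw [Prime.coprime_iff_not_dvd hpZ]
    exact_mod_cast hpN
  obtain ⟨d0, b0', hdb⟩ := hco
  -- d0 * p + b0' * N = 1
  obtain ⟨K, hK⟩ : ∃ K : A, ∀ x m : ℤ, IsCoprime x m → IsCoprime m (N : ℤ) →
      IsCoprime m (p : ℤ) → Φ ((p : ℚ) ^ 2 * ((x : ℚ) / m)) = Φ ((x : ℚ) / m) + K := by
    refine ⟨Φ ((1 : ℚ) / ((-(p * N) : ℤ) : ℚ)) + Φ ((p : ℚ) / (N : ℚ)), ?_⟩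
    intro x m hxm hmN hmp
    have hm : m ≠ 0 := by
      rintro rfl
      rw [isCoprime_zero_left] at hmp
      exact hpZ.not_isUnit hmp
    have hmq : (m : ℚ) ≠ 0 := by exact_mod_cast hm
    set m' : ℤ := m - p * N * x with hm'
    have hm'p : IsCoprime m' (p : ℤ) := by
      have : m' = m + (p : ℤ) * (-(N * x)) := by rw [hm']; ring
      rw [this]
      exact IsCoprime.add_mul_left_left hmp _
    have hm'N : IsCoprime m' (N : ℤ) := by
      have : m' = m + (N : ℤ) * (-(p * x)) := by rw [hm']; ring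
      rw [this]
      exact IsCoprime.add_mul_left_left hmN _
    have hxm' : IsCoprime x m' := by
      have : m' = m + x * (-(p * N)) := by rw [hm']; ring
      rw [this]
      exact IsCoprime.add_mul_left_right hxm _
    have hm'0 : m' ≠ 0 := by
      intro h0
      rw [h0, isCoprime_zero_left] at hm'p
      exact hpZ.not_isUnit hm'p
    have hm'q : (m' : ℚ) ≠ 0 := by exact_mod_cast hm'0
    have hm'q' : (m' : ℚ) = m - p * N * x := by rw [hm']; push_cast; ring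
    -- lower unipotent
    have h1 := h.mob 1 0 (-(p * N)) 1 (by ring) ⟨-p, by ring⟩
      (neg_ne_zero.2 (mul_ne_zero hp0' hNZ)) ((x : ℚ) / m) (by
        push_cast
        have : (-((p : ℚ) * N)) * ((x : ℚ) / m) + 1 = m' / m := by
          rw [hm'q']; field_simp; ring
        rw [this]
        exact div_ne_zero hm'q hmq)
    have e1 : (((1 : ℤ) : ℚ) * ((x : ℚ) / m) + ((0 : ℤ) : ℚ)) /
        (((-(p * N) : ℤ) : ℚ) * ((x : ℚ) / m) + ((1 : ℤ) : ℚ)) = (x : ℚ) / m' := by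
      push_cast
      have : (-((p : ℚ) * N)) * ((x : ℚ) / m) + 1 = m' / m := by
        rw [hm'q']; field_simp; ring
      rw [this]
      field_simp
      ring
    rw [e1] at h1
    -- translation
    have h2 := transl h hp hpN hR hxm' hm'N hm'p b0' 1
    rw [pow_one] at h2
    -- upper matrix (p, -b0'; N, d0)
    have hdbq : (d0 : ℚ) * p + b0' * N = 1 := by exact_mod_cast hdb
    have e2 : ((N : ℤ) : ℚ) * ((x : ℚ) / m' + (b0' : ℚ) / p) + (d0 : ℚ) = m / (m' * p) := by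
      push_cast
      field_simp
      rw [hm'q']
      linear_combination ((m : ℚ) - p * N * x) * hdbq
    have h3 := h.mob p (-b0') N d0 (by linear_combination hdb) dvd_rfl hNZ
      ((x : ℚ) / m' + (b0' : ℚ) / p) (by
        rw [e2]
        exact div_ne_zero hmq (mul_ne_zero hm'q hp0))
    rw [e2] at h3
    have e3 : (((p : ℤ) : ℚ) * ((x : ℚ) / m' + (b0' : ℚ) / p) + ((-b0' : ℤ) : ℚ)) /
        (m / (m' * p)) = (p : ℚ) ^ 2 * ((x : ℚ) / m) := by
      push_cast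
      field_simp
      ring
    rw [e3, h2, h1] at h3
    rw [h3]
    push_cast
    abel
  have h0 := hK 0 1 isCoprime_one_right isCoprime_one_left isCoprime_one_left
  have hK0 : K = 0 := by
    simpa using h0
  rw [hK x m hxm hmN hmp, hK0, add_zero]

lemma mul_pow (h : IsSym N Φ) (hN0 : N ≠ 0) {p : ℕ} (hp : p.Prime) (hpN : ¬ p ∣ N) {c0 : A}
    (hR : ∀ (m : ℤ) (n : ℕ), Φ ((m : ℚ) / (p : ℚ) ^ n) = c0)
    {x m : ℤ} (hxm : IsCoprime x m) (hmN : IsCoprime m (N : ℤ)) (hmp : IsCoprime m (p : ℤ))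
    (i : ℕ) : Φ ((p : ℚ) ^ (2 * i) * ((x : ℚ) / m)) = Φ ((x : ℚ) / m) := by
  induction i with
  | zero => simp
  | succ i ih =>
    rw [← ih]
    have hxi : IsCoprime ((p : ℤ) ^ (2 * i) * x) m := IsCoprime.mul_left
      (IsCoprime.pow_left hmp.symm) hxm
    have := mul_sq h hN0 hp hpN hR hxi hmN hmp
    push_cast at this
    have e1 : (p : ℚ) ^ (2 * (i + 1)) * ((x : ℚ) / m) =
        (p : ℚ) ^ 2 * ((p : ℚ) ^ (2 * i) * x / m) := by ring
    have e2 : (p : ℚ) ^ (2 * i) * ((x : ℚ) / m) = (p : ℚ) ^ (2 * i) * x / m := by ring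
    rw [e1, e2, this]

end Pool.Agent.MZ
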