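import Mathlib
import Pool.Agent.MZ.Defs
import Pool.Agent.MZ.Core1

open Matrix Matrix.SpecialLinearGroup OnePoint CongruenceSubgroup Finset
open scoped MatrixGroups

namespace Pool.Agent.MZ

variable {N : ℕ} {A : Type*} [AddCommGroup A]

lemma ModSym.self (φ : ModSym N A) (x : OnePoint ℚ) : φ.val x x = 0 := by
  have h := φ.chain x x x
  simpa using h

lemma ModSym.swap (φ : ModSym N A) (x y : OnePoint ℚ) : φ.val x y = - φ.val y x := by
  have h := φ.chain x y x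
  rw [φ.self] at h
  exact eq_neg_of_add_eq_zero_left h

lemma smul_infty (γ : SL(2, ℤ)) : (mapGL ℚ γ • (∞ : OnePoint ℚ)) =
    if γ 1 0 = 0 then ∞ else (((γ 0 0 : ℚ) / (γ 1 0 : ℚ) : ℚ) : OnePoint ℚ) := by
  rw [OnePoint.smul_infty_eq_ite]
  simp

lemma smul_coe (γ : SL(2, ℤ)) (y : ℚ) : (mapGL ℚ γ • (y : OnePoint ℚ)) =
    if (γ 1 0 : ℚ) * y + γ 1 1 = 0 then ∞ else
      ((((γ 0 0 : ℚ) * y + γ 0 1) / ((γ 1 0 : ℚ) * y + γ 1 1) : ℚ) : OnePoint ℚ) := by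
  rw [OnePoint.smul_some_eq_ite]
  simp

lemma ModSym.infty (φ : ModSym N A) (γ : SL(2, ℤ)) : φ.val ∞ (mapGL ℚ γ • ∞) =
    if γ 1 0 = 0 then 0 else φ.val ∞ (((γ 0 0 : ℚ) / (γ 1 0 : ℚ) : ℚ) : OnePoint ℚ) := by
  rw [smul_infty]
  split_ifs with h
  · exact φ.self _
  · rfl

lemma exists_sl {a b c d : ℤ} (hdet : a * d - b * c = 1) :
    ∃ γ : SL(2, ℤ), γ 0 0 = a ∧ γ 0 1 = b ∧ γ 1 0 = c ∧ γ 1 1 = d :=
  ⟨⟨!![a, b; c, d], by rw [det_fin_two]; simpa using hdet⟩, rfl, rfl, rfl, rfl⟩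

theorem ModSym.isSym (φ : ModSym N A) : IsSym N (fun x : ℚ => φ.val ∞ (x : OnePoint ℚ)) where
  trans := by
    intro x n
    obtain ⟨γ, h00, h01, h10, h11⟩ := exists_sl (a := 1) (b := n) (c := 0) (d := 1) (by ring)
    have hmem : γ ∈ Gamma0 N := by
      rw [Gamma0_mem, h10]
      simp
    have h := φ.inv _ hmem ∞ (x : OnePoint ℚ)
    rw [smul_infty, smul_coe, h00, h01, h10, h11] at h
    simpa using h
  mob := by
    intro a b c d hdet hN hc y hy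
    obtain ⟨γ, h00, h01, h10, h11⟩ := exists_sl hdet
    have hmem : γ ∈ Gamma0 N := by
      rw [Gamma0_mem, h10]
      exact (ZMod.intCast_zmod_eq_zero_iff_dvd c N).2 hN
    have h := φ.inv _ hmem ∞ (y : OnePoint ℚ)
    rw [smul_infty, smul_coe, h00, h01, h10, h11, if_neg hc, if_neg hy] at h
    have h2 := φ.chain ∞ ((a : ℚ) / (c : ℚ) : ℚ)
      ((((a : ℚ) * y + b) / ((c : ℚ) * y + d) : ℚ) : OnePoint ℚ)
    show φ.val ∞ ((((a : ℚ) * y + b) / ((c : ℚ) * y + d) : ℚ) : OnePoint ℚ) =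
      φ.val ∞ (y : OnePoint ℚ) + φ.val ∞ (((a : ℚ) / (c : ℚ) : ℚ) : OnePoint ℚ)
    rw [← h2, h, add_comm]

/-- the period homomorphism vanishes if all `Phi (a / c)` with `N ∣ c` vanish -/
theorem ModSym.infty_eq_zero (φ : ModSym N A)
    (h : ∀ a c : ℤ, IsCoprime a c → (N : ℤ) ∣ c → c ≠ 0 →
      φ.val ∞ (((a : ℚ) / (c : ℚ) : ℚ) : OnePoint ℚ) = 0) (γ : SL(2, ℤ)) (hγ : γ ∈ Gamma0 N) :
    φ.val ∞ (mapGL ℚ γ • ∞) = 0 := by
  rw [φ.infty]
  split_ifs with h0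
  · rfl
  · apply h _ _ _ _ h0
    · have hd := γ.det_coe
      rw [det_fin_two] at hd
      exact ⟨γ 1 1, -γ 0 1, by linear_combination hd⟩
    · rw [Gamma0_mem] at hγ
      exact (ZMod.intCast_zmod_eq_zero_iff_dvd _ N).1 hγ

/-- the Hecke relation for `Phi` -/
theorem ModSym.HeckeEigen.phi {B : Type*} [CommRing B] {φ : ModSym N B} {l : ℕ} {a : B}
    (h : φ.HeckeEigen l a) (y : ℚ) :
    φ.val ∞ (((l : ℚ) * y : ℚ) : OnePoint ℚ) +
      ∑ k ∈ range l, φ.val ∞ (((y + k) / (l : ℚ) : ℚ) : OnePoint ℚ) =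
        a * φ.val ∞ (y : OnePoint ℚ) := by
  have := h ∞ (y : OnePoint ℚ)
  simpa only [OnePoint.map_infty, OnePoint.map_some] using this

/-- change of coefficients -/
def ModSym.map {B C : Type*} [CommRing B] [CommRing C] (φ : ModSym N B) (f : B →+* C) :
    ModSym N C where
  val x y := f (φ.val x y)
  chain x y z := by rw [← map_add, φ.chain]
  inv γ hγ x y := by rw [φ.inv γ hγ]

@[simp] lemma ModSym.map_val {B C : Type*} [CommRing B] [CommRing C] (φ : ModSym N B)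
    (f : B →+* C) (x y : OnePoint ℚ) : (φ.map f).val x y = f (φ.val x y) := rfl

theorem ModSym.HeckeEigen.map {B C : Type*} [CommRing B] [CommRing C] {φ : ModSym N B}
    {l : ℕ} {a : B} (h : φ.HeckeEigen l a) (f : B →+* C) : (φ.map f).HeckeEigen l (f a) := by
  intro x y
  simp only [ModSym.map_val]
  rw [← map_sum, ← map_add, h x y, map_mul]

end Pool.Agent.MZ
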