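import Mathlib
import Pool.Agent.MZ.Bridge

open Matrix Matrix.SpecialLinearGroup OnePoint CongruenceSubgroup Finset PowerSeries
open scoped MatrixGroups

namespace Pool.Agent.MZ

/-- every class prime to `p` modulo `p^(n+1)` has a logarithm -/
lemma exists_log {p : ℕ} (hp : p.Prime) (hp2 : p ≠ 2) (n : ℕ) {a : ℕ} (ha : ¬ p ∣ a) :
    ∃ j < p ^ n, a ^ (p - 1) ≡ (1 + p) ^ (j * (p - 1)) [MOD p ^ (n + 1)] := by
  classical
  have : Fact p.Prime := ⟨hp⟩
  have hne : NeZero (p ^ (n + 1)) := ⟨pow_ne_zero _ hp.ne_zero⟩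
  have hcyc := ZMod.isCyclic_units_of_prime_pow p hp hp2 (n + 1)
  have hca : Nat.Coprime a (p ^ (n + 1)) :=
    (Nat.Coprime.pow_left _ ((Nat.Prime.coprime_iff_not_dvd hp).2 ha)).symm
  have hcu : Nat.Coprime (1 + p) (p ^ (n + 1)) := by
    apply Nat.Coprime.pow_right
    simp
  set x : (ZMod (p ^ (n + 1)))ˣ := ZMod.unitOfCoprime a hca with hx
  set u : (ZMod (p ^ (n + 1)))ˣ := ZMod.unitOfCoprime (1 + p) hcu with hu
  have hou : orderOf u = p ^ n := by
    rw [← orderOf_units, hu, ZMod.coe_unitOfCoprime]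
    push_cast
    exact ZMod.orderOf_one_add_prime hp hp2 n
  have hco : Nat.Coprime (orderOf u) (p - 1) := by
    rw [hou]
    apply Nat.Coprime.pow_left
    rw [Nat.Prime.coprime_iff_not_dvd hp]
    intro hh
    have h1 := hp.two_le
    have := Nat.le_of_dvd (by omega) hh
    omega
  have hov : orderOf (u ^ (p - 1)) = p ^ n := by
    rw [Nat.Coprime.orderOf_pow hco, hou]
  have hcard : Fintype.card (ZMod (p ^ (n + 1)))ˣ = p ^ n * (p - 1) := by
    rw [ZMod.card_units_eq_totient, Nat.totient_prime_pow_succ hp]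
  set S := univ.filter (fun y : (ZMod (p ^ (n + 1)))ˣ => y ^ (p ^ n) = 1) with hS
  have hSc : S.card ≤ p ^ n := IsCyclic.card_pow_eq_one_le (pow_pos hp.pos _)
  set I := (range (p ^ n)).image (fun j => (u ^ (p - 1)) ^ j) with hI
  have hIS : I ⊆ S := by
    intro y hy
    rw [hI, mem_image] at hy
    obtain ⟨j, _, rfl⟩ := hy
    rw [hS, mem_filter]
    refine ⟨mem_univ _, ?_⟩
    rw [← pow_mul, mul_comm, pow_mul, ← hov, pow_orderOf_eq_one, one_pow]
  have hIc : I.card = p ^ n := by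
    rw [hI, card_image_of_injOn, card_range]
    intro i hi j hj hij
    simp only [coe_range, Set.mem_Iio] at hi hj
    exact pow_injOn_Iio_orderOf (by simpa [hov] using hi) (by simpa [hov] using hj) hij
  have hEq : I = S := eq_of_subset_of_card_le hIS (by rw [hIc]; exact hSc)
  have hxS : x ^ (p - 1) ∈ S := by
    rw [hS, mem_filter]
    refine ⟨mem_univ _, ?_⟩
    rw [← pow_mul, mul_comm, ← hcard, pow_card_eq_one]
  rw [← hEq, hI, mem_image] at hxS
  obtain ⟨j, hj, hje⟩ := hxS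
  refine ⟨j, mem_range.1 hj, ?_⟩
  rw [← ZMod.natCast_eq_natCast_iff]
  have h2 := congrArg (fun z : (ZMod (p ^ (n + 1)))ˣ => (z : ZMod (p ^ (n + 1)))) hje
  simp only [Units.val_pow_eq_pow_val, hx, hu, ZMod.coe_unitOfCoprime] at h2
  rw [Nat.cast_pow, Nat.cast_pow, ← h2, ← pow_mul, mul_comm j]

/-- the coefficient of `(1 + T)^j` in `theta` -/
noncomputable def cc {N : ℕ} {A : Type*} [CommRing A] (φ : ModSym N A) (p : ℕ) (α : Aˣ)
    (n j : ℕ) : A :=
  ∑ a ∈ (range (p ^ (n + 1))).filter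
    (fun a => ¬ p ∣ a ∧ a ^ (p - 1) ≡ (1 + p) ^ (j * (p - 1)) [MOD p ^ (n + 1)]), msd φ p α n a

lemma theta_eq {N : ℕ} {A : Type*} [CommRing A] (φ : ModSym N A) (p : ℕ) (α : Aˣ) (n : ℕ) :
    theta φ p α n = ∑ j ∈ range (p ^ n), C (cc φ p α n j) * (1 + X) ^ j := by
  rw [theta]
  simp only [cc, map_sum, sum_mul]
  refine sum_comm' ?_
  intro a j
  simp only [mem_filter]
  tauto

lemma msd_add {N : ℕ} {A : Type*} [CommRing A] (φ : ModSym N A) {p : ℕ} (hp : p ≠ 0) (α : Aˣ)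
    (n : ℕ) (a m : ℤ) : msd φ p α n (a + m * (p : ℤ) ^ (n + 1)) = msd φ p α n a := by
  have hp0 : (p : ℚ) ≠ 0 := by exact_mod_cast hp
  have htr : ∀ (x : ℚ) (k : ℤ), φ.val ∞ ((x + k : ℚ) : OnePoint ℚ) = φ.val ∞ (x : OnePoint ℚ) :=
    φ.isSym.trans
  have e1 : (((a + m * (p : ℤ) ^ (n + 1) : ℤ) : ℚ)) / (p : ℚ) ^ (n + 1) =
      (a : ℚ) / (p : ℚ) ^ (n + 1) + m := by
    push_cast
    field_simp
  have e2 : (((a + m * (p : ℤ) ^ (n + 1) : ℤ) : ℚ)) / (p : ℚ) ^ n =
      (a : ℚ) / (p : ℚ) ^ n + ((m * p : ℤ) : ℚ) := by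
    push_cast
    rw [pow_succ]
    field_simp
  rw [msd, msd, e1, e2, htr, htr]

/-- `φ` is even: invariant under `z ↦ -z` -/
def ModSym.Even {N : ℕ} {A : Type*} [AddCommGroup A] (φ : ModSym N A) : Prop :=
  ∀ x y : OnePoint ℚ,
    φ.val (OnePoint.map (fun t : ℚ => -t) x) (OnePoint.map (fun t : ℚ => -t) y) = φ.val x y

lemma msd_neg {N : ℕ} {A : Type*} [CommRing A] (φ : ModSym N A) (he : φ.Even) (p : ℕ) (α : Aˣ)
    (n : ℕ) (a : ℤ) : msd φ p α n (-a) = msd φ p α n a := by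
  have h : ∀ x : ℚ, φ.val ∞ ((-x : ℚ) : OnePoint ℚ) = φ.val ∞ (x : OnePoint ℚ) := by
    intro x
    have := he ∞ (x : OnePoint ℚ)
    simpa only [OnePoint.map_infty, OnePoint.map_some] using this
  rw [msd, msd]
  push_cast
  rw [neg_div, neg_div, h, h]

lemma cc_three {N : ℕ} {A : Type*} [CommRing A] (φ : ModSym N A) (he : φ.Even) (α : Aˣ)
    (n j a : ℕ) (ha : ¬ 3 ∣ a) (ha2 : a < 3 ^ (n + 1))
    (hj : a ^ (3 - 1) ≡ (1 + 3) ^ (j * (3 - 1)) [MOD 3 ^ (n + 1)]) :
    cc φ 3 α n j = 2 * msd φ 3 α n a := by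
  have ha0 : 0 < a := Nat.pos_of_ne_zero (by rintro rfl; exact ha (dvd_zero _))
  set q : ℕ := 3 ^ (n + 1) with hq
  have h3q : 3 ∣ q := dvd_pow_self _ (by omega)
  have hset : (range q).filter
      (fun b => ¬ 3 ∣ b ∧ b ^ (3 - 1) ≡ (1 + 3) ^ (j * (3 - 1)) [MOD q]) = {a, q - a} := by
    ext b
    simp only [mem_filter, mem_range, mem_insert, mem_singleton]
    constructor
    · rintro ⟨hb, hb3, hbj⟩
      have h1 : (b : ℤ) ^ 2 ≡ (a : ℤ) ^ 2 [ZMOD (q : ℤ)] := by
        have := hbj.trans hj.symm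
        have h2 := (Int.natCast_modEq_iff).2 this
        simpa using h2
      have h2 : (q : ℤ) ∣ ((a : ℤ) - b) * (a + b) := by
        have := h1.dvd
        convert this using 1
        ring
      have hp3 : Prime (3 : ℤ) := Int.prime_three
      have h3q' : (q : ℤ) = 3 ^ (n + 1) := by rw [hq]; push_cast; rfl
      by_cases h3 : (3 : ℤ) ∣ (a : ℤ) - b
      · -- then `3 ∤ a + b`
        have h4 : ¬ (3 : ℤ) ∣ (a : ℤ) + b := by
          intro h4
          apply ha
          have h5 : (3 : ℤ) ∣ (a : ℤ) := by omega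
          exact_mod_cast h5
        have h5 : IsCoprime (q : ℤ) ((a : ℤ) + b) := by
          rw [h3q']
          apply IsCoprime.pow_left
          exact (Prime.coprime_iff_not_dvd hp3).2 h4
        have h6 := h5.dvd_of_dvd_mul_right h2
        left
        have h7 : (a : ℤ) - b = 0 := by
          apply Int.eq_zero_of_abs_lt_dvd h6
          rw [abs_lt]
          constructor <;> omega
        omega
      · have h5 : IsCoprime (q : ℤ) ((a : ℤ) - b) := by
          rw [h3q']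
          apply IsCoprime.pow_left
          exact (Prime.coprime_iff_not_dvd hp3).2 h3
        have h6 := h5.dvd_of_dvd_mul_left h2
        right
        obtain ⟨m, hm⟩ := h6
        have hm1 : m = 1 := by
          have h8 : 0 < (q : ℤ) * m := by rw [← hm]; omega
          have h9 : (q : ℤ) * m < q * 2 := by rw [← hm]; omega
          have hq0 : (0 : ℤ) < q := by omega
          have h10 : 0 < m := (mul_pos_iff_of_pos_left hq0).1 h8
          have h11 : m < 2 := lt_of_mul_lt_mul_left h9 hq0.le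
          omega
        rw [hm1, mul_one] at hm
        omega
    · rintro (rfl | rfl)
      · exact ⟨ha2, ha, hj⟩
      · refine ⟨by omega, ?_, ?_⟩
        · intro hh
          apply ha
          omega
        · refine Nat.ModEq.trans ?_ hj
          rw [← Int.natCast_modEq_iff]
          push_cast [Nat.cast_sub ha2.le]
          rw [Int.modEq_iff_dvd]
          refine ⟨2 * a - q, ?_⟩
          ring
  have hne : a ≠ q - a := by
    intro hh
    have hodd : Odd q := by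
      rw [hq]
      exact Odd.pow (by decide)
    have : q = 2 * a := by omega
    rw [this] at hodd
    exact (Nat.not_odd_iff_even.2 (even_two_mul a)) hodd
  have hsum : cc φ 3 α n j = ∑ b ∈ ({a, q - a} : Finset ℕ), msd φ 3 α n b := by
    rw [cc, ← hset]
  rw [hsum, sum_pair hne]
  have h1 : ((q - a : ℕ) : ℤ) = -(a : ℤ) + 1 * ((3 : ℕ) : ℤ) ^ (n + 1) := by
    rw [Nat.cast_sub ha2.le, hq]
    push_cast
    ring
  rw [h1, msd_add φ (by norm_num) α n (-(a : ℤ)) 1, msd_neg φ he, two_mul]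

theorem three_dvd {N : ℕ} (φ : ModSym N ℤ_[3]) (he : φ.Even) (α : ℤ_[3]ˣ) (n : ℕ)
    (h : ∀ j < 3 ^ n, (3 : ℤ_[3]) ∣ cc φ 3 α n j) (b : ℤ) (hb : ¬ (3 : ℤ) ∣ b) :
    (3 : ℤ_[3]) ∣ msd φ 3 α n b := by
  have hq0 : (0 : ℤ) < 3 ^ (n + 1) := by positivity
  set a : ℕ := (b % 3 ^ (n + 1)).toNat with ha
  have hb0 : 0 ≤ b % 3 ^ (n + 1) := Int.emod_nonneg _ hq0.ne'
  have hac : (a : ℤ) = b % 3 ^ (n + 1) := Int.toNat_of_nonneg hb0
  have hdm : b = (a : ℤ) + (b / 3 ^ (n + 1)) * ((3 : ℕ) : ℤ) ^ (n + 1) := by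
    rw [hac]
    have := Int.emod_add_mul_ediv b (3 ^ (n + 1))
    push_cast
    linear_combination -this
  have hlt : a < 3 ^ (n + 1) := by
    have := Int.emod_lt_of_pos b hq0
    rw [← hac] at this
    exact_mod_cast this
  have h3a : ¬ 3 ∣ a := by
    intro hh
    apply hb
    rw [hdm]
    apply dvd_add (by exact_mod_cast hh)
    apply Dvd.dvd.mul_left
    exact dvd_pow_self _ (by omega)
  obtain ⟨j, hj, hjl⟩ := exists_log Nat.prime_three (by norm_num) n h3a
  have h1 := h j hj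
  rw [cc_three φ he α n j a h3a hlt hjl] at h1
  rw [hdm, msd_add φ (by norm_num) α n]
  have h2 : msd φ 3 α n (a : ℤ) = 2 * (2 * msd φ 3 α n (a : ℤ)) - 3 * msd φ 3 α n (a : ℤ) := by
    ring
  rw [h2]
  exact dvd_sub (h1.mul_left _) (dvd_mul_right _ _)

end Pool.Agent.MZ
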