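import Mathlib
import Pool.Agent.MZ.BranchDefs
import Pool.Agent.MZ.Teich
import Pool.Agent.MZ.Three

open Matrix Matrix.SpecialLinearGroup OnePoint CongruenceSubgroup Finset PowerSeries
open scoped MatrixGroups

namespace Pool.Agent.MZ

/-- for the principal character the branch is `theta` -/
lemma thetaBr_one {N : ℕ} {A : Type*} [CommRing A] (φ : ModSym N A) {p : ℕ} (hp : p.Prime)
    (α : Aˣ) (n : ℕ) : thetaBr φ p α 1 n = theta φ p α n := by
  rw [thetaBr, theta]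
  apply sum_congr rfl
  intro a ha
  rw [mem_filter] at ha
  have hu : IsUnit (a : ZMod p) := by
    rw [ZMod.isUnit_iff_coprime]
    exact ((Nat.Prime.coprime_iff_not_dvd hp).2 ha.2).symm
  rw [MulChar.one_apply hu, one_mul]

/-- the coefficient of `(1 + T)^j` in `thetaBr` -/
noncomputable def ccBr {N : ℕ} {A : Type*} [CommRing A] (φ : ModSym N A) (p : ℕ) (α : Aˣ)
    (ψ : DirichletCharacter A p) (n j : ℕ) : A :=
  ∑ a ∈ (range (p ^ (n + 1))).filter
    (fun a => ¬ p ∣ a ∧ a ^ (p - 1) ≡ (1 + p) ^ (j * (p - 1)) [MOD p ^ (n + 1)]),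
      ψ (a : ZMod p) * msd φ p α n a

lemma thetaBr_eq {N : ℕ} {A : Type*} [CommRing A] (φ : ModSym N A) (p : ℕ) (α : Aˣ)
    (ψ : DirichletCharacter A p) (n : ℕ) :
    thetaBr φ p α ψ n = ∑ j ∈ range (p ^ n), C (ccBr φ p α ψ n j) * (1 + X) ^ j := by
  rw [thetaBr]
  simp only [ccBr, map_sum, sum_mul]
  refine sum_comm' ?_
  intro a j
  simp only [mem_filter]
  tauto

/-- a class modulo `p^(n+1)` is determined by its logarithm and its residue modulo `p` -/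
lemma eq_of_log {p : ℕ} (hp : p.Prime) {n a b : ℕ} (ha : ¬ p ∣ a) (hb : ¬ p ∣ b)
    (hab : a ^ (p - 1) ≡ b ^ (p - 1) [MOD p ^ (n + 1)]) (hmod : (a : ZMod p) = b) :
    a ≡ b [MOD p ^ (n + 1)] := by
  have hca : Nat.Coprime a (p ^ (n + 1)) :=
    (Nat.Coprime.pow_left _ ((Nat.Prime.coprime_iff_not_dvd hp).2 ha)).symm
  have hcb : Nat.Coprime b (p ^ (n + 1)) :=
    (Nat.Coprime.pow_left _ ((Nat.Prime.coprime_iff_not_dvd hp).2 hb)).symm
  set x : (ZMod (p ^ (n + 1)))ˣ := ZMod.unitOfCoprime a hca with hx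
  set y : (ZMod (p ^ (n + 1)))ˣ := ZMod.unitOfCoprime b hcb with hy
  have h1 : x ^ (p - 1) = y ^ (p - 1) := by
    apply Units.ext
    simp only [Units.val_pow_eq_pow_val, hx, hy, ZMod.coe_unitOfCoprime]
    have := (ZMod.natCast_eq_natCast_iff _ _ _).2 hab
    simpa using this
  have h2 : x ^ (p ^ n) = y ^ (p ^ n) := by
    apply Units.ext
    simp only [Units.val_pow_eq_pow_val, hx, hy, ZMod.coe_unitOfCoprime]
    have h3 : (p : ℤ) ∣ (a : ℤ) - b := by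
      have : ((a : ℤ) : ZMod p) = ((b : ℤ) : ZMod p) := by simpa using hmod
      have h4 := (ZMod.intCast_eq_intCast_iff_dvd_sub _ _ _).1 this
      rw [← neg_sub]
      exact (dvd_neg).2 h4
    have h4 := dvd_sub_pow_of_dvd_sub h3 n
    have h5 : (((a : ℤ) ^ (p ^ n) - (b : ℤ) ^ (p ^ n) : ℤ) : ZMod (p ^ (n + 1))) = 0 := by
      rw [ZMod.intCast_zmod_eq_zero_iff_dvd]
      push_cast
      exact h4
    push_cast at h5
    exact sub_eq_zero.1 h5
  have h6 : x * y⁻¹ = 1 := by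
    have e1 : (x * y⁻¹) ^ (p - 1) = 1 := by
      rw [_root_.mul_pow, h1, inv_pow, mul_inv_cancel]
    have e2 : (x * y⁻¹) ^ (p ^ n) = 1 := by
      rw [_root_.mul_pow, h2, inv_pow, mul_inv_cancel]
    have hco : Nat.Coprime (p - 1) (p ^ n) := by
      apply Nat.Coprime.pow_right
      apply Nat.Coprime.symm
      rw [Nat.Prime.coprime_iff_not_dvd hp]
      intro hh
      have h1 := hp.two_le
      have := Nat.le_of_dvd (by omega) hh
      omega
    have h7 := Nat.dvd_gcd (orderOf_dvd_of_pow_eq_one e1) (orderOf_dvd_of_pow_eq_one e2)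
    rw [hco, Nat.dvd_one] at h7
    exact orderOf_eq_one_iff.1 h7
  have h7 : x = y := mul_inv_eq_one.1 h6
  have h8 := congrArg (fun z : (ZMod (p ^ (n + 1)))ˣ => (z : ZMod (p ^ (n + 1)))) h7
  simp only [hx, hy, ZMod.coe_unitOfCoprime] at h8
  exact (ZMod.natCast_eq_natCast_iff _ _ _).1 h8

/-- reduction of a class to `range (p^(n+1))` -/
lemma exists_rep {N : ℕ} {A : Type*} [CommRing A] (φ : ModSym N A) {p : ℕ} (hp : p.Prime)
    (α : Aˣ) (n : ℕ) (b : ℤ) (hb : ¬ (p : ℤ) ∣ b) :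
    ∃ a : ℕ, a < p ^ (n + 1) ∧ ¬ p ∣ a ∧ msd φ p α n b = msd φ p α n a := by
  have hq0 : (0 : ℤ) < (p : ℤ) ^ (n + 1) := by
    have := hp.pos
    positivity
  have hb0 : 0 ≤ b % (p : ℤ) ^ (n + 1) := Int.emod_nonneg _ hq0.ne'
  have hac : (((b % (p : ℤ) ^ (n + 1)).toNat : ℕ) : ℤ) = b % (p : ℤ) ^ (n + 1) :=
    Int.toNat_of_nonneg hb0
  have hdm : b = (((b % (p : ℤ) ^ (n + 1)).toNat : ℕ) : ℤ) +
      (b / (p : ℤ) ^ (n + 1)) * (p : ℤ) ^ (n + 1) := by
    rw [hac]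
    have := Int.emod_add_mul_ediv b ((p : ℤ) ^ (n + 1))
    linear_combination -this
  refine ⟨(b % (p : ℤ) ^ (n + 1)).toNat, ?_, ?_, ?_⟩
  · have := Int.emod_lt_of_pos b hq0
    rw [← hac] at this
    exact_mod_cast this
  · intro hh
    apply hb
    rw [hdm]
    apply dvd_add (by exact_mod_cast hh)
    apply Dvd.dvd.mul_left
    exact dvd_pow_self _ (by omega)
  · rw [hdm, msd_add φ hp.ne_zero α n]
    congr 1
    rw [← hdm]

/-- orthogonality of characters: the values of the measure from its branches -/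
lemma sum_ccBr {p : ℕ} [hp : Fact p.Prime] {N : ℕ} (φ : ModSym N ℤ_[p]) (α : ℤ_[p]ˣ)
    (n j b : ℕ) (hb : ¬ p ∣ b) (hbl : b < p ^ (n + 1))
    (hj : b ^ (p - 1) ≡ (1 + p) ^ (j * (p - 1)) [MOD p ^ (n + 1)]) :
    ∑ ψ : DirichletCharacter ℤ_[p] p, ψ (b : ZMod p)⁻¹ * ccBr φ p α ψ n j =
      (p.totient : ℤ_[p]) * msd φ p α n b := by
  have hu : IsUnit (b : ZMod p) := by
    rw [ZMod.isUnit_iff_coprime]
    exact ((Nat.Prime.coprime_iff_not_dvd hp.out).2 hb).symm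
  simp only [ccBr, mul_sum]
  rw [sum_comm]
  have h1 : ∀ a ∈ (range (p ^ (n + 1))).filter
      (fun a => ¬ p ∣ a ∧ a ^ (p - 1) ≡ (1 + p) ^ (j * (p - 1)) [MOD p ^ (n + 1)]),
      ∑ ψ : DirichletCharacter ℤ_[p] p, ψ (b : ZMod p)⁻¹ * (ψ (a : ZMod p) * msd φ p α n a) =
        if b = a then (p.totient : ℤ_[p]) * msd φ p α n b else 0 := by
    intro a ha
    rw [mem_filter, mem_range] at ha
    have h2 := DirichletCharacter.sum_char_inv_mul_char_eq ℤ_[p] hu (a : ZMod p)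
    have h3 : ∑ ψ : DirichletCharacter ℤ_[p] p,
        ψ (b : ZMod p)⁻¹ * (ψ (a : ZMod p) * msd φ p α n a) =
        (∑ ψ : DirichletCharacter ℤ_[p] p, ψ (b : ZMod p)⁻¹ * ψ (a : ZMod p)) *
          msd φ p α n a := by
      rw [sum_mul]
      apply sum_congr rfl
      intro ψ _
      ring
    rw [h3, h2]
    by_cases hba : b = a
    · subst hba
      rw [if_pos rfl, if_pos rfl]
    · rw [if_neg hba, if_neg, zero_mul]
      intro hmod
      apply hba
      have := eq_of_log hp.out hb ha.2.1 (hj.trans ha.2.2.symm) hmod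
      exact Nat.ModEq.eq_of_lt_of_lt this hbl ha.1
  rw [sum_congr rfl h1, sum_ite_eq, if_pos]
  rw [mem_filter, mem_range]
  exact ⟨hbl, hb, hj⟩

lemma msd_sign {N : ℕ} {A : Type*} [CommRing A] (φ : ModSym N A) {ε : A} (he : φ.HasSign ε)
    (p : ℕ) (α : Aˣ) (n : ℕ) (a : ℤ) : msd φ p α n (-a) = ε * msd φ p α n a := by
  have h : ∀ x : ℚ, φ.val ∞ ((-x : ℚ) : OnePoint ℚ) = ε * φ.val ∞ (x : OnePoint ℚ) := by
    intro x
    have := he ∞ (x : OnePoint ℚ)
    simpa only [OnePoint.map_infty, OnePoint.map_some] using this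
  rw [msd, msd]
  push_cast
  rw [neg_div, neg_div, h, h]
  ring

/-- reflection `a ↦ p^(n+1) - a` preserves logarithms -/
lemma reflect_log {p : ℕ} (hp : p.Prime) (hp2 : p ≠ 2) {n j a : ℕ} (ha : a < p ^ (n + 1))
    (hpa : ¬ p ∣ a) (hj : a ^ (p - 1) ≡ (1 + p) ^ (j * (p - 1)) [MOD p ^ (n + 1)]) :
    p ^ (n + 1) - a < p ^ (n + 1) ∧ ¬ p ∣ p ^ (n + 1) - a ∧
      (p ^ (n + 1) - a) ^ (p - 1) ≡ (1 + p) ^ (j * (p - 1)) [MOD p ^ (n + 1)] := by
  have ha0 : 0 < a := Nat.pos_of_ne_zero (by rintro rfl; exact hpa (dvd_zero _))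
  have hodd : Odd p := hp.odd_of_ne_two hp2
  have heven : Even (p - 1) := by
    obtain ⟨m, hm⟩ := hodd
    exact ⟨m, by omega⟩
  have hpq : p ∣ p ^ (n + 1) := dvd_pow_self _ (by omega)
  refine ⟨by omega, ?_, ?_⟩
  · intro hh
    apply hpa
    have := Nat.dvd_sub hpq hh
    rwa [Nat.sub_sub_self ha.le] at this
  · refine Nat.ModEq.trans ?_ hj
    rw [← Int.natCast_modEq_iff, Nat.cast_pow (p ^ (n + 1) - a), Nat.cast_sub ha.le, Nat.cast_pow a]
    have h1 : (((p ^ (n + 1) : ℕ) : ℤ) - a) ≡ -(a : ℤ) [ZMOD ((p ^ (n + 1) : ℕ) : ℤ)] := by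
      rw [Int.modEq_iff_dvd]
      exact ⟨-1, by ring⟩
    have h2 := h1.pow (p - 1)
    rwa [heven.neg_pow] at h2

/-- the branches of the wrong parity vanish -/
lemma ccBr_sign {p : ℕ} (hp : p.Prime) (hp2 : p ≠ 2) {N : ℕ} {A : Type*} [CommRing A]
    (φ : ModSym N A) {ε : A} (he : φ.HasSign ε) (α : Aˣ) (ψ : DirichletCharacter A p) (n j : ℕ) :
    ccBr φ p α ψ n j = ψ (-1) * ε * ccBr φ p α ψ n j := by
  have hpq : p ∣ p ^ (n + 1) := dvd_pow_self _ (by omega)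
  nth_rewrite 1 [ccBr]
  rw [ccBr, mul_sum]
  refine sum_bij' (fun a _ => p ^ (n + 1) - a) (fun a _ => p ^ (n + 1) - a) ?_ ?_ ?_ ?_ ?_
  · intro a ha
    rw [mem_filter, mem_range] at ha ⊢
    exact reflect_log hp hp2 ha.1 ha.2.1 ha.2.2
  · intro a ha
    rw [mem_filter, mem_range] at ha ⊢
    exact reflect_log hp hp2 ha.1 ha.2.1 ha.2.2
  · intro a ha
    rw [mem_filter, mem_range] at ha
    exact Nat.sub_sub_self ha.1.le
  · intro a ha
    rw [mem_filter, mem_range] at ha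
    exact Nat.sub_sub_self ha.1.le
  · intro a ha
    rw [mem_filter, mem_range] at ha
    have h1 : ((p ^ (n + 1) - a : ℕ) : ℤ) = -(a : ℤ) + 1 * ((p : ℕ) : ℤ) ^ (n + 1) := by
      rw [Nat.cast_sub ha.1.le]
      push_cast
      ring
    have h2 : (((p ^ (n + 1) - a : ℕ)) : ZMod p) = -1 * (a : ZMod p) := by
      rw [Nat.cast_sub ha.1.le]
      have : ((p ^ (n + 1) : ℕ) : ZMod p) = 0 := (ZMod.natCast_eq_zero_iff _ _).2 hpq
      rw [this]
      ring
    have h3 : ψ (-1) * ψ (-1) = 1 := by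
      rw [← map_mul]
      simp
    have h5 : ε * (ε * msd φ p α n a) = msd φ p α n a := by
      rw [← msd_sign φ he, ← msd_sign φ he, neg_neg]
    rw [h1, msd_add φ hp.ne_zero α n (-(a : ℤ)) 1, msd_sign φ he, h2, map_mul]
    linear_combination (-(ψ (-1) * ψ (-1)) * ψ (a : ZMod p)) * h5 -
      (ψ (a : ZMod p) * msd φ p α n a) * h3

/-- **Branches.** If the measure is not divisible by `p` then some branch has a coefficient which is
a unit at a finite level; its parity is that of `φ`. -/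
theorem exists_branch {p : ℕ} [hp : Fact p.Prime] (hp2 : p ≠ 2) {N : ℕ} (φ : ModSym N ℤ_[p])
    (α : ℤ_[p]ˣ) (h : ∃ (n : ℕ) (b : ℤ), ¬ (p : ℤ) ∣ b ∧ ¬ (p : ℤ_[p]) ∣ msd φ p α n b) :
    ∃ (ψ : DirichletCharacter ℤ_[p] p) (n j : ℕ), j < p ^ n ∧ ¬ (p : ℤ_[p]) ∣ ccBr φ p α ψ n j ∧
      ∀ ε : ℤ_[p], (ε = 1 ∨ ε = -1) → φ.HasSign ε → ψ (-1) = ε := by
  obtain ⟨n, b', hb', hnd'⟩ := h
  obtain ⟨b, hbl, hb, hbe⟩ := exists_rep φ hp.out α n b' hb'
  rw [hbe] at hnd'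
  obtain ⟨j, hj, hjl⟩ := exists_log hp.out hp2 n hb
  have hsum := sum_ccBr φ α n j b hb hbl hjl
  have hex : ∃ ψ : DirichletCharacter ℤ_[p] p, ¬ (p : ℤ_[p]) ∣ ccBr φ p α ψ n j := by
    by_contra hcon
    push Not at hcon
    apply hnd'
    have h1 : (p : ℤ_[p]) ∣ (p.totient : ℤ_[p]) * msd φ p α n b := by
      rw [← hsum]
      exact dvd_sum fun ψ _ => (hcon ψ).mul_left _
    rw [Nat.totient_prime hp.out, Nat.cast_sub hp.out.one_lt.le, Nat.cast_one, sub_mul,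
      one_mul] at h1
    exact (dvd_sub_right (dvd_mul_right _ _)).1 h1
  obtain ⟨ψ, hψ⟩ := hex
  refine ⟨ψ, n, j, hj, hψ, ?_⟩
  intro ε hε hs
  have h1 := ccBr_sign hp.out hp2 φ hs α ψ n j
  have h3 : ψ (-1) * ψ (-1) = 1 := by
    rw [← map_mul]
    simp
  have hne : ccBr φ p α ψ n j ≠ 0 := by
    intro h0
    rw [h0] at hψ
    exact hψ (dvd_zero _)
  have h4 : ψ (-1) * ε = 1 := by
    have : (ψ (-1) * ε - 1) * ccBr φ p α ψ n j = 0 := by linear_combination -h1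
    exact sub_eq_zero.1 ((mul_eq_zero.1 this).resolve_right hne)
  have h6 : ε * ε = 1 := by rcases hε with h | h <;> rw [h] <;> ring
  linear_combination ε * h4 - ψ (-1) * h6

end Pool.Agent.MZ
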