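import Pool.Agent.MZ.PerJ

/-!
# Twisted `L`-values and the integral modular symbol
-/

set_option autoImplicit false

open UpperHalfPlane hiding I
open Filter Topology Complex Function CongruenceSubgroup
open Matrix.SpecialLinearGroup (mapGL)
open scoped MatrixGroups Manifold Real ModularForm OnePoint ComplexConjugate

namespace Pool.Agent.MZ.Per

/-- Primitivity does not depend on the field of values. -/
theorem isPrimitive_ringHomComp {m : ℕ} [NeZero m] {R R' : Type*} [Field R] [Field R']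
    (χ : DirichletCharacter R m) (i : R →+* R') :
    DirichletCharacter.IsPrimitive (χ.ringHomComp i) ↔ DirichletCharacter.IsPrimitive χ := by
  have hker : (MulChar.toUnitHom (χ.ringHomComp i)).ker = (MulChar.toUnitHom χ).ker := by
    ext x
    rw [MonoidHom.mem_ker, MonoidHom.mem_ker, Units.ext_iff, Units.ext_iff,
      MulChar.coe_toUnitHom, MulChar.coe_toUnitHom, MulChar.ringHomComp_apply, Units.val_one,
      Units.val_one, ← map_one i, i.injective.eq_iff]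
  have hfac : ∀ d : ℕ, DirichletCharacter.FactorsThrough (χ.ringHomComp i) d ↔
      DirichletCharacter.FactorsThrough χ d := by
    intro d
    constructor
    · intro h
      have hd := h.dvd
      rw [DirichletCharacter.factorsThrough_iff_ker_unitsMap hd] at h ⊢
      rwa [hker] at h
    · intro h
      have hd := h.dvd
      rw [DirichletCharacter.factorsThrough_iff_ker_unitsMap hd] at h ⊢
      rwa [hker]
  have hset : DirichletCharacter.conductorSet (χ.ringHomComp i) =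
      DirichletCharacter.conductorSet χ := by
    ext d
    exact hfac d
  rw [DirichletCharacter.isPrimitive_def, DirichletCharacter.isPrimitive_def,
    DirichletCharacter.conductor, DirichletCharacter.conductor, hset]

variable {N : ℕ} [NeZero N]

theorem bd_add_int (f : CuspForm (Gamma0 N) 2) (x : ℚ) (k : ℤ) :
    bd (G f) ((x + k : ℚ) : OnePoint ℚ) = bd (G f) (x : OnePoint ℚ) := by
  obtain ⟨γ, h00, h01, h10, h11⟩ := exists_sl (a := 1) (b := k) (c := 0) (d := 1) (by ring)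
  have hmem : γ ∈ Gamma0 N := by
    rw [Gamma0_mem, h10]
    simp
  have h := (symC f).inv γ hmem ∞ (x : OnePoint ℚ)
  rw [smul_infty, smul_coe, h00, h01, h10, h11, if_pos rfl] at h
  have h2 : ¬ (((0 : ℤ) : ℚ) * x + ((1 : ℤ) : ℚ) = 0) := by simp
  rw [if_neg h2] at h
  have h3 : ((((1 : ℤ) : ℚ) * x + (k : ℚ)) / (((0 : ℤ) : ℚ) * x + ((1 : ℤ) : ℚ)) : ℚ) = x + k := by
    simp
  rw [h3] at h
  simpa [symC] using h

/-- A sum over the residues twisted by an even character only sees the real parts. -/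
theorem sum_even (f : CuspForm (Gamma0 N) 2) {a : ℕ → ℂ}
    (ha : ∀ n, (qExpansion 1 f).coeff n = a n) (hr : ∀ n, conj (a n) = a n) {m : ℕ} (hm : 0 < m)
    (χ : ZMod m → ℂ) (hχ : ∀ b, χ (-b) = χ b) :
    ∑ b ∈ Finset.range m, χ b * bd (G f) (((b : ℚ) / (m : ℚ) : ℚ) : OnePoint ℚ) =
      ∑ b ∈ Finset.range m, χ b * (S f (((b : ℚ) / (m : ℚ) : ℚ) : OnePoint ℚ) : ℂ) := by
  have hm0 : NeZero m := ⟨hm.ne'⟩
  have hmq : (m : ℚ) ≠ 0 := by exact_mod_cast hm.ne'
  set F : ℤ → ℂ := fun b => bd (G f) (((b : ℚ) / (m : ℚ) : ℚ) : OnePoint ℚ) with hF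
  have hper : ∀ b c : ℤ, ((b : ℤ) : ZMod m) = ((c : ℤ) : ZMod m) → F b = F c := by
    intro b c h
    rw [ZMod.intCast_eq_intCast_iff_dvd_sub] at h
    obtain ⟨k, hk⟩ := h
    have : ((c : ℚ) / (m : ℚ) : ℚ) = (b : ℚ) / (m : ℚ) + (k : ℤ) := by
      have h1 : (c : ℚ) - b = m * k := by exact_mod_cast hk
      field_simp
      linear_combination h1
    simp only [hF]
    rw [this, bd_add_int]
  have hneg : ∀ b : ℤ, F (-b) = conj (F b) := by
    intro b
    simp only [hF]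
    rw [← bd_neg f ha hr, OnePoint.map_some]
    congr 2
    push_cast
    ring
  have hsum : ∀ g : ℤ → ℂ, (∀ b c : ℤ, ((b : ℤ) : ZMod m) = ((c : ℤ) : ZMod m) → g b = g c) →
      ∑ b ∈ Finset.range m, g b = ∑ b : ZMod m, g (b.val : ℤ) := by
    intro g _
    rw [← Fin.sum_univ_eq_sum_range (fun b => g (b : ℤ)) m]
    refine Fintype.sum_equiv (ZMod.finEquiv m).toEquiv _ _ fun b => ?_
    congr 2
    cases m with
    | zero => exact absurd hm (lt_irrefl _)
    | succ m => rfl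
  set g : ℤ → ℂ := fun b => χ ((b : ℤ) : ZMod m) * F b with hg
  have hgper : ∀ b c : ℤ, ((b : ℤ) : ZMod m) = ((c : ℤ) : ZMod m) → g b = g c := by
    intro b c h
    simp only [hg]
    rw [h, hper b c h]
  set g' : ℤ → ℂ := fun b => χ ((b : ℤ) : ZMod m) * conj (F b) with hg'
  have hg'per : ∀ b c : ℤ, ((b : ℤ) : ZMod m) = ((c : ℤ) : ZMod m) → g' b = g' c := by
    intro b c h
    simp only [hg']
    rw [h, hper b c h]
  have hgg' : ∀ b : ℤ, g (-b) = g' b := by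
    intro b
    simp only [hg, hg']
    rw [hneg]
    push_cast
    rw [hχ]
  have h1 : ∑ b ∈ Finset.range m, g b = ∑ b ∈ Finset.range m, g' b := by
    rw [hsum g hgper, hsum g' hg'per, ← Equiv.sum_comp (Equiv.neg (ZMod m))]
    refine Finset.sum_congr rfl fun b _ => ?_
    rw [← hgg']
    apply hgper
    push_cast
    simp
  have h2 : ∑ b ∈ Finset.range m, χ b * bd (G f) (((b : ℚ) / (m : ℚ) : ℚ) : OnePoint ℚ) =
      ∑ b ∈ Finset.range m, g b := by
    refine Finset.sum_congr rfl fun b _ => ?_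
    simp [hg, hF]
  have h3 : ∀ b : ℤ, ((g b + g' b) / 2 : ℂ) =
      χ ((b : ℤ) : ZMod m) * (S f (((b : ℚ) / (m : ℚ) : ℚ) : OnePoint ℚ) : ℂ) := by
    intro b
    simp only [hg, hg']
    rw [← mul_add, mul_div_assoc]
    congr 1
    rw [S]
    exact (Complex.re_eq_add_conj _).symm
  rw [h2]
  have h4 : ∑ b ∈ Finset.range m, g b = ∑ b ∈ Finset.range m, ((g b + g' b) / 2 : ℂ) := by
    rw [← Finset.sum_div, Finset.sum_add_distrib, ← h1]
    ring
  rw [h4]
  refine Finset.sum_congr rfl fun b _ => ?_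
  rw [h3]
  push_cast
  rfl

/-- The `L`-value twisted by an even primitive character. -/
theorem isLValue_char (f : CuspForm (Gamma0 N) 2) {a : ℕ → ℤ}
    (ha : ∀ n, (qExpansion 1 f).coeff n = a n) {m : ℕ} (hm : 0 < m)
    (χ : DirichletCharacter ℂ m) (heven : χ (-1) = 1) {τ τ' : ℂ}
    (hg : ∀ k : ℕ, ∑ b ∈ Finset.range m, χ b * cexp (2 * π * Complex.I * k * (((b : ℚ) / m : ℚ) : ℂ)) =
      χ⁻¹ k * τ) (hττ : τ * τ' = m) {u : ℤ} (hu : u ≠ 0) {Ω : ℝ} {φ : ModSym N ℤ}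
    (hφ : ∀ x : OnePoint ℚ, (u : ℝ) * S f x = (φ.val ∞ x : ℤ) * Ω) :
    IsLValue (fun k => χ⁻¹ k * (a k : ℂ))
      ((∑ b ∈ Finset.range m, χ b * ((φ.val ∞ (((b : ℚ) / (m : ℚ) : ℚ) : OnePoint ℚ) : ℤ) : ℂ) / u) *
        Ω * τ' / m) := by
  have hmc : (m : ℂ) ≠ 0 := by exact_mod_cast hm.ne'
  have hτ : τ ≠ 0 := by
    rintro rfl
    rw [zero_mul] at hττ
    exact hmc hττ.symm
  have hτ' : τ' / m = τ⁻¹ := by
    rw [div_eq_iff hmc, ← hττ, inv_mul_cancel_left₀ hτ]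
  have huc : (u : ℂ) ≠ 0 := by exact_mod_cast hu
  have h1 := isLValue f (a := fun n => ((a n : ℤ) : ℂ)) ha (Finset.range m)
    (fun b => χ b * τ⁻¹) (fun b => (b : ℚ) / (m : ℚ)) (c := fun k => χ⁻¹ k * (a k : ℂ)) (by
      intro k
      have h2 : ∑ b ∈ Finset.range m, χ b * τ⁻¹ *
          cexp (2 * π * Complex.I * k * (((b : ℚ) / (m : ℚ) : ℚ) : ℂ)) = χ⁻¹ k := by
        have h3 : (∑ b ∈ Finset.range m, χ b *
            cexp (2 * π * Complex.I * k * (((b : ℚ) / m : ℚ) : ℂ))) * τ⁻¹ = χ⁻¹ k * τ * τ⁻¹ := by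
          rw [hg k]
        rw [mul_inv_cancel_right₀ hτ, Finset.sum_mul] at h3
        rw [← h3]
        refine Finset.sum_congr rfl fun b _ => ?_
        ring
      rw [h2]
      ring)
  convert! h1 using 1
  have h4 : ∀ b : ℕ, χ b * τ⁻¹ * bd (G f) (((b : ℚ) / (m : ℚ) : ℚ) : OnePoint ℚ) =
      τ⁻¹ * (χ b * bd (G f) (((b : ℚ) / (m : ℚ) : ℚ) : OnePoint ℚ)) := fun b => by ring
  simp only [h4]
  rw [← Finset.mul_sum, sum_even f (a := fun n => ((a n : ℤ) : ℂ)) ha (fun n => by simp) hm χ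
    (fun b => by rw [← neg_one_mul, map_mul, heven, one_mul]), mul_div_assoc, hτ', mul_comm,
    Finset.sum_mul, Finset.mul_sum, Finset.mul_sum]
  refine Finset.sum_congr rfl fun b _ => ?_
  have h5 : (u : ℂ) * (S f (((b : ℚ) / (m : ℚ) : ℚ) : OnePoint ℚ) : ℂ) =
      ((φ.val ∞ (((b : ℚ) / (m : ℚ) : ℚ) : OnePoint ℚ) : ℤ) : ℂ) * Ω := by
    exact_mod_cast hφ _
  field_simp
  linear_combination -(χ b) * h5

/-- The `L`-value of `f` itself. -/
theorem isLValue_one (f : CuspForm (Gamma0 N) 2) {a : ℕ → ℤ}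
    (ha : ∀ n, (qExpansion 1 f).coeff n = a n) {u : ℤ} (hu : u ≠ 0) {Ω : ℝ} {φ : ModSym N ℤ}
    (hφ : ∀ x : OnePoint ℚ, (u : ℝ) * S f x = (φ.val ∞ x : ℤ) * Ω) :
    IsLValue (fun k => (a k : ℂ))
      (((((φ.val ∞ ((0 : ℚ) : OnePoint ℚ) : ℤ) : ℚ) / (u : ℚ) : ℚ) : ℂ) * Ω) := by
  have huc : (u : ℂ) ≠ 0 := by exact_mod_cast hu
  have h1 := isLValue f (a := fun n => ((a n : ℤ) : ℂ)) ha ({()} : Finset Unit)
    (fun _ => 1) (fun _ => 0) (c := fun k => (a k : ℂ)) (by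
      intro k
      simp)
  convert! h1 using 1
  rw [Finset.sum_singleton, one_mul]
  have h2 : conj (bd (G f) ((0 : ℚ) : OnePoint ℚ)) = bd (G f) ((0 : ℚ) : OnePoint ℚ) := by
    rw [← bd_neg f (a := fun n => ((a n : ℤ) : ℂ)) ha (fun n => by simp), OnePoint.map_some,
      neg_zero]
  have h3 : (S f ((0 : ℚ) : OnePoint ℚ) : ℂ) = bd (G f) ((0 : ℚ) : OnePoint ℚ) := by
    rw [S]
    exact (Complex.conj_eq_iff_re.1 h2)
  rw [← h3]
  have h5 : (u : ℂ) * (S f ((0 : ℚ) : OnePoint ℚ) : ℂ) =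
      ((φ.val ∞ ((0 : ℚ) : OnePoint ℚ) : ℤ) : ℂ) * Ω := by
    exact_mod_cast hφ _
  push_cast
  field_simp
  linear_combination -h5

end Pool.Agent.MZ.Per
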