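import Mathlib
import Pool.Agent.MZ.Core1

open Finset

namespace Pool.Agent.MZ

/-- if the periods on `Γ₁(N)` vanish then `Phi (b / q)` does not depend on `b` -/
lemma conv_const {A : Type*} [AddCommGroup A] {N : ℕ} {Φ : ℚ → A} (h : IsSym N Φ)
    (hper : ∀ a c : ℤ, IsCoprime a c → c ≠ 0 → (N : ℤ) ∣ c → (N : ℤ) ∣ a - 1 →
      Φ ((a : ℚ) / c) = 0) {b b' q : ℤ} (hq : q ≠ 0) (hb : IsCoprime q (b * N))
    (hb' : IsCoprime q (b' * N)) : Φ ((b' : ℚ) / q) = Φ ((b : ℚ) / q) := by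
  obtain ⟨x, y, hxy⟩ := hb
  obtain ⟨x', y', hxy'⟩ := hb'
  have hqq : (q : ℚ) ≠ 0 := by exact_mod_cast hq
  -- the matrix `g' g⁻¹` with `g = (x, b; -y N, q)`, `g' = (x', b'; -y' N, q)`
  set A' : ℤ := x' * q + b' * N * y with hA
  set B' : ℤ := -x' * b + b' * x with hB
  set C' : ℤ := N * q * (y - y') with hC
  set D' : ℤ := N * y' * b + q * x with hD
  have hdet : A' * D' - B' * C' = 1 := by
    have e : A' * D' - B' * C' = (x * q + y * (b * N)) * (x' * q + y' * (b' * N)) := by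
      rw [hA, hB, hC, hD]; ring
    rw [e, hxy, hxy', one_mul]
  have e1 : A' * b + B' * q = b' := by
    have e : A' * b + B' * q = b' * (x * q + y * (b * N)) := by
      rw [hA, hB]; ring
    rw [e, hxy, mul_one]
  have e2 : C' * b + D' * q = q := by
    have e : C' * b + D' * q = q * (x * q + y * (b * N)) := by
      rw [hC, hD]; ring
    rw [e, hxy, mul_one]
  have e3 : A' - 1 = N * (b' * (y - y')) := by
    rw [← hxy', hA]; ring
  have e1q : (A' : ℚ) * b + B' * q = b' := by exact_mod_cast e1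
  have e2q : (C' : ℚ) * b + D' * q = q := by exact_mod_cast e2
  by_cases hy : C' = 0
  · -- then `A' D' = 1`
    rw [hy, zero_mul, zero_add] at e2
    have hD1 : D' = 1 := by
      have := mul_right_cancel₀ hq (e2.trans (one_mul q).symm)
      exact this
    rw [hy, mul_zero, sub_zero, hD1, mul_one] at hdet
    rw [hdet, one_mul] at e1
    have e4 : (b' : ℚ) / q = (b : ℚ) / q + B' := by
      rw [← e1]
      push_cast
      field_simp
    rw [e4, h.trans]
  · have hNC : (N : ℤ) ∣ C' := ⟨q * (y - y'), by rw [hC]; ring⟩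
    have e5 : (C' : ℚ) * ((b : ℚ) / q) + D' = 1 := by
      field_simp
      linear_combination e2q
    have hmob := h.mob A' B' C' D' hdet hNC hy ((b : ℚ) / q) (by rw [e5]; exact one_ne_zero)
    have e6 : (A' : ℚ) * ((b : ℚ) / q) + B' = (b' : ℚ) / q := by
      field_simp
      linear_combination e1q
    rw [e5, e6, div_one] at hmob
    have hz : Φ ((A' : ℚ) / C') = 0 := by
      apply hper A' C' _ hy hNC ⟨_, e3⟩
      exact ⟨D', -B', by linear_combination hdet⟩
    rw [hmob, hz, add_zero]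

/-- **Converse direction of the content formula**: if the periods on `Γ₁(N)` vanish in `A`, where
`p` is nilpotent, then the measure vanishes. -/
theorem conv {A : Type*} [CommRing A] {N : ℕ} {Φ : ℚ → A} (h : IsSym N Φ) {p : ℕ}
    (hp : p.Prime) (hpN : ¬ p ∣ N) (K : ℕ) (hpK : (p : A) ^ K = 0) (ap : A) (α : Aˣ)
    (hα : (α : A) ^ 2 - ap * α + p = 0)
    (hT : ∀ y : ℚ, Φ ((p : ℚ) * y) + ∑ k ∈ range p, Φ ((y + k) / p) = ap * Φ y)
    (hper : ∀ a c : ℤ, IsCoprime a c → c ≠ 0 → (N : ℤ) ∣ c → (N : ℤ) ∣ a - 1 →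
      Φ ((a : ℚ) / c) = 0) (n : ℕ) (b : ℤ) (hb : ¬ (p : ℤ) ∣ b) :
    (α : A) * Φ ((b : ℚ) / (p : ℚ) ^ (n + 1)) = Φ ((b : ℚ) / (p : ℚ) ^ n) := by
  have hp0 : (p : ℚ) ≠ 0 := by exact_mod_cast hp.ne_zero
  have hpZ : Prime (p : ℤ) := Nat.prime_iff_prime_int.1 hp
  -- `Phi (b / p^n)` does not depend on `b`
  have hcop : ∀ (m : ℕ) (b : ℤ), ¬ (p : ℤ) ∣ b → IsCoprime ((p : ℤ) ^ m) (b * N) := by
    intro m b hb
    apply IsCoprime.pow_left
    rw [Prime.coprime_iff_not_dvd hpZ]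
    intro hh
    rcases hpZ.dvd_or_dvd hh with h1 | h1
    · exact hb h1
    · exact hpN (by exact_mod_cast h1)
  have h1p : ¬ (p : ℤ) ∣ 1 := by
    intro hh
    exact hpZ.not_isUnit (isUnit_of_dvd_one hh)
  set c : ℕ → A := fun m => Φ ((1 : ℚ) / (p : ℚ) ^ m) with hc
  have hconst : ∀ (m : ℕ) (b : ℤ), ¬ (p : ℤ) ∣ b → Φ ((b : ℚ) / (p : ℚ) ^ m) = c m := by
    intro m b hb
    have := conv_const h hper (q := (p : ℤ) ^ m) (b := 1) (b' := b)
      (pow_ne_zero _ (by exact_mod_cast hp.ne_zero)) (hcop m 1 h1p) (hcop m b hb)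
    push_cast at this
    exact this
  -- the recursion
  have hrec : ∀ m : ℕ, c m + p * c (m + 2) = ap * c (m + 1) := by
    intro m
    have h2 := hT ((1 : ℚ) / (p : ℚ) ^ (m + 1))
    have e1 : (p : ℚ) * (1 / (p : ℚ) ^ (m + 1)) = 1 / (p : ℚ) ^ m := by
      rw [pow_succ]; field_simp
    have e2 : ∀ k ∈ range p, Φ (((1 : ℚ) / (p : ℚ) ^ (m + 1) + k) / p) = c (m + 2) := by
      intro k _
      have e3 : ((1 : ℚ) / (p : ℚ) ^ (m + 1) + k) / p =
          (((1 + k * p ^ (m + 1) : ℤ) : ℚ)) / (p : ℚ) ^ (m + 2) := by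
        push_cast
        rw [pow_succ (p : ℚ) (m + 1)]
        field_simp
      rw [e3]
      apply hconst
      intro hh
      apply h1p
      have h4 : (p : ℤ) ∣ k * p ^ (m + 1) := (dvd_pow_self _ (by omega)).mul_left _
      exact (dvd_add_left h4).1 hh
    rw [e1, sum_congr rfl e2, sum_const, card_range, nsmul_eq_mul] at h2
    exact h2
  -- `u m = α c (m+1) - c m` satisfies `α u m = p u (m+1)`
  have hu : ∀ m : ℕ, (α : A) * ((α : A) * c (m + 1) - c m) =
      p * ((α : A) * c (m + 2) - c (m + 1)) := by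
    intro m
    linear_combination (c (m + 1)) * hα - (α : A) * hrec m
  have hu2 : ∀ j m : ℕ, (α : A) ^ j * ((α : A) * c (m + 1) - c m) =
      (p : A) ^ j * ((α : A) * c (m + j + 1) - c (m + j)) := by
    intro j
    induction j with
    | zero => intro m; simp
    | succ j ih =>
      intro m
      rw [pow_succ, mul_assoc, hu m, mul_left_comm, ih (m + 1), pow_succ (p : A) j]
      have e1 : m + 1 + j + 1 = m + (j + 1) + 1 := by ring
      have e2 : m + 1 + j = m + (j + 1) := by ring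
      rw [e1, e2]
      ring
  have hfin : (α : A) * c (n + 1) - c n = 0 := by
    have h5 := hu2 K n
    rw [hpK, zero_mul] at h5
    have h6 : IsUnit ((α : A) ^ K) := α.isUnit.pow K
    exact (h6.mul_right_eq_zero).1 h5
  rw [hconst (n + 1) b hb, hconst n b hb]
  exact sub_eq_zero.1 hfin

end Pool.Agent.MZ
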