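import Mathlib
import Pool.Agent.MZ.Core1

open Finset

namespace Pool.Agent.MZ

/-- powers of `p^2` fill `1 + l^e Z` modulo `l^(e+1)` for `e` large -/
lemma pow_fill {p l : ℕ} (hp : p.Prime) (hl : l.Prime) (hl2 : l ≠ 2) (hlp : l ≠ p) :
    ∃ n0 : ℕ, 1 ≤ n0 ∧ ∀ e, n0 ≤ e → ∀ j : ℤ, ∃ i : ℕ,
      (l : ℤ) ^ (e + 1) ∣ (p : ℤ) ^ (2 * i) - (1 + j * (l : ℤ) ^ e) := by
  have : Fact l.Prime := ⟨hl⟩
  have hlodd : Odd l := hl.odd_of_ne_two hl2
  have hlZ : Prime (l : ℤ) := Nat.prime_iff_prime_int.1 hl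
  have hndvd : ¬ l ∣ p := by
    intro hh
    exact hlp ((Nat.prime_dvd_prime_iff_eq hl hp).1 hh)
  set x : ℕ := p ^ (2 * (l - 1)) with hx
  have hx1 : 1 < x := by
    rw [hx]
    apply Nat.one_lt_pow
    · have := hl.two_le
      omega
    · exact hp.one_lt
  have hlx : l ∣ x - 1 := by
    have h1 : Nat.Coprime p l := ((Nat.Prime.coprime_iff_not_dvd hl).2 hndvd).symm
    have h2 := (Nat.ModEq.pow_totient h1).pow 2
    rw [one_pow, ← pow_mul, Nat.totient_prime hl, mul_comm (l - 1) 2, ← hx] at h2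
    exact (Nat.modEq_iff_dvd' hx1.le).1 h2.symm
  have hlx' : ¬ l ∣ x := by
    rw [hx]
    intro hh
    exact hndvd (hl.dvd_of_dvd_pow hh)
  set v : ℕ := padicValNat l (x - 1) with hv
  have hv1 : 1 ≤ v := one_le_padicValNat_of_dvd (by omega) hlx
  refine ⟨v, hv1, fun e he j => ?_⟩
  set n : ℕ := l ^ (e - v) with hn
  have hn0 : n ≠ 0 := pow_ne_zero _ hl.ne_zero
  have hval : padicValNat l (x ^ n - 1 ^ n) = e := by
    rw [padicValNat.pow_sub_pow (p := l) hlodd hx1 (by simpa using hlx) hlx' hn0, hn,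
      padicValNat.prime_pow, ← hv]
    omega
  rw [one_pow] at hval
  have hxn : 1 < x ^ n := Nat.one_lt_pow hn0 hx1
  obtain ⟨u, hu⟩ : l ^ e ∣ x ^ n - 1 := by
    rw [← hval]
    exact pow_padicValNat_dvd
  have hlu : ¬ l ∣ u := by
    rintro ⟨u', hu'⟩
    have h1 : l ^ (e + 1) ∣ x ^ n - 1 := ⟨u', by rw [hu, hu', pow_succ]; ring⟩
    have h2 := (padicValNat_dvd_iff_le (p := l) (by omega)).1 h1
    omega
  have hxu : (x : ℤ) ^ n = 1 + (l : ℤ) ^ e * u := by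
    have h1 : x ^ n = 1 + l ^ e * u := by omega
    exact_mod_cast h1
  -- (1 + l^e u)^s = 1 + s l^e u mod l^(e+1)
  have hpow : ∀ s : ℕ, (l : ℤ) ^ (e + 1) ∣ ((x : ℤ) ^ n) ^ s - (1 + s * ((l : ℤ) ^ e * u)) := by
    intro s
    induction s with
    | zero => simp
    | succ s ih =>
      obtain ⟨w, hw⟩ := ih
      have h1 : ((x : ℤ) ^ n) ^ s = 1 + s * ((l : ℤ) ^ e * u) + (l : ℤ) ^ (e + 1) * w := by
        linear_combination hw
      have h2 : (l : ℤ) ^ e * (l : ℤ) ^ e = (l : ℤ) ^ (e + 1) * (l : ℤ) ^ (e - 1) := by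
        rw [← pow_add, ← pow_add]
        congr 1
        omega
      refine ⟨w * (1 + (l : ℤ) ^ e * u) + s * u ^ 2 * (l : ℤ) ^ (e - 1), ?_⟩
      rw [pow_succ, h1, hxu]
      push_cast
      linear_combination (s : ℤ) * u ^ 2 * h2
  -- choose `s` with `s u = j mod l`
  have hcop : IsCoprime (u : ℤ) (l : ℤ) := by
    rw [isCoprime_comm, Prime.coprime_iff_not_dvd hlZ]
    exact_mod_cast hlu
  obtain ⟨a, b, hab⟩ := hcop
  -- a * u + b * l = 1
  have hl0 : (0 : ℤ) < l := by exact_mod_cast hl.pos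
  set s : ℕ := (j * a % (l : ℤ)).toNat with hs
  have hs' : (s : ℤ) = j * a - (l : ℤ) * (j * a / l) := by
    rw [hs, Int.toNat_of_nonneg (Int.emod_nonneg _ hl0.ne'), Int.emod_def]
  refine ⟨(l - 1) * n * s, ?_⟩
  obtain ⟨w, hw⟩ := hpow s
  have h3 : (p : ℤ) ^ (2 * ((l - 1) * n * s)) = ((x : ℤ) ^ n) ^ s := by
    rw [hx]
    push_cast
    rw [← pow_mul, ← pow_mul]
    congr 1
    ring
  rw [h3]
  refine ⟨w - (b * j + (j * a / l) * u), ?_⟩
  have h4 : ((x : ℤ) ^ n) ^ s = 1 + s * ((l : ℤ) ^ e * u) + (l : ℤ) ^ (e + 1) * w := by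
    linear_combination hw
  rw [h4, hs', pow_succ]
  linear_combination ((l : ℤ) ^ e * j) * hab

/-- The main relation obtained from the Hecke operator `T_l` at a far away point. -/
lemma tripod {A : Type*} [CommRing A] {N : ℕ} {Φ : ℚ → A} (h : IsSym N Φ) (hN0 : N ≠ 0)
    {p : ℕ} (hp : p.Prime) (hpN : ¬ p ∣ N) {c0 : A}
    (hR : ∀ (m : ℤ) (n : ℕ), Φ ((m : ℚ) / (p : ℚ) ^ n) = c0)
    {l : ℕ} (hl : l.Prime) (hl2 : l ≠ 2) (hlp : l ≠ p) (hlN : ¬ l ∣ N) {al : A}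
    (hT : ∀ y : ℚ, Φ ((l : ℚ) * y) + ∑ k ∈ range l, Φ ((y + k) / l) = al * Φ y)
    {b D k1 : ℤ} (hb : ¬ (l : ℤ) ∣ b) (hD : ¬ (l : ℤ) ∣ D) (hk1 : (l : ℤ) ∣ b + k1 * D) :
    Φ ((l : ℚ) * ((b : ℚ) / D)) - Φ ((b : ℚ) / D / l) + c0 + l * Φ ((k1 : ℚ) / l) = al * c0 := by
  have hlZ : Prime (l : ℤ) := Nat.prime_iff_prime_int.1 hl
  have hl0 : (l : ℚ) ≠ 0 := by exact_mod_cast hl.ne_zero
  have hl0' : (l : ℤ) ≠ 0 := by exact_mod_cast hl.ne_zero
  have hb0 : b ≠ 0 := by rintro rfl; exact hb (dvd_zero _)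
  have hD0 : D ≠ 0 := by rintro rfl; exact hD (dvd_zero _)
  have hNZ : (N : ℤ) ≠ 0 := by exact_mod_cast hN0
  have hbq : (b : ℚ) ≠ 0 := by exact_mod_cast hb0
  have hDq : (D : ℚ) ≠ 0 := by exact_mod_cast hD0
  obtain ⟨n0, hn01, hfill⟩ := pow_fill hp hl hl2 hlp
  -- choice of `e`
  set n : ℕ := (b * D * N).natAbs with hn
  have hnz : n ≠ 0 := Int.natAbs_ne_zero.2 (mul_ne_zero (mul_ne_zero hb0 hD0) hNZ)
  have htot : 0 < n.totient := Nat.totient_pos.2 (Nat.pos_of_ne_zero hnz)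
  set e : ℕ := n.totient * n0 with he
  have hen0 : n0 ≤ e := by rw [he]; exact Nat.le_mul_of_pos_left _ htot
  have he1 : 1 ≤ e := hn01.trans hen0
  have hcopn : IsCoprime (l : ℤ) (b * D * N) := by
    rw [Prime.coprime_iff_not_dvd hlZ]
    intro hh
    rcases hlZ.dvd_or_dvd hh with h1 | h1
    · rcases hlZ.dvd_or_dvd h1 with h2 | h2
      · exact hb h2
      · exact hD h2
    · exact hlN (by exact_mod_cast h1)
  obtain ⟨m, hm⟩ : b * D * N ∣ (l : ℤ) ^ e - 1 := by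
    have h1 : Nat.Coprime l n := by
      have := Int.isCoprime_iff_gcd_eq_one.1 hcopn
      rwa [Int.gcd, Int.natAbs_natCast] at this
    have h2 : l ^ e ≡ 1 [MOD n] := by
      rw [he, pow_mul]
      have := (Nat.ModEq.pow_totient h1).pow n0
      rwa [one_pow] at this
    have h3 : (n : ℤ) ∣ (l : ℤ) ^ e - 1 := by
      have := (Nat.modEq_iff_dvd.1 h2.symm)
      push_cast at this
      exact this
    rwa [hn, Int.natCast_natAbs, abs_dvd] at h3
  set q : ℤ := (l : ℤ) ^ e with hq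
  set q' : ℤ := (l : ℤ) ^ (e - 1) with hq'
  have hqq' : q = l * q' := by
    rw [hq, hq', ← pow_succ']
    congr 1
    omega
  have hq1 : q = 1 + b * D * N * m := by linear_combination hm
  have hqpos : 1 < q := by
    rw [hq]
    exact one_lt_pow₀ (by exact_mod_cast hl.one_lt) (by omega)
  have hm0 : m ≠ 0 := by
    rintro rfl
    rw [mul_zero, add_zero] at hq1
    omega
  have hq0 : (q : ℚ) ≠ 0 := by
    have : q ≠ 0 := by omega
    exact_mod_cast this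
  have hq'0 : (q' : ℚ) ≠ 0 := by
    rw [hq']; push_cast; exact pow_ne_zero _ hl0
  have hqq'Q : (q : ℚ) = l * q' := by exact_mod_cast hqq'
  have hq1Q : (q : ℚ) = 1 + b * D * N * m := by exact_mod_cast hq1
  set b' : ℤ := b ^ 2 * N * m with hb'
  set c1 : ℤ := D ^ 2 * N * m with hc1
  have hc10 : c1 ≠ 0 := mul_ne_zero (mul_ne_zero (pow_ne_zero _ hD0) hNZ) hm0
  have hNc1 : (N : ℤ) ∣ c1 := ⟨D ^ 2 * m, by rw [hc1]; ring⟩
  have hNc1' : (N : ℤ) ∣ -c1 := (dvd_neg).2 hNc1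
  have hb'Q : (b' : ℚ) = b ^ 2 * N * m := by rw [hb']; push_cast; ring
  have hc1Q : (c1 : ℚ) = D ^ 2 * N * m := by rw [hc1]; push_cast; ring
  have h00 : Φ 0 = c0 := by
    have := hR 0 0
    simpa using this
  -- (1)
  have hdet1 : (2 - q) * q - b' * (-c1) = 1 := by
    rw [hb', hc1]
    linear_combination (-(q - 1) - b * D * N * m) * hq1
  have s1 : Φ (((2 - q : ℤ) : ℚ) / ((-c1 : ℤ) : ℚ)) = 0 := by
    have hden : (((-c1 : ℤ) : ℚ)) * ((b : ℚ) / D) + (q : ℚ) = 1 := by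
      push_cast
      rw [hc1Q, hq1Q]
      field_simp
      ring
    have h1 := h.mob (2 - q) b' (-c1) q hdet1 hNc1' (neg_ne_zero.2 hc10) ((b : ℚ) / D)
      (by rw [hden]; exact one_ne_zero)
    rw [hden] at h1
    have hnum : ((((2 - q : ℤ) : ℚ)) * ((b : ℚ) / D) + (b' : ℚ)) / 1 = (b : ℚ) / D := by
      push_cast
      rw [hb'Q, hq1Q]
      field_simp
      ring
    rw [hnum] at h1
    exact left_eq_add.1 h1
  have s1' : Φ ((b' : ℚ) / q) = c0 := by
    have h1 := h.mob (2 - q) b' (-c1) q hdet1 hNc1' (neg_ne_zero.2 hc10) 0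
      (by simpa using hq0)
    rw [s1, mul_zero, zero_add, mul_zero, zero_add, h00, add_zero] at h1
    exact h1
  -- (2)
  have hdet2 : (l * (2 - q)) * q' - b' * (-c1) = 1 := by
    linear_combination hdet1 - (2 - q) * hqq'
  have s2 : Φ ((l : ℚ) * ((b' : ℚ) / q)) = c0 + Φ ((l : ℚ) * ((b : ℚ) / D)) -
      Φ ((b : ℚ) / D / l) := by
    have h1 := h.mob (l * (2 - q)) b' (-c1) q' hdet2 hNc1' (neg_ne_zero.2 hc10) 0
      (by simpa using hq'0)
    rw [mul_zero, zero_add, mul_zero, zero_add, h00] at h1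
    have hden : (((-c1 : ℤ) : ℚ)) * ((b : ℚ) / D / l) + (q' : ℚ) = 1 / l := by
      push_cast
      rw [hc1Q]
      field_simp
      rw [← hqq'Q, hq1Q]
      ring
    have h2 := h.mob (l * (2 - q)) b' (-c1) q' hdet2 hNc1' (neg_ne_zero.2 hc10)
      ((b : ℚ) / D / l) (by rw [hden]; exact div_ne_zero one_ne_zero hl0)
    rw [hden] at h2
    have hnum : ((((l * (2 - q) : ℤ) : ℚ)) * ((b : ℚ) / D / l) + (b' : ℚ)) / (1 / l) =
        (l : ℚ) * ((b : ℚ) / D) := by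
      push_cast
      rw [hb'Q, hq1Q]
      field_simp
      ring
    rw [hnum] at h2
    have e1 : (l : ℚ) * ((b' : ℚ) / q) = (b' : ℚ) / q' := by
      rw [hqq'Q]; field_simp
    rw [e1, h1, h2]
    abel
  -- (3)
  obtain ⟨g, hg⟩ := hk1
  have hgQ : (b : ℚ) + k1 * D = l * g := by exact_mod_cast hg
  set t : ℤ := q + k1 * c1 with ht
  have htQ : (t : ℚ) = q + k1 * c1 := by rw [ht]; push_cast; ring
  have hlc : -(l * c1) ≠ 0 := neg_ne_zero.2 (mul_ne_zero hl0' hc10)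
  have hNlc : (N : ℤ) ∣ -(l * c1) := (dvd_neg).2 (Dvd.dvd.mul_left hNc1 _)
  have ht1 : t - 1 = D * N * m * (l * g) := by
    rw [ht, ← hg, hc1]
    linear_combination hq1
  have hdet3 : (2 - t) * t - (N * m * l * g ^ 2) * (-(l * c1)) = 1 := by
    have h1 : (N * m * l * g ^ 2) * (l * c1) = (t - 1) ^ 2 := by
      rw [ht1, hc1]; ring
    linear_combination h1
  have ht1Q : (t : ℚ) - 1 = D * N * m * (l * g) := by exact_mod_cast ht1
  have s3 : Φ (((2 - t : ℤ) : ℚ) / ((-(l * c1) : ℤ) : ℚ)) = 0 := by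
    have hden : (((-(l * c1) : ℤ) : ℚ)) * ((g : ℚ) / D) + (t : ℚ) = 1 := by
      have : (t : ℚ) = 1 + D * N * m * (l * g) := by linear_combination ht1Q
      push_cast
      rw [this, hc1Q]
      field_simp
      ring
    have h1 := h.mob (2 - t) (N * m * l * g ^ 2) (-(l * c1)) t hdet3 hNlc hlc ((g : ℚ) / D)
      (by rw [hden]; exact one_ne_zero)
    rw [hden] at h1
    have hnum : ((((2 - t : ℤ) : ℚ)) * ((g : ℚ) / D) + ((N * m * l * g ^ 2 : ℤ) : ℚ)) / 1 =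
        (g : ℚ) / D := by
      have : (t : ℚ) = 1 + D * N * m * (l * g) := by linear_combination ht1Q
      push_cast
      rw [this]
      field_simp
      ring
    rw [hnum] at h1
    exact left_eq_add.1 h1
  have s3' : Φ (((b' : ℚ) / q + k1) / l) = Φ ((k1 : ℚ) / l) := by
    have hden : (((-(l * c1) : ℤ) : ℚ)) * ((k1 : ℚ) / l) + (t : ℚ) = q := by
      push_cast
      rw [htQ]
      field_simp
      ring
    have h1 := h.mob (2 - t) (N * m * l * g ^ 2) (-(l * c1)) t hdet3 hNlc hlc ((k1 : ℚ) / l)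
      (by rw [hden]; exact hq0)
    rw [hden, s3, add_zero] at h1
    rw [← h1]
    congr 1
    have h2 : (l : ℚ) * ((N * m * l * g ^ 2 : ℤ) : ℚ) = N * m * (b + k1 * D) ^ 2 := by
      rw [hgQ]; push_cast; ring
    have h3 : ((((2 - t : ℤ) : ℚ)) * ((k1 : ℚ) / l) + ((N * m * l * g ^ 2 : ℤ) : ℚ)) =
        (b' + k1 * q) / l := by
      rw [eq_div_iff hl0, add_mul, mul_comm ((N * m * l * g ^ 2 : ℤ) : ℚ), h2, mul_assoc,
        div_mul_cancel₀ _ hl0]
      push_cast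
      rw [htQ, hb'Q, hc1Q, hq1Q]
      ring
    rw [h3]
    field_simp
  -- (4)
  have hlq : (l : ℤ) ∣ q := ⟨q', hqq'⟩
  have hlb' : ¬ (l : ℤ) ∣ b' := by
    intro hh
    have h1 : (l : ℤ) ∣ D * b' := Dvd.dvd.mul_left hh _
    have h2 : D * b' = b * q - b := by
      rw [hb']
      linear_combination (-b) * hq1
    rw [h2, dvd_sub_right (Dvd.dvd.mul_left hlq _)] at h1
    exact hb h1
  have s4 : ∀ k : ℤ, Φ (((b' : ℚ) / q + k) / l) = Φ ((k1 : ℚ) / l) := by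
    intro k
    rw [← s3']
    obtain ⟨u, v, huv⟩ := ((Prime.coprime_iff_not_dvd hlZ).2 hlb').symm
    -- u * b' + v * l = 1
    obtain ⟨i, w, hw⟩ := hfill e hen0 ((k1 - k) * u)
    have hx : IsCoprime (b' + k * q) ((l : ℤ) ^ (e + 1)) := by
      apply IsCoprime.pow_right
      apply IsCoprime.symm
      rw [Prime.coprime_iff_not_dvd hlZ]
      intro hh
      rw [dvd_add_left (Dvd.dvd.mul_left hlq _)] at hh
      exact hlb' hh
    have hmN : IsCoprime ((l : ℤ) ^ (e + 1)) (N : ℤ) := by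
      apply IsCoprime.pow_left
      rw [Prime.coprime_iff_not_dvd hlZ]
      exact_mod_cast hlN
    have hmp : IsCoprime ((l : ℤ) ^ (e + 1)) (p : ℤ) := by
      apply IsCoprime.pow_left
      rw [Prime.coprime_iff_not_dvd hlZ]
      intro hh
      have : l ∣ p := by exact_mod_cast hh
      exact hlp ((Nat.prime_dvd_prime_iff_eq hl hp).1 this)
    have h1 := mul_pow h hN0 hp hpN hR hx hmN hmp i
    have e0 : ((((l : ℤ) ^ (e + 1) : ℤ)) : ℚ) = q * l := by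
      rw [pow_succ, ← hq]; push_cast; ring
    have e1 : ((b' : ℚ) / q + k) / l = ((b' + k * q : ℤ) : ℚ) / (((l : ℤ) ^ (e + 1) : ℤ) : ℚ) := by
      rw [e0]; push_cast; field_simp
    have hpi : (p : ℤ) ^ (2 * i) = 1 + (k1 - k) * u * q + q * l * w := by
      rw [← hq] at hw
      rw [pow_succ, ← hq] at hw
      linear_combination hw
    have hpiQ : (p : ℚ) ^ (2 * i) = 1 + (k1 - k) * u * q + q * l * w := by exact_mod_cast hpi
    have huvQ : (u : ℚ) * b' + v * l = 1 := by exact_mod_cast huv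
    have e2 : (p : ℚ) ^ (2 * i) * (((b' + k * q : ℤ) : ℚ) / (((l : ℤ) ^ (e + 1) : ℤ) : ℚ)) =
        ((b' : ℚ) / q + k1) / l +
          ((-((k1 - k) * v) + (k1 - k) * u * k * q' + w * (b' + k * q) : ℤ) : ℚ) := by
      rw [e0, hpiQ]
      push_cast
      field_simp
      rw [hqq'Q]
      linear_combination ((l : ℚ) * q' * (k1 - k)) * huvQ
    rw [e1, ← h1, e2, h.trans]
  -- (5)
  have h5 := hT ((b' : ℚ) / q)
  have h6 : ∑ k ∈ range l, Φ (((b' : ℚ) / q + k) / l) = l * Φ ((k1 : ℚ) / l) := by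
    have hk : ∀ k ∈ range l, Φ (((b' : ℚ) / q + (k : ℚ)) / l) = Φ ((k1 : ℚ) / l) := by
      intro k _
      have := s4 (k : ℤ)
      rwa [Int.cast_natCast] at this
    rw [Finset.sum_congr rfl hk, Finset.sum_const, card_range, nsmul_eq_mul]
  rw [h6, s1', s2] at h5
  rw [← h5]
  ring

end Pool.Agent.MZ
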