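import Mathlib
import Pool.Agent.MZ.Core2

open Finset

namespace Pool.Agent.MZ

/-- The relation `(H')`. -/
lemma hstar {A : Type*} [CommRing A] {N : ℕ} {Φ : ℚ → A} (h : IsSym N Φ) (hN0 : N ≠ 0)
    {p : ℕ} (hp : p.Prime) (hpN : ¬ p ∣ N) {c0 : A}
    (hR : ∀ (m : ℤ) (n : ℕ), Φ ((m : ℚ) / (p : ℚ) ^ n) = c0)
    {l : ℕ} (hl : l.Prime) (hl2 : l ≠ 2) (hlp : l ≠ p) (hlN : ¬ l ∣ N) {al : A}
    (hT : ∀ y : ℚ, Φ ((l : ℚ) * y) + ∑ k ∈ range l, Φ ((y + k) / l) = al * Φ y)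
    {b D k0 : ℤ} (hD : ¬ (l : ℤ) ∣ D) (hk0 : (l : ℤ) ∣ b + k0 * D) :
    l * Φ ((l : ℚ) * ((b : ℚ) / D)) + Φ (((b : ℚ) / D + k0) / l) - al * Φ ((b : ℚ) / D) =
      (l + 1 - al) * c0 := by
  have hlZ : Prime (l : ℤ) := Nat.prime_iff_prime_int.1 hl
  have hl0 : (l : ℚ) ≠ 0 := by exact_mod_cast hl.ne_zero
  have hD0 : D ≠ 0 := by rintro rfl; exact hD (dvd_zero _)
  have hDq : (D : ℚ) ≠ 0 := by exact_mod_cast hD0
  have h00 : Φ 0 = c0 := by
    have := hR 0 0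
    simpa using this
  obtain ⟨l', rfl⟩ : ∃ l', l = l' + 1 := ⟨l - 1, by have := hl.pos; omega⟩
  -- `T_l` at zero
  have hT0 := hT 0
  rw [mul_zero, h00, Finset.sum_range_succ'] at hT0
  -- `T_l` at `z + k0`
  have hTz := hT ((b : ℚ) / D + k0)
  rw [h.trans, Finset.sum_range_succ'] at hTz
  have e1 : Φ (((l' + 1 : ℕ) : ℚ) * ((b : ℚ) / D + k0)) = Φ (((l' + 1 : ℕ) : ℚ) * ((b : ℚ) / D)) := by
    have : ((l' + 1 : ℕ) : ℚ) * ((b : ℚ) / D + k0) =
        ((l' + 1 : ℕ) : ℚ) * ((b : ℚ) / D) + (((l' + 1 : ℕ) * k0 : ℤ) : ℚ) := by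
      push_cast; ring
    rw [this, h.trans]
  rw [e1] at hTz
  have e2 : ∀ k ∈ range l', Φ (((b : ℚ) / D + k0 + ((k + 1 : ℕ) : ℚ)) / ((l' + 1 : ℕ) : ℚ)) =
      Φ (((l' + 1 : ℕ) : ℚ) * ((b : ℚ) / D)) + c0 - al * c0 +
        ((l' + 1 : ℕ) : A) * Φ ((0 + ((l' - 1 - k + 1 : ℕ) : ℚ)) / ((l' + 1 : ℕ) : ℚ)) := by
    intro k hk
    have hk' : k < l' := mem_range.1 hk
    have hb : ¬ ((l' + 1 : ℕ) : ℤ) ∣ b + (k0 + (k + 1)) * D := by
      intro hh
      have h1 : b + (k0 + ((k : ℤ) + 1)) * D = (b + k0 * D) + (k + 1) * D := by ring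
      rw [h1, dvd_add_right hk0] at hh
      rcases hlZ.dvd_or_dvd hh with h2 | h2
      · have h3 : ((l' + 1 : ℕ) : ℤ) ≤ (k : ℤ) + 1 := Int.le_of_dvd (by positivity) h2
        push_cast at h3
        omega
      · exact hD h2
    have hk1 : ((l' + 1 : ℕ) : ℤ) ∣ (b + (k0 + (k + 1)) * D) + (-(k + 1)) * D := by
      have h1 : (b + (k0 + ((k : ℤ) + 1)) * D) + (-(k + 1)) * D = b + k0 * D := by ring
      rwa [h1]
    have h2 := tripod h hN0 hp hpN hR hl hl2 hlp hlN hT hb hD hk1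
    have h3 : ((b + (k0 + (k + 1)) * D : ℤ) : ℚ) / D = (b : ℚ) / D + k0 + ((k + 1 : ℕ) : ℚ) := by
      push_cast; field_simp; ring
    rw [h3] at h2
    have h4 : Φ (((l' + 1 : ℕ) : ℚ) * ((b : ℚ) / D + k0 + ((k + 1 : ℕ) : ℚ))) =
        Φ (((l' + 1 : ℕ) : ℚ) * ((b : ℚ) / D)) := by
      have : ((l' + 1 : ℕ) : ℚ) * ((b : ℚ) / D + k0 + ((k + 1 : ℕ) : ℚ)) =
          ((l' + 1 : ℕ) : ℚ) * ((b : ℚ) / D) + (((l' + 1 : ℕ) * (k0 + (k + 1)) : ℤ) : ℚ) := by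
        push_cast; ring
      rw [this, h.trans]
    rw [h4] at h2
    have h5 : Φ (((-(k + 1) : ℤ) : ℚ) / ((l' + 1 : ℕ) : ℚ)) =
        Φ ((0 + ((l' - 1 - k + 1 : ℕ) : ℚ)) / ((l' + 1 : ℕ) : ℚ)) := by
      have h6 : ((l' - 1 - k + 1 : ℕ) : ℚ) = l' - k := by
        have : l' - 1 - k + 1 = l' - k := by omega
        rw [this, Nat.cast_sub hk'.le]
      have h7 : (0 + ((l' - 1 - k + 1 : ℕ) : ℚ)) / ((l' + 1 : ℕ) : ℚ) =
          ((-(k + 1) : ℤ) : ℚ) / ((l' + 1 : ℕ) : ℚ) + ((1 : ℤ) : ℚ) := by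
        rw [h6]
        field_simp
        push_cast
        ring
      rw [h7, h.trans]
    rw [← h5]
    linear_combination -h2
  rw [Finset.sum_congr rfl e2, Finset.sum_add_distrib, Finset.sum_const, card_range,
    ← Finset.mul_sum] at hTz
  rw [Finset.sum_range_reflect (fun k => Φ ((0 + ((k + 1 : ℕ) : ℚ)) / ((l' + 1 : ℕ) : ℚ))) l'] at hTz
  set S := ∑ k ∈ range l', Φ ((0 + ((k + 1 : ℕ) : ℚ)) / ((l' + 1 : ℕ) : ℚ)) with hS
  have e3 : Φ ((0 + ((0 : ℕ) : ℚ)) / ((l' + 1 : ℕ) : ℚ)) = c0 := by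
    rw [← h00]; congr 1; simp
  rw [e3] at hT0
  have e4 : ((b : ℚ) / D + k0 + ((0 : ℕ) : ℚ)) / ((l' + 1 : ℕ) : ℚ) =
      ((b : ℚ) / D + k0) / ((l' + 1 : ℕ) : ℚ) := by
    rw [Nat.cast_zero, add_zero]
  rw [e4, nsmul_eq_mul] at hTz
  push_cast at *
  linear_combination hTz - ((l' : A) + 1) * hT0

/-- values at `a/C` only depend on `a` modulo `C` -/
lemma per {A : Type*} [AddCommGroup A] {N : ℕ} {Φ : ℚ → A} (h : IsSym N Φ) {C : ℤ} (hC : C ≠ 0)
    {a a' : ℤ} (haa : C ∣ a - a') : Φ ((a : ℚ) / C) = Φ ((a' : ℚ) / C) := by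
  obtain ⟨t, ht⟩ := haa
  have hCq : (C : ℚ) ≠ 0 := by exact_mod_cast hC
  have e : (a : ℚ) / C = (a' : ℚ) / C + (t : ℚ) := by
    have : a = a' + C * t := by linear_combination ht
    rw [this]; push_cast; field_simp
  rw [e, h.trans]

/-- inverse matrix -/
lemma invm {A : Type*} [AddCommGroup A] {N : ℕ} {Φ : ℚ → A} (h : IsSym N Φ) {C : ℤ} (hC : C ≠ 0)
    (hNC : (N : ℤ) ∣ C) {a d : ℤ} (had : C ∣ a * d - 1) :
    Φ (((-d : ℤ) : ℚ) / C) = - Φ ((a : ℚ) / C) := by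
  obtain ⟨b, hb⟩ := had
  have hCq : (C : ℚ) ≠ 0 := by exact_mod_cast hC
  -- matrix (a, b; C, d)
  obtain ⟨y, hy1, hy2⟩ : ∃ y : ℤ, C * y + d ≠ 0 ∧ a * y + b ≠ 0 := by
    by_contra hcon
    push Not at hcon
    have h0 := hcon (d.natAbs + 1)
    have h1 : C * ((d.natAbs : ℤ) + 1) + d ≠ 0 := by
      intro h2
      have h3 : |d| = |C| * (|d| + 1) := by
        have h4 : d = -(C * (|d| + 1)) := by
          rw [Int.abs_eq_natAbs]; linear_combination h2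
        have h5 : |d| = |C * (|d| + 1)| := by
          conv_lhs => rw [h4]
          rw [abs_neg]
        rw [abs_mul] at h5
        rw [h5]
        congr 1
        rw [← h5, abs_of_nonneg (by positivity)]
      have h6 : 1 ≤ |C| := Int.one_le_abs hC
      have h7 : 0 ≤ |d| := abs_nonneg d
      nlinarith
    have h1' := h0 h1
    have h0' := hcon (d.natAbs + 2)
    have h2 : C * ((d.natAbs : ℤ) + 2) + d ≠ 0 := by
      intro h2
      have h3 : |d| = |C| * (|d| + 2) := by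
        have h4 : d = -(C * (|d| + 2)) := by
          rw [Int.abs_eq_natAbs]; linear_combination h2
        have h5 : |d| = |C * (|d| + 2)| := by
          conv_lhs => rw [h4]
          rw [abs_neg]
        rw [abs_mul] at h5
        rw [h5]
        congr 1
        rw [← h5, abs_of_nonneg (by positivity)]
      have h6 : 1 ≤ |C| := Int.one_le_abs hC
      have h7 : 0 ≤ |d| := abs_nonneg d
      nlinarith
    have h2' := h0' h2
    have ha : a = 0 := by linear_combination h2' - h1'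
    have hb0 : b = 0 := by rw [ha] at h1'; linear_combination h1'
    rw [ha, hb0] at hb
    norm_num at hb
  have hdet : a * d - b * C = 1 := by linear_combination hb
  have hy1' : (C : ℚ) * y + d ≠ 0 := by exact_mod_cast hy1
  have h1 := h.mob a b C d hdet hNC hC y hy1'
  have hdetq : (a : ℚ) * d - b * C = 1 := by exact_mod_cast hdet
  have e1 : ((-C : ℤ) : ℚ) * (((a : ℚ) * y + b) / (C * y + d)) + (a : ℚ) = 1 / (C * y + d) := by
    push_cast
    rw [eq_div_iff hy1', add_mul, mul_assoc, div_mul_cancel₀ _ hy1']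
    linear_combination hdetq
  have h2 := h.mob d (-b) (-C) a (by linear_combination hdet) ((dvd_neg).2 hNC)
    (neg_ne_zero.2 hC) (((a : ℚ) * y + b) / (C * y + d)) (by
      rw [e1]; exact div_ne_zero one_ne_zero hy1')
  rw [e1] at h2
  have e2 : ((d : ℚ) * (((a : ℚ) * y + b) / (C * y + d)) + ((-b : ℤ) : ℚ)) / (1 / (C * y + d)) =
      y := by
    push_cast
    rw [div_div_eq_mul_div, div_one, add_mul, mul_assoc, div_mul_cancel₀ _ hy1']
    linear_combination (y : ℚ) * hdetq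
  rw [e2, h1] at h2
  have e3 : (d : ℚ) / ((-C : ℤ) : ℚ) = ((-d : ℤ) : ℚ) / C := by
    push_cast; rw [div_neg, neg_div]
  rw [e3] at h2
  have h3 : Φ ((a : ℚ) / C) + Φ (((-d : ℤ) : ℚ) / C) = 0 := by
    have : Φ (y : ℚ) = Φ (y : ℚ) + (Φ ((a : ℚ) / C) + Φ (((-d : ℤ) : ℚ) / C)) := by
      rw [← add_assoc]; exact h2
    exact left_eq_add.1 this
  exact (neg_eq_of_add_eq_zero_right h3).symm

lemma one_div {A : Type*} [AddCommGroup A] {N : ℕ} {Φ : ℚ → A} (h : IsSym N Φ) {C : ℤ} (hC : C ≠ 0)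
    (hNC : (N : ℤ) ∣ C) : Φ ((1 : ℚ) / C) = 0 := by
  have h1 := h.mob 1 0 C 1 (by ring) hNC hC 0 (by simp)
  norm_num at h1
  simpa using h1

/-- relations `(A)` and `(B)` -/
lemma relAB {A : Type*} [CommRing A] {N : ℕ} {Φ : ℚ → A} (h : IsSym N Φ) (hN0 : N ≠ 0)
    {p : ℕ} (hp : p.Prime) (hpN : ¬ p ∣ N) {c0 : A}
    (hR : ∀ (m : ℤ) (n : ℕ), Φ ((m : ℚ) / (p : ℚ) ^ n) = c0)
    {l : ℕ} (hl : l.Prime) (hl2 : l ≠ 2) (hlp : l ≠ p) (hlN : ¬ l ∣ N) {al : A}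
    (hT : ∀ y : ℚ, Φ ((l : ℚ) * y) + ∑ k ∈ range l, Φ ((y + k) / l) = al * Φ y)
    {C : ℤ} (hC : C ≠ 0) (hNC : (N : ℤ) ∣ C) (hlC : ¬ (l : ℤ) ∣ C)
    {x x' a a' : ℤ} (hx : C ∣ x * x' - 1) (ha : C ∣ a * a' - 1) (hlx : C ∣ (l : ℤ) - x) :
    (l * Φ (((x * a : ℤ) : ℚ) / C) + Φ (((x' * a : ℤ) : ℚ) / C) - al * Φ ((a : ℚ) / C) =
      (l + 1 - al) * c0) ∧
    (l * Φ (((x' * a : ℤ) : ℚ) / C) + Φ (((x * a : ℤ) : ℚ) / C) - al * Φ ((a : ℚ) / C) =
      - ((l + 1 - al) * c0)) := by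
  have hlZ : Prime (l : ℤ) := Nat.prime_iff_prime_int.1 hl
  have hl0 : (l : ℚ) ≠ 0 := by exact_mod_cast hl.ne_zero
  have hCq : (C : ℚ) ≠ 0 := by exact_mod_cast hC
  have main : ∀ a : ℤ, l * Φ (((x * a : ℤ) : ℚ) / C) + Φ (((x' * a : ℤ) : ℚ) / C) -
      al * Φ ((a : ℚ) / C) = (l + 1 - al) * c0 := by
    intro a
    obtain ⟨u, v, huv⟩ := ((Prime.coprime_iff_not_dvd hlZ).2 hlC)
    -- u * l + v * C = 1
    have hk0 : (l : ℤ) ∣ a + (-(a * v)) * C := ⟨a * u, by linear_combination (-a) * huv⟩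
    have h1 := hstar h hN0 hp hpN hR hl hl2 hlp hlN hT hlC hk0
    obtain ⟨g, hg⟩ := hk0
    have e1 : ((a : ℚ) / C + ((-(a * v) : ℤ) : ℚ)) / l = (g : ℚ) / C := by
      have : (a : ℚ) + (-(a * v) : ℤ) * C = l * g := by exact_mod_cast hg
      rw [div_eq_div_iff hl0 hCq, add_mul, div_mul_cancel₀ _ hCq, this]
      ring
    have e2 : (l : ℚ) * ((a : ℚ) / C) = (((l : ℤ) * a : ℤ) : ℚ) / C := by push_cast; ring
    rw [e1, e2, per h hC (a := (l : ℤ) * a) (a' := x * a) (by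
      have : (l : ℤ) * a - x * a = (l - x) * a := by ring
      rw [this]
      exact Dvd.dvd.mul_right hlx _)] at h1
    rw [per h hC (a := g) (a' := x' * a) (by
      -- x * g = l * g = a mod C
      obtain ⟨s, hs⟩ := hx
      obtain ⟨t, ht⟩ := hlx
      refine ⟨-(s * g) - x' * a * v - x' * t * g, ?_⟩
      linear_combination (-g) * hs + (x' : ℤ) * hg * (-1) + (-(x' * g)) * ht * (1 : ℤ))] at h1
    exact h1
  refine ⟨main a, ?_⟩
  have h2 := main (-a')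
  have f1 : Φ (((x * -a' : ℤ) : ℚ) / C) = - Φ (((x' * a : ℤ) : ℚ) / C) := by
    have := invm h hC hNC (a := x' * a) (d := x * a') (by
      obtain ⟨s, hs⟩ := hx
      obtain ⟨t, ht⟩ := ha
      refine ⟨s * (a * a') + t, ?_⟩
      linear_combination (a * a') * hs + ht)
    rw [← this]
    congr 2
    push_cast
    ring
  have f2 : Φ (((x' * -a' : ℤ) : ℚ) / C) = - Φ (((x * a : ℤ) : ℚ) / C) := by
    have := invm h hC hNC (a := x * a) (d := x' * a') (by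
      obtain ⟨s, hs⟩ := hx
      obtain ⟨t, ht⟩ := ha
      refine ⟨s * (a * a') + t, ?_⟩
      linear_combination (a * a') * hs + ht)
    rw [← this]
    congr 2
    push_cast
    ring
  have f3 : Φ (((-a' : ℤ) : ℚ) / C) = - Φ ((a : ℚ) / C) := invm h hC hNC ha
  rw [f1, f2, f3] at h2
  linear_combination -h2

/-- a prime in given classes modulo `C` and modulo `p` -/
lemma exists_prime {p : ℕ} (hp : p.Prime) {C : ℕ} (hC : C ≠ 0) (hpC : ¬ p ∣ C) {x : ℤ}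
    (hx : IsCoprime x (C : ℤ)) {r : ℕ} (hr : ¬ p ∣ r) (B : ℕ) :
    ∃ l : ℕ, l.Prime ∧ B < l ∧ (C : ℤ) ∣ (l : ℤ) - x ∧ (p : ℤ) ∣ (l : ℤ) - r := by
  have hcop : Nat.Coprime C p := ((Nat.Prime.coprime_iff_not_dvd hp).2 hpC).symm
  have hcopZ : IsCoprime (C : ℤ) (p : ℤ) := Nat.isCoprime_iff_coprime.2 hcop
  have hCp : C * p ≠ 0 := mul_ne_zero hC hp.ne_zero
  have : NeZero (C * p) := ⟨hCp⟩
  obtain ⟨u, v, huv⟩ := hcopZ
  -- u * C + v * p = 1
  set y : ℤ := x * (v * p) + r * (u * C) with hy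
  have hyC : (C : ℤ) ∣ y - x := ⟨r * u - x * u, by rw [hy]; linear_combination x * huv⟩
  have hyp : (p : ℤ) ∣ y - r := ⟨x * v - r * v, by rw [hy]; linear_combination (r : ℤ) * huv⟩
  have hpZ : Prime (p : ℤ) := Nat.prime_iff_prime_int.1 hp
  have hycop : IsCoprime y ((C * p : ℕ) : ℤ) := by
    push_cast
    refine IsCoprime.mul_right ?_ ?_
    · obtain ⟨s, hs⟩ := hyC
      have : y = x + C * s := by linear_combination hs
      rw [this]
      exact IsCoprime.add_mul_left_left hx _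
    · obtain ⟨s, hs⟩ := hyp
      have : y = r + p * s := by linear_combination hs
      rw [this]
      refine IsCoprime.add_mul_left_left ?_ _
      rw [isCoprime_comm, Prime.coprime_iff_not_dvd hpZ]
      exact_mod_cast hr
  have hunit : IsUnit ((y : ZMod (C * p))) := by
    obtain ⟨s, t, hst⟩ := hycop
    refine isUnit_iff_exists_inv.2 ⟨(s : ZMod (C * p)), ?_⟩
    have h1 := congrArg (Int.cast : ℤ → ZMod (C * p)) hst
    push_cast at h1
    have h2 : ((C : ZMod (C * p)) * (p : ZMod (C * p))) = 0 := by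
      have := ZMod.natCast_self (C * p)
      push_cast at this
      exact this
    rw [h2, mul_zero, add_zero] at h1
    linear_combination h1
  obtain ⟨l, hlB, hl, hly⟩ := Nat.forall_exists_prime_gt_and_eq_mod hunit B
  have h3 : (((l : ℤ) : ZMod (C * p))) = ((y : ℤ) : ZMod (C * p)) := by
    rw [Int.cast_natCast]; exact hly
  have h4 : ((C * p : ℕ) : ℤ) ∣ (l : ℤ) - y := by
    have := (ZMod.intCast_eq_intCast_iff_dvd_sub (y : ℤ) (l : ℤ) (C * p)).1 h3.symm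
    exact this
  push_cast at h4
  refine ⟨l, hl, hlB, ?_, ?_⟩
  · have h5 : (C : ℤ) ∣ (l : ℤ) - y := (Dvd.intro _ rfl).trans h4
    have h6 := dvd_add h5 hyC
    have h7 : (l : ℤ) - y + (y - x) = l - x := by ring
    rwa [h7] at h6
  · have h5 : (p : ℤ) ∣ (l : ℤ) - y := (Dvd.intro_left _ rfl).trans h4
    have h6 := dvd_add h5 hyp
    have h7 : (l : ℤ) - y + (y - r) = l - r := by ring
    rwa [h7] at h6

/-- The period function vanishes at `a/C` for `C` prime to `p`. -/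
lemma vanish_coprime {k : Type*} [Field k] {N : ℕ} {Φ : ℚ → k} (h : IsSym N Φ) (hN0 : N ≠ 0)
    {p : ℕ} (hp : p.Prime) (hp2 : p ≠ 2) [CharP k p] (hpN : ¬ p ∣ N) {c0 : k}
    (hR : ∀ (m : ℤ) (n : ℕ), Φ ((m : ℚ) / (p : ℚ) ^ n) = c0) {al : ℕ → k}
    (hT : ∀ l : ℕ, l.Prime → l ≠ p → ¬ l ∣ N → ∀ y : ℚ,
      Φ ((l : ℚ) * y) + ∑ k ∈ range l, Φ ((y + k) / l) = al l * Φ y)
    {C : ℕ} (hC : C ≠ 0) (hNC : N ∣ C) (hpC : ¬ p ∣ C) {x : ℤ} (hx : IsCoprime x (C : ℤ)) :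
    Φ ((x : ℚ) / (C : ℤ)) = 0 := by
  have h2 : (2 : k) ≠ 0 := by
    intro h0
    have h1 : ((2 : ℕ) : k) = 0 := by exact_mod_cast h0
    have h3 := (CharP.cast_eq_zero_iff k p 2).1 h1
    exact hp2 ((Nat.prime_dvd_prime_iff_eq hp Nat.prime_two).1 h3)
  have hCZ : (C : ℤ) ≠ 0 := by exact_mod_cast hC
  have hNCZ : (N : ℤ) ∣ (C : ℤ) := by exact_mod_cast hNC
  have hone : Φ ((1 : ℚ) / (C : ℤ)) = 0 := one_div h hCZ hNCZ
  have hp1 : ¬ p ∣ 1 := by
    intro hh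
    exact hp.one_lt.ne' (Nat.dvd_one.1 hh)
  have hp2' : ¬ p ∣ 2 := fun hh => hp2 ((Nat.prime_dvd_prime_iff_eq hp Nat.prime_two).1 hh)
  -- the prime of the first kind
  have key : ∀ x x' : ℤ, (C : ℤ) ∣ x * x' - 1 → ∃ l1 l2 : ℕ,
      (∀ a a' : ℤ, (C : ℤ) ∣ a * a' - 1 →
        (2 - al l1) * c0 = 0 ∧
        Φ (((x * a : ℤ) : ℚ) / (C : ℤ)) + Φ (((x' * a : ℤ) : ℚ) / (C : ℤ)) =
          al l1 * Φ ((a : ℚ) / (C : ℤ)) ∧
        Φ (((x * a : ℤ) : ℚ) / (C : ℤ)) - Φ (((x' * a : ℤ) : ℚ) / (C : ℤ)) =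
          2 * ((3 - al l2) * c0) ∧
        3 * (Φ (((x * a : ℤ) : ℚ) / (C : ℤ)) + Φ (((x' * a : ℤ) : ℚ) / (C : ℤ))) =
          2 * al l2 * Φ ((a : ℚ) / (C : ℤ))) := by
    intro x x' hxx
    have hx : IsCoprime x (C : ℤ) := by
      obtain ⟨s, hs⟩ := hxx
      exact ⟨x', -s, by linear_combination hs⟩
    obtain ⟨l1, hl1, hB1, hl1C, hl1p⟩ := exists_prime hp hC hpC hx hp1 (C + N + p + 2)
    obtain ⟨l2, hl2, hB2, hl2C, hl2p⟩ := exists_prime hp hC hpC hx hp2' (C + N + p + 2)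
    refine ⟨l1, l2, ?_⟩
    intro a a' haa
    have nd : ∀ l : ℕ, l.Prime → C + N + p + 2 < l → ¬ (l : ℤ) ∣ (C : ℤ) ∧ ¬ l ∣ N := by
      intro l _ hB
      constructor
      · intro hh
        have h1 : l ∣ C := by exact_mod_cast hh
        have := Nat.le_of_dvd (Nat.pos_of_ne_zero hC) h1
        omega
      · intro hh
        have := Nat.le_of_dvd (Nat.pos_of_ne_zero hN0) hh
        omega
    have cl1 : (l1 : k) = 1 := by
      obtain ⟨s, hs⟩ := hl1p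
      have h1 : ((l1 : ℤ) : k) = ((1 + p * s : ℤ) : k) := by
        congr 1
        push_cast at hs
        linear_combination hs
      push_cast at h1
      rw [CharP.cast_eq_zero k p, zero_mul, add_zero] at h1
      exact h1
    have cl2 : (l2 : k) = 2 := by
      obtain ⟨s, hs⟩ := hl2p
      have h1 : ((l2 : ℤ) : k) = ((2 + p * s : ℤ) : k) := by
        congr 1
        push_cast at hs
        linear_combination hs
      push_cast at h1
      rw [CharP.cast_eq_zero k p, zero_mul, add_zero] at h1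
      exact h1
    obtain ⟨A1, B1⟩ := relAB h hN0 hp hpN hR hl1 (by omega) (by omega) (nd l1 hl1 hB1).2
      (hT l1 hl1 (by omega) (nd l1 hl1 hB1).2) hCZ hNCZ (nd l1 hl1 hB1).1 hxx haa hl1C
    obtain ⟨A2, B2⟩ := relAB h hN0 hp hpN hR hl2 (by omega) (by omega) (nd l2 hl2 hB2).2
      (hT l2 hl2 (by omega) (nd l2 hl2 hB2).2) hCZ hNCZ (nd l2 hl2 hB2).1 hxx haa hl2C
    rw [cl1] at A1 B1
    rw [cl2] at A2 B2
    refine ⟨?_, ?_, ?_, ?_⟩
    · have : 2 * ((2 - al l1) * c0) = 0 := by linear_combination B1 - A1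
      exact (mul_eq_zero.1 this).resolve_left h2
    · have : 2 * (Φ (((x * a : ℤ) : ℚ) / (C : ℤ)) + Φ (((x' * a : ℤ) : ℚ) / (C : ℤ)) -
          al l1 * Φ ((a : ℚ) / (C : ℤ))) = 0 := by linear_combination A1 + B1
      exact sub_eq_zero.1 ((mul_eq_zero.1 this).resolve_left h2)
    · linear_combination A2 - B2
    · linear_combination A2 + B2
  have hinv : ∀ x : ℤ, IsCoprime x (C : ℤ) → ∃ x' : ℤ, (C : ℤ) ∣ x * x' - 1 := by
    rintro x ⟨u, v, huv⟩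
    exact ⟨u, -v, by linear_combination huv⟩
  have h11 : (C : ℤ) ∣ 1 * 1 - 1 := by simp
  -- values at `1`
  have hone' : Φ (((1 : ℤ) : ℚ) / (C : ℤ)) = 0 := by rw [Int.cast_one]; exact hone
  by_cases hc0 : c0 = 0
  · obtain ⟨x', hxx⟩ := hinv x hx
    obtain ⟨l1, l2, hk⟩ := key x x' hxx
    obtain ⟨-, k2, k3, -⟩ := hk 1 1 h11
    rw [hone', mul_zero, mul_one, mul_one] at k2
    rw [hc0, mul_zero, mul_zero, mul_one, mul_one] at k3
    have : 2 * Φ ((x : ℚ) / (C : ℤ)) = 0 := by linear_combination k2 + k3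
    exact (mul_eq_zero.1 this).resolve_left h2
  · by_contra hne
    -- every `x` : `2 f(x) = 2 (3 - a_{l2}) c0` and `6 f(a) = 2 a_{l2} f(a)`
    obtain ⟨x', hxx⟩ := hinv x hx
    have hxx' : (C : ℤ) ∣ x' * x - 1 := by rwa [mul_comm] at hxx
    obtain ⟨l1, l2, hk⟩ := key x x' hxx
    obtain ⟨k1, k2, k3, k4⟩ := hk 1 1 h11
    rw [hone', mul_zero, mul_one, mul_one] at k2
    rw [mul_one, mul_one] at k3
    -- at `a = x`
    obtain ⟨j1, j2, j3, j4⟩ := hk x x' hxx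
    have ha1 : al l1 = 2 := by
      have := (mul_eq_zero.1 k1).resolve_right hc0
      linear_combination -this
    rw [ha1] at j2
    have h6 : (3 - al l2) * Φ ((x : ℚ) / (C : ℤ)) = 0 := by
      have : 2 * ((3 - al l2) * Φ ((x : ℚ) / (C : ℤ))) = 0 := by
        linear_combination (-3) * j2 + j4
      exact (mul_eq_zero.1 this).resolve_left h2
    have h7 : 3 - al l2 = 0 := (mul_eq_zero.1 h6).resolve_right hne
    rw [h7, zero_mul, mul_zero] at k3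
    have : 2 * Φ ((x : ℚ) / (C : ℤ)) = 0 := by linear_combination k2 + k3
    exact hne ((mul_eq_zero.1 this).resolve_left h2)

/-- **Theorem A.** If `Φ` is constant on `ℤ[1/p]` then all periods vanish. -/
theorem thmA {k : Type*} [Field k] {N : ℕ} {Φ : ℚ → k} (h : IsSym N Φ) (hN0 : N ≠ 0)
    {p : ℕ} (hp : p.Prime) (hp2 : p ≠ 2) [CharP k p] (hpN : ¬ p ∣ N) {c0 : k}
    (hR : ∀ (m : ℤ) (n : ℕ), Φ ((m : ℚ) / (p : ℚ) ^ n) = c0) {al : ℕ → k}
    (hT : ∀ l : ℕ, l.Prime → l ≠ p → ¬ l ∣ N → ∀ y : ℚ,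
      Φ ((l : ℚ) * y) + ∑ k ∈ range l, Φ ((y + k) / l) = al l * Φ y)
    {a c : ℤ} (hc : c ≠ 0) (hac : IsCoprime a c) (hNc : (N : ℤ) ∣ c) :
    Φ ((a : ℚ) / c) = 0 := by
  have hpZ : Prime (p : ℤ) := Nat.prime_iff_prime_int.1 hp
  -- first the case `p ∤ c`
  have hcase : ∀ a c : ℤ, c ≠ 0 → IsCoprime a c → (N : ℤ) ∣ c → ¬ (p : ℤ) ∣ c →
      Φ ((a : ℚ) / c) = 0 := by
    intro a c hc hac hNc hpc
    set C : ℕ := c.natAbs with hCdef
    have hC : C ≠ 0 := Int.natAbs_ne_zero.2 hc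
    have hNC : N ∣ C := by
      rw [hCdef]
      exact Int.natCast_dvd.1 hNc
    have hpC : ¬ p ∣ C := by
      rw [hCdef]
      intro hh
      exact hpc (Int.natCast_dvd.2 hh)
    rcases Int.natAbs_eq c with h1 | h1
    · have h2 := vanish_coprime h hN0 hp hp2 hpN hR hT hC hNC hpC (x := a) (by
        rw [hCdef, ← h1]; exact hac)
      rw [hCdef, ← h1] at h2
      exact h2
    · have h3 : ((c.natAbs : ℕ) : ℤ) = -c := by linear_combination h1
      have h2 := vanish_coprime h hN0 hp hp2 hpN hR hT hC hNC hpC (x := -a) (by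
        rw [hCdef, h3]; exact IsCoprime.neg_neg hac)
      rw [hCdef, h3] at h2
      rw [← h2]
      congr 1
      push_cast
      rw [neg_div_neg_eq]
  by_cases hpc : (p : ℤ) ∣ c
  · have hpa : ¬ (p : ℤ) ∣ a := by
      intro hh
      exact hpZ.not_isUnit (hac.isUnit_of_dvd' hh hpc)
    have hpN' : ¬ (p : ℤ) ∣ (N : ℤ) := by exact_mod_cast hpN
    have hpc' : ¬ (p : ℤ) ∣ (N : ℤ) * a + c := by
      intro hh
      rw [dvd_add_left hpc] at hh
      rcases hpZ.dvd_or_dvd hh with h1 | h1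
      · exact hpN' h1
      · exact hpa h1
    have hc' : (N : ℤ) * a + c ≠ 0 := by
      intro h0
      rw [h0] at hpc'
      exact hpc' (dvd_zero _)
    have hNZ : (N : ℤ) ≠ 0 := by exact_mod_cast hN0
    have hcq : (c : ℚ) ≠ 0 := by exact_mod_cast hc
    have hc'q : ((N : ℤ) : ℚ) * a + c ≠ 0 := by exact_mod_cast hc'
    have e1 : ((N : ℤ) : ℚ) * ((a : ℚ) / c) + ((1 : ℤ) : ℚ) = (((N : ℤ) : ℚ) * a + c) / c := by
      field_simp
      push_cast
      ring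
    have h1 := h.mob 1 0 N 1 (by ring) dvd_rfl hNZ ((a : ℚ) / c) (by
      rw [e1]; exact div_ne_zero hc'q hcq)
    rw [e1] at h1
    have e2 : (((1 : ℤ) : ℚ) * ((a : ℚ) / c) + ((0 : ℤ) : ℚ)) / ((((N : ℤ) : ℚ) * a + c) / c) =
        (a : ℚ) / (((N : ℤ) * a + c : ℤ) : ℚ) := by
      push_cast
      rw [Int.cast_natCast] at hc'q
      field_simp
      ring
    rw [e2, hcase a _ hc' (by
      have : (N : ℤ) * a + c = c + a * N := by ring
      rw [this]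
      exact IsCoprime.add_mul_left_right hac _) (dvd_add (Dvd.intro _ rfl) hNc) hpc'] at h1
    have e3 : Φ (((1 : ℤ) : ℚ) / ((N : ℤ) : ℚ)) = 0 := by
      rw [Int.cast_one]
      exact one_div h hNZ dvd_rfl
    rw [e3, add_zero] at h1
    exact h1.symm
  · exact hcase a c hc hac hNc hpc

end Pool.Agent.MZ
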