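import Mathlib
import Pool.Agent.MZ.Core1

namespace Pool.Agent.MZ

variable {A : Type*} [CommRing A] {N : ℕ} {Φ : ℚ → A}

/-- pairs of points which are `p`-adjacent, general version -/
lemma adjG (h : IsSym N Φ) {p : ℕ} (hp : p.Prime) {c0 e : A}
    (hR : ∀ (m : ℤ) (n : ℕ), (n = 0 ∨ ¬ (p : ℤ) ∣ m) → Φ ((m : ℚ) / (p : ℚ) ^ n) = c0 + n * e)
    {a b c d : ℤ} {n : ℕ} (hdet : a * d - b * c = (p : ℤ) ^ n) (hac : IsCoprime a c)
    (hbd : IsCoprime b d) (hN : (N : ℤ) ∣ c) (hc : c ≠ 0)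
    (hd : d ≠ 0) : Φ ((b : ℚ) / d) = c0 + n * e + Φ ((a : ℚ) / c) := by
  have hp0 : (p : ℚ) ≠ 0 := by exact_mod_cast hp.ne_zero
  have hpZ : Prime (p : ℤ) := Nat.prime_iff_prime_int.1 hp
  obtain ⟨u, v, huv⟩ := hac
  -- u * a + v * c = 1, matrix (a, -v; c, u)
  have hdq : (d : ℚ) ≠ 0 := by exact_mod_cast hd
  have hcq : (c : ℚ) ≠ 0 := by exact_mod_cast hc
  have huvq : (u : ℚ) * a + v * c = 1 := by exact_mod_cast huv
  have hdetq : (a : ℚ) * d - b * c = (p : ℚ) ^ n := by exact_mod_cast hdet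
  have hP0 : (p : ℚ) ^ n ≠ 0 := pow_ne_zero _ hp0
  have e3 : (c : ℚ) * (((u * b + v * d : ℤ) : ℚ) / (p : ℚ) ^ n) + u = d / (p : ℚ) ^ n := by
    push_cast
    field_simp
    rw [← hdetq]
    linear_combination (d : ℚ) * huvq
  have e4 : (a : ℚ) * (((u * b + v * d : ℤ) : ℚ) / (p : ℚ) ^ n) + (-v : ℤ) = b / (p : ℚ) ^ n := by
    push_cast
    field_simp
    rw [← hdetq]
    linear_combination (b : ℚ) * huvq
  have key := h.mob a (-v) c u (by linear_combination huv) hN hc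
    (((u * b + v * d : ℤ) : ℚ) / (p : ℚ) ^ n) (by rw [e3]; exact div_ne_zero hdq hP0)
  have hred : n = 0 ∨ ¬ (p : ℤ) ∣ (u * b + v * d) := by
    by_cases hn : n = 0
    · exact Or.inl hn
    · right
      intro hh
      have hpn : (p : ℤ) ∣ (p : ℤ) ^ n := dvd_pow_self _ hn
      have h1 : (p : ℤ) ∣ b := by
        have : b = a * (u * b + v * d) - v * (p : ℤ) ^ n := by
          rw [← hdet]; linear_combination (-b) * huv
        rw [this]
        exact dvd_sub (Dvd.dvd.mul_left hh _) (Dvd.dvd.mul_left hpn _)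
      have h2 : (p : ℤ) ∣ d := by
        have : d = c * (u * b + v * d) + u * (p : ℤ) ^ n := by
          rw [← hdet]; linear_combination (-d) * huv
        rw [this]
        exact dvd_add (Dvd.dvd.mul_left hh _) (Dvd.dvd.mul_left hpn _)
      exact hpZ.not_isUnit (hbd.isUnit_of_dvd' h1 h2)
  rw [e3, e4, hR _ _ hred] at key
  have e5 : (b : ℚ) / (p : ℚ) ^ n / (d / (p : ℚ) ^ n) = b / d := by field_simp
  rw [e5] at key
  rw [key]

/-- the exponent of `p` in the denominator -/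
def dex (p : ℕ) (s : ℚ) : ℕ := padicValNat p s.den

lemma dex_red {p : ℕ} (hp : p.Prime) (m : ℤ) (n : ℕ) : ∃ y : ℤ,
    (m : ℚ) / (p : ℚ) ^ n = (y : ℚ) / (p : ℚ) ^ (dex p ((m : ℚ) / (p : ℚ) ^ n)) ∧
      (dex p ((m : ℚ) / (p : ℚ) ^ n) = 0 ∨ ¬ (p : ℤ) ∣ y) := by
  have : Fact p.Prime := ⟨hp⟩
  have hp0 : (p : ℚ) ≠ 0 := by exact_mod_cast hp.ne_zero
  set s : ℚ := (m : ℚ) / (p : ℚ) ^ n with hs
  have h1 : (s.den : ℤ) ∣ (p : ℤ) ^ n := by
    have h2 : s = (m : ℚ) / (((p : ℤ) ^ n : ℤ) : ℚ) := by rw [hs]; push_cast; rfl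
    rw [h2, Rat.intCast_div_eq_divInt]
    exact Rat.den_dvd _ _
  have h2 : s.den ∣ p ^ n := by exact_mod_cast h1
  obtain ⟨t, _, ht⟩ := (Nat.dvd_prime_pow hp).1 h2
  have h3 : dex p s = t := by
    rw [dex, ht, padicValNat.prime_pow]
  refine ⟨s.num, ?_, ?_⟩
  · rw [h3]
    have h4 : ((p : ℚ) ^ t) = ((s.den : ℕ) : ℚ) := by rw [ht]; push_cast; rfl
    rw [h4]
    exact (Rat.num_div_den s).symm
  · rw [h3]
    by_cases ht0 : t = 0
    · exact Or.inl ht0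
    · right
      intro hh
      have h5 : p ∣ s.num.natAbs := Int.natCast_dvd.1 hh
      have h6 : p ∣ s.den := by rw [ht]; exact dvd_pow_self _ ht0
      have h7 := Nat.dvd_gcd h5 h6
      rw [s.reduced.gcd_eq_one] at h7
      exact hp.one_lt.ne' (Nat.dvd_one.1 h7)

lemma cop_aux {p : ℕ} (hp : p.Prime) {a c y : ℤ} {j : ℕ} (hac : IsCoprime a c)
    (hpc : ¬ (p : ℤ) ∣ c) (hy : j = 0 ∨ ¬ (p : ℤ) ∣ y) :
    IsCoprime ((p : ℤ) ^ j * a + y * c) ((p : ℤ) ^ j * c) := by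
  have hpZ : Prime (p : ℤ) := Nat.prime_iff_prime_int.1 hp
  refine IsCoprime.mul_right ?_ ?_
  · rcases hy with hy | hy
    · subst hy
      rw [pow_zero]
      exact isCoprime_one_right
    · have h1 : IsCoprime (y * c) ((p : ℤ) ^ j) := by
        apply IsCoprime.pow_right
        rw [isCoprime_comm, Prime.coprime_iff_not_dvd hpZ]
        intro hh
        rcases hpZ.dvd_or_dvd hh with h | h
        · exact hy h
        · exact hpc h
      have h2 : (p : ℤ) ^ j * a + y * c = y * c + (p : ℤ) ^ j * a := by ring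
      rw [h2]
      exact IsCoprime.add_mul_left_left h1 _
  · have h1 : IsCoprime ((p : ℤ) ^ j * a) c :=
      IsCoprime.mul_left (IsCoprime.pow_left ((Prime.coprime_iff_not_dvd hpZ).2 hpc)) hac
    have h2 : (p : ℤ) ^ j * a + y * c = (p : ℤ) ^ j * a + c * y := by ring
    rw [h2]
    exact IsCoprime.add_mul_left_left h1 _

/-- one step of the translation -/
lemma stepG (h : IsSym N Φ) {p : ℕ} (hp : p.Prime) {c0 e : A}
    (hR : ∀ (m : ℤ) (n : ℕ), (n = 0 ∨ ¬ (p : ℤ) ∣ m) → Φ ((m : ℚ) / (p : ℚ) ^ n) = c0 + n * e)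
    {a b c d M : ℤ} {i : ℕ} (hdet : a * d - b * c = 1) (hN : (N : ℤ) ∣ c) (hpc : ¬ (p : ℤ) ∣ c)
    (hpd : ¬ (p : ℤ) ∣ d) (hM : (p : ℤ) ^ i = 1 + c * d * M) (hie : (i : A) * e = 0) (y : ℤ) :
    Φ ((b : ℚ) / d + ((y + M : ℤ) : ℚ) / (p : ℚ) ^ i) -
        dex p (((y + M : ℤ) : ℚ) / (p : ℚ) ^ i) * e =
      Φ ((b : ℚ) / d + (y : ℚ) / (p : ℚ) ^ i) - dex p ((y : ℚ) / (p : ℚ) ^ i) * e := by
  have hp0 : (p : ℚ) ≠ 0 := by exact_mod_cast hp.ne_zero
  have hp0' : (p : ℤ) ≠ 0 := by exact_mod_cast hp.ne_zero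
  have hc : c ≠ 0 := by rintro rfl; exact hpc (dvd_zero _)
  have hd : d ≠ 0 := by rintro rfl; exact hpd (dvd_zero _)
  have hdq : (d : ℚ) ≠ 0 := by exact_mod_cast hd
  have hcq : (c : ℚ) ≠ 0 := by exact_mod_cast hc
  obtain ⟨y1, hy1, hy1'⟩ := dex_red hp y i
  obtain ⟨y2, hy2, hy2'⟩ := dex_red hp (y + M) i
  set j := dex p ((y : ℚ) / (p : ℚ) ^ i) with hj
  set j2 := dex p (((y + M : ℤ) : ℚ) / (p : ℚ) ^ i) with hj2
  have hac : IsCoprime a c := ⟨d, -b, by linear_combination hdet⟩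
  have hbd : IsCoprime b d := ⟨-c, a, by linear_combination hdet⟩
  have hX := cop_aux hp hac hpc hy1'
  have hW1 := cop_aux hp hbd hpd hy1'
  have hW2 := cop_aux hp hbd hpd hy2'
  have hrel : (p : ℤ) ^ i * ((p : ℤ) ^ j2 * y1 - (p : ℤ) ^ j * y2) =
      -(M * (p : ℤ) ^ (j + j2)) := by
    have h1 : (y2 : ℚ) / (p : ℚ) ^ j2 = (y1 : ℚ) / (p : ℚ) ^ j + (M : ℚ) / (p : ℚ) ^ i := by
      rw [← hy2, ← hy1]
      push_cast
      rw [add_div]
    have h2 : (p : ℚ) ^ i * ((p : ℚ) ^ j2 * y1 - (p : ℚ) ^ j * y2) =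
        -(M * (p : ℚ) ^ (j + j2)) := by
      field_simp at h1
      rw [pow_add]
      linear_combination (-1 : ℚ) * h1
    exact_mod_cast h2
  have hdet1 : ((p : ℤ) ^ j * a + y1 * c) * ((p : ℤ) ^ j * d) -
      ((p : ℤ) ^ j * b + y1 * d) * ((p : ℤ) ^ j * c) = (p : ℤ) ^ (j + j) := by
    rw [pow_add]
    linear_combination ((p : ℤ) ^ j * (p : ℤ) ^ j) * hdet
  set D2 : ℤ := ((p : ℤ) ^ j * a + y1 * c) * ((p : ℤ) ^ j2 * d) -
      ((p : ℤ) ^ j2 * b + y2 * d) * ((p : ℤ) ^ j * c) with hD2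
  have hD2' : (p : ℤ) ^ i * D2 = (p : ℤ) ^ (j + j2) := by
    have h1 : (p : ℤ) ^ i * D2 = (p : ℤ) ^ i * (p : ℤ) ^ (j + j2) * (a * d - b * c) +
        c * d * ((p : ℤ) ^ i * ((p : ℤ) ^ j2 * y1 - (p : ℤ) ^ j * y2)) := by
      rw [hD2, pow_add]; ring
    rw [h1, hrel, hdet]
    linear_combination (p : ℤ) ^ (j + j2) * hM
  have hij : i ≤ j + j2 := by
    have h1 : (p : ℤ) ^ i ∣ (p : ℤ) ^ (j + j2) := ⟨D2, hD2'.symm⟩
    have h2 : p ^ i ∣ p ^ (j + j2) := by exact_mod_cast h1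
    exact (Nat.pow_dvd_pow_iff_le_right hp.one_lt).1 h2
  have hdet2 : D2 = (p : ℤ) ^ (j + j2 - i) := by
    have h1 : (p : ℤ) ^ i * D2 = (p : ℤ) ^ i * (p : ℤ) ^ (j + j2 - i) := by
      rw [hD2', ← pow_add]
      congr 1
      omega
    exact mul_left_cancel₀ (pow_ne_zero _ hp0') h1
  have hNc : (N : ℤ) ∣ (p : ℤ) ^ j * c := Dvd.dvd.mul_left hN _
  have hc0 : (p : ℤ) ^ j * c ≠ 0 := mul_ne_zero (pow_ne_zero _ hp0') hc
  have k1 := adjG h hp hR hdet1 hX hW1 hNc hc0 (mul_ne_zero (pow_ne_zero _ hp0') hd)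
  have k2 := adjG h hp hR (n := j + j2 - i) (by rw [← hD2]; exact hdet2) hX hW2 hNc hc0
    (mul_ne_zero (pow_ne_zero _ hp0') hd)
  have f1 : (b : ℚ) / d + (y : ℚ) / (p : ℚ) ^ i =
      (((p : ℤ) ^ j * b + y1 * d : ℤ) : ℚ) / (((p : ℤ) ^ j * d : ℤ) : ℚ) := by
    rw [hy1]; push_cast; field_simp
  have f2 : (b : ℚ) / d + ((y + M : ℤ) : ℚ) / (p : ℚ) ^ i =
      (((p : ℤ) ^ j2 * b + y2 * d : ℤ) : ℚ) / (((p : ℤ) ^ j2 * d : ℤ) : ℚ) := by
    rw [hy2]; push_cast; field_simp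
  rw [f1, f2, k1, k2]
  have h3 : ((j + j2 - i : ℕ) : A) = j + j2 - i := by
    rw [Nat.cast_sub hij]; push_cast; ring
  rw [h3]
  push_cast
  linear_combination -hie

/-- translation by `Z[1/p]` -/
lemma translG (h : IsSym N Φ) {p : ℕ} (hp : p.Prime) (hpN : ¬ p ∣ N) {c0 e : A} {K : ℕ}
    (hK : (p : A) ^ K = 0)
    (hR : ∀ (m : ℤ) (n : ℕ), (n = 0 ∨ ¬ (p : ℤ) ∣ m) → Φ ((m : ℚ) / (p : ℚ) ^ n) = c0 + n * e)
    {b d : ℤ} (hbd : IsCoprime b d) (hdN : IsCoprime d (N : ℤ)) (hdp : IsCoprime d (p : ℤ))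
    (s : ℤ) (j : ℕ) : Φ ((b : ℚ) / d + (s : ℚ) / (p : ℚ) ^ j) =
      Φ ((b : ℚ) / d) + dex p ((s : ℚ) / (p : ℚ) ^ j) * e := by
  have hp0 : (p : ℚ) ≠ 0 := by exact_mod_cast hp.ne_zero
  have hpZ : Prime (p : ℤ) := Nat.prime_iff_prime_int.1 hp
  have hpd : ¬ (p : ℤ) ∣ d := by
    rw [← Prime.coprime_iff_not_dvd hpZ]
    exact hdp.symm
  have hd : d ≠ 0 := by rintro rfl; exact hpd (dvd_zero _)
  -- choose `a, c`
  obtain ⟨a, c, hdet, hNc, hpc⟩ : ∃ a c : ℤ, a * d - b * c = 1 ∧ (N : ℤ) ∣ c ∧ ¬ (p : ℤ) ∣ c := by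
    have hco : IsCoprime d (b * N) := IsCoprime.mul_right hbd.symm hdN
    obtain ⟨u, v, huv⟩ := hco
    -- u * d + v * (b * N) = 1
    by_cases hpv : (p : ℤ) ∣ (N : ℤ) * v
    · refine ⟨u + b * N, -(N * (v - d)), by linear_combination huv, ⟨-(v - d), by ring⟩, ?_⟩
      intro hh
      rw [dvd_neg, mul_sub, dvd_sub_right hpv] at hh
      rcases hpZ.dvd_or_dvd hh with h1 | h1
      · exact hpN (by exact_mod_cast h1)
      · exact hpd h1
    · refine ⟨u, -(N * v), by linear_combination huv, ⟨-v, by ring⟩, ?_⟩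
      rwa [dvd_neg]
  have hc : c ≠ 0 := by
    rintro rfl
    exact hpc (dvd_zero _)
  -- choose `i`
  have hcop : IsCoprime (p : ℤ) (c * d) := by
    refine IsCoprime.mul_right ?_ hdp.symm
    exact (Prime.coprime_iff_not_dvd hpZ).2 hpc
  set n : ℕ := (c * d).natAbs with hn
  have hn0 : n ≠ 0 := by
    rw [hn]
    exact Int.natAbs_ne_zero.2 (mul_ne_zero hc hd)
  set i : ℕ := n.totient * ((j + 1) * p ^ K) with hi
  have htot : 0 < n.totient := Nat.totient_pos.2 (Nat.pos_of_ne_zero hn0)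
  have hpK : 0 < p ^ K := pow_pos hp.pos _
  have hij : j < i := by
    rw [hi]
    calc j < j + 1 := Nat.lt_succ_self _
      _ ≤ (j + 1) * p ^ K := Nat.le_mul_of_pos_right _ hpK
      _ ≤ n.totient * ((j + 1) * p ^ K) := Nat.le_mul_of_pos_left _ htot
  have hie : (i : A) * e = 0 := by
    rw [hi]
    push_cast
    rw [hK]
    ring
  obtain ⟨M, hM⟩ : c * d ∣ (p : ℤ) ^ i - 1 := by
    have h1 : Nat.Coprime p n := by
      have := Int.isCoprime_iff_gcd_eq_one.1 hcop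
      rwa [Int.gcd, Int.natAbs_natCast] at this
    have h2 : p ^ i ≡ 1 [MOD n] := by
      rw [hi, pow_mul]
      have := (Nat.ModEq.pow_totient h1).pow ((j + 1) * p ^ K)
      rwa [one_pow] at this
    have h3 : (n : ℤ) ∣ (p : ℤ) ^ i - 1 := by
      have := (Nat.modEq_iff_dvd.1 h2.symm)
      push_cast at this
      exact this
    rwa [hn, Int.natCast_natAbs, abs_dvd] at h3
  have hM' : (p : ℤ) ^ i = 1 + c * d * M := by rw [← hM]; ring
  have hMp : IsCoprime M ((p : ℤ) ^ i) := by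
    refine ⟨-(c * d), 1, ?_⟩
    rw [hM']; ring
  -- iterate
  have hit : ∀ (k : ℕ) (y : ℤ), Φ ((b : ℚ) / d + ((y + k * M : ℤ) : ℚ) / (p : ℚ) ^ i) -
      dex p (((y + k * M : ℤ) : ℚ) / (p : ℚ) ^ i) * e =
      Φ ((b : ℚ) / d + (y : ℚ) / (p : ℚ) ^ i) - dex p ((y : ℚ) / (p : ℚ) ^ i) * e := by
    intro k
    induction k with
    | zero => intro y; simp
    | succ k ih =>
      intro y
      rw [← ih y, ← stepG h hp hR hdet hNc hpc hpd hM' hie (y + k * M)]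
      have : (y + ((k + 1 : ℕ) : ℤ) * M : ℤ) = y + k * M + M := by push_cast; ring
      rw [this]
  -- write `s p^(i-j) = k M + p^i t`
  obtain ⟨u, v, huv⟩ := hMp
  -- u * M + v * p^i = 1
  set s' : ℤ := s * (p : ℤ) ^ (i - j) with hs'
  set k : ℕ := (s' * u % (p : ℤ) ^ i).toNat with hk
  have hpi : (0 : ℤ) < (p : ℤ) ^ i := by
    have : (0 : ℤ) < p := by exact_mod_cast hp.pos
    positivity
  have hk' : (k : ℤ) = s' * u % (p : ℤ) ^ i := Int.toNat_of_nonneg (Int.emod_nonneg _ hpi.ne')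
  set w : ℤ := s' * u / (p : ℤ) ^ i with hw
  have hke : (k : ℤ) = s' * u - (p : ℤ) ^ i * w := by
    rw [hk', hw, Int.emod_def]
  have hfin : s' = (k : ℤ) * M + (p : ℤ) ^ i * (w * M + s' * v) := by
    rw [hke]
    linear_combination (-s') * huv
  have e0 : (s : ℚ) / (p : ℚ) ^ j =
      ((0 + k * M : ℤ) : ℚ) / (p : ℚ) ^ i + ((w * M + s' * v : ℤ) : ℚ) := by
    have h1 : (s : ℚ) / (p : ℚ) ^ j = (s' : ℚ) / (p : ℚ) ^ i := by
      rw [hs']
      push_cast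
      rw [div_eq_div_iff (pow_ne_zero _ hp0) (pow_ne_zero _ hp0), mul_assoc, ← pow_add]
      congr 2
      omega
    rw [h1]
    have h2 : (s' : ℚ) = (k : ℚ) * M + (p : ℚ) ^ i * (((w * M + s' * v : ℤ) : ℚ)) := by
      exact_mod_cast hfin
    rw [h2]
    push_cast
    field_simp
    ring
  have e1 : dex p ((s : ℚ) / (p : ℚ) ^ j) = dex p (((0 + k * M : ℤ) : ℚ) / (p : ℚ) ^ i) := by
    unfold dex
    rw [e0, Rat.add_intCast_den]
  rw [e1, e0, ← add_assoc, h.trans]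
  have h5 := hit k 0
  have h6 : dex p (((0 : ℤ) : ℚ) / (p : ℚ) ^ i) = 0 := by
    simp [dex]
  rw [h6] at h5
  have h7 : (b : ℚ) / d + ((0 : ℤ) : ℚ) / (p : ℚ) ^ i = (b : ℚ) / d := by simp
  rw [h7] at h5
  push_cast at h5 ⊢
  linear_combination h5

lemma dex_one {p : ℕ} (hp : p.Prime) {m : ℤ} (hm : ¬ (p : ℤ) ∣ m) :
    dex p ((m : ℚ) / (p : ℚ) ^ 1) = 1 := by
  have hp0 : (p : ℚ) ≠ 0 := by exact_mod_cast hp.ne_zero
  have hp0' : (p : ℤ) ≠ 0 := by exact_mod_cast hp.ne_zero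
  have : Fact p.Prime := ⟨hp⟩
  have hcop : Nat.Coprime m.natAbs p := by
    rw [Nat.coprime_comm, Nat.Prime.coprime_iff_not_dvd hp]
    intro hh
    exact hm (Int.natCast_dvd.2 hh)
  have h1 : ((m : ℚ) / (p : ℚ) ^ 1).den = p := by
    rw [pow_one]
    have h2 : (m : ℚ) / (p : ℚ) = (m : ℚ) / ((p : ℤ) : ℚ) := by push_cast; rfl
    rw [h2]
    have h3 := Rat.den_div_eq_of_coprime (a := m) (b := (p : ℤ)) (by exact_mod_cast hp.pos)
      (by rwa [Int.natAbs_natCast])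
    exact_mod_cast h3
  rw [dex, h1, padicValNat_self]

/-- invariance under multiplication by `p^2` -/
lemma mul_sqG (h : IsSym N Φ) (hN0 : N ≠ 0) {p : ℕ} (hp : p.Prime) (hpN : ¬ p ∣ N) {c0 e : A}
    {K : ℕ} (hK : (p : A) ^ K = 0)
    (hR : ∀ (m : ℤ) (n : ℕ), (n = 0 ∨ ¬ (p : ℤ) ∣ m) → Φ ((m : ℚ) / (p : ℚ) ^ n) = c0 + n * e)
    {x m : ℤ} (hxm : IsCoprime x m) (hmN : IsCoprime m (N : ℤ)) (hmp : IsCoprime m (p : ℤ)) :
    Φ ((p : ℚ) ^ 2 * ((x : ℚ) / m)) = Φ ((x : ℚ) / m) := by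
  have hp0 : (p : ℚ) ≠ 0 := by exact_mod_cast hp.ne_zero
  have hp0' : (p : ℤ) ≠ 0 := by exact_mod_cast hp.ne_zero
  have hpZ : Prime (p : ℤ) := Nat.prime_iff_prime_int.1 hp
  have hNZ : (N : ℤ) ≠ 0 := by exact_mod_cast hN0
  have hNq : (N : ℚ) ≠ 0 := by exact_mod_cast hN0
  have hco : IsCoprime (p : ℤ) (N : ℤ) := by
    rw [Prime.coprime_iff_not_dvd hpZ]
    exact_mod_cast hpN
  obtain ⟨d0, b0', hdb⟩ := hco
  -- d0 * p + b0' * N = 1
  have hpb : ¬ (p : ℤ) ∣ b0' := by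
    intro hh
    have h1 : (p : ℤ) ∣ 1 := by
      rw [← hdb]
      exact dvd_add (Dvd.intro_left _ rfl) (Dvd.dvd.mul_right hh _)
    exact hpZ.not_isUnit (isUnit_of_dvd_one h1)
  obtain ⟨K', hK'⟩ : ∃ K : A, ∀ x m : ℤ, IsCoprime x m → IsCoprime m (N : ℤ) →
      IsCoprime m (p : ℤ) → Φ ((p : ℚ) ^ 2 * ((x : ℚ) / m)) = Φ ((x : ℚ) / m) + K := by
    refine ⟨Φ ((1 : ℚ) / ((-(p * N) : ℤ) : ℚ)) + Φ ((p : ℚ) / (N : ℚ)) + e, ?_⟩
    intro x m hxm hmN hmp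
    have hm : m ≠ 0 := by
      rintro rfl
      rw [isCoprime_zero_left] at hmp
      exact hpZ.not_isUnit hmp
    have hmq : (m : ℚ) ≠ 0 := by exact_mod_cast hm
    set m' : ℤ := m - p * N * x with hm'
    have hm'p : IsCoprime m' (p : ℤ) := by
      have : m' = m + (p : ℤ) * (-(N * x)) := by rw [hm']; ring
      rw [this]
      exact IsCoprime.add_mul_left_left hmp _
    have hm'N : IsCoprime m' (N : ℤ) := by
      have : m' = m + (N : ℤ) * (-(p * x)) := by rw [hm']; ring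
      rw [this]
      exact IsCoprime.add_mul_left_left hmN _
    have hxm' : IsCoprime x m' := by
      have : m' = m + x * (-(p * N)) := by rw [hm']; ring
      rw [this]
      exact IsCoprime.add_mul_left_right hxm _
    have hm'0 : m' ≠ 0 := by
      intro h0
      rw [h0, isCoprime_zero_left] at hm'p
      exact hpZ.not_isUnit hm'p
    have hm'q : (m' : ℚ) ≠ 0 := by exact_mod_cast hm'0
    have hm'q' : (m' : ℚ) = m - p * N * x := by rw [hm']; push_cast; ring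
    -- lower unipotent
    have h1 := h.mob 1 0 (-(p * N)) 1 (by ring) ⟨-p, by ring⟩
      (neg_ne_zero.2 (mul_ne_zero hp0' hNZ)) ((x : ℚ) / m) (by
        push_cast
        have : (-((p : ℚ) * N)) * ((x : ℚ) / m) + 1 = m' / m := by
          rw [hm'q']; field_simp; ring
        rw [this]
        exact div_ne_zero hm'q hmq)
    have e1 : (((1 : ℤ) : ℚ) * ((x : ℚ) / m) + ((0 : ℤ) : ℚ)) /
        (((-(p * N) : ℤ) : ℚ) * ((x : ℚ) / m) + ((1 : ℤ) : ℚ)) = (x : ℚ) / m' := by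
      push_cast
      have : (-((p : ℚ) * N)) * ((x : ℚ) / m) + 1 = m' / m := by
        rw [hm'q']; field_simp; ring
      rw [this]
      field_simp
      ring
    rw [e1] at h1
    -- translation
    have h2 := translG h hp hpN hK hR hxm' hm'N hm'p b0' 1
    rw [dex_one hp hpb, pow_one] at h2
    -- upper matrix (p, -b0'; N, d0)
    have hdbq : (d0 : ℚ) * p + b0' * N = 1 := by exact_mod_cast hdb
    have e2 : ((N : ℤ) : ℚ) * ((x : ℚ) / m' + (b0' : ℚ) / p) + (d0 : ℚ) = m / (m' * p) := by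
      push_cast
      field_simp
      rw [hm'q']
      linear_combination ((m : ℚ) - p * N * x) * hdbq
    have h3 := h.mob p (-b0') N d0 (by linear_combination hdb) dvd_rfl hNZ
      ((x : ℚ) / m' + (b0' : ℚ) / p) (by
        rw [e2]
        exact div_ne_zero hmq (mul_ne_zero hm'q hp0))
    rw [e2] at h3
    have e3 : (((p : ℤ) : ℚ) * ((x : ℚ) / m' + (b0' : ℚ) / p) + ((-b0' : ℤ) : ℚ)) /
        (m / (m' * p)) = (p : ℚ) ^ 2 * ((x : ℚ) / m) := by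
      push_cast
      field_simp
      ring
    rw [e3, h2, h1] at h3
    rw [h3]
    push_cast
    ring
  have h0 := hK' 0 1 isCoprime_one_right isCoprime_one_left isCoprime_one_left
  have hK0 : K' = 0 := by
    simpa using h0
  rw [hK' x m hxm hmN hmp, hK0, add_zero]

end Pool.Agent.MZ
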