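import Mathlib
import Pool.Agent.MZ.Core3
import Pool.Agent.MZ.CoreG1

open Finset

namespace Pool.Agent.MZ

lemma mul_powS {A : Type*} {N : ℕ} {Φ : ℚ → A} {p : ℕ}
    (hS : ∀ x m : ℤ, IsCoprime x m → IsCoprime m (N : ℤ) → IsCoprime m (p : ℤ) →
      Φ ((p : ℚ) ^ 2 * ((x : ℚ) / m)) = Φ ((x : ℚ) / m))
    {x m : ℤ} (hxm : IsCoprime x m) (hmN : IsCoprime m (N : ℤ)) (hmp : IsCoprime m (p : ℤ))
    (i : ℕ) : Φ ((p : ℚ) ^ (2 * i) * ((x : ℚ) / m)) = Φ ((x : ℚ) / m) := by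
  induction i with
  | zero => simp
  | succ i ih =>
    rw [← ih]
    have hxi : IsCoprime ((p : ℤ) ^ (2 * i) * x) m := IsCoprime.mul_left
      (IsCoprime.pow_left hmp.symm) hxm
    have := hS _ _ hxi hmN hmp
    push_cast at this
    have e1 : (p : ℚ) ^ (2 * (i + 1)) * ((x : ℚ) / m) =
        (p : ℚ) ^ 2 * ((p : ℚ) ^ (2 * i) * x / m) := by ring
    have e2 : (p : ℚ) ^ (2 * i) * ((x : ℚ) / m) = (p : ℚ) ^ (2 * i) * x / m := by ring
    rw [e1, e2, this]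

/-- The main relation obtained from the Hecke operator `T_l` at a far away point. -/
lemma tripodG {A : Type*} [CommRing A] {N : ℕ} {Φ : ℚ → A} (h : IsSym N Φ) (hN0 : N ≠ 0)
    {p : ℕ} (hp : p.Prime) {c0 : A}
    (hS : ∀ x m : ℤ, IsCoprime x m → IsCoprime m (N : ℤ) → IsCoprime m (p : ℤ) →
      Φ ((p : ℚ) ^ 2 * ((x : ℚ) / m)) = Φ ((x : ℚ) / m)) (h00 : Φ 0 = c0)
    {l : ℕ} (hl : l.Prime) (hl2 : l ≠ 2) (hlp : l ≠ p) (hlN : ¬ l ∣ N) {al : A}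
    (hT : ∀ y : ℚ, Φ ((l : ℚ) * y) + ∑ k ∈ range l, Φ ((y + k) / l) = al * Φ y)
    {b D k1 : ℤ} (hb : ¬ (l : ℤ) ∣ b) (hD : ¬ (l : ℤ) ∣ D) (hk1 : (l : ℤ) ∣ b + k1 * D) :
    Φ ((l : ℚ) * ((b : ℚ) / D)) - Φ ((b : ℚ) / D / l) + c0 + l * Φ ((k1 : ℚ) / l) = al * c0 := by
  have hlZ : Prime (l : ℤ) := Nat.prime_iff_prime_int.1 hl
  have hl0 : (l : ℚ) ≠ 0 := by exact_mod_cast hl.ne_zero
  have hl0' : (l : ℤ) ≠ 0 := by exact_mod_cast hl.ne_zero
  have hb0 : b ≠ 0 := by rintro rfl; exact hb (dvd_zero _)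
  have hD0 : D ≠ 0 := by rintro rfl; exact hD (dvd_zero _)
  have hNZ : (N : ℤ) ≠ 0 := by exact_mod_cast hN0
  have hbq : (b : ℚ) ≠ 0 := by exact_mod_cast hb0
  have hDq : (D : ℚ) ≠ 0 := by exact_mod_cast hD0
  obtain ⟨n0, hn01, hfill⟩ := pow_fill hp hl hl2 hlp
  -- choice of `e`
  set n : ℕ := (b * D * N).natAbs with hn
  have hnz : n ≠ 0 := Int.natAbs_ne_zero.2 (mul_ne_zero (mul_ne_zero hb0 hD0) hNZ)
  have htot : 0 < n.totient := Nat.totient_pos.2 (Nat.pos_of_ne_zero hnz)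
  set e : ℕ := n.totient * n0 with he
  have hen0 : n0 ≤ e := by rw [he]; exact Nat.le_mul_of_pos_left _ htot
  have he1 : 1 ≤ e := hn01.trans hen0
  have hcopn : IsCoprime (l : ℤ) (b * D * N) := by
    rw [Prime.coprime_iff_not_dvd hlZ]
    intro hh
    rcases hlZ.dvd_or_dvd hh with h1 | h1
    · rcases hlZ.dvd_or_dvd h1 with h2 | h2
      · exact hb h2
      · exact hD h2
    · exact hlN (by exact_mod_cast h1)
  obtain ⟨m, hm⟩ : b * D * N ∣ (l : ℤ) ^ e - 1 := by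
    have h1 : Nat.Coprime l n := by
      have := Int.isCoprime_iff_gcd_eq_one.1 hcopn
      rwa [Int.gcd, Int.natAbs_natCast] at this
    have h2 : l ^ e ≡ 1 [MOD n] := by
      rw [he, pow_mul]
      have := (Nat.ModEq.pow_totient h1).pow n0
      rwa [one_pow] at this
    have h3 : (n : ℤ) ∣ (l : ℤ) ^ e - 1 := by
      have := (Nat.modEq_iff_dvd.1 h2.symm)
      push_cast at this
      exact this
    rwa [hn, Int.natCast_natAbs, abs_dvd] at h3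
  set q : ℤ := (l : ℤ) ^ e with hq
  set q' : ℤ := (l : ℤ) ^ (e - 1) with hq'
  have hqq' : q = l * q' := by
    rw [hq, hq', ← pow_succ']
    congr 1
    omega
  have hq1 : q = 1 + b * D * N * m := by linear_combination hm
  have hqpos : 1 < q := by
    rw [hq]
    exact one_lt_pow₀ (by exact_mod_cast hl.one_lt) (by omega)
  have hm0 : m ≠ 0 := by
    rintro rfl
    rw [mul_zero, add_zero] at hq1
    omega
  have hq0 : (q : ℚ) ≠ 0 := by
    have : q ≠ 0 := by omega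
    exact_mod_cast this
  have hq'0 : (q' : ℚ) ≠ 0 := by
    rw [hq']; push_cast; exact pow_ne_zero _ hl0
  have hqq'Q : (q : ℚ) = l * q' := by exact_mod_cast hqq'
  have hq1Q : (q : ℚ) = 1 + b * D * N * m := by exact_mod_cast hq1
  set b' : ℤ := b ^ 2 * N * m with hb'
  set c1 : ℤ := D ^ 2 * N * m with hc1
  have hc10 : c1 ≠ 0 := mul_ne_zero (mul_ne_zero (pow_ne_zero _ hD0) hNZ) hm0
  have hNc1 : (N : ℤ) ∣ c1 := ⟨D ^ 2 * m, by rw [hc1]; ring⟩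
  have hNc1' : (N : ℤ) ∣ -c1 := (dvd_neg).2 hNc1
  have hb'Q : (b' : ℚ) = b ^ 2 * N * m := by rw [hb']; push_cast; ring
  have hc1Q : (c1 : ℚ) = D ^ 2 * N * m := by rw [hc1]; push_cast; ring
  -- (1)
  have hdet1 : (2 - q) * q - b' * (-c1) = 1 := by
    rw [hb', hc1]
    linear_combination (-(q - 1) - b * D * N * m) * hq1
  have s1 : Φ (((2 - q : ℤ) : ℚ) / ((-c1 : ℤ) : ℚ)) = 0 := by
    have hden : (((-c1 : ℤ) : ℚ)) * ((b : ℚ) / D) + (q : ℚ) = 1 := by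
      push_cast
      rw [hc1Q, hq1Q]
      field_simp
      ring
    have h1 := h.mob (2 - q) b' (-c1) q hdet1 hNc1' (neg_ne_zero.2 hc10) ((b : ℚ) / D)
      (by rw [hden]; exact one_ne_zero)
    rw [hden] at h1
    have hnum : ((((2 - q : ℤ) : ℚ)) * ((b : ℚ) / D) + (b' : ℚ)) / 1 = (b : ℚ) / D := by
      push_cast
      rw [hb'Q, hq1Q]
      field_simp
      ring
    rw [hnum] at h1
    exact left_eq_add.1 h1
  have s1' : Φ ((b' : ℚ) / q) = c0 := by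
    have h1 := h.mob (2 - q) b' (-c1) q hdet1 hNc1' (neg_ne_zero.2 hc10) 0
      (by simpa using hq0)
    rw [s1, mul_zero, zero_add, mul_zero, zero_add, h00, add_zero] at h1
    exact h1
  -- (2)
  have hdet2 : (l * (2 - q)) * q' - b' * (-c1) = 1 := by
    linear_combination hdet1 - (2 - q) * hqq'
  have s2 : Φ ((l : ℚ) * ((b' : ℚ) / q)) = c0 + Φ ((l : ℚ) * ((b : ℚ) / D)) -
      Φ ((b : ℚ) / D / l) := by
    have h1 := h.mob (l * (2 - q)) b' (-c1) q' hdet2 hNc1' (neg_ne_zero.2 hc10) 0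
      (by simpa using hq'0)
    rw [mul_zero, zero_add, mul_zero, zero_add, h00] at h1
    have hden : (((-c1 : ℤ) : ℚ)) * ((b : ℚ) / D / l) + (q' : ℚ) = 1 / l := by
      push_cast
      rw [hc1Q]
      field_simp
      rw [← hqq'Q, hq1Q]
      ring
    have h2 := h.mob (l * (2 - q)) b' (-c1) q' hdet2 hNc1' (neg_ne_zero.2 hc10)
      ((b : ℚ) / D / l) (by rw [hden]; exact div_ne_zero one_ne_zero hl0)
    rw [hden] at h2
    have hnum : ((((l * (2 - q) : ℤ) : ℚ)) * ((b : ℚ) / D / l) + (b' : ℚ)) / (1 / l) =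
        (l : ℚ) * ((b : ℚ) / D) := by
      push_cast
      rw [hb'Q, hq1Q]
      field_simp
      ring
    rw [hnum] at h2
    have e1 : (l : ℚ) * ((b' : ℚ) / q) = (b' : ℚ) / q' := by
      rw [hqq'Q]; field_simp
    rw [e1, h1, h2]
    abel
  -- (3)
  obtain ⟨g, hg⟩ := hk1
  have hgQ : (b : ℚ) + k1 * D = l * g := by exact_mod_cast hg
  set t : ℤ := q + k1 * c1 with ht
  have htQ : (t : ℚ) = q + k1 * c1 := by rw [ht]; push_cast; ring
  have hlc : -(l * c1) ≠ 0 := neg_ne_zero.2 (mul_ne_zero hl0' hc10)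
  have hNlc : (N : ℤ) ∣ -(l * c1) := (dvd_neg).2 (Dvd.dvd.mul_left hNc1 _)
  have ht1 : t - 1 = D * N * m * (l * g) := by
    rw [ht, ← hg, hc1]
    linear_combination hq1
  have hdet3 : (2 - t) * t - (N * m * l * g ^ 2) * (-(l * c1)) = 1 := by
    have h1 : (N * m * l * g ^ 2) * (l * c1) = (t - 1) ^ 2 := by
      rw [ht1, hc1]; ring
    linear_combination h1
  have ht1Q : (t : ℚ) - 1 = D * N * m * (l * g) := by exact_mod_cast ht1
  have s3 : Φ (((2 - t : ℤ) : ℚ) / ((-(l * c1) : ℤ) : ℚ)) = 0 := by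
    have hden : (((-(l * c1) : ℤ) : ℚ)) * ((g : ℚ) / D) + (t : ℚ) = 1 := by
      have : (t : ℚ) = 1 + D * N * m * (l * g) := by linear_combination ht1Q
      push_cast
      rw [this, hc1Q]
      field_simp
      ring
    have h1 := h.mob (2 - t) (N * m * l * g ^ 2) (-(l * c1)) t hdet3 hNlc hlc ((g : ℚ) / D)
      (by rw [hden]; exact one_ne_zero)
    rw [hden] at h1
    have hnum : ((((2 - t : ℤ) : ℚ)) * ((g : ℚ) / D) + ((N * m * l * g ^ 2 : ℤ) : ℚ)) / 1 =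
        (g : ℚ) / D := by
      have : (t : ℚ) = 1 + D * N * m * (l * g) := by linear_combination ht1Q
      push_cast
      rw [this]
      field_simp
      ring
    rw [hnum] at h1
    exact left_eq_add.1 h1
  have s3' : Φ (((b' : ℚ) / q + k1) / l) = Φ ((k1 : ℚ) / l) := by
    have hden : (((-(l * c1) : ℤ) : ℚ)) * ((k1 : ℚ) / l) + (t : ℚ) = q := by
      push_cast
      rw [htQ]
      field_simp
      ring
    have h1 := h.mob (2 - t) (N * m * l * g ^ 2) (-(l * c1)) t hdet3 hNlc hlc ((k1 : ℚ) / l)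
      (by rw [hden]; exact hq0)
    rw [hden, s3, add_zero] at h1
    rw [← h1]
    congr 1
    have h2 : (l : ℚ) * ((N * m * l * g ^ 2 : ℤ) : ℚ) = N * m * (b + k1 * D) ^ 2 := by
      rw [hgQ]; push_cast; ring
    have h3 : ((((2 - t : ℤ) : ℚ)) * ((k1 : ℚ) / l) + ((N * m * l * g ^ 2 : ℤ) : ℚ)) =
        (b' + k1 * q) / l := by
      rw [eq_div_iff hl0, add_mul, mul_comm ((N * m * l * g ^ 2 : ℤ) : ℚ), h2, mul_assoc,
        div_mul_cancel₀ _ hl0]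
      push_cast
      rw [htQ, hb'Q, hc1Q, hq1Q]
      ring
    rw [h3]
    field_simp
  -- (4)
  have hlq : (l : ℤ) ∣ q := ⟨q', hqq'⟩
  have hlb' : ¬ (l : ℤ) ∣ b' := by
    intro hh
    have h1 : (l : ℤ) ∣ D * b' := Dvd.dvd.mul_left hh _
    have h2 : D * b' = b * q - b := by
      rw [hb']
      linear_combination (-b) * hq1
    rw [h2, dvd_sub_right (Dvd.dvd.mul_left hlq _)] at h1
    exact hb h1
  have s4 : ∀ k : ℤ, Φ (((b' : ℚ) / q + k) / l) = Φ ((k1 : ℚ) / l) := by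
    intro k
    rw [← s3']
    obtain ⟨u, v, huv⟩ := ((Prime.coprime_iff_not_dvd hlZ).2 hlb').symm
    -- u * b' + v * l = 1
    obtain ⟨i, w, hw⟩ := hfill e hen0 ((k1 - k) * u)
    have hx : IsCoprime (b' + k * q) ((l : ℤ) ^ (e + 1)) := by
      apply IsCoprime.pow_right
      apply IsCoprime.symm
      rw [Prime.coprime_iff_not_dvd hlZ]
      intro hh
      rw [dvd_add_left (Dvd.dvd.mul_left hlq _)] at hh
      exact hlb' hh
    have hmN : IsCoprime ((l : ℤ) ^ (e + 1)) (N : ℤ) := by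
      apply IsCoprime.pow_left
      rw [Prime.coprime_iff_not_dvd hlZ]
      exact_mod_cast hlN
    have hmp : IsCoprime ((l : ℤ) ^ (e + 1)) (p : ℤ) := by
      apply IsCoprime.pow_left
      rw [Prime.coprime_iff_not_dvd hlZ]
      intro hh
      have : l ∣ p := by exact_mod_cast hh
      exact hlp ((Nat.prime_dvd_prime_iff_eq hl hp).1 this)
    have h1 := mul_powS hS hx hmN hmp i
    have e0 : ((((l : ℤ) ^ (e + 1) : ℤ)) : ℚ) = q * l := by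
      rw [pow_succ, ← hq]; push_cast; ring
    have e1 : ((b' : ℚ) / q + k) / l = ((b' + k * q : ℤ) : ℚ) / (((l : ℤ) ^ (e + 1) : ℤ) : ℚ) := by
      rw [e0]; push_cast; field_simp
    have hpi : (p : ℤ) ^ (2 * i) = 1 + (k1 - k) * u * q + q * l * w := by
      rw [← hq] at hw
      rw [pow_succ, ← hq] at hw
      linear_combination hw
    have hpiQ : (p : ℚ) ^ (2 * i) = 1 + (k1 - k) * u * q + q * l * w := by exact_mod_cast hpi
    have huvQ : (u : ℚ) * b' + v * l = 1 := by exact_mod_cast huv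
    have e2 : (p : ℚ) ^ (2 * i) * (((b' + k * q : ℤ) : ℚ) / (((l : ℤ) ^ (e + 1) : ℤ) : ℚ)) =
        ((b' : ℚ) / q + k1) / l +
          ((-((k1 - k) * v) + (k1 - k) * u * k * q' + w * (b' + k * q) : ℤ) : ℚ) := by
      rw [e0, hpiQ]
      push_cast
      field_simp
      rw [hqq'Q]
      linear_combination ((l : ℚ) * q' * (k1 - k)) * huvQ
    rw [e1, ← h1, e2, h.trans]
  -- (5)
  have h5 := hT ((b' : ℚ) / q)
  have h6 : ∑ k ∈ range l, Φ (((b' : ℚ) / q + k) / l) = l * Φ ((k1 : ℚ) / l) := by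
    have hk : ∀ k ∈ range l, Φ (((b' : ℚ) / q + (k : ℚ)) / l) = Φ ((k1 : ℚ) / l) := by
      intro k _
      have := s4 (k : ℤ)
      rwa [Int.cast_natCast] at this
    rw [Finset.sum_congr rfl hk, Finset.sum_const, card_range, nsmul_eq_mul]
  rw [h6, s1', s2] at h5
  rw [← h5]
  ring

/-- The relation `(H')`. -/
lemma hstarG {A : Type*} [CommRing A] {N : ℕ} {Φ : ℚ → A} (h : IsSym N Φ) (hN0 : N ≠ 0)
    {p : ℕ} (hp : p.Prime) {c0 : A}
    (hS : ∀ x m : ℤ, IsCoprime x m → IsCoprime m (N : ℤ) → IsCoprime m (p : ℤ) →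
      Φ ((p : ℚ) ^ 2 * ((x : ℚ) / m)) = Φ ((x : ℚ) / m)) (h00 : Φ 0 = c0)
    {l : ℕ} (hl : l.Prime) (hl2 : l ≠ 2) (hlp : l ≠ p) (hlN : ¬ l ∣ N) {al : A}
    (hT : ∀ y : ℚ, Φ ((l : ℚ) * y) + ∑ k ∈ range l, Φ ((y + k) / l) = al * Φ y)
    {b D k0 : ℤ} (hD : ¬ (l : ℤ) ∣ D) (hk0 : (l : ℤ) ∣ b + k0 * D) :
    l * Φ ((l : ℚ) * ((b : ℚ) / D)) + Φ (((b : ℚ) / D + k0) / l) - al * Φ ((b : ℚ) / D) =
      (l + 1 - al) * c0 := by
  have hlZ : Prime (l : ℤ) := Nat.prime_iff_prime_int.1 hl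
  have hl0 : (l : ℚ) ≠ 0 := by exact_mod_cast hl.ne_zero
  have hD0 : D ≠ 0 := by rintro rfl; exact hD (dvd_zero _)
  have hDq : (D : ℚ) ≠ 0 := by exact_mod_cast hD0
  obtain ⟨l', rfl⟩ : ∃ l', l = l' + 1 := ⟨l - 1, by have := hl.pos; omega⟩
  -- `T_l` at zero
  have hT0 := hT 0
  rw [mul_zero, h00, Finset.sum_range_succ'] at hT0
  -- `T_l` at `z + k0`
  have hTz := hT ((b : ℚ) / D + k0)
  rw [h.trans, Finset.sum_range_succ'] at hTz
  have e1 : Φ (((l' + 1 : ℕ) : ℚ) * ((b : ℚ) / D + k0)) = Φ (((l' + 1 : ℕ) : ℚ) * ((b : ℚ) / D)) := by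
    have : ((l' + 1 : ℕ) : ℚ) * ((b : ℚ) / D + k0) =
        ((l' + 1 : ℕ) : ℚ) * ((b : ℚ) / D) + (((l' + 1 : ℕ) * k0 : ℤ) : ℚ) := by
      push_cast; ring
    rw [this, h.trans]
  rw [e1] at hTz
  have e2 : ∀ k ∈ range l', Φ (((b : ℚ) / D + k0 + ((k + 1 : ℕ) : ℚ)) / ((l' + 1 : ℕ) : ℚ)) =
      Φ (((l' + 1 : ℕ) : ℚ) * ((b : ℚ) / D)) + c0 - al * c0 +
        ((l' + 1 : ℕ) : A) * Φ ((0 + ((l' - 1 - k + 1 : ℕ) : ℚ)) / ((l' + 1 : ℕ) : ℚ)) := by
    intro k hk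
    have hk' : k < l' := mem_range.1 hk
    have hb : ¬ ((l' + 1 : ℕ) : ℤ) ∣ b + (k0 + (k + 1)) * D := by
      intro hh
      have h1 : b + (k0 + ((k : ℤ) + 1)) * D = (b + k0 * D) + (k + 1) * D := by ring
      rw [h1, dvd_add_right hk0] at hh
      rcases hlZ.dvd_or_dvd hh with h2 | h2
      · have h3 : ((l' + 1 : ℕ) : ℤ) ≤ (k : ℤ) + 1 := Int.le_of_dvd (by positivity) h2
        push_cast at h3
        omega
      · exact hD h2
    have hk1 : ((l' + 1 : ℕ) : ℤ) ∣ (b + (k0 + (k + 1)) * D) + (-(k + 1)) * D := by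
      have h1 : (b + (k0 + ((k : ℤ) + 1)) * D) + (-(k + 1)) * D = b + k0 * D := by ring
      rwa [h1]
    have h2 := tripodG h hN0 hp hS h00 hl hl2 hlp hlN hT hb hD hk1
    have h3 : ((b + (k0 + (k + 1)) * D : ℤ) : ℚ) / D = (b : ℚ) / D + k0 + ((k + 1 : ℕ) : ℚ) := by
      push_cast; field_simp; ring
    rw [h3] at h2
    have h4 : Φ (((l' + 1 : ℕ) : ℚ) * ((b : ℚ) / D + k0 + ((k + 1 : ℕ) : ℚ))) =
        Φ (((l' + 1 : ℕ) : ℚ) * ((b : ℚ) / D)) := by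
      have : ((l' + 1 : ℕ) : ℚ) * ((b : ℚ) / D + k0 + ((k + 1 : ℕ) : ℚ)) =
          ((l' + 1 : ℕ) : ℚ) * ((b : ℚ) / D) + (((l' + 1 : ℕ) * (k0 + (k + 1)) : ℤ) : ℚ) := by
        push_cast; ring
      rw [this, h.trans]
    rw [h4] at h2
    have h5 : Φ (((-(k + 1) : ℤ) : ℚ) / ((l' + 1 : ℕ) : ℚ)) =
        Φ ((0 + ((l' - 1 - k + 1 : ℕ) : ℚ)) / ((l' + 1 : ℕ) : ℚ)) := by
      have h6 : ((l' - 1 - k + 1 : ℕ) : ℚ) = l' - k := by
        have : l' - 1 - k + 1 = l' - k := by omega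
        rw [this, Nat.cast_sub hk'.le]
      have h7 : (0 + ((l' - 1 - k + 1 : ℕ) : ℚ)) / ((l' + 1 : ℕ) : ℚ) =
          ((-(k + 1) : ℤ) : ℚ) / ((l' + 1 : ℕ) : ℚ) + ((1 : ℤ) : ℚ) := by
        rw [h6]
        field_simp
        push_cast
        ring
      rw [h7, h.trans]
    rw [← h5]
    linear_combination -h2
  rw [Finset.sum_congr rfl e2, Finset.sum_add_distrib, Finset.sum_const, card_range,
    ← Finset.mul_sum] at hTz
  rw [Finset.sum_range_reflect (fun k => Φ ((0 + ((k + 1 : ℕ) : ℚ)) / ((l' + 1 : ℕ) : ℚ))) l'] at hTz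
  set S := ∑ k ∈ range l', Φ ((0 + ((k + 1 : ℕ) : ℚ)) / ((l' + 1 : ℕ) : ℚ)) with hS
  have e3 : Φ ((0 + ((0 : ℕ) : ℚ)) / ((l' + 1 : ℕ) : ℚ)) = c0 := by
    rw [← h00]; congr 1; simp
  rw [e3] at hT0
  have e4 : ((b : ℚ) / D + k0 + ((0 : ℕ) : ℚ)) / ((l' + 1 : ℕ) : ℚ) =
      ((b : ℚ) / D + k0) / ((l' + 1 : ℕ) : ℚ) := by
    rw [Nat.cast_zero, add_zero]
  rw [e4, nsmul_eq_mul] at hTz
  push_cast at *
  linear_combination hTz - ((l' : A) + 1) * hT0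


/-- relations `(A)` and `(B)` -/
lemma relABG {A : Type*} [CommRing A] {N : ℕ} {Φ : ℚ → A} (h : IsSym N Φ) (hN0 : N ≠ 0)
    {p : ℕ} (hp : p.Prime) {c0 : A}
    (hS : ∀ x m : ℤ, IsCoprime x m → IsCoprime m (N : ℤ) → IsCoprime m (p : ℤ) →
      Φ ((p : ℚ) ^ 2 * ((x : ℚ) / m)) = Φ ((x : ℚ) / m)) (h00 : Φ 0 = c0)
    {l : ℕ} (hl : l.Prime) (hl2 : l ≠ 2) (hlp : l ≠ p) (hlN : ¬ l ∣ N) {al : A}
    (hT : ∀ y : ℚ, Φ ((l : ℚ) * y) + ∑ k ∈ range l, Φ ((y + k) / l) = al * Φ y)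
    {C : ℤ} (hC : C ≠ 0) (hNC : (N : ℤ) ∣ C) (hlC : ¬ (l : ℤ) ∣ C)
    {x x' a a' : ℤ} (hx : C ∣ x * x' - 1) (ha : C ∣ a * a' - 1) (hlx : C ∣ (l : ℤ) - x) :
    (l * Φ (((x * a : ℤ) : ℚ) / C) + Φ (((x' * a : ℤ) : ℚ) / C) - al * Φ ((a : ℚ) / C) =
      (l + 1 - al) * c0) ∧
    (l * Φ (((x' * a : ℤ) : ℚ) / C) + Φ (((x * a : ℤ) : ℚ) / C) - al * Φ ((a : ℚ) / C) =
      - ((l + 1 - al) * c0)) := by
  have hlZ : Prime (l : ℤ) := Nat.prime_iff_prime_int.1 hl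
  have hl0 : (l : ℚ) ≠ 0 := by exact_mod_cast hl.ne_zero
  have hCq : (C : ℚ) ≠ 0 := by exact_mod_cast hC
  have main : ∀ a : ℤ, l * Φ (((x * a : ℤ) : ℚ) / C) + Φ (((x' * a : ℤ) : ℚ) / C) -
      al * Φ ((a : ℚ) / C) = (l + 1 - al) * c0 := by
    intro a
    obtain ⟨u, v, huv⟩ := ((Prime.coprime_iff_not_dvd hlZ).2 hlC)
    -- u * l + v * C = 1
    have hk0 : (l : ℤ) ∣ a + (-(a * v)) * C := ⟨a * u, by linear_combination (-a) * huv⟩
    have h1 := hstarG h hN0 hp hS h00 hl hl2 hlp hlN hT hlC hk0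
    obtain ⟨g, hg⟩ := hk0
    have e1 : ((a : ℚ) / C + ((-(a * v) : ℤ) : ℚ)) / l = (g : ℚ) / C := by
      have : (a : ℚ) + (-(a * v) : ℤ) * C = l * g := by exact_mod_cast hg
      rw [div_eq_div_iff hl0 hCq, add_mul, div_mul_cancel₀ _ hCq, this]
      ring
    have e2 : (l : ℚ) * ((a : ℚ) / C) = (((l : ℤ) * a : ℤ) : ℚ) / C := by push_cast; ring
    rw [e1, e2, per h hC (a := (l : ℤ) * a) (a' := x * a) (by
      have : (l : ℤ) * a - x * a = (l - x) * a := by ring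
      rw [this]
      exact Dvd.dvd.mul_right hlx _)] at h1
    rw [per h hC (a := g) (a' := x' * a) (by
      -- x * g = l * g = a mod C
      obtain ⟨s, hs⟩ := hx
      obtain ⟨t, ht⟩ := hlx
      refine ⟨-(s * g) - x' * a * v - x' * t * g, ?_⟩
      linear_combination (-g) * hs + (x' : ℤ) * hg * (-1) + (-(x' * g)) * ht * (1 : ℤ))] at h1
    exact h1
  refine ⟨main a, ?_⟩
  have h2 := main (-a')
  have f1 : Φ (((x * -a' : ℤ) : ℚ) / C) = - Φ (((x' * a : ℤ) : ℚ) / C) := by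
    have := invm h hC hNC (a := x' * a) (d := x * a') (by
      obtain ⟨s, hs⟩ := hx
      obtain ⟨t, ht⟩ := ha
      refine ⟨s * (a * a') + t, ?_⟩
      linear_combination (a * a') * hs + ht)
    rw [← this]
    congr 2
    push_cast
    ring
  have f2 : Φ (((x' * -a' : ℤ) : ℚ) / C) = - Φ (((x * a : ℤ) : ℚ) / C) := by
    have := invm h hC hNC (a := x * a) (d := x' * a') (by
      obtain ⟨s, hs⟩ := hx
      obtain ⟨t, ht⟩ := ha
      refine ⟨s * (a * a') + t, ?_⟩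
      linear_combination (a * a') * hs + ht)
    rw [← this]
    congr 2
    push_cast
    ring
  have f3 : Φ (((-a' : ℤ) : ℚ) / C) = - Φ ((a : ℚ) / C) := invm h hC hNC ha
  rw [f1, f2, f3] at h2
  linear_combination -h2


end Pool.Agent.MZ
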