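import Mathlib
import Pool.Agent.MZ.CoreG2

open Finset

namespace Pool.Agent.MZ

/-- a prime in given classes modulo `C` and modulo `P` -/
lemma exists_prime2 {C P : ℕ} (hC : C ≠ 0) (hP : P ≠ 0) (hcop : Nat.Coprime C P) {x : ℤ}
    (hx : IsCoprime x (C : ℤ)) {r : ℕ} (hr : Nat.Coprime r P) (B : ℕ) :
    ∃ l : ℕ, l.Prime ∧ B < l ∧ (C : ℤ) ∣ (l : ℤ) - x ∧ (P : ℤ) ∣ (l : ℤ) - r := by
  have hcopZ : IsCoprime (C : ℤ) (P : ℤ) := Nat.isCoprime_iff_coprime.2 hcop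
  have hCp : C * P ≠ 0 := mul_ne_zero hC hP
  have : NeZero (C * P) := ⟨hCp⟩
  obtain ⟨u, v, huv⟩ := hcopZ
  -- u * C + v * P = 1
  set y : ℤ := x * (v * P) + r * (u * C) with hy
  have hyC : (C : ℤ) ∣ y - x := ⟨r * u - x * u, by rw [hy]; linear_combination x * huv⟩
  have hyp : (P : ℤ) ∣ y - r := ⟨x * v - r * v, by rw [hy]; linear_combination (r : ℤ) * huv⟩
  have hycop : IsCoprime y ((C * P : ℕ) : ℤ) := by
    push_cast
    refine IsCoprime.mul_right ?_ ?_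
    · obtain ⟨s, hs⟩ := hyC
      have : y = x + C * s := by linear_combination hs
      rw [this]
      exact IsCoprime.add_mul_left_left hx _
    · obtain ⟨s, hs⟩ := hyp
      have : y = r + P * s := by linear_combination hs
      rw [this]
      refine IsCoprime.add_mul_left_left ?_ _
      exact Nat.isCoprime_iff_coprime.2 hr
  have hunit : IsUnit ((y : ZMod (C * P))) := by
    obtain ⟨s, t, hst⟩ := hycop
    refine isUnit_iff_exists_inv.2 ⟨(s : ZMod (C * P)), ?_⟩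
    have h1 := congrArg (Int.cast : ℤ → ZMod (C * P)) hst
    push_cast at h1
    have h2 : ((C : ZMod (C * P)) * (P : ZMod (C * P))) = 0 := by
      have := ZMod.natCast_self (C * P)
      push_cast at this
      exact this
    rw [h2, mul_zero, add_zero] at h1
    linear_combination h1
  obtain ⟨l, hlB, hl, hly⟩ := Nat.forall_exists_prime_gt_and_eq_mod hunit B
  have h3 : (((l : ℤ) : ZMod (C * P))) = ((y : ℤ) : ZMod (C * P)) := by
    rw [Int.cast_natCast]; exact hly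
  have h4 : ((C * P : ℕ) : ℤ) ∣ (l : ℤ) - y := by
    have := (ZMod.intCast_eq_intCast_iff_dvd_sub (y : ℤ) (l : ℤ) (C * P)).1 h3.symm
    exact this
  push_cast at h4
  refine ⟨l, hl, hlB, ?_, ?_⟩
  · have h5 : (C : ℤ) ∣ (l : ℤ) - y := (Dvd.intro _ rfl).trans h4
    have h6 := dvd_add h5 hyC
    have h7 : (l : ℤ) - y + (y - x) = l - x := by ring
    rwa [h7] at h6
  · have h5 : (P : ℤ) ∣ (l : ℤ) - y := (Dvd.intro_left _ rfl).trans h4
    have h6 := dvd_add h5 hyp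
    have h7 : (l : ℤ) - y + (y - r) = l - r := by ring
    rwa [h7] at h6

lemma isUnit_two {A : Type*} [CommRing A] {p K : ℕ} (hp : p.Prime) (hp2 : p ≠ 2)
    (hK : (p : A) ^ K = 0) : IsUnit (2 : A) := by
  have hodd : Odd (p ^ K) := (hp.odd_of_ne_two hp2).pow
  obtain ⟨t, ht⟩ := hodd
  have h1 : ((p ^ K : ℕ) : A) = 2 * t + 1 := by rw [ht]; push_cast; ring
  rw [Nat.cast_pow, hK] at h1
  exact isUnit_iff_exists_inv.2 ⟨-(t : A), by linear_combination h1⟩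

/-- vanishing at `x/C` for `x = ±1` mod `N`, `C` prime to `p` -/
lemma vanish_pm {A : Type*} [CommRing A] {N : ℕ} {Φ : ℚ → A} (h : IsSym N Φ) (hN0 : N ≠ 0)
    {p : ℕ} (hp : p.Prime) (hp2 : p ≠ 2) {K : ℕ} (hK : (p : A) ^ K = 0) {c0 : A}
    (hS : ∀ x m : ℤ, IsCoprime x m → IsCoprime m (N : ℤ) → IsCoprime m (p : ℤ) →
      Φ ((p : ℚ) ^ 2 * ((x : ℚ) / m)) = Φ ((x : ℚ) / m)) (h00 : Φ 0 = c0) {al : ℕ → A}
    (hT : ∀ l : ℕ, l.Prime → l ≠ p → ¬ l ∣ N → ∀ y : ℚ,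
      Φ ((l : ℚ) * y) + ∑ k ∈ range l, Φ ((y + k) / l) = al l * Φ y)
    {C : ℕ} (hC : C ≠ 0) (hNC : N ∣ C) (hpC : ¬ p ∣ C) {x : ℤ} (hx : IsCoprime x (C : ℤ))
    (hxN : (N : ℤ) ∣ x * x - 1) :
    Φ ((x : ℚ) / (C : ℤ)) = 0 := by
  have h2 : IsUnit (2 : A) := isUnit_two hp hp2 hK
  have hCZ : (C : ℤ) ≠ 0 := by exact_mod_cast hC
  have hNZ : (N : ℤ) ≠ 0 := by exact_mod_cast hN0
  have hNCZ : (N : ℤ) ∣ (C : ℤ) := by exact_mod_cast hNC
  have hone : Φ (((1 : ℤ) : ℚ) / (C : ℤ)) = 0 := by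
    rw [Int.cast_one]; exact one_div h hCZ hNCZ
  have hPK : p ^ K ≠ 0 := pow_ne_zero _ hp.ne_zero
  have hcopCP : Nat.Coprime C (p ^ K) :=
    Nat.Coprime.pow_right _ ((Nat.Prime.coprime_iff_not_dvd hp).2 hpC).symm
  have hcop2 : Nat.Coprime 2 (p ^ K) :=
    Nat.Coprime.pow_right _ ((Nat.coprime_primes Nat.prime_two hp).2 (Ne.symm hp2))
  obtain ⟨l1, hl1, hB1, hl1C, hl1p⟩ := exists_prime2 hC hPK hcopCP hx
    (Nat.coprime_one_left (p ^ K)) (C + N + p + 2)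
  obtain ⟨l2, hl2, hB2, hl2C, hl2p⟩ := exists_prime2 hC hPK hcopCP hx hcop2 (C + N + p + 2)
  have nd : ∀ l : ℕ, l.Prime → C + N + p + 2 < l → ¬ (l : ℤ) ∣ (C : ℤ) ∧ ¬ l ∣ N := by
    intro l _ hB
    constructor
    · intro hh
      have h1 : l ∣ C := by exact_mod_cast hh
      have := Nat.le_of_dvd (Nat.pos_of_ne_zero hC) h1
      omega
    · intro hh
      have := Nat.le_of_dvd (Nat.pos_of_ne_zero hN0) hh
      omega
  have cl1 : (l1 : A) = 1 := by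
    obtain ⟨s, hs⟩ := hl1p
    have h1 : ((l1 : ℤ) : A) = ((1 + p ^ K * s : ℤ) : A) := by
      congr 1
      push_cast at hs
      linear_combination hs
    push_cast at h1
    rw [hK, zero_mul, add_zero] at h1
    exact h1
  have cl2 : (l2 : A) = 2 := by
    obtain ⟨s, hs⟩ := hl2p
    have h1 : ((l2 : ℤ) : A) = ((2 + p ^ K * s : ℤ) : A) := by
      congr 1
      push_cast at hs
      linear_combination hs
    push_cast at h1
    rw [hK, zero_mul, add_zero] at h1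
    exact h1
  obtain ⟨x', hxx⟩ : ∃ x' : ℤ, (C : ℤ) ∣ x * x' - 1 := by
    obtain ⟨u, v, huv⟩ := hx
    exact ⟨u, -v, by linear_combination huv⟩
  have h11 : ∀ M : ℤ, M ∣ 1 * 1 - 1 := fun M => by simp
  obtain ⟨A1, B1⟩ := relABG h hN0 hp hS h00 hl1 (by omega) (by omega) (nd l1 hl1 hB1).2
    (hT l1 hl1 (by omega) (nd l1 hl1 hB1).2) hCZ hNCZ (nd l1 hl1 hB1).1 hxx (h11 _) hl1C
  obtain ⟨A2, B2⟩ := relABG h hN0 hp hS h00 hl2 (by omega) (by omega) (nd l2 hl2 hB2).2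
    (hT l2 hl2 (by omega) (nd l2 hl2 hB2).2) hCZ hNCZ (nd l2 hl2 hB2).1 hxx (h11 _) hl2C
  have hl2N : ¬ (l2 : ℤ) ∣ (N : ℤ) := by
    intro hh
    exact (nd l2 hl2 hB2).2 (by exact_mod_cast hh)
  obtain ⟨A3, B3⟩ := relABG h hN0 hp hS h00 hl2 (by omega) (by omega) (nd l2 hl2 hB2).2
    (hT l2 hl2 (by omega) (nd l2 hl2 hB2).2) hNZ dvd_rfl hl2N hxN (h11 _) (hNCZ.trans hl2C)
  rw [cl1, hone, mul_one, mul_one] at A1 B1
  rw [cl2, hone, mul_one, mul_one] at A2 B2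
  rw [cl2, mul_one] at A3 B3
  have k1 : 2 * Φ ((x : ℚ) / (C : ℤ)) = 0 := by
    have e1 : 2 * (Φ ((x : ℚ) / (C : ℤ)) + Φ ((x' : ℚ) / (C : ℤ))) = 0 := by
      linear_combination A1 + B1
    have e2 := (h2.mul_right_eq_zero).1 e1
    linear_combination e2 + A2 - B2 - A3 + B3
  exact (h2.mul_right_eq_zero).1 k1

/-- **Theorem A***: the periods over `Γ₁(N)` vanish. -/
theorem thmG {A : Type*} [CommRing A] {N : ℕ} {Φ : ℚ → A} (h : IsSym N Φ) (hN0 : N ≠ 0)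
    {p : ℕ} (hp : p.Prime) (hp2 : p ≠ 2) (hpN : ¬ p ∣ N) {K : ℕ} (hK : (p : A) ^ K = 0) {c0 : A}
    (hS : ∀ x m : ℤ, IsCoprime x m → IsCoprime m (N : ℤ) → IsCoprime m (p : ℤ) →
      Φ ((p : ℚ) ^ 2 * ((x : ℚ) / m)) = Φ ((x : ℚ) / m)) (h00 : Φ 0 = c0) {al : ℕ → A}
    (hT : ∀ l : ℕ, l.Prime → l ≠ p → ¬ l ∣ N → ∀ y : ℚ,
      Φ ((l : ℚ) * y) + ∑ k ∈ range l, Φ ((y + k) / l) = al l * Φ y)
    {a c : ℤ} (hc : c ≠ 0) (hac : IsCoprime a c) (hNc : (N : ℤ) ∣ c) (haN : (N : ℤ) ∣ a - 1) :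
    Φ ((a : ℚ) / c) = 0 := by
  have hpZ : Prime (p : ℤ) := Nat.prime_iff_prime_int.1 hp
  -- first the case `p ∤ c`
  have hcase : ∀ a c : ℤ, c ≠ 0 → IsCoprime a c → (N : ℤ) ∣ c → ¬ (p : ℤ) ∣ c →
      (N : ℤ) ∣ a - 1 → Φ ((a : ℚ) / c) = 0 := by
    intro a c hc hac hNc hpc haN
    set C : ℕ := c.natAbs with hCdef
    have hC : C ≠ 0 := Int.natAbs_ne_zero.2 hc
    have hNC : N ∣ C := by
      rw [hCdef]
      exact Int.natCast_dvd.1 hNc
    have hpC : ¬ p ∣ C := by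
      rw [hCdef]
      intro hh
      exact hpc (Int.natCast_dvd.2 hh)
    have haN2 : (N : ℤ) ∣ a * a - 1 := by
      have : a * a - 1 = (a - 1) * (a + 1) := by ring
      rw [this]
      exact Dvd.dvd.mul_right haN _
    rcases Int.natAbs_eq c with h1 | h1
    · have h2 := vanish_pm h hN0 hp hp2 hK hS h00 hT hC hNC hpC (x := a) (by
        rw [hCdef, ← h1]; exact hac) haN2
      rw [hCdef, ← h1] at h2
      exact h2
    · have h3 : ((c.natAbs : ℕ) : ℤ) = -c := by linear_combination h1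
      have h2 := vanish_pm h hN0 hp hp2 hK hS h00 hT hC hNC hpC (x := -a) (by
        rw [hCdef, h3]; exact IsCoprime.neg_neg hac) (by rwa [neg_mul_neg])
      rw [hCdef, h3] at h2
      rw [← h2]
      congr 1
      push_cast
      rw [neg_div_neg_eq]
  by_cases hpc : (p : ℤ) ∣ c
  · have hpa : ¬ (p : ℤ) ∣ a := by
      intro hh
      exact hpZ.not_isUnit (hac.isUnit_of_dvd' hh hpc)
    have hpN' : ¬ (p : ℤ) ∣ (N : ℤ) := by exact_mod_cast hpN
    have hpc' : ¬ (p : ℤ) ∣ (N : ℤ) * a + c := by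
      intro hh
      rw [dvd_add_left hpc] at hh
      rcases hpZ.dvd_or_dvd hh with h1 | h1
      · exact hpN' h1
      · exact hpa h1
    have hc' : (N : ℤ) * a + c ≠ 0 := by
      intro h0
      rw [h0] at hpc'
      exact hpc' (dvd_zero _)
    have hNZ : (N : ℤ) ≠ 0 := by exact_mod_cast hN0
    have hcq : (c : ℚ) ≠ 0 := by exact_mod_cast hc
    have hc'q : ((N : ℤ) : ℚ) * a + c ≠ 0 := by exact_mod_cast hc'
    have e1 : ((N : ℤ) : ℚ) * ((a : ℚ) / c) + ((1 : ℤ) : ℚ) = (((N : ℤ) : ℚ) * a + c) / c := by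
      field_simp
      push_cast
      ring
    have h1 := h.mob 1 0 N 1 (by ring) dvd_rfl hNZ ((a : ℚ) / c) (by
      rw [e1]; exact div_ne_zero hc'q hcq)
    rw [e1] at h1
    have e2 : (((1 : ℤ) : ℚ) * ((a : ℚ) / c) + ((0 : ℤ) : ℚ)) / ((((N : ℤ) : ℚ) * a + c) / c) =
        (a : ℚ) / (((N : ℤ) * a + c : ℤ) : ℚ) := by
      push_cast
      rw [Int.cast_natCast] at hc'q
      field_simp
      ring
    rw [e2, hcase a _ hc' (by
      have : (N : ℤ) * a + c = c + a * N := by ring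
      rw [this]
      exact IsCoprime.add_mul_left_right hac _) (dvd_add (Dvd.intro _ rfl) hNc) hpc' haN] at h1
    have e3 : Φ (((1 : ℤ) : ℚ) / ((N : ℤ) : ℚ)) = 0 := by
      rw [Int.cast_one]
      exact one_div h hNZ dvd_rfl
    rw [e3, add_zero] at h1
    exact h1.symm
  · exact hcase a c hc hac hNc hpc haN

/-- Corollary: if the measure vanishes in `A` then the periods over `Γ₁(N)` vanish in `A`. -/
theorem corG {A : Type*} [CommRing A] {N : ℕ} {Φ : ℚ → A} (h : IsSym N Φ) (hN0 : N ≠ 0)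
    {p : ℕ} (hp : p.Prime) (hp2 : p ≠ 2) (hpN : ¬ p ∣ N) {K : ℕ} (hK : (p : A) ^ K = 0)
    {al : ℕ → A} (α : Aˣ) (hα : (α : A) ^ 2 - al p * α + p = 0)
    (hT : ∀ l : ℕ, l.Prime → ¬ l ∣ N → ∀ y : ℚ,
      Φ ((l : ℚ) * y) + ∑ k ∈ range l, Φ ((y + k) / l) = al l * Φ y)
    (hmu : ∀ (n : ℕ) (a : ℤ), ¬ (p : ℤ) ∣ a →
      (α : A) * Φ ((a : ℚ) / (p : ℚ) ^ (n + 1)) = Φ ((a : ℚ) / (p : ℚ) ^ n))
    {a c : ℤ} (hc : c ≠ 0) (hac : IsCoprime a c) (hNc : (N : ℤ) ∣ c) (haN : (N : ℤ) ∣ a - 1) :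
    Φ ((a : ℚ) / c) = 0 := by
  set c0 := Φ 0 with hc0
  set β : A := ((α⁻¹ : Aˣ) : A) with hβ
  have hαβ : (α : A) * β = 1 := by rw [hβ, Units.mul_inv]
  have hint : ∀ a : ℤ, Φ (a : ℚ) = c0 := by
    intro a
    have := h.trans 0 a
    rwa [zero_add] at this
  have h1 : ∀ (n : ℕ) (a : ℤ), (n = 0 ∨ ¬ (p : ℤ) ∣ a) →
      Φ ((a : ℚ) / (p : ℚ) ^ n) = β ^ n * c0 := by
    intro n
    induction n with
    | zero => intro a _; simpa using hint a
    | succ n ih =>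
      intro a ha
      have ha' : ¬ (p : ℤ) ∣ a := ha.resolve_left (Nat.succ_ne_zero _)
      have h2 := hmu n a ha'
      rw [ih a (Or.inr ha')] at h2
      have h3 : Φ ((a : ℚ) / (p : ℚ) ^ (n + 1)) =
          β * ((α : A) * Φ ((a : ℚ) / (p : ℚ) ^ (n + 1))) := by
        rw [← mul_assoc, mul_comm β, hαβ, one_mul]
      rw [h3, h2, pow_succ]
      ring
  -- `T_p` at zero
  have h2 := hT p hp hpN 0
  obtain ⟨p', hp'⟩ : ∃ p', p = p' + 1 := ⟨p - 1, by have := hp.pos; omega⟩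
  have h3 : ∑ k ∈ range p, Φ ((0 + (k : ℚ)) / p) = (1 + (p' : A) * β) * c0 := by
    have h4 : ∀ k ∈ range p, Φ ((0 + (k : ℚ)) / p) = if k = 0 then c0 else β * c0 := by
      intro k hk
      have hk' := mem_range.1 hk
      split_ifs with hk0
      · rw [hk0]; simp [hc0]
      · have h5 := h1 1 (k : ℤ) (by
          right
          intro hh
          have h6 : p ∣ k := by exact_mod_cast hh
          exact absurd (Nat.le_of_dvd (Nat.pos_of_ne_zero hk0) h6) (by omega))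
        rw [pow_one, pow_one, Int.cast_natCast] at h5
        rw [zero_add]
        exact h5
    rw [Finset.sum_congr rfl h4]
    have h7 : range p = range (p' + 1) := by rw [hp']
    rw [h7, Finset.sum_range_succ']
    simp
    ring
  rw [mul_zero, ← hc0, h3] at h2
  have hpp : (p : A) = (p' : A) + 1 := by
    rw [hp']; push_cast; rfl
  have hap : al p = (α : A) + p * β := by
    linear_combination (-β) * hα + (α - al p : A) * hαβ
  have h9 : (2 - (α : A) - β) * c0 = 0 := by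
    rw [hap, hpp] at h2
    linear_combination h2
  set e : A := (β - 1) * c0 with he
  have hβe : β * e = e := by
    rw [he]
    linear_combination (-β) * h9 - c0 * hαβ
  have hR : ∀ (m : ℤ) (n : ℕ), (n = 0 ∨ ¬ (p : ℤ) ∣ m) →
      Φ ((m : ℚ) / (p : ℚ) ^ n) = c0 + n * e := by
    have h10 : ∀ n : ℕ, β ^ n * c0 = c0 + n * e := by
      intro n
      induction n with
      | zero => simp
      | succ n ih =>
        have : β ^ (n + 1) * c0 = β * (β ^ n * c0) := by ring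
        rw [this, ih]
        push_cast
        linear_combination (n : A) * hβe - he
    intro m n hmn
    rw [h1 n m hmn, h10]
  exact thmG h hN0 hp hp2 hpN hK (fun x m hxm hmN hmp => mul_sqG h hN0 hp hpN hK hR hxm hmN hmp)
    rfl (al := al) (fun l hl _ hlN => hT l hl hlN) hc hac hNc haN

end Pool.Agent.MZ
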