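import Mathlib
import Pool.Agent.MZ.Bridge
import Pool.Agent.MZ.CoreG3
import Pool.Agent.MZ.Conv

open Matrix Matrix.SpecialLinearGroup OnePoint CongruenceSubgroup Finset
open scoped MatrixGroups

namespace Pool.Agent.MZ

/-- **Content theorem.** `p^K` divides the whole Mazur-Swinnerton-Dyer measure if and only if
`p^K` divides all periods over `Γ₁(N)`. -/
theorem periods_content {N : ℕ} (hN0 : N ≠ 0) {p : ℕ} [Fact p.Prime] (hp2 : p ≠ 2)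
    (hpN : ¬ p ∣ N) (φ : ModSym N ℤ_[p]) (a : ℕ → ℤ_[p])
    (hH : ∀ l : ℕ, l.Prime → ¬ l ∣ N → φ.HeckeEigen l (a l))
    (α : ℤ_[p]ˣ) (hα : (α : ℤ_[p]) ^ 2 - a p * α + p = 0) (K : ℕ) :
    (∀ (n : ℕ) (b : ℤ), ¬ (p : ℤ) ∣ b → (p : ℤ_[p]) ^ K ∣ msd φ p α n b) ↔
      ∀ γ ∈ Gamma1 N, (p : ℤ_[p]) ^ K ∣ φ.val ∞ (mapGL ℚ γ • ∞) := by
  have hp : p.Prime := Fact.out
  set I : Ideal ℤ_[p] := Ideal.span {(p : ℤ_[p]) ^ K} with hI
  set f : ℤ_[p] →+* ℤ_[p] ⧸ I := Ideal.Quotient.mk I with hf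
  have hker : ∀ x : ℤ_[p], f x = 0 ↔ (p : ℤ_[p]) ^ K ∣ x := by
    intro x
    rw [hf, Ideal.Quotient.eq_zero_iff_mem, hI, Ideal.mem_span_singleton]
  have hK : ((p : ℕ) : ℤ_[p] ⧸ I) ^ K = 0 := by
    have : f ((p : ℤ_[p]) ^ K) = 0 := (hker _).2 dvd_rfl
    rwa [map_pow, map_natCast] at this
  set ψ := φ.map f with hψ
  set α' : (ℤ_[p] ⧸ I)ˣ := Units.map (f : ℤ_[p] →* ℤ_[p] ⧸ I) α with hα'
  have hαc : (α' : ℤ_[p] ⧸ I) = f α := rfl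
  have hαinv : ((α'⁻¹ : (ℤ_[p] ⧸ I)ˣ) : ℤ_[p] ⧸ I) = f ((α⁻¹ : ℤ_[p]ˣ) : ℤ_[p]) := rfl
  have hαeq : (α' : ℤ_[p] ⧸ I) ^ 2 - f (a p) * α' + (p : ℤ_[p] ⧸ I) = 0 := by
    have h1 := congrArg f hα
    rwa [map_add, map_sub, map_pow, map_mul, map_natCast, map_zero] at h1
  have hmsd : ∀ (n : ℕ) (b : ℤ), f (msd φ p α n b) = 0 ↔
      (α' : ℤ_[p] ⧸ I) * ψ.val ∞ ((((b : ℚ) / (p : ℚ) ^ (n + 1) : ℚ)) : OnePoint ℚ) =
        ψ.val ∞ ((((b : ℚ) / (p : ℚ) ^ n : ℚ)) : OnePoint ℚ) := by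
    intro n b
    have h1 : (α' : ℤ_[p] ⧸ I) ^ (n + 2) * f (msd φ p α n b) =
        (α' : ℤ_[p] ⧸ I) * ψ.val ∞ ((((b : ℚ) / (p : ℚ) ^ (n + 1) : ℚ)) : OnePoint ℚ) -
        ψ.val ∞ ((((b : ℚ) / (p : ℚ) ^ n : ℚ)) : OnePoint ℚ) := by
      rw [msd, map_sub, map_mul, map_mul, map_pow, map_pow, ← hαinv, hψ, ModSym.map_val,
        ModSym.map_val]
      have h2 : (α' : ℤ_[p] ⧸ I) ^ (n + 2) * ((α'⁻¹ : (ℤ_[p] ⧸ I)ˣ) : ℤ_[p] ⧸ I) ^ (n + 2) = 1 := by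
        rw [← _root_.mul_pow, Units.mul_inv, one_pow]
      have h3 : (α' : ℤ_[p] ⧸ I) ^ (n + 1) * ((α'⁻¹ : (ℤ_[p] ⧸ I)ˣ) : ℤ_[p] ⧸ I) ^ (n + 1) = 1 := by
        rw [← _root_.mul_pow, Units.mul_inv, one_pow]
      have h4 : (α' : ℤ_[p] ⧸ I) ^ (n + 2) = α' ^ (n + 1) * α' := pow_succ _ _
      linear_combination ((α' : ℤ_[p] ⧸ I) *
        f (φ.val ∞ ((((b : ℚ) / (p : ℚ) ^ (n + 1) : ℚ)) : OnePoint ℚ))) * h3 -
        f (φ.val ∞ ((((b : ℚ) / (p : ℚ) ^ n : ℚ)) : OnePoint ℚ)) * h2 +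
        (((α'⁻¹ : (ℤ_[p] ⧸ I)ˣ) : ℤ_[p] ⧸ I) ^ (n + 1) *
        f (φ.val ∞ ((((b : ℚ) / (p : ℚ) ^ (n + 1) : ℚ)) : OnePoint ℚ))) * h4
    constructor
    · intro h0
      rw [h0, mul_zero] at h1
      exact sub_eq_zero.1 h1.symm
    · intro h0
      rw [h0, sub_self] at h1
      have h5 : IsUnit ((α' : ℤ_[p] ⧸ I) ^ (n + 2)) := α'.isUnit.pow _
      exact (h5.mul_right_eq_zero).1 h1
  have hH' : ∀ l : ℕ, l.Prime → ¬ l ∣ N → ψ.HeckeEigen l (f (a l)) :=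
    fun l hl hlN => (hH l hl hlN).map f
  constructor
  · intro hm γ hγ
    rw [← hker]
    obtain ⟨g00, g11, g10⟩ := (Gamma1_mem N γ).1 hγ
    have hval : f (φ.val ∞ (mapGL ℚ γ • ∞)) = ψ.val ∞ (mapGL ℚ γ • ∞) := by
      rw [hψ, ModSym.map_val]
    rw [hval, ψ.infty]
    split_ifs with hc
    · rfl
    · have hdet := γ.det_coe
      rw [det_fin_two] at hdet
      exact corG ψ.isSym hN0 hp hp2 hpN hK (al := fun l => f (a l)) α' hαeq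
        (fun l hl hlN y => (hH' l hl hlN).phi y)
        (fun n b hb => (hmsd n b).1 ((hker _).2 (hm n b hb))) hc
        ⟨γ 1 1, -γ 0 1, by linear_combination hdet⟩
        ((ZMod.intCast_zmod_eq_zero_iff_dvd _ N).1 g10)
        ((ZMod.intCast_zmod_eq_zero_iff_dvd _ N).1 (by push_cast; rw [g00, sub_self]))
  · intro hper n b hb
    rw [← hker, hmsd]
    refine conv ψ.isSym hp hpN K hK (f (a p)) α' hαeq (fun y => (hH' p hp hpN).phi y) ?_ n b hb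
    intro a' c hac hc hNc haN
    obtain ⟨u, v, huv⟩ := hac
    obtain ⟨γ, h00, h01, h10, h11⟩ := exists_sl (a := a') (b := -v) (c := c) (d := u)
      (by linear_combination huv)
    have hmem : γ ∈ Gamma1 N := by
      rw [Gamma1_mem, h00, h10, h11]
      have ha1 : ((a' : ℤ) : ZMod N) = 1 := by
        have := (ZMod.intCast_zmod_eq_zero_iff_dvd _ N).2 haN
        push_cast at this
        exact sub_eq_zero.1 this
      have hc0 : ((c : ℤ) : ZMod N) = 0 := (ZMod.intCast_zmod_eq_zero_iff_dvd _ N).2 hNc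
      refine ⟨ha1, ?_, hc0⟩
      have h2 := congrArg (Int.cast : ℤ → ZMod N) huv
      push_cast at h2
      rw [ha1, hc0, mul_one, mul_zero, add_zero] at h2
      exact h2
    have h3 := (hker _).2 (hper γ hmem)
    have h4 : f (φ.val ∞ (mapGL ℚ γ • ∞)) = ψ.val ∞ (mapGL ℚ γ • ∞) := by
      rw [hψ, ModSym.map_val]
    rw [h4, ψ.infty, h10, if_neg hc, h00] at h3
    exact h3

end Pool.Agent.MZ
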