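import Mathlib
import Pool.Agent.MZ.Periods

open Matrix Matrix.SpecialLinearGroup OnePoint CongruenceSubgroup Finset
open scoped MatrixGroups

namespace Pool.Agent.MZ

section core

variable {A : Type*} [CommRing A] {N : ℕ} {Φ : ℚ → A}

/-- the stabilised symbol `α Φ(r) - Φ(p r)` -/
def stab (Φ : ℚ → A) (p : ℕ) (α : A) (r : ℚ) : A := α * Φ r - Φ ((p : ℚ) * r)

lemma stab_trans (h : IsSym N Φ) (p : ℕ) (α : A) (r : ℚ) (n : ℤ) :
    stab Φ p α (r + n) = stab Φ p α r := by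
  have e : (p : ℚ) * (r + n) = (p : ℚ) * r + ((p * n : ℤ) : ℚ) := by push_cast; ring
  rw [stab, stab, h.trans, e, h.trans]

lemma stab_mob (h : IsSym N Φ) {p : ℕ} (hp : p.Prime) (hpN : ¬ p ∣ N) (α : A) {a b c d : ℤ}
    (hdet : a * d - b * c = 1) (hN : (N : ℤ) ∣ c) (hpc : (p : ℤ) ∣ c) (hc : c ≠ 0) (y : ℚ)
    (hy : (c : ℚ) * y + d ≠ 0) :
    stab Φ p α (((a : ℚ) * y + b) / (c * y + d)) =
      stab Φ p α y + stab Φ p α ((a : ℚ) / c) := by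
  have hp0 : (p : ℚ) ≠ 0 := by exact_mod_cast hp.ne_zero
  have h1 := h.mob a b c d hdet hN hc y hy
  obtain ⟨c', rfl⟩ := hpc
  have hNc' : (N : ℤ) ∣ c' := by
    have hco : IsCoprime (N : ℤ) (p : ℤ) := by
      rw [Nat.isCoprime_iff_coprime]
      exact ((Nat.Prime.coprime_iff_not_dvd hp).2 hpN).symm
    exact hco.dvd_of_dvd_mul_left hN
  have hc'0 : c' ≠ 0 := by
    rintro rfl
    exact hc (mul_zero _)
  have hcq : (c' : ℚ) ≠ 0 := by exact_mod_cast hc'0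
  have hy' : (c' : ℚ) * ((p : ℚ) * y) + d ≠ 0 := by
    intro h0
    apply hy
    push_cast
    linear_combination h0
  have h2 := h.mob a (p * b) c' d (by linear_combination hdet) hNc' hc'0 ((p : ℚ) * y) hy'
  have e1 : (p : ℚ) * (((a : ℚ) * y + b) / (((p * c' : ℤ) : ℚ) * y + d)) =
      ((a : ℚ) * ((p : ℚ) * y) + ((p * b : ℤ) : ℚ)) / ((c' : ℚ) * ((p : ℚ) * y) + d) := by
    rw [mul_div_assoc']
    congr 1
    · push_cast; ring
    · push_cast; ring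
  have e2 : (p : ℚ) * ((a : ℚ) / ((p * c' : ℤ) : ℚ)) = (a : ℚ) / c' := by
    push_cast
    field_simp
  rw [stab, stab, stab, h1, e1, h2, e2]
  ring

lemma stab_up (h : IsSym N Φ) {p : ℕ} (hp : p.Prime) {ap α : A} (hα : α ^ 2 - ap * α + p = 0)
    (hT : ∀ y : ℚ, Φ ((p : ℚ) * y) + ∑ k ∈ range p, Φ ((y + k) / p) = ap * Φ y) (r : ℚ) :
    ∑ k ∈ range p, stab Φ p α ((r + k) / p) = α * stab Φ p α r := by
  have hp0 : (p : ℚ) ≠ 0 := by exact_mod_cast hp.ne_zero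
  have e1 : ∀ k ∈ range p, stab Φ p α ((r + k) / p) = α * Φ ((r + k) / p) - Φ r := by
    intro k _
    have e2 : (p : ℚ) * ((r + k) / p) = r + ((k : ℤ) : ℚ) := by
      push_cast
      field_simp
    rw [stab, e2, h.trans]
  rw [sum_congr rfl e1, sum_sub_distrib, ← mul_sum, sum_const, card_range, nsmul_eq_mul, stab]
  linear_combination α * hT r - Φ r * hα

/-- if the measure vanishes near one point of `ℤ_p^×` then it vanishes on `ℤ_p^×` -/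
theorem ball_zero (h : IsSym N Φ) (hN0 : N ≠ 0) {p : ℕ} (hp : p.Prime) (hpN : ¬ p ∣ N) {K : ℕ}
    (hpK : (p : A) ^ K = 0) {ap : A} (α : Aˣ) (hα : (α : A) ^ 2 - ap * α + p = 0)
    (hT : ∀ y : ℚ, Φ ((p : ℚ) * y) + ∑ k ∈ range p, Φ ((y + k) / p) = ap * Φ y)
    {c : ℤ} (hc : ¬ (p : ℤ) ∣ c) {m0 : ℕ} (hm0 : 1 ≤ m0)
    (H : ∀ (m : ℕ) (a : ℤ), m0 ≤ m → (p : ℤ) ^ m0 ∣ a - c → stab Φ p α ((a : ℚ) / (p : ℚ) ^ m) = 0)
    (n : ℕ) (s : ℤ) (hn : 1 ≤ n) (hs : ¬ (p : ℤ) ∣ s) : stab Φ p α ((s : ℚ) / (p : ℚ) ^ n) = 0 := by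
  have hp0 : (p : ℚ) ≠ 0 := by exact_mod_cast hp.ne_zero
  have hpZ : Prime (p : ℤ) := Nat.prime_iff_prime_int.1 hp
  have hNZ : (N : ℤ) ≠ 0 := by exact_mod_cast hN0
  have hpcop : ∀ x : ℤ, ¬ (p : ℤ) ∣ x → IsCoprime (p : ℤ) x := fun x hx =>
    (Prime.coprime_iff_not_dvd hpZ).2 hx
  have hpN' : ¬ (p : ℤ) ∣ (N : ℤ) := by exact_mod_cast hpN
  -- the point `1 / C`
  obtain ⟨C, hNC, hCc⟩ : ∃ C : ℤ, (N : ℤ) ∣ C ∧ (p : ℤ) ^ m0 ∣ C * c - 1 := by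
    have h1 : IsCoprime ((p : ℤ) ^ m0) ((N : ℤ) * c) := by
      apply IsCoprime.pow_left
      apply hpcop
      intro hh
      rcases hpZ.dvd_or_dvd hh with h1 | h1
      · exact hpN' h1
      · exact hc h1
    obtain ⟨u, v, huv⟩ := h1
    exact ⟨N * v, dvd_mul_right _ _, ⟨-u, by linear_combination huv⟩⟩
  have hpm : (p : ℤ) ∣ (p : ℤ) ^ m0 := dvd_pow_self _ (by omega)
  have hpC : ¬ (p : ℤ) ∣ C := by
    intro hh
    have h1 : (p : ℤ) ∣ 1 := by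
      have h2 := dvd_sub (hh.mul_right c) (hpm.trans hCc)
      have h3 : C * c - (C * c - 1) = 1 := by ring
      rwa [h3] at h2
    exact hpZ.not_isUnit (isUnit_of_dvd_one h1)
  have hC0 : C ≠ 0 := by
    rintro rfl
    exact hpC (dvd_zero _)
  have hCq : (C : ℚ) ≠ 0 := by exact_mod_cast hC0
  -- (E1)
  have E1 : ∀ (s : ℤ) (n j : ℕ), ¬ (p : ℤ) ∣ s → 1 ≤ n → m0 ≤ j →
      stab Φ p α ((s : ℚ) / (p : ℚ) ^ n) =
        stab Φ p α (((C * s + (p : ℤ) ^ j : ℤ) : ℚ) / ((C * (p : ℤ) ^ n : ℤ) : ℚ)) := by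
    intro s n j hs hn hj
    have hpj : (p : ℤ) ∣ (p : ℤ) ^ j := dvd_pow_self _ (by omega)
    have hcop : IsCoprime (C * s + (p : ℤ) ^ j) (C * (p : ℤ) ^ n) := by
      apply IsCoprime.mul_right
      · have h1 : IsCoprime ((p : ℤ) ^ j) C := (hpcop C hpC).pow_left
        exact (IsCoprime.mul_add_left_left_iff).2 h1
      · apply IsCoprime.pow_right
        apply IsCoprime.symm
        apply hpcop
        intro hh
        have h1 : (p : ℤ) ∣ C * s := (dvd_add_left hpj).1 hh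
        rcases hpZ.dvd_or_dvd h1 with h2 | h2
        · exact hpC h2
        · exact hs h2
    obtain ⟨k22, w, hkw⟩ := hcop
    -- `k22 * (C s + p^j) + w * (C p^n) = 1`, the matrix is `(C s + p^j, -w; C p^n, k22)`
    set a : ℤ := k22 * s + w * (p : ℤ) ^ n with ha
    have hCa : C * a - 1 = -(k22 * (p : ℤ) ^ j) := by
      rw [ha]
      linear_combination hkw
    have hac : (p : ℤ) ^ m0 ∣ a - c := by
      have h1 : (p : ℤ) ^ m0 ∣ C * (a - c) := by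
        have h2 : C * (a - c) = (C * a - 1) - (C * c - 1) := by ring
        rw [h2, hCa]
        exact dvd_sub ((dvd_neg).2 ((pow_dvd_pow _ hj).mul_left _)) hCc
      exact ((hpcop C hpC).pow_left).dvd_of_dvd_mul_left h1
    have hz := H (n + j) a (by omega) hac
    have hnq : (p : ℚ) ^ n ≠ 0 := pow_ne_zero _ hp0
    have hjq : (p : ℚ) ^ j ≠ 0 := pow_ne_zero _ hp0
    have hCaq : (C : ℚ) * a - 1 = -(k22 * (p : ℚ) ^ j) := by exact_mod_cast hCa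
    have e1 : ((C * (p : ℤ) ^ n : ℤ) : ℚ) * ((a : ℚ) / (p : ℚ) ^ (n + j)) + (k22 : ℚ) =
        1 / (p : ℚ) ^ j := by
      push_cast
      rw [pow_add]
      field_simp
      linear_combination hCaq
    have hkwq : (k22 : ℚ) * (C * s + (p : ℚ) ^ j) + w * (C * (p : ℚ) ^ n) = 1 := by
      exact_mod_cast hkw
    have haq : (a : ℚ) = k22 * s + w * (p : ℚ) ^ n := by exact_mod_cast ha
    have e2 : (((C * s + (p : ℤ) ^ j : ℤ) : ℚ) * ((a : ℚ) / (p : ℚ) ^ (n + j)) + ((-w : ℤ) : ℚ)) =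
        (s : ℚ) / (p : ℚ) ^ (n + j) := by
      push_cast
      rw [pow_add]
      field_simp
      rw [haq]
      linear_combination (s : ℚ) * hkwq
    have h3 := stab_mob h hp hpN (α : A) (a := C * s + (p : ℤ) ^ j) (b := -w)
      (c := C * (p : ℤ) ^ n) (d := k22) (by linear_combination hkw) (hNC.mul_right _)
      ((dvd_pow_self _ (by omega)).mul_left _)
      (mul_ne_zero hC0 (pow_ne_zero _ (by exact_mod_cast hp.ne_zero)))
      ((a : ℚ) / (p : ℚ) ^ (n + j)) (by rw [e1]; positivity)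
    rw [e1, e2, hz, zero_add] at h3
    rw [← h3]
    congr 1
    rw [pow_add]
    field_simp
  -- (E2)
  obtain ⟨k, hk, e, hke⟩ : ∃ k : ℕ, 1 ≤ k ∧ ∃ e : ℤ, (p : ℤ) ^ k = C * e + 1 := by
    have h1 : Nat.Coprime p C.natAbs := by
      have := Int.isCoprime_iff_gcd_eq_one.1 (hpcop C hpC)
      rwa [Int.gcd, Int.natAbs_natCast] at this
    have h2 := Nat.ModEq.pow_totient h1
    have h3 : |C| ∣ (p : ℤ) ^ (C.natAbs.totient) - 1 := by
      have := (Nat.modEq_iff_dvd.1 h2.symm)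
      push_cast at this
      exact this
    rw [abs_dvd] at h3
    obtain ⟨e, he⟩ := h3
    exact ⟨C.natAbs.totient, Nat.totient_pos.2 (Int.natAbs_pos.2 hC0), e,
      by linear_combination he⟩
  have hpe : ¬ (p : ℤ) ∣ e := by
    intro hh
    have h1 : (p : ℤ) ∣ (p : ℤ) ^ k := dvd_pow_self _ (by omega)
    rw [hke] at h1
    have h2 : (p : ℤ) ∣ 1 := (dvd_add_right (hh.mul_left C)).1 h1
    exact hpZ.not_isUnit (isUnit_of_dvd_one h2)
  have E2 : ∀ (s : ℤ) (n j : ℕ), ¬ (p : ℤ) ∣ s → 1 ≤ n → m0 ≤ j →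
      stab Φ p α (((s + e * (p : ℤ) ^ j : ℤ) : ℚ) / (p : ℚ) ^ n) =
        stab Φ p α ((s : ℚ) / (p : ℚ) ^ n) := by
    intro s n j hs hn hj
    have hpj : (p : ℤ) ∣ (p : ℤ) ^ j := dvd_pow_self _ (by omega)
    have hs2 : ¬ (p : ℤ) ∣ s + e * (p : ℤ) ^ j := by
      intro hh
      exact hs ((dvd_add_left (hpj.mul_left e)).1 hh)
    rw [E1 _ n j hs2 hn hj, E1 s n (j + k) hs hn (by omega)]
    congr 3
    rw [pow_add]
    linear_combination (-(p : ℤ) ^ j) * hke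
  have E3 : ∀ (x : ℕ) (s : ℤ) (n j : ℕ), ¬ (p : ℤ) ∣ s → 1 ≤ n → m0 ≤ j →
      stab Φ p α (((s + x * e * (p : ℤ) ^ j : ℤ) : ℚ) / (p : ℚ) ^ n) =
        stab Φ p α ((s : ℚ) / (p : ℚ) ^ n) := by
    intro x
    induction x with
    | zero => intro s n j _ _ _; simp
    | succ x ih =>
      intro s n j hs hn hj
      have hpj : (p : ℤ) ∣ (p : ℤ) ^ j := dvd_pow_self _ (by omega)
      have hs2 : ¬ (p : ℤ) ∣ s + x * e * (p : ℤ) ^ j := by
        intro hh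
        exact hs ((dvd_add_left (hpj.mul_left _)).1 hh)
      rw [← ih s n j hs hn hj, ← E2 _ n j hs2 hn hj]
      congr 3
      push_cast
      ring
  -- the values do not depend on the top digit
  have E4 : ∀ (s : ℤ) (n : ℕ) (b : ℕ), ¬ (p : ℤ) ∣ s → m0 ≤ n →
      stab Φ p α (((s + b * (p : ℤ) ^ n : ℤ) : ℚ) / (p : ℚ) ^ (n + 1)) =
        stab Φ p α ((s : ℚ) / (p : ℚ) ^ (n + 1)) := by
    intro s n b hs hn
    obtain ⟨u, v, huv⟩ := hpcop e hpe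
    -- `u * p + v * e = 1`
    set x : ℕ := (b * v % (p : ℤ)).toNat with hx
    have hpos : (0 : ℤ) < p := by exact_mod_cast hp.pos
    have hx' : (x : ℤ) = b * v % (p : ℤ) := Int.toNat_of_nonneg (Int.emod_nonneg _ hpos.ne')
    have hx2 : (x : ℤ) = b * v - (p : ℤ) * (b * v / (p : ℤ)) := by
      rw [hx', Int.emod_def]
    have hb : (b : ℤ) = x * e + (p : ℤ) * (b * v / (p : ℤ) * e + b * u) := by
      rw [hx2]
      linear_combination (-(b : ℤ)) * huv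
    have e1 : (((s + b * (p : ℤ) ^ n : ℤ) : ℚ) / (p : ℚ) ^ (n + 1)) =
        (((s + x * e * (p : ℤ) ^ n : ℤ) : ℚ) / (p : ℚ) ^ (n + 1)) +
          ((b * v / (p : ℤ) * e + b * u : ℤ) : ℚ) := by
      have h1 : (b : ℚ) = x * e + (p : ℚ) * ((b * v / (p : ℤ) * e + b * u : ℤ) : ℚ) := by
        exact_mod_cast hb
      have h2 : (((s + b * (p : ℤ) ^ n : ℤ) : ℚ)) = s + b * (p : ℚ) ^ n := by push_cast; ring
      have h3 : (((s + x * e * (p : ℤ) ^ n : ℤ) : ℚ)) = s + x * e * (p : ℚ) ^ n := by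
        push_cast; ring
      rw [h2, h3, h1, pow_succ]
      field_simp
      ring
    rw [e1, stab_trans h, E3 x s (n + 1) n hs (by omega) hn]
  have hUp : ∀ (s : ℤ) (n : ℕ), (α : A) * stab Φ p α ((s : ℚ) / (p : ℚ) ^ n) =
      ∑ b ∈ range p, stab Φ p α (((s + b * (p : ℤ) ^ n : ℤ) : ℚ) / (p : ℚ) ^ (n + 1)) := by
    intro s n
    rw [← stab_up h hp hα hT]
    refine sum_congr rfl ?_
    intro b _
    congr 1
    push_cast
    rw [pow_succ]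
    field_simp
  have E5 : ∀ (s : ℤ) (n : ℕ), ¬ (p : ℤ) ∣ s → m0 ≤ n →
      (α : A) * stab Φ p α ((s : ℚ) / (p : ℚ) ^ n) =
        p * stab Φ p α ((s : ℚ) / (p : ℚ) ^ (n + 1)) := by
    intro s n hs hn
    rw [hUp, sum_congr rfl (fun b _ => E4 s n b hs hn), sum_const, card_range, nsmul_eq_mul]
  have E6 : ∀ (i : ℕ) (s : ℤ) (n : ℕ), ¬ (p : ℤ) ∣ s → m0 ≤ n →
      (α : A) ^ i * stab Φ p α ((s : ℚ) / (p : ℚ) ^ n) =
        (p : A) ^ i * stab Φ p α ((s : ℚ) / (p : ℚ) ^ (n + i)) := by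
    intro i
    induction i with
    | zero => intro s n _ _; simp
    | succ i ih =>
      intro s n hs hn
      have h1 := ih s n hs hn
      have h2 := E5 s (n + i) hs (by omega)
      rw [pow_succ, pow_succ, mul_right_comm, h1]
      have h3 : n + (i + 1) = n + i + 1 := by ring
      rw [h3]
      linear_combination (p : A) ^ i * h2
  have E7 : ∀ (s : ℤ) (n : ℕ), ¬ (p : ℤ) ∣ s → m0 ≤ n →
      stab Φ p α ((s : ℚ) / (p : ℚ) ^ n) = 0 := by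
    intro s n hs hn
    have h1 := E6 K s n hs hn
    rw [hpK, zero_mul] at h1
    exact ((α.isUnit.pow K).mul_right_eq_zero).1 h1
  -- descend to `n < m0`
  have E8 : ∀ (i : ℕ) (s : ℤ) (n : ℕ), ¬ (p : ℤ) ∣ s → 1 ≤ n → m0 ≤ n + i →
      stab Φ p α ((s : ℚ) / (p : ℚ) ^ n) = 0 := by
    intro i
    induction i with
    | zero => intro s n hs _ hn; exact E7 s n hs hn
    | succ i ih =>
      intro s n hs hn1 hn
      have h1 := hUp s n
      rw [sum_eq_zero] at h1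
      · exact (α.isUnit.mul_right_eq_zero).1 h1
      · intro b _
        apply ih _ (n + 1) _ (by omega) (by omega)
        intro hh
        exact hs ((dvd_add_left ((dvd_pow_self _ (by omega)).mul_left _)).1 hh)
  exact E8 m0 s n hs hn (by omega)

end core

/-- **The content of the measure on every ball.** Let `c` be prime to `p` and `m ≥ 1`. If `p^K`
divides the measures of all balls contained in `c + p^m ℤ_p` then it divides the measures of all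
balls contained in `ℤ_p^×`. -/
theorem ball_all {N : ℕ} (hN0 : N ≠ 0) {p : ℕ} [Fact p.Prime] (hpN : ¬ p ∣ N)
    (φ : ModSym N ℤ_[p]) {ap : ℤ_[p]} (hH : φ.HeckeEigen p ap)
    (α : ℤ_[p]ˣ) (hα : (α : ℤ_[p]) ^ 2 - ap * α + p = 0) (K : ℕ) {c : ℤ} (hc : ¬ (p : ℤ) ∣ c)
    {m : ℕ} (hm : 1 ≤ m)
    (H : ∀ (n : ℕ) (b : ℤ), m ≤ n + 1 → (p : ℤ) ^ m ∣ b - c → (p : ℤ_[p]) ^ K ∣ msd φ p α n b)
    (n : ℕ) (b : ℤ) (hb : ¬ (p : ℤ) ∣ b) : (p : ℤ_[p]) ^ K ∣ msd φ p α n b := by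
  have hp : p.Prime := Fact.out
  have hp0 : (p : ℚ) ≠ 0 := by exact_mod_cast hp.ne_zero
  set I : Ideal ℤ_[p] := Ideal.span {(p : ℤ_[p]) ^ K} with hI
  set f : ℤ_[p] →+* ℤ_[p] ⧸ I := Ideal.Quotient.mk I with hf
  have hker : ∀ x : ℤ_[p], f x = 0 ↔ (p : ℤ_[p]) ^ K ∣ x := by
    intro x
    rw [hf, Ideal.Quotient.eq_zero_iff_mem, hI, Ideal.mem_span_singleton]
  have hK : ((p : ℕ) : ℤ_[p] ⧸ I) ^ K = 0 := by
    have : f ((p : ℤ_[p]) ^ K) = 0 := (hker _).2 dvd_rfl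
    rwa [map_pow, map_natCast] at this
  set ψ := φ.map f with hψ
  set α' : (ℤ_[p] ⧸ I)ˣ := Units.map (f : ℤ_[p] →* ℤ_[p] ⧸ I) α with hα'
  have hαinv : ((α'⁻¹ : (ℤ_[p] ⧸ I)ˣ) : ℤ_[p] ⧸ I) = f ((α⁻¹ : ℤ_[p]ˣ) : ℤ_[p]) := rfl
  have hαeq : (α' : ℤ_[p] ⧸ I) ^ 2 - f ap * α' + (p : ℤ_[p] ⧸ I) = 0 := by
    have h1 := congrArg f hα
    rwa [map_add, map_sub, map_pow, map_mul, map_natCast, map_zero] at h1
  set Φ : ℚ → ℤ_[p] ⧸ I := fun x => ψ.val ∞ (x : OnePoint ℚ) with hΦ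
  have hmsd : ∀ (n : ℕ) (b : ℤ), (p : ℤ_[p]) ^ K ∣ msd φ p α n b ↔
      stab Φ p (α' : ℤ_[p] ⧸ I) ((b : ℚ) / (p : ℚ) ^ (n + 1)) = 0 := by
    intro n b
    rw [← hker]
    have h1 : (α' : ℤ_[p] ⧸ I) ^ (n + 2) * f (msd φ p α n b) =
        stab Φ p (α' : ℤ_[p] ⧸ I) ((b : ℚ) / (p : ℚ) ^ (n + 1)) := by
      have e0 : (p : ℚ) * ((b : ℚ) / (p : ℚ) ^ (n + 1)) = (b : ℚ) / (p : ℚ) ^ n := by
        rw [pow_succ]
        field_simp
      rw [stab, e0, msd, map_sub, map_mul, map_mul, map_pow, map_pow, ← hαinv, hΦ, hψ]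
      simp only [ModSym.map_val]
      have h2 : (α' : ℤ_[p] ⧸ I) ^ (n + 2) * ((α'⁻¹ : (ℤ_[p] ⧸ I)ˣ) : ℤ_[p] ⧸ I) ^ (n + 2) = 1 := by
        rw [← _root_.mul_pow, Units.mul_inv, one_pow]
      have h3 : (α' : ℤ_[p] ⧸ I) ^ (n + 1) * ((α'⁻¹ : (ℤ_[p] ⧸ I)ˣ) : ℤ_[p] ⧸ I) ^ (n + 1) = 1 := by
        rw [← _root_.mul_pow, Units.mul_inv, one_pow]
      have h4 : (α' : ℤ_[p] ⧸ I) ^ (n + 2) = α' ^ (n + 1) * α' := pow_succ _ _
      linear_combination ((α' : ℤ_[p] ⧸ I) *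
        f (φ.val ∞ ((((b : ℚ) / (p : ℚ) ^ (n + 1) : ℚ)) : OnePoint ℚ))) * h3 -
        f (φ.val ∞ ((((b : ℚ) / (p : ℚ) ^ n : ℚ)) : OnePoint ℚ)) * h2 +
        (((α'⁻¹ : (ℤ_[p] ⧸ I)ˣ) : ℤ_[p] ⧸ I) ^ (n + 1) *
        f (φ.val ∞ ((((b : ℚ) / (p : ℚ) ^ (n + 1) : ℚ)) : OnePoint ℚ))) * h4
    constructor
    · intro h0
      rw [← h1, h0, mul_zero]
    · intro h0
      rw [h0] at h1
      exact ((α'.isUnit.pow (n + 2)).mul_right_eq_zero).1 h1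
  rw [hmsd]
  refine ball_zero (N := N) (Φ := Φ) ψ.isSym hN0 hp hpN hK α' hαeq
    (fun y => (hH.map f).phi y) hc hm ?_ (n + 1) b (by omega) hb
  intro m' a hm' ha
  obtain ⟨n', rfl⟩ : ∃ n', m' = n' + 1 := ⟨m' - 1, by omega⟩
  exact (hmsd n' a).1 (H n' a (by omega) ha)

/-- **Content theorem on balls.** -/
theorem ball_content {N : ℕ} (hN0 : N ≠ 0) {p : ℕ} [Fact p.Prime] (hp2 : p ≠ 2)
    (hpN : ¬ p ∣ N) (φ : ModSym N ℤ_[p]) (a : ℕ → ℤ_[p])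
    (hH : ∀ l : ℕ, l.Prime → ¬ l ∣ N → φ.HeckeEigen l (a l))
    (α : ℤ_[p]ˣ) (hα : (α : ℤ_[p]) ^ 2 - a p * α + p = 0) (K : ℕ) {c : ℤ} (hc : ¬ (p : ℤ) ∣ c)
    {m : ℕ} (hm : 1 ≤ m) :
    (∀ (n : ℕ) (b : ℤ), m ≤ n + 1 → (p : ℤ) ^ m ∣ b - c → (p : ℤ_[p]) ^ K ∣ msd φ p α n b) ↔
      ∀ γ ∈ Gamma1 N, (p : ℤ_[p]) ^ K ∣ φ.val ∞ (mapGL ℚ γ • ∞) := by
  rw [← periods_content hN0 hp2 hpN φ a hH α hα K]
  constructor
  · intro H n b hb
    exact ball_all hN0 hpN φ (hH p Fact.out hpN) α hα K hc hm H n b hb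
  · intro H n b hn hb
    apply H
    intro hh
    apply hc
    have h1 : (p : ℤ) ∣ b - c := (dvd_pow_self _ (by omega)).trans hb
    exact (dvd_sub_right hh).1 h1

end Pool.Agent.MZ
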