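import Pool.Agent.MZ.PerP
import Pool.Agent.MZ.Ball

/-!
# The measure on the residue classes modulo `p`
-/

set_option autoImplicit false

open Filter Topology Complex Function CongruenceSubgroup
open Matrix.SpecialLinearGroup (mapGL)
open scoped MatrixGroups Real ModularForm OnePoint ComplexConjugate

namespace Pool.Agent.MZ

/-- branches of the wrong parity vanish -/
lemma ccBr_odd {p : ℕ} [hp : Fact p.Prime] (hp2 : p ≠ 2) {N : ℕ} (φ : ModSym N ℤ_[p])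
    (hs : φ.HasSign 1) (α : ℤ_[p]ˣ) (ψ : DirichletCharacter ℤ_[p] p) (hψ : ψ (-1) ≠ 1) (n j : ℕ) :
    ccBr φ p α ψ n j = 0 := by
  have h1 := ccBr_sign hp.out hp2 φ hs α ψ n j
  by_contra hne
  apply hψ
  have : (ψ (-1) - 1) * ccBr φ p α ψ n j = 0 := by linear_combination -h1
  exact sub_eq_zero.1 ((mul_eq_zero.1 this).resolve_right hne)

/-- the content of the part of the measure on a residue class -/
theorem class_content {N : ℕ} (hN0 : N ≠ 0) {p : ℕ} [hp : Fact p.Prime] (hp2 : p ≠ 2)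
    (hpN : ¬ p ∣ N) (φ : ModSym N ℤ_[p]) (a : ℕ → ℤ_[p])
    (hH : ∀ l : ℕ, l.Prime → ¬ l ∣ N → φ.HeckeEigen l (a l))
    (α : ℤ_[p]ˣ) (hα : (α : ℤ_[p]) ^ 2 - a p * α + p = 0)
    (L : DirichletCharacter ℤ_[p] p → PowerSeries ℤ_[p]) (hL : ∀ ψ, IsPadicLBr φ p α ψ (L ψ))
    (c : (ZMod p)ˣ) (K : ℕ) :
    (∀ i, (p : ℤ_[p]) ^ K ∣ ∑ ψ : DirichletCharacter ℤ_[p] p,
      ψ c * PowerSeries.coeff i (L ψ)) ↔
      ∀ γ ∈ Gamma1 N, (p : ℤ_[p]) ^ K ∣ φ.val ∞ (mapGL ℚ γ • ∞) := by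
  -- a lift of the inverse of `c`
  obtain ⟨g, hg⟩ : ∃ g : ℕ, (g : ZMod p) = ((c⁻¹ : (ZMod p)ˣ) : ZMod p) :=
    ⟨((c⁻¹ : (ZMod p)ˣ) : ZMod p).val, ZMod.natCast_zmod_val _⟩
  have hgp : ¬ p ∣ g := by
    intro h
    have h1 := (ZMod.natCast_eq_zero_iff g p).2 h
    rw [hg] at h1
    exact (Units.ne_zero _) h1
  have hginv : (g : ZMod p)⁻¹ = (c : ZMod p) := by
    rw [hg, Units.val_inv_eq_inv_val, inv_inv]
  have hgz : ¬ (p : ℤ) ∣ (g : ℤ) := by exact_mod_cast hgp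
  rw [← ball_content hN0 hp2 hpN φ a hH α hα K hgz le_rfl]
  -- the series of the residue class
  set F : PowerSeries ℤ_[p] := ∑ ψ : DirichletCharacter ℤ_[p] p,
    PowerSeries.C (ψ c) * L ψ with hF
  have hcoeff : ∀ i, PowerSeries.coeff i F = ∑ ψ : DirichletCharacter ℤ_[p] p,
      ψ c * PowerSeries.coeff i (L ψ) := by
    intro i
    rw [hF, map_sum]
    exact Finset.sum_congr rfl fun ψ _ => PowerSeries.coeff_C_mul _ _ _
  have hcong : ∀ n : ℕ, ((1 + PowerSeries.X) ^ (p ^ n) - 1 : PowerSeries ℤ_[p]) ∣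
      F - ∑ j ∈ Finset.range (p ^ n), PowerSeries.C (∑ ψ : DirichletCharacter ℤ_[p] p,
        ψ c * ccBr φ p α ψ n j) * (1 + PowerSeries.X) ^ j := by
    intro n
    have h1 : F - ∑ j ∈ Finset.range (p ^ n), PowerSeries.C (∑ ψ : DirichletCharacter ℤ_[p] p,
        ψ c * ccBr φ p α ψ n j) * (1 + PowerSeries.X) ^ j =
        ∑ ψ : DirichletCharacter ℤ_[p] p,
          PowerSeries.C (ψ c) * (L ψ - thetaBr φ p α ψ n) := by
      simp only [thetaBr_eq, mul_sub, Finset.sum_sub_distrib, map_sum, map_mul, Finset.sum_mul,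
        Finset.mul_sum]
      rw [hF, Finset.sum_comm]
      congr 1
      refine Finset.sum_congr rfl fun ψ _ => Finset.sum_congr rfl fun j _ => ?_
      ring
    rw [h1]
    exact Finset.dvd_sum fun ψ _ => (hL ψ n).mul_left _
  have hkey := content_iff (p := p) K (fun n j => ∑ ψ : DirichletCharacter ℤ_[p] p,
    ψ c * ccBr φ p α ψ n j) F hcong
  simp only [hcoeff] at hkey
  rw [hkey]
  have hu : IsUnit (p.totient : ℤ_[p]) := by
    apply isUnit_of_not_dvd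
    rw [Nat.totient_prime hp.out, Nat.cast_sub hp.out.one_lt.le, Nat.cast_one,
      dvd_sub_right dvd_rfl]
    intro h4
    exact (PadicInt.irreducible_p (p := p)).not_isUnit (isUnit_of_dvd_one h4)
  -- the value at a natural number
  have hval : ∀ n j b : ℕ, b < p ^ (n + 1) → (b : ZMod p) = (g : ZMod p) →
      b ^ (p - 1) ≡ (1 + p) ^ (j * (p - 1)) [MOD p ^ (n + 1)] →
      ((p : ℤ_[p]) ^ K ∣ (∑ ψ : DirichletCharacter ℤ_[p] p, ψ c * ccBr φ p α ψ n j) ↔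
        (p : ℤ_[p]) ^ K ∣ msd φ p α n b) := by
    intro n j b hbl hbg hbj
    have hb : ¬ p ∣ b := by
      intro h
      apply hgp
      rw [← ZMod.natCast_eq_zero_iff] at h ⊢
      rw [← hbg, h]
    have h1 := sum_ccBr φ α n j b hb hbl hbj
    rw [hbg, hginv] at h1
    rw [h1]
    exact hu.dvd_mul_left
  constructor
  · intro h n b _ hb
    rw [pow_one] at hb
    -- reduce `b`
    have hq0 : (0 : ℤ) < (p : ℤ) ^ (n + 1) := by
      have := hp.out.pos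
      positivity
    have hb0 : 0 ≤ b % (p : ℤ) ^ (n + 1) := Int.emod_nonneg _ hq0.ne'
    obtain ⟨b', hb'⟩ := Int.eq_ofNat_of_zero_le hb0
    have hdm : b = (b' : ℤ) + (b / (p : ℤ) ^ (n + 1)) * (p : ℤ) ^ (n + 1) := by
      have h1 := Int.emod_add_mul_ediv b ((p : ℤ) ^ (n + 1))
      rw [hb'] at h1
      linear_combination -h1
    have hbl : b' < p ^ (n + 1) := by
      have h1 := Int.emod_lt_of_pos b hq0
      rw [hb'] at h1
      exact_mod_cast h1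
    have hbg : (b' : ZMod p) = (g : ZMod p) := by
      have h1 : (p : ℤ) ∣ (b' : ℤ) - g := by
        have h2 : (b' : ℤ) - g = (b - g) - (b / (p : ℤ) ^ (n + 1)) * (p : ℤ) ^ (n + 1) := by
          linear_combination -hdm
        rw [h2]
        exact dvd_sub hb ((dvd_pow_self _ (Nat.succ_ne_zero n)).mul_left _)
      have h2 := (ZMod.intCast_eq_intCast_iff_dvd_sub (g : ℤ) (b' : ℤ) p).2 h1
      push_cast at h2
      exact h2.symm
    have hb'p : ¬ p ∣ b' := by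
      intro hh
      apply hgp
      rw [← ZMod.natCast_eq_zero_iff] at hh ⊢
      rw [← hbg, hh]
    obtain ⟨j, hj, hbj⟩ := exists_log hp.out hp2 n hb'p
    have h3 := (hval n j b' hbl hbg hbj).1 (h n j hj)
    rw [hdm, msd_add φ hp.out.ne_zero α n]
    exact h3
  · intro h n j _
    -- the number `g^(p^n) (1+p)^j`
    set t : ℕ := g ^ (p ^ n) * (1 + p) ^ j with ht
    set b : ℕ := t % p ^ (n + 1) with hb
    have hpos : 0 < p ^ (n + 1) := pow_pos hp.out.pos _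
    have hbl : b < p ^ (n + 1) := Nat.mod_lt _ hpos
    have hbt : b ≡ t [MOD p ^ (n + 1)] := Nat.mod_modEq _ _
    have hbg : (b : ZMod p) = (g : ZMod p) := by
      have h1 : b ≡ t [MOD p] := hbt.of_dvd (dvd_pow_self p (Nat.succ_ne_zero n))
      rw [← ZMod.natCast_eq_natCast_iff] at h1
      rw [h1, ht]
      push_cast
      rw [CharP.cast_eq_zero (ZMod p) p, add_zero, one_pow, mul_one, ZMod.pow_card_pow]
    have hbj : b ^ (p - 1) ≡ (1 + p) ^ (j * (p - 1)) [MOD p ^ (n + 1)] := by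
      refine (hbt.pow (p - 1)).trans ?_
      rw [ht, _root_.mul_pow, ← _root_.pow_mul, ← _root_.pow_mul]
      have h1 : g ^ (p ^ n * (p - 1)) ≡ 1 [MOD p ^ (n + 1)] := by
        have h2 : (p ^ (n + 1)).totient = p ^ n * (p - 1) := by
          rw [Nat.totient_prime_pow_succ hp.out]
        rw [← h2]
        apply Nat.ModEq.pow_totient
        exact Nat.Coprime.pow_right _ ((Nat.Prime.coprime_iff_not_dvd hp.out).2 hgp).symm
      simpa using h1.mul_right ((1 + p) ^ (j * (p - 1)))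
    refine (hval n j b hbl hbg hbj).2 (h n b (by omega) ?_)
    rw [pow_one, ← ZMod.intCast_eq_intCast_iff_dvd_sub]
    push_cast
    exact hbg.symm

end Pool.Agent.MZ

namespace Pool.Agent.MZ.Per

/-- **The branches of the `p`-adic `L`-function of a cusp form of weight two**, with the content on
every residue class. -/
theorem mainBrC {N : ℕ} (hN : N ≠ 0) {p : ℕ} [hp : Fact p.Prime] (hp2 : p ≠ 2) (hpN : ¬ p ∣ N)
    (f : CuspForm (Gamma0 N) 2) {a : ℕ → ℤ}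
    (ha : ∀ n, (UpperHalfPlane.qExpansion 1 f).coeff n = a n) (ha1 : a 1 = 1)
    (hH : HeckeRel N a) (hord : ¬ (p : ℤ) ∣ a p) {Ω : ℝ} (hΩ : Ω ≠ 0)
    (hper : {r : ℝ | ∃ γ ∈ Gamma1 N, r = (period f γ).re} = {r : ℝ | ∃ k : ℤ, r = k * Ω}) :
    ∃ α : ℤ_[p]ˣ, (α : ℤ_[p]) ^ 2 - (a p : ℤ_[p]) * α + p = 0 ∧
      ∃ L : DirichletCharacter ℤ_[p] p → PowerSeries ℚ_[p],
        (∀ ψ, ψ (-1) = 1 → IsMSDBr p a Ω α ψ (L ψ) ∧
          (∀ L', IsMSDBr p a Ω α ψ L' → L' = L ψ) ∧ (∀ i, ‖PowerSeries.coeff i (L ψ)‖ ≤ 1)) ∧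
        (∀ ψ, ψ (-1) ≠ 1 → L ψ = 0) ∧
        (∀ c : (ZMod p)ˣ, ∃ i, ‖∑ ψ : DirichletCharacter ℤ_[p] p,
          ((ψ c : ℤ_[p]) : ℚ_[p]) * PowerSeries.coeff i (L ψ)‖ = 1) := by
  have hNZ : NeZero N := ⟨hN⟩
  obtain ⟨α, hα⟩ := exists_unit_root hord
  refine ⟨α, hα, ?_⟩
  -- the auxiliary prime
  have hf0 : ∃ τ : UpperHalfPlane, f τ ≠ 0 := by
    by_contra hcon
    push Not at hcon
    have h1 : (f : UpperHalfPlane → ℂ) = 0 := by
      ext τ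
      exact hcon τ
    have h2 := ha 1
    rw [h1, UpperHalfPlane.qExpansion_zero, map_zero, ha1] at h2
    norm_num at h2
  obtain ⟨l, hl, -, hl1, hlN, hal⟩ := exists_prime_ne f hf0 (a := fun n => ((a n : ℤ) : ℂ)) ha
    (by
      intro l hl hlN n
      have := hH l hl hlN n
      rw [← Int.cast_mul, ← this]
      push_cast
      rfl) 0
  set u : ℤ := (l : ℤ) + 1 - a l with hu
  have hu0 : u ≠ 0 := by
    intro h0
    apply hal
    have h1 : a l = (l : ℤ) + 1 := by linarith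
    rw [h1]
    push_cast
    rfl
  have hl1' : (N : ℤ) ∣ (l : ℤ) - 1 := by
    have := (Nat.modEq_iff_dvd.1 hl1.symm)
    exact_mod_cast this
  have hper' : ∀ γ ∈ Gamma1 N, (period f γ).re ∈ AddSubgroup.zmultiples Ω := by
    intro γ hγ
    have h1 : (period f γ).re ∈ {r : ℝ | ∃ k : ℤ, r = k * Ω} := by
      rw [← hper]
      exact ⟨γ, hγ, rfl⟩
    obtain ⟨k, hk⟩ := h1
    rw [AddSubgroup.mem_zmultiples_iff]
    exact ⟨k, by rw [hk, zsmul_eq_mul]⟩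
  obtain ⟨φ, hφ, hsign, hhecke⟩ := exists_int_sym f ha hH hΩ hper' hl hl1'
  obtain ⟨hdiv, γ₀, hγ₀, hγ₀u⟩ := int_sym_periods hΩ hper hφ
  set φp : ModSym N ℤ_[p] := φ.map (Int.castRingHom ℤ_[p]) with hφp
  have hHp : ∀ q : ℕ, q.Prime → ¬ q ∣ N → φp.HeckeEigen q ((a q : ℤ) : ℤ_[p]) :=
    fun q hq hqN => (hhecke q hq hqN).map _
  have hsp : φp.HasSign 1 := by
    intro x y
    rw [hφp, ModSym.map_val, hsign x y, one_mul, one_mul, ModSym.map_val]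
  have hex : ∀ ψ : DirichletCharacter ℤ_[p] p, ∃! L : PowerSeries ℤ_[p], IsPadicLBr φp p α ψ L :=
    existsUnique_padicLBr hp2 φp α _ (hHp p hp.out hpN) hα
  choose L hL hLu using fun ψ => (hex ψ)
  beta_reduce at hL hLu
  obtain ⟨K, hK, hKu⟩ := exists_norm_int (p := p) hu0
  have hp0 : (0 : ℝ) < p := by exact_mod_cast hp.out.pos
  have hpos : 0 < ((p : ℝ) ^ K)⁻¹ := by positivity
  have hcontent : ∀ K' : ℕ, (∀ ψ : DirichletCharacter ℤ_[p] p, ψ (-1) = 1 → ∀ m,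
      (p : ℤ_[p]) ^ K' ∣ PowerSeries.coeff m (L ψ)) ↔
      ∀ γ ∈ Gamma1 N, (p : ℤ_[p]) ^ K' ∣ φp.val ∞ (mapGL ℚ γ • ∞) := by
    intro K'
    rw [← contentBr hN hp2 hpN φp (fun q => ((a q : ℤ) : ℤ_[p])) hHp α hα (Or.inl rfl) hsp K']
    constructor
    · intro h ψ hψ L' hL' m
      rw [hLu ψ L' hL']
      exact h ψ hψ m
    · intro h ψ hψ m
      exact h ψ hψ (L ψ) (hL ψ) m
  have hclass := class_content hN hp2 hpN φp (fun q => ((a q : ℤ) : ℤ_[p])) hHp α hα L hL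
  have hall : ∀ γ ∈ Gamma1 N, (p : ℤ_[p]) ^ K ∣ φp.val ∞ (mapGL ℚ γ • ∞) := by
    intro γ hγ
    obtain ⟨c, hc⟩ := hKu.trans (hdiv γ hγ)
    refine ⟨(c : ℤ_[p]), ?_⟩
    rw [hφp, ModSym.map_val, hc]
    simp
  have hint : ∀ ψ : DirichletCharacter ℤ_[p] p, ψ (-1) = 1 → ∀ i,
      ‖PowerSeries.coeff i (PowerSeries.mk fun i =>
        ((PowerSeries.coeff i (L ψ) : ℤ_[p]) : ℚ_[p]) / (u : ℚ_[p]))‖ ≤ 1 := by
    intro ψ hψ i
    rw [PowerSeries.coeff_mk, norm_div, hK]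
    have h3 := (hcontent K).2 hall ψ hψ i
    rw [dvd_iff_norm] at h3
    rw [div_le_one hpos]
    exact h3
  have hsum : ∀ (c : (ZMod p)ˣ) (i : ℕ), ∑ ψ : DirichletCharacter ℤ_[p] p,
      ((ψ c : ℤ_[p]) : ℚ_[p]) * PowerSeries.coeff i (PowerSeries.mk fun i =>
        ((PowerSeries.coeff i (L ψ) : ℤ_[p]) : ℚ_[p]) / (u : ℚ_[p])) =
      ((∑ ψ : DirichletCharacter ℤ_[p] p,
        ψ c * PowerSeries.coeff i (L ψ) : ℤ_[p]) : ℚ_[p]) / (u : ℚ_[p]) := by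
    intro c i
    rw [PadicInt.coe_sum, Finset.sum_div]
    refine Finset.sum_congr rfl fun ψ _ => ?_
    rw [PowerSeries.coeff_mk, PadicInt.coe_mul]
    ring
  refine ⟨fun ψ => PowerSeries.mk fun i =>
    ((PowerSeries.coeff i (L ψ) : ℤ_[p]) : ℚ_[p]) / (u : ℚ_[p]), ?_, ?_, ?_⟩
  · intro ψ hψ
    have hMSD := isMSDBr_exists hp2 f ha hα hu0 hφ (hhecke p hp.out hpN) hψ (hL ψ)
    exact ⟨hMSD, fun L' hL' => isMSDBr_unique hp2 hΩ hψ hL' hMSD, hint ψ hψ⟩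
  · intro ψ hψ
    have h1 : IsPadicLBr φp p α ψ 0 := by
      intro n
      rw [thetaBr_eq]
      simp [ccBr_odd hp2 φp hsp α ψ hψ]
    have h2 := hLu ψ 0 h1
    ext i
    rw [PowerSeries.coeff_mk, ← h2]
    simp
  · intro c
    by_contra hcon
    push Not at hcon
    have h1 : ∀ m, (p : ℤ_[p]) ^ (K + 1) ∣ ∑ ψ : DirichletCharacter ℤ_[p] p,
        ψ c * PowerSeries.coeff m (L ψ) := by
      intro i
      have h2 := hcon i
      have h3 := (hclass c K).2 hall i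
      rw [dvd_iff_norm] at h3
      rw [hsum c i, norm_div, hK] at h2
      have h4 : ‖((∑ ψ : DirichletCharacter ℤ_[p] p,
          ψ c * PowerSeries.coeff i (L ψ) : ℤ_[p]) : ℚ_[p])‖ < ((p : ℝ) ^ K)⁻¹ := by
        refine lt_of_le_of_ne h3 fun h => h2 ?_
        rw [h, div_self hpos.ne']
      rw [dvd_iff_norm]
      have h5 := (PadicInt.norm_le_pow_iff_norm_lt_pow_add_one
        (∑ ψ : DirichletCharacter ℤ_[p] p, ψ c * PowerSeries.coeff i (L ψ))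
        (-((K : ℤ) + 1))).2 (by
          have : (-((K : ℤ) + 1)) + 1 = -(K : ℤ) := by ring
          rw [this, zpow_neg, zpow_natCast]
          exact h4)
      have h6 : (-((K : ℤ) + 1)) = -((K + 1 : ℕ) : ℤ) := by push_cast; ring
      rw [h6, zpow_neg, zpow_natCast] at h5
      exact h5
    have h2 := (hclass c (K + 1)).1 h1 γ₀ hγ₀
    rw [hφp, ModSym.map_val, hγ₀u] at h2
    have h3 := (dvd_iff_norm (p := p) ((Int.castRingHom ℤ_[p]) u) (K + 1)).1 h2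
    have h4 : ‖(Int.castRingHom ℤ_[p]) u‖ = ((p : ℝ) ^ K)⁻¹ := by
      rw [← hK]
      simp [PadicInt.norm_def]
    rw [h4] at h3
    have h5 : ((p : ℝ) ^ (K + 1))⁻¹ < ((p : ℝ) ^ K)⁻¹ := by
      rw [inv_lt_inv₀ (by positivity) (by positivity)]
      exact pow_lt_pow_right₀ (by exact_mod_cast hp.out.one_lt) (Nat.lt_succ_self K)
    linarith

/-- The same for an arbitrary real period. -/
theorem mainBrC_q {N : ℕ} (hN : N ≠ 0) {p : ℕ} [hp : Fact p.Prime] (hp2 : p ≠ 2) (hpN : ¬ p ∣ N)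
    (f : CuspForm (Gamma0 N) 2) {a : ℕ → ℤ}
    (ha : ∀ n, (UpperHalfPlane.qExpansion 1 f).coeff n = a n) (ha1 : a 1 = 1)
    (hH : HeckeRel N a) (hord : ¬ (p : ℤ) ∣ a p) {Ω : ℝ} (hΩ : Ω ≠ 0) {q : ℚ} (hq : q ≠ 0)
    (hper : {r : ℝ | ∃ γ ∈ Gamma1 N, r = (period f γ).re} =
      {r : ℝ | ∃ k : ℤ, r = k * (q * Ω)}) :
    ∃ α : ℤ_[p]ˣ, (α : ℤ_[p]) ^ 2 - (a p : ℤ_[p]) * α + p = 0 ∧
      ∃ L : DirichletCharacter ℤ_[p] p → PowerSeries ℚ_[p],
        (∀ ψ, ψ (-1) = 1 → IsMSDBr p a Ω α ψ (L ψ) ∧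
          (∀ L', IsMSDBr p a Ω α ψ L' → L' = L ψ) ∧
          (∀ i, ‖PowerSeries.coeff i (L ψ)‖ ≤ ‖(q : ℚ_[p])‖)) ∧
        (∀ ψ, ψ (-1) ≠ 1 → L ψ = 0) ∧
        (∀ c : (ZMod p)ˣ, ∃ i, ‖∑ ψ : DirichletCharacter ℤ_[p] p,
          ((ψ c : ℤ_[p]) : ℚ_[p]) * PowerSeries.coeff i (L ψ)‖ = ‖(q : ℚ_[p])‖) := by
  have hqΩ : (q : ℝ) * Ω ≠ 0 := mul_ne_zero (by exact_mod_cast hq) hΩ
  obtain ⟨α, hα, L, hL, hodd, hc⟩ := mainBrC hN hp2 hpN f ha ha1 hH hord hqΩ hper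
  refine ⟨α, hα, fun ψ => PowerSeries.C (q : ℚ_[p]) * L ψ, fun ψ hψ => ?_,
    fun ψ hψ => by
      show PowerSeries.C _ * L ψ = 0
      rw [hodd ψ hψ, mul_zero], fun c => ?_⟩
  · obtain ⟨h1, -, h3⟩ := hL ψ hψ
    refine ⟨h1.scale, fun L' hL' => isMSDBr_unique hp2 hΩ hψ hL' h1.scale, fun i => ?_⟩
    rw [PowerSeries.coeff_C_mul, norm_mul]
    exact mul_le_of_le_one_right (norm_nonneg _) (h3 i)
  · obtain ⟨i, hi⟩ := hc c
    refine ⟨i, ?_⟩
    have h1 : ∑ ψ : DirichletCharacter ℤ_[p] p,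
        ((ψ c : ℤ_[p]) : ℚ_[p]) * PowerSeries.coeff i (PowerSeries.C (q : ℚ_[p]) * L ψ) =
        (q : ℚ_[p]) * ∑ ψ : DirichletCharacter ℤ_[p] p,
          ((ψ c : ℤ_[p]) : ℚ_[p]) * PowerSeries.coeff i (L ψ) := by
      rw [Finset.mul_sum]
      refine Finset.sum_congr rfl fun ψ _ => ?_
      rw [PowerSeries.coeff_C_mul]
      ring
    rw [h1, norm_mul, hi, mul_one]

end Pool.Agent.MZ.Per
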