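import Pool.Agent.MZ.PerC

/-!
# The modular symbol of a cusp form of weight two
-/

set_option autoImplicit false

open UpperHalfPlane hiding I
open Filter Topology Complex Function CongruenceSubgroup
open Matrix.SpecialLinearGroup (mapGL)
open scoped MatrixGroups Manifold Real ModularForm OnePoint

namespace Pool.Agent.MZ.Per

variable {N : ℕ} [NeZero N]

theorem exists_G (f : CuspForm (Gamma0 N) 2) :
    ∃ G : ℍ → ℂ, Prim (fun z => 2 * π * Complex.I * f z) G 0 := by
  obtain ⟨H, hH⟩ := exists_prim_slash f 1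
  rw [SlashAction.slash_one] at hH
  refine ⟨fun z => 2 * π * Complex.I * H z, fun z => ?_, ?_⟩
  · exact (hH.der z).const_mul (2 * π * Complex.I)
  · simpa using hH.lim.const_mul (2 * π * Complex.I)

/-- The primitive of `2 π i f (z) dz` which vanishes at `i∞`. -/
noncomputable def G (f : CuspForm (Gamma0 N) 2) : ℍ → ℂ := (exists_G f).choose

theorem prim_G (f : CuspForm (Gamma0 N) 2) : Prim (fun z => 2 * π * Complex.I * f z) (G f) 0 :=
  (exists_G f).choose_spec

theorem lim_G (f : CuspForm (Gamma0 N) 2) (σ : SL(2, ℤ)) :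
    ∃ b : ℂ, Tendsto (fun τ : ℍ => G f (σ • τ)) atImInfty (𝓝 b) := by
  have h1 : ∀ z : ℍ, HasDerivAt ((fun z => (2 * π * Complex.I)⁻¹ * G f z) ∘ ofComplex) (f z)
      (z : ℂ) := by
    intro z
    have := ((prim_G f).der z).const_mul (2 * π * Complex.I)⁻¹
    rw [inv_mul_cancel_left₀ two_pi_I_ne_zero] at this
    exact this
  obtain ⟨b, hb⟩ := exists_lim f h1 σ
  refine ⟨2 * π * Complex.I * b, ?_⟩
  have := hb.const_mul (2 * π * Complex.I)
  refine this.congr fun τ => ?_
  rw [mul_inv_cancel_left₀ two_pi_I_ne_zero]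

theorem G_smul (f : CuspForm (Gamma0 N) 2) {γ : SL(2, ℤ)} (hγ : γ ∈ Gamma0 N) (τ : ℍ) :
    G f (γ • τ) = G f τ + (G f (γ • UpperHalfPlane.I) - G f UpperHalfPlane.I) := by
  have hf : ⇑f ∣[(2 : ℤ)] γ = ⇑f :=
    SlashInvariantForm.slash_action_eqn f (mapGL ℝ γ) (Subgroup.mem_map_of_mem _ hγ)
  have h1 := comp_sl (prim_G f).der γ
  have h2 : ((fun z : ℍ => 2 * π * Complex.I * f z) ∣[(2 : ℤ)] γ) =
      fun z : ℍ => 2 * π * Complex.I * f z := by
    have h3 : (fun z : ℍ => 2 * π * Complex.I * f z) = (2 * π * Complex.I : ℂ) • ⇑f := rfl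
    rw [h3, ModularForm.SL_smul_slash, hf]
  rw [h2] at h1
  obtain ⟨c, hc⟩ := sub_const h1 (prim_G f).der
  have hc1 := hc UpperHalfPlane.I
  have hc2 := hc τ
  rw [hc1, hc2]
  ring

/-- The period `2 π i ∫ f(z) dz` over the segment from `i` to `γ i`. -/
noncomputable def period (f : ℍ → ℂ) (γ : SL(2, ℤ)) : ℂ :=
  2 * π * Complex.I * ∫ t in (0 : ℝ)..1,
    f (ofComplex (Complex.I + t * (((γ • UpperHalfPlane.I : ℍ) : ℂ) - Complex.I))) *
      (((γ • UpperHalfPlane.I : ℍ) : ℂ) - Complex.I)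

theorem period_eq (f : CuspForm (Gamma0 N) 2) (γ : SL(2, ℤ)) :
    period f γ = G f (γ • UpperHalfPlane.I) - G f UpperHalfPlane.I := by
  set w : ℂ := ((γ • UpperHalfPlane.I : ℍ) : ℂ) - Complex.I with hw
  have him : ∀ t ∈ Set.uIcc (0 : ℝ) 1, 0 < (Complex.I + t * w).im := by
    intro t ht
    rw [Set.uIcc_of_le zero_le_one] at ht
    have h1 : (Complex.I + t * w).im = (1 - t) * 1 + t * (γ • UpperHalfPlane.I).im := by
      rw [hw]
      simp only [add_im, mul_im, sub_im, sub_re, ofReal_re, ofReal_im, Complex.I_im, Complex.I_re, coe_im]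
      ring
    rw [h1]
    have h2 := (γ • UpperHalfPlane.I).im_pos
    rcases ht.1.eq_or_lt with h | h
    · rw [← h]; norm_num
    · have := mul_pos h h2
      nlinarith [ht.2]
  have hderiv : ∀ t ∈ Set.uIcc (0 : ℝ) 1,
      HasDerivAt (fun t : ℝ => (G f ∘ ofComplex) (Complex.I + t * w))
        (2 * π * Complex.I * f (ofComplex (Complex.I + t * w)) * w) t := by
    intro t ht
    have h1 := (prim_G f).der ⟨_, him t ht⟩
    have h2 : HasDerivAt (fun t : ℝ => Complex.I + (t : ℂ) * w) w t := by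
      have := ((hasDerivAt_id (t : ℂ)).comp_ofReal.mul_const w).const_add Complex.I
      simpa using this
    have h3 := HasDerivAt.comp t h1 h2
    rw [ofComplex_apply_of_im_pos (him t ht)]
    exact h3
  have hcont : ContinuousOn (fun t : ℝ => 2 * π * Complex.I *
      f (ofComplex (Complex.I + t * w)) * w) (Set.uIcc (0 : ℝ) 1) := by
    refine ContinuousOn.mul (ContinuousOn.mul continuousOn_const ?_) continuousOn_const
    intro t ht
    have h1 : ContinuousAt (fun t : ℝ => Complex.I + (t : ℂ) * w) t := by fun_prop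
    have h2 : ContinuousAt (fun z : ℂ => f (ofComplex z)) (Complex.I + t * w) := by
      have := (UpperHalfPlane.mdifferentiableAt_iff.mp (CuspFormClass.holo f ⟨_, him t ht⟩))
      exact this.continuousAt
    exact (ContinuousAt.comp (f := fun t : ℝ => Complex.I + (t : ℂ) * w) h2 h1).continuousWithinAt
  have hint := intervalIntegral.integral_eq_sub_of_hasDerivAt hderiv hcont.intervalIntegrable
  have h1 : period f γ = ∫ t in (0 : ℝ)..1, 2 * π * Complex.I *
      f (ofComplex (Complex.I + t * w)) * w := by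
    rw [period, ← intervalIntegral.integral_const_mul]
    congr 1
    ext t
    rw [mul_assoc (2 * π * Complex.I)]
  rw [h1, hint]
  simp only [comp_apply, ofReal_one, ofReal_zero, zero_mul, one_mul, add_zero]
  congr 1
  · congr 1
    rw [hw, add_sub_cancel, ofComplex_apply]
  · congr 1
    exact ofComplex_apply UpperHalfPlane.I

/-- The modular symbol of `f`: `val x y = 2 π i ∫_x^y f(z) dz`. -/
noncomputable def symC (f : CuspForm (Gamma0 N) 2) : ModSym N ℂ where
  val x y := bd (G f) y - bd (G f) x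
  chain x y z := by ring
  inv γ hγ x y := by
    rw [bd_smul (prim_G f).lim (lim_G f) (G_smul f hγ), bd_smul (prim_G f).lim (lim_G f)
      (G_smul f hγ)]
    ring

theorem symC_infty (f : CuspForm (Gamma0 N) 2) {γ : SL(2, ℤ)} (hγ : γ ∈ Gamma0 N) :
    bd (G f) (mapGL ℚ γ • ∞) = period f γ := by
  rw [bd_smul (prim_G f).lim (lim_G f) (G_smul f hγ), bd_infty, period_eq, zero_add]

theorem bd_smul' (f : CuspForm (Gamma0 N) 2) {γ : SL(2, ℤ)} (hγ : γ ∈ Gamma0 N)
    (x : OnePoint ℚ) : bd (G f) (mapGL ℚ γ • x) = bd (G f) x + period f γ := by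
  rw [bd_smul (prim_G f).lim (lim_G f) (G_smul f hγ), period_eq]

end Pool.Agent.MZ.Per
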