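import Mathlib
import Pool.Agent.MZ.Core3

open Finset

namespace Pool.Agent.MZ

/-- **Corollary B** at the residual level: if the residual measure vanishes then so do the
periods. -/
theorem corB {k : Type*} [Field k] {N : ℕ} {Φ : ℚ → k} (h : IsSym N Φ) (hN0 : N ≠ 0)
    {p : ℕ} (hp : p.Prime) (hp2 : p ≠ 2) [CharP k p] (hpN : ¬ p ∣ N) {al : ℕ → k}
    (hT : ∀ l : ℕ, l.Prime → ¬ l ∣ N → ∀ y : ℚ,
      Φ ((l : ℚ) * y) + ∑ k ∈ range l, Φ ((y + k) / l) = al l * Φ y)
    (hmu : ∀ (n : ℕ) (a : ℤ), ¬ (p : ℤ) ∣ a →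
      al p * Φ ((a : ℚ) / (p : ℚ) ^ (n + 1)) = Φ ((a : ℚ) / (p : ℚ) ^ n))
    (hap : al p ≠ 0)
    {a c : ℤ} (hc : c ≠ 0) (hac : IsCoprime a c) (hNc : (N : ℤ) ∣ c) :
    Φ ((a : ℚ) / c) = 0 := by
  have hp0 : (p : ℚ) ≠ 0 := by exact_mod_cast hp.ne_zero
  set c0 := Φ 0 with hc0
  have hint : ∀ a : ℤ, Φ (a : ℚ) = c0 := by
    intro a
    have := h.trans 0 a
    rwa [zero_add] at this
  -- values at `a / p^n`
  have h1 : ∀ (n : ℕ) (a : ℤ), ¬ (p : ℤ) ∣ a → al p ^ n * Φ ((a : ℚ) / (p : ℚ) ^ n) = c0 := by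
    intro n
    induction n with
    | zero => intro a _; simpa using hint a
    | succ n ih =>
      intro a ha
      rw [pow_succ, mul_assoc, hmu n a ha, ih a ha]
  -- `T_p` at zero
  have h2 := hT p hp hpN 0
  obtain ⟨p', hp'⟩ : ∃ p', p = p' + 1 := ⟨p - 1, by have := hp.pos; omega⟩
  have h3 : al p * ∑ k ∈ range p, Φ ((0 + (k : ℚ)) / p) = (al p + (p' : k)) * c0 := by
    rw [Finset.mul_sum]
    have h4 : ∀ k ∈ range p, al p * Φ ((0 + (k : ℚ)) / p) = if k = 0 then al p * c0 else c0 := by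
      intro k hk
      have hk' := mem_range.1 hk
      split_ifs with hk0
      · rw [hk0]; simp [hc0]
      · have h5 := h1 1 (k : ℤ) (by
          intro hh
          have h6 : p ∣ k := by exact_mod_cast hh
          exact absurd (Nat.le_of_dvd (Nat.pos_of_ne_zero hk0) h6) (by omega))
        rw [pow_one, pow_one, Int.cast_natCast] at h5
        rw [zero_add]
        exact h5
    rw [Finset.sum_congr rfl h4]
    have h7 : range p = range (p' + 1) := by rw [hp']
    rw [h7, Finset.sum_range_succ']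
    simp
    ring
  rw [mul_zero, ← hc0] at h2
  have hpk : (p' : k) + 1 = 0 := by
    have := CharP.cast_eq_zero k p
    have h8 : ((p : ℕ) : k) = (p' : k) + 1 := by
      conv_lhs => rw [hp']
      push_cast
      ring
    rw [← h8]; exact this
  have h9 : (al p - 1) ^ 2 * c0 = 0 := by
    linear_combination (-al p) * h2 + h3 + c0 * hpk
  have hR : ∀ (m : ℤ) (n : ℕ), Φ ((m : ℚ) / (p : ℚ) ^ n) = c0 := by
    have h10 : ∀ n : ℕ, al p ^ n * c0 = c0 := by
      intro n
      rcases mul_eq_zero.1 h9 with h11 | h11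
      · have h12 : al p = 1 := by
          have := pow_eq_zero_iff (two_ne_zero) |>.1 h11
          linear_combination this
        rw [h12, one_pow, one_mul]
      · rw [h11, mul_zero]
    intro m n
    induction n generalizing m with
    | zero => simpa using hint m
    | succ n ih =>
      by_cases hm : (p : ℤ) ∣ m
      · obtain ⟨m', rfl⟩ := hm
        have : ((p * m' : ℤ) : ℚ) / (p : ℚ) ^ (n + 1) = (m' : ℚ) / (p : ℚ) ^ n := by
          push_cast
          rw [pow_succ]
          field_simp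
        rw [this, ih]
      · have h13 := h1 (n + 1) m hm
        have h14 := h10 (n + 1)
        have h15 : al p ^ (n + 1) ≠ 0 := pow_ne_zero _ hap
        have h16 : al p ^ (n + 1) * Φ ((m : ℚ) / (p : ℚ) ^ (n + 1)) = al p ^ (n + 1) * c0 := by
          rw [h13, h14]
        exact mul_left_cancel₀ h15 h16
  exact thmA h hN0 hp hp2 hpN hR (al := al) (fun l hl _ hlN => hT l hl hlN) hc hac hNc

end Pool.Agent.MZ
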