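import Mathlib
import Pool.Agent.MZ.Bridge
import Pool.Agent.MZ.Core4

open Matrix Matrix.SpecialLinearGroup OnePoint CongruenceSubgroup Finset
open scoped MatrixGroups

namespace Pool.Agent.MZ

/-- **Main theorem (residual form).** -/
theorem main_residual {N : ℕ} (hN0 : N ≠ 0) {p : ℕ} (hp : p.Prime) (hp2 : p ≠ 2)
    (hpN : ¬ p ∣ N) {A : Type*} [CommRing A] {k : Type*} [Field k] [CharP k p] (ρ : A →+* k)
    (φ : ModSym N A) (a : ℕ → A) (hH : ∀ l : ℕ, l.Prime → ¬ l ∣ N → φ.HeckeEigen l (a l))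
    (α : Aˣ) (hα : (α : A) ^ 2 - a p * α + p = 0) {γ : SL(2, ℤ)} (hγ : γ ∈ Gamma0 N)
    (hne : ρ (φ.val ∞ (mapGL ℚ γ • ∞)) ≠ 0) :
    ∃ (n : ℕ) (b : ℤ), ¬ (p : ℤ) ∣ b ∧ ρ (msd φ p α n b) ≠ 0 := by
  by_contra hcon
  push Not at hcon
  apply hne
  set ψ := φ.map ρ with hψ
  have hH' : ∀ l : ℕ, l.Prime → ¬ l ∣ N → ψ.HeckeEigen l (ρ (a l)) :=
    fun l hl hlN => (hH l hl hlN).map ρ
  have hαu : ρ (α : A) ≠ 0 := (α.isUnit.map ρ).ne_zero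
  have hαa : ρ (a p) = ρ (α : A) := by
    have h1 := congrArg ρ hα
    rw [map_add, map_sub, map_pow, map_mul, map_natCast, CharP.cast_eq_zero k p, add_zero,
      map_zero] at h1
    have h2 : ρ (α : A) * (ρ (α : A) - ρ (a p)) = 0 := by linear_combination h1
    exact (sub_eq_zero.1 ((mul_eq_zero.1 h2).resolve_left hαu)).symm
  have hinv : ρ (α : A) * ρ ((α⁻¹ : Aˣ) : A) = 1 := by
    rw [← map_mul, Units.mul_inv, map_one]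
  have hmu : ∀ (n : ℕ) (b : ℤ), ¬ (p : ℤ) ∣ b →
      ρ (a p) * ψ.val ∞ ((((b : ℚ) / (p : ℚ) ^ (n + 1) : ℚ)) : OnePoint ℚ) =
        ψ.val ∞ ((((b : ℚ) / (p : ℚ) ^ n : ℚ)) : OnePoint ℚ) := by
    intro n b hb
    have h1 := hcon n b hb
    rw [msd, map_sub, map_mul, map_mul, map_pow, map_pow] at h1
    rw [hαa, hψ, ModSym.map_val, ModSym.map_val]
    have h2 : ρ (α : A) ^ (n + 2) * ρ ((α⁻¹ : Aˣ) : A) ^ (n + 2) = 1 := by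
      rw [← _root_.mul_pow, hinv, one_pow]
    have h3 : ρ (α : A) ^ (n + 2) * ρ ((α⁻¹ : Aˣ) : A) ^ (n + 1) = ρ (α : A) := by
      have : ρ (α : A) ^ (n + 1) * ρ ((α⁻¹ : Aˣ) : A) ^ (n + 1) = 1 := by
        rw [← _root_.mul_pow, hinv, one_pow]
      rw [pow_succ]
      linear_combination (ρ (α : A)) * this
    linear_combination (ρ (α : A) ^ (n + 2)) * h1 -
      (ρ (φ.val ∞ ((((b : ℚ) / (p : ℚ) ^ (n + 1) : ℚ)) : OnePoint ℚ))) * h3 +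
      (ρ (φ.val ∞ ((((b : ℚ) / (p : ℚ) ^ n : ℚ)) : OnePoint ℚ))) * h2
  have hfin := ψ.infty_eq_zero (fun a' c hac hNc hc => corB ψ.isSym hN0 hp hp2 hpN
    (al := fun l => ρ (a l)) (fun l hl hlN y => (hH' l hl hlN).phi y) hmu
    (by rw [hαa]; exact hαu) hc hac hNc) γ hγ
  simpa [hψ] using hfin

/-- **Main theorem** for `ℤ_[p]`-valued modular symbols. -/
theorem main_padic {N : ℕ} (hN0 : N ≠ 0) {p : ℕ} [Fact p.Prime] (hp2 : p ≠ 2)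
    (hpN : ¬ p ∣ N) (φ : ModSym N ℤ_[p]) (a : ℕ → ℤ_[p])
    (hH : ∀ l : ℕ, l.Prime → ¬ l ∣ N → φ.HeckeEigen l (a l))
    (α : ℤ_[p]ˣ) (hα : (α : ℤ_[p]) ^ 2 - a p * α + p = 0) {γ : SL(2, ℤ)} (hγ : γ ∈ Gamma0 N)
    (hne : ¬ (p : ℤ_[p]) ∣ φ.val ∞ (mapGL ℚ γ • ∞)) :
    ∃ (n : ℕ) (b : ℤ), ¬ (p : ℤ) ∣ b ∧ ¬ (p : ℤ_[p]) ∣ msd φ p α n b := by
  have hker : ∀ x : ℤ_[p], PadicInt.toZMod x = 0 ↔ (p : ℤ_[p]) ∣ x := by
    intro x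
    rw [← RingHom.mem_ker, PadicInt.ker_toZMod, PadicInt.maximalIdeal_eq_span_p,
      Ideal.mem_span_singleton]
  obtain ⟨n, b, hb, hnb⟩ := main_residual hN0 (Fact.out : p.Prime) hp2 hpN
    (PadicInt.toZMod (p := p)) φ a hH α hα hγ (fun h => hne ((hker _).1 h))
  exact ⟨n, b, hb, fun h => hnb ((hker _).2 h)⟩

end Pool.Agent.MZ
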