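import Mathlib
import Pool.Agent.MZ.Three

open Matrix Matrix.SpecialLinearGroup OnePoint CongruenceSubgroup Finset PowerSeries
open scoped MatrixGroups

namespace Pool.Agent.MZ

section series

variable {p : ℕ} [hp : Fact p.Prime]

/-- a `ZMod p`-combination of `(1 + X)^j`, `j < p^n`, divisible by `(1 + X)^(p^n) - 1` is zero -/
lemma zmod_comb (n : ℕ) (c : ℕ → ZMod p)
    (h : ((1 + X) ^ (p ^ n) - 1 : PowerSeries (ZMod p)) ∣
      ∑ j ∈ range (p ^ n), C (c j) * (1 + X) ^ j) : ∀ j < p ^ n, c j = 0 := by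
  have hpn : 0 < p ^ n := pow_pos hp.out.pos n
  set Q : Polynomial (ZMod p) :=
    ∑ j ∈ range (p ^ n), Polynomial.C (c j) * (1 + Polynomial.X) ^ j with hQ
  have hQc : (Q : PowerSeries (ZMod p)) = ∑ j ∈ range (p ^ n), C (c j) * (1 + X) ^ j := by
    rw [hQ]
    have : ∀ f : Polynomial (ZMod p), (f : PowerSeries (ZMod p)) =
      Polynomial.coeToPowerSeries.ringHom f := fun f => rfl
    rw [this, map_sum]
    refine sum_congr rfl ?_
    intro j _
    rw [map_mul, map_pow, map_add, map_one]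
    simp
  have hX : ((1 + X) ^ (p ^ n) - 1 : PowerSeries (ZMod p)) = X ^ (p ^ n) := by
    have : CharP (PowerSeries (ZMod p)) p :=
      charP_of_injective_ringHom (f := (C : ZMod p →+* PowerSeries (ZMod p))) C_injective p
    rw [add_pow_char_pow, one_pow]
    ring
  rw [hX, ← hQc] at h
  have hdeg : Q.degree < ((p ^ n : ℕ) : WithBot ℕ) := by
    rw [hQ]
    refine lt_of_le_of_lt (Polynomial.degree_sum_le _ _) ?_
    rw [Finset.sup_lt_iff (by exact WithBot.bot_lt_coe _)]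
    intro j hj
    rw [mem_range] at hj
    refine lt_of_le_of_lt (Polynomial.degree_mul_le _ _) ?_
    refine lt_of_le_of_lt (add_le_add Polynomial.degree_C_le (Polynomial.degree_pow_le _ _)) ?_
    rw [zero_add]
    have h1 : (1 + Polynomial.X : Polynomial (ZMod p)).degree ≤ 1 := by
      refine (Polynomial.degree_add_le _ _).trans ?_
      simp
    calc j • (1 + Polynomial.X : Polynomial (ZMod p)).degree ≤ j • (1 : WithBot ℕ) :=
          nsmul_le_nsmul_right h1 j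
      _ = (j : WithBot ℕ) := by simp
      _ < _ := by exact_mod_cast hj
  have hQ0 : Q = 0 := by
    ext m
    rw [Polynomial.coeff_zero]
    by_cases hm : m < p ^ n
    · have := (PowerSeries.X_pow_dvd_iff.1 h) m hm
      rwa [Polynomial.coeff_coe] at this
    · exact Polynomial.coeff_eq_zero_of_degree_lt (lt_of_lt_of_le hdeg (by exact_mod_cast not_lt.1 hm))
  have hcomp : Q.comp (Polynomial.X - 1) = ∑ j ∈ range (p ^ n), Polynomial.C (c j) *
      Polynomial.X ^ j := by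
    rw [hQ, Polynomial.sum_comp]
    refine sum_congr rfl ?_
    intro j _
    simp
  intro j hj
  have h3 : (Q.comp (Polynomial.X - 1)).coeff j = c j := by
    rw [hcomp, Polynomial.finsetSum_coeff]
    simp only [Polynomial.coeff_C_mul_X_pow]
    rw [sum_ite_eq]
    simp [hj]
  rw [← h3, hQ0, Polynomial.zero_comp, Polynomial.coeff_zero]

/-- part (a) -/
theorem dvd_of_coeff_dvd (n : ℕ) (c : ℕ → ℤ_[p]) (L : PowerSeries ℤ_[p])
    (h : ((1 + X) ^ (p ^ n) - 1 : PowerSeries ℤ_[p]) ∣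
      L - ∑ j ∈ range (p ^ n), C (c j) * (1 + X) ^ j)
    (hL : ∀ m, (p : ℤ_[p]) ∣ coeff m L) : ∀ j < p ^ n, (p : ℤ_[p]) ∣ c j := by
  have hker : ∀ x : ℤ_[p], (p : ℤ_[p]) ∣ x ↔ PadicInt.toZMod x = 0 := by
    intro x
    rw [← RingHom.mem_ker, PadicInt.ker_toZMod, PadicInt.maximalIdeal_eq_span_p,
      Ideal.mem_span_singleton]
  have hLz : PowerSeries.map (PadicInt.toZMod (p := p)) L = 0 := by
    ext m
    rw [coeff_map, (hker _).1 (hL m), map_zero]
  have h2 := map_dvd (PowerSeries.map (PadicInt.toZMod (p := p))) h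
  rw [map_sub, map_sub, hLz, zero_sub, dvd_neg, map_sum, map_pow, map_add, map_one, map_X] at h2
  have h3 : ∀ j < p ^ n, PadicInt.toZMod (c j) = 0 := by
    apply zmod_comb n (fun j => PadicInt.toZMod (c j))
    convert h2 using 1
    refine sum_congr rfl ?_
    intro j _
    rw [map_mul, map_pow, map_add, map_one, map_X, map_C]
  intro j hj
  exact (hker _).2 (h3 j hj)

lemma coeff_omega (n i : ℕ) : coeff i ((1 + X) ^ (p ^ n) - 1 : PowerSeries ℤ_[p]) =
    if i = 0 then 0 else (((p ^ n).choose i : ℕ) : ℤ_[p]) := by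
  have h1 : ((1 + X) ^ (p ^ n) : PowerSeries ℤ_[p]) =
      (((1 + Polynomial.X) ^ (p ^ n) : Polynomial ℤ_[p]) : PowerSeries ℤ_[p]) := by
    simp
  rw [map_sub, h1, Polynomial.coeff_coe, Polynomial.coeff_one_add_X_pow, coeff_one]
  split_ifs with h
  · subst h
    simp
  · rw [sub_zero]

lemma dvd_factorial_coeff_omega (n i m : ℕ) (hi : i ≤ m) :
    (p : ℤ_[p]) ^ n ∣ (m.factorial : ℤ_[p]) * coeff i ((1 + X) ^ (p ^ n) - 1 : PowerSeries ℤ_[p]) := by
  rw [coeff_omega]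
  split_ifs with h
  · simp
  · obtain ⟨k, rfl⟩ := Nat.exists_eq_succ_of_ne_zero h
    have hpn : 0 < p ^ n := pow_pos hp.out.pos n
    obtain ⟨q, hq⟩ := Nat.exists_eq_succ_of_ne_zero hpn.ne'
    have h1 := Nat.add_one_mul_choose_eq q k
    rw [Nat.succ_eq_add_one] at hq
    rw [← hq] at h1
    have h2 : (k + 1) ∣ m.factorial := Nat.dvd_factorial (Nat.succ_pos k) hi
    obtain ⟨e, he⟩ := h2
    have h3 : p ^ n ∣ m.factorial * (p ^ n).choose (k + 1) := by
      rw [he]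
      refine ⟨q.choose k * e, ?_⟩
      calc (k + 1) * e * (p ^ n).choose (k + 1) = e * ((p ^ n).choose (k + 1) * (k + 1)) := by ring
        _ = e * (p ^ n * q.choose k) := by rw [h1]
        _ = _ := by ring
    have h4 := Nat.cast_dvd_cast (α := ℤ_[p]) h3
    push_cast at h4
    rw [Nat.succ_eq_add_one]
    exact h4

/-- the intersection of the ideals of `(1 + X)^(p^n) - 1` is zero -/
theorem eq_zero_of_forall_dvd (D : PowerSeries ℤ_[p])
    (h : ∀ n : ℕ, ((1 + X) ^ (p ^ n) - 1 : PowerSeries ℤ_[p]) ∣ D) : D = 0 := by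
  ext m
  rw [map_zero]
  have hfac : ((m.factorial : ℕ) : ℤ_[p]) ≠ 0 := by
    exact_mod_cast m.factorial_ne_zero
  have h1 : ∀ n : ℕ, (p : ℤ_[p]) ^ n ∣ (m.factorial : ℤ_[p]) * coeff m D := by
    intro n
    obtain ⟨Q, rfl⟩ := h n
    rw [coeff_mul, mul_sum]
    refine dvd_sum ?_
    rintro ⟨i, j⟩ hij
    rw [HasAntidiagonal.mem_antidiagonal] at hij
    rw [← mul_assoc]
    exact (dvd_factorial_coeff_omega n i m (by simp only at hij; omega)).mul_right _
  have h2 : (m.factorial : ℤ_[p]) * coeff m D = 0 := by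
    by_contra hne
    have hnorm : 0 < ‖(m.factorial : ℤ_[p]) * coeff m D‖ := norm_pos_iff.2 hne
    have hlt : ∃ n : ℕ, ((p : ℝ) ^ (-(n : ℤ))) < ‖(m.factorial : ℤ_[p]) * coeff m D‖ :=
      PadicInt.exists_pow_neg_lt p hnorm
    obtain ⟨n, hn⟩ := hlt
    have h3 := (PadicInt.norm_le_pow_iff_mem_span_pow ((m.factorial : ℤ_[p]) * coeff m D) n).2
      (Ideal.mem_span_singleton.2 (h1 n))
    exact absurd h3 (not_le.2 hn)
  exact (mul_eq_zero.1 h2).resolve_left hfac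

open scoped PowerSeries.WithPiTopology in
/-- a compatible system has a limit -/
theorem exists_limit (θ : ℕ → PowerSeries ℤ_[p])
    (h : ∀ n : ℕ, ((1 + X) ^ (p ^ n) - 1 : PowerSeries ℤ_[p]) ∣ θ (n + 1) - θ n) :
    ∃ L : PowerSeries ℤ_[p], ∀ n : ℕ, ((1 + X) ^ (p ^ n) - 1 : PowerSeries ℤ_[p]) ∣ L - θ n := by
  have hcomp : CompactSpace (PowerSeries ℤ_[p]) :=
    inferInstanceAs (CompactSpace ((Unit →₀ ℕ) → ℤ_[p]))
  set K : ℕ → Set (PowerSeries ℤ_[p]) := fun n =>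
    Set.range (fun Q : PowerSeries ℤ_[p] => θ n + ((1 + X) ^ (p ^ n) - 1) * Q) with hK
  have hmem : ∀ (n : ℕ) (L : PowerSeries ℤ_[p]), L ∈ K n ↔
      ((1 + X) ^ (p ^ n) - 1 : PowerSeries ℤ_[p]) ∣ L - θ n := by
    intro n L
    constructor
    · rintro ⟨Q, rfl⟩
      exact ⟨Q, by ring⟩
    · rintro ⟨Q, hQ⟩
      exact ⟨Q, by simp only; rw [← hQ]; ring⟩
  have hcpt : ∀ n, IsCompact (K n) := by
    intro n
    apply isCompact_range
    exact continuous_const.add (continuous_const.mul continuous_id)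
  have hne : (⋂ n, K n).Nonempty := by
    apply IsCompact.nonempty_iInter_of_sequence_nonempty_isCompact_isClosed
    · intro n L hL
      rw [hmem] at hL ⊢
      have h1 : ((1 + X) ^ (p ^ n) - 1 : PowerSeries ℤ_[p]) ∣ (1 + X) ^ (p ^ (n + 1)) - 1 := by
        rw [pow_succ, pow_mul]
        exact sub_one_dvd_pow_sub_one _ _
      have h2 := dvd_add (h1.trans hL) (h n)
      convert h2 using 1
      ring
    · intro n
      exact Set.range_nonempty _
    · exact hcpt 0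
    · intro n
      exact (hcpt n).isClosed
  obtain ⟨L, hL⟩ := hne
  rw [Set.mem_iInter] at hL
  exact ⟨L, fun n => (hmem n L).1 (hL n)⟩

end series

/-- distribution relation of the measure -/
theorem msd_distribution {N : ℕ} {A : Type*} [CommRing A] (φ : ModSym N A) {p : ℕ} (hp : p ≠ 0)
    (α : Aˣ) (a₀ : A) (hH : φ.HeckeEigen p a₀) (hα : (α : A) ^ 2 - a₀ * α + p = 0) (n : ℕ)
    (a : ℤ) : ∑ k ∈ range p, msd φ p α (n + 1) (a + k * (p : ℤ) ^ (n + 1)) = msd φ p α n a := by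
  have hp0 : (p : ℚ) ≠ 0 := by exact_mod_cast hp
  have htr : ∀ (x : ℚ) (k : ℤ), φ.val ∞ ((x + k : ℚ) : OnePoint ℚ) = φ.val ∞ (x : OnePoint ℚ) :=
    φ.isSym.trans
  set β : A := ((α⁻¹ : Aˣ) : A) with hβ
  have hαβ : (α : A) * β = 1 := by rw [hβ]; exact α.mul_inv
  set y : ℚ := (a : ℚ) / (p : ℚ) ^ (n + 1) with hy
  have e1 : ∀ k : ℕ, (((a + k * (p : ℤ) ^ (n + 1) : ℤ) : ℚ)) / (p : ℚ) ^ (n + 1 + 1) =
      (y + k) / (p : ℚ) := by
    intro k
    rw [hy]
    push_cast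
    rw [pow_succ (p : ℚ) (n + 1)]
    field_simp
  have e2 : ∀ k : ℕ, (((a + k * (p : ℤ) ^ (n + 1) : ℤ) : ℚ)) / (p : ℚ) ^ (n + 1) =
      y + ((k : ℤ) : ℚ) := by
    intro k
    rw [hy]
    push_cast
    field_simp
  have e3 : (p : ℚ) * y = (a : ℚ) / (p : ℚ) ^ n := by
    rw [hy, pow_succ]
    field_simp
  have hphi := hH.phi y
  rw [e3] at hphi
  simp only [msd, e1, e2, htr]
  rw [sum_sub_distrib, ← mul_sum, sum_const, card_range, nsmul_eq_mul]
  rw [← hβ]
  have h1 : ∑ k ∈ range p, φ.val ∞ (((y + k) / (p : ℚ) : ℚ) : OnePoint ℚ) =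
      a₀ * φ.val ∞ (y : OnePoint ℚ) - φ.val ∞ ((a : ℚ) / (p : ℚ) ^ n : ℚ) := by
    rw [← hphi]; ring
  rw [h1]
  have h2 : β * a₀ = 1 + β ^ 2 * p := by
    have h3 : β ^ 2 * ((α : A) ^ 2 - a₀ * α + p) = 0 := by rw [hα, mul_zero]
    have h4 : β ^ 2 * ((α : A) ^ 2 - a₀ * α + p) =
      ((α : A) * β) ^ 2 - β * a₀ * ((α : A) * β) + β ^ 2 * p := by ring
    rw [h4, hαβ] at h3
    linear_combination -h3
  have h5 : β ^ (n + 1 + 1) * (a₀ * φ.val ∞ (y : OnePoint ℚ)) =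
      β ^ (n + 1) * (1 + β ^ 2 * p) * φ.val ∞ (y : OnePoint ℚ) := by
    rw [← h2]; ring
  rw [mul_sub, h5]
  ring

lemma log_aux {p : ℕ} (hp : p.Prime) (hp2 : p ≠ 2) (n : ℕ) :
    orderOf (((1 + p : ℕ) : ZMod (p ^ (n + 1))) ^ (p - 1)) = p ^ n := by
  have : Fact p.Prime := ⟨hp⟩
  have hou : orderOf ((1 + p : ℕ) : ZMod (p ^ (n + 1))) = p ^ n := by
    push_cast
    exact ZMod.orderOf_one_add_prime hp hp2 n
  have hco : Nat.Coprime (orderOf ((1 + p : ℕ) : ZMod (p ^ (n + 1)))) (p - 1) := by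
    rw [hou]
    apply Nat.Coprime.pow_left
    rw [Nat.Prime.coprime_iff_not_dvd hp]
    intro hh
    have h1 := hp.two_le
    have := Nat.le_of_dvd (by omega) hh
    omega
  rw [Nat.Coprime.orderOf_pow hco, hou]

/-- `(1+p)^(j(p-1))` modulo `p^(n+1)` depends only on `j` modulo `p^n`, injectively -/
lemma log_modEq {p : ℕ} (hp : p.Prime) (hp2 : p ≠ 2) (n i j : ℕ) :
    ((1 + p) ^ (i * (p - 1)) ≡ (1 + p) ^ (j * (p - 1)) [MOD p ^ (n + 1)]) ↔
      i ≡ j [MOD p ^ n] := by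
  rw [← ZMod.natCast_eq_natCast_iff, Nat.cast_pow, Nat.cast_pow, mul_comm i, mul_comm j, pow_mul,
    pow_mul]
  have hu : IsUnit (((1 + p : ℕ) : ZMod (p ^ (n + 1))) ^ (p - 1)) := by
    apply IsUnit.pow
    rw [ZMod.isUnit_iff_coprime]
    apply Nat.Coprime.pow_right
    simp
  obtain ⟨v, hv⟩ := hu
  have hov : orderOf v = p ^ n := by
    rw [← orderOf_units, hv, log_aux hp hp2]
  rw [← hv, ← hov, ← pow_eq_pow_iff_modEq]
  constructor
  · intro h
    apply Units.ext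
    simpa using h
  · intro h
    have := congrArg (fun z : (ZMod (p ^ (n + 1)))ˣ => (z : ZMod (p ^ (n + 1)))) h
    simpa using this

/-- the set of logarithms of `a` at level `n` -/
def idx (p n a : ℕ) : Finset ℕ :=
  (range (p ^ n)).filter (fun j => a ^ (p - 1) ≡ (1 + p) ^ (j * (p - 1)) [MOD p ^ (n + 1)])

lemma idx_add {p : ℕ} (n a k : ℕ) : idx p n (a + k * p ^ (n + 1)) = idx p n a := by
  ext j
  simp only [idx, mem_filter]
  have h1 : a + k * p ^ (n + 1) ≡ a [MOD p ^ (n + 1)] := by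
    simp [Nat.ModEq]
  have h2 := h1.pow (p - 1)
  constructor
  · rintro ⟨hj, h⟩
    exact ⟨hj, h2.symm.trans h⟩
  · rintro ⟨hj, h⟩
    exact ⟨hj, h2.trans h⟩

lemma idx_single {p : ℕ} (hp : p.Prime) (hp2 : p ≠ 2) (n a : ℕ) (ha : ¬ p ∣ a) :
    ∃ j, idx p (n + 1) a = {j} ∧ idx p n a = {j % p ^ n} := by
  obtain ⟨j, hj, hja⟩ := exists_log hp hp2 (n + 1) ha
  have hpn : 0 < p ^ n := pow_pos hp.pos n
  refine ⟨j, ?_, ?_⟩
  · ext i
    simp only [idx, mem_filter, mem_range, mem_singleton]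
    constructor
    · rintro ⟨hi, hia⟩
      have h1 := (log_modEq hp hp2 (n + 1) i j).1 (hia.symm.trans hja)
      exact Nat.ModEq.eq_of_lt_of_lt h1 hi hj
    · rintro rfl
      exact ⟨hj, hja⟩
  · have hja' : a ^ (p - 1) ≡ (1 + p) ^ (j * (p - 1)) [MOD p ^ (n + 1)] :=
      hja.of_dvd (pow_dvd_pow p (by omega))
    have hmod : (1 + p) ^ (j * (p - 1)) ≡ (1 + p) ^ (j % p ^ n * (p - 1)) [MOD p ^ (n + 1)] :=
      (log_modEq hp hp2 n j (j % p ^ n)).2 (Nat.mod_modEq j (p ^ n)).symm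
    ext i
    simp only [idx, mem_filter, mem_range, mem_singleton]
    constructor
    · rintro ⟨hi, hia⟩
      have h1 := (log_modEq hp hp2 n i (j % p ^ n)).1 (hia.symm.trans (hja'.trans hmod))
      exact Nat.ModEq.eq_of_lt_of_lt h1 hi (Nat.mod_lt _ hpn)
    · rintro rfl
      exact ⟨Nat.mod_lt _ hpn, hja'.trans hmod⟩

lemma sum_range_split {M : Type*} [AddCommMonoid M] {p : ℕ} (hp : 0 < p) (n : ℕ) (f : ℕ → M) :
    ∑ b ∈ (range (p ^ (n + 1 + 1))).filter (fun a => ¬ p ∣ a), f b =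
      ∑ a ∈ (range (p ^ (n + 1))).filter (fun a => ¬ p ∣ a), ∑ k ∈ range p,
        f (a + k * p ^ (n + 1)) := by
  have hq : 0 < p ^ (n + 1) := pow_pos hp _
  have hpq : p ∣ p ^ (n + 1) := dvd_pow_self _ (by omega)
  rw [← sum_product']
  symm
  refine sum_nbij' (fun x => x.1 + x.2 * p ^ (n + 1)) (fun b => (b % p ^ (n + 1), b / p ^ (n + 1)))
    ?_ ?_ ?_ ?_ ?_
  · rintro ⟨a, k⟩ hx
    simp only [mem_product, mem_filter, mem_range] at hx ⊢
    obtain ⟨⟨h1, h2⟩, h3⟩ := hx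
    constructor
    · calc a + k * p ^ (n + 1) < p ^ (n + 1) + k * p ^ (n + 1) := by omega
        _ = (k + 1) * p ^ (n + 1) := by ring
        _ ≤ p * p ^ (n + 1) := Nat.mul_le_mul_right _ h3
        _ = p ^ (n + 1 + 1) := by ring
    · intro hh
      apply h2
      exact (Nat.dvd_add_left (hpq.mul_left k)).1 hh
  · intro b hb
    simp only [mem_product, mem_filter, mem_range] at hb ⊢
    refine ⟨⟨Nat.mod_lt _ hq, ?_⟩, ?_⟩
    · intro hh
      apply hb.2
      exact (Nat.dvd_mod_iff hpq).1 hh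
    · rw [Nat.div_lt_iff_lt_mul hq]
      calc b < p ^ (n + 1 + 1) := hb.1
        _ = p * p ^ (n + 1) := by ring
  · rintro ⟨a, k⟩ hx
    simp only [mem_product, mem_filter, mem_range] at hx
    obtain ⟨⟨h1, h2⟩, h3⟩ := hx
    simp only [Prod.mk.injEq]
    constructor
    · rw [Nat.add_mul_mod_self_right, Nat.mod_eq_of_lt h1]
    · rw [Nat.add_mul_div_right _ _ hq, Nat.div_eq_of_lt h1, zero_add]
  · intro b hb
    simp only
    exact Nat.mod_add_div' b (p ^ (n + 1))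
  · rintro ⟨a, k⟩ hx
    rfl

/-- compatibility of the theta elements -/
theorem theta_compat {N : ℕ} {A : Type*} [CommRing A] (φ : ModSym N A) {p : ℕ} (hp : p.Prime)
    (hp2 : p ≠ 2) (α : Aˣ) (a₀ : A) (hH : φ.HeckeEigen p a₀) (hα : (α : A) ^ 2 - a₀ * α + p = 0)
    (n : ℕ) :
    ((1 + X) ^ (p ^ n) - 1 : PowerSeries A) ∣ theta φ p α (n + 1) - theta φ p α n := by
  set ω : PowerSeries A := (1 + X) ^ (p ^ n) - 1 with hω
  have hth : ∀ m, theta φ p α m = ∑ a ∈ (range (p ^ (m + 1))).filter (fun a => ¬ p ∣ a),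
      ∑ j ∈ idx p m a, C (msd φ p α m a) * (1 + X) ^ j := fun m => rfl
  have h0 : theta φ p α n = ∑ b ∈ (range (p ^ (n + 1 + 1))).filter (fun a => ¬ p ∣ a),
      ∑ j ∈ idx p n b, C (msd φ p α (n + 1) b) * (1 + X) ^ j := by
    rw [sum_range_split hp.pos, hth n]
    refine sum_congr rfl ?_
    intro a _
    simp only [idx_add]
    rw [sum_comm]
    refine sum_congr rfl ?_
    intro j _
    rw [← sum_mul, ← map_sum, ← msd_distribution φ hp.ne_zero α a₀ hH hα n a]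
    push_cast
    rfl
  rw [h0, hth (n + 1), ← sum_sub_distrib]
  refine dvd_sum ?_
  intro a ha
  rw [mem_filter] at ha
  obtain ⟨j, h1, h2⟩ := idx_single hp hp2 n a ha.2
  rw [h1, h2, sum_singleton, sum_singleton, ← mul_sub]
  apply Dvd.dvd.mul_left
  have h3 : ((1 + X) ^ j - (1 + X) ^ (j % p ^ n) : PowerSeries A) =
      (1 + X) ^ (j % p ^ n) * (((1 + X) ^ (p ^ n)) ^ (j / p ^ n) - 1) := by
    rw [mul_sub, mul_one, ← pow_mul, ← pow_add, Nat.mod_add_div]
  rw [h3]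
  apply Dvd.dvd.mul_left
  exact sub_one_dvd_pow_sub_one _ _

/-- part (b): existence and uniqueness of the `p`-adic `L`-function -/
theorem existsUnique_padicL {N : ℕ} {p : ℕ} [hp : Fact p.Prime] (hp2 : p ≠ 2)
    (φ : ModSym N ℤ_[p]) (α : ℤ_[p]ˣ) (a₀ : ℤ_[p]) (hH : φ.HeckeEigen p a₀)
    (hα : (α : ℤ_[p]) ^ 2 - a₀ * α + p = 0) : ∃! L : PowerSeries ℤ_[p], IsPadicL φ p α L := by
  obtain ⟨L, hL⟩ := exists_limit (fun n => theta φ p α n)
    (theta_compat φ hp.out hp2 α a₀ hH hα)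
  refine ⟨L, hL, ?_⟩
  intro L' hL'
  have h1 : L' - L = 0 := by
    apply eq_zero_of_forall_dvd
    intro n
    have h2 := dvd_sub (hL' n) (hL n)
    convert h2 using 1
    ring
  exact sub_eq_zero.1 h1

end Pool.Agent.MZ
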