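import Mathlib
import Pool.Agent.MZ.Series

open Matrix Matrix.SpecialLinearGroup OnePoint CongruenceSubgroup Finset PowerSeries
open scoped MatrixGroups

namespace Pool.Agent.MZ

/-- compatibility of the theta elements weighted by a function `w` of `a` modulo `p` -/
theorem thetaW_compat {N : ℕ} {A : Type*} [CommRing A] (φ : ModSym N A) {p : ℕ} (hp : p.Prime)
    (hp2 : p ≠ 2) (α : Aˣ) (a₀ : A) (hH : φ.HeckeEigen p a₀) (hα : (α : A) ^ 2 - a₀ * α + p = 0)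
    (w : ℕ → A) (hw : ∀ a b : ℕ, a ≡ b [MOD p] → w a = w b) (n : ℕ) :
    ((1 + X) ^ (p ^ n) - 1 : PowerSeries A) ∣
      (∑ a ∈ (range (p ^ (n + 1 + 1))).filter (fun a => ¬ p ∣ a),
        ∑ j ∈ (range (p ^ (n + 1))).filter
          (fun j => a ^ (p - 1) ≡ (1 + p) ^ (j * (p - 1)) [MOD p ^ (n + 1 + 1)]),
          C (w a * msd φ p α (n + 1) a) * (1 + X) ^ j) -
      (∑ a ∈ (range (p ^ (n + 1))).filter (fun a => ¬ p ∣ a),
        ∑ j ∈ (range (p ^ n)).filter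
          (fun j => a ^ (p - 1) ≡ (1 + p) ^ (j * (p - 1)) [MOD p ^ (n + 1)]),
          C (w a * msd φ p α n a) * (1 + X) ^ j) := by
  set ω : PowerSeries A := (1 + X) ^ (p ^ n) - 1 with hω
  change ω ∣ (∑ a ∈ (range (p ^ (n + 1 + 1))).filter (fun a => ¬ p ∣ a),
        ∑ j ∈ idx p (n + 1) a, C (w a * msd φ p α (n + 1) a) * (1 + X) ^ j) -
      (∑ a ∈ (range (p ^ (n + 1))).filter (fun a => ¬ p ∣ a),
        ∑ j ∈ idx p n a, C (w a * msd φ p α n a) * (1 + X) ^ j)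
  have h0 : (∑ a ∈ (range (p ^ (n + 1))).filter (fun a => ¬ p ∣ a),
        ∑ j ∈ idx p n a, C (w a * msd φ p α n a) * (1 + X : PowerSeries A) ^ j) =
      ∑ b ∈ (range (p ^ (n + 1 + 1))).filter (fun a => ¬ p ∣ a),
      ∑ j ∈ idx p n b, C (w b * msd φ p α (n + 1) b) * (1 + X) ^ j := by
    rw [sum_range_split hp.pos]
    refine sum_congr rfl ?_
    intro a _
    have hwa : ∀ k : ℕ, w (a + k * p ^ (n + 1)) = w a := by
      intro k
      apply hw
      have : p ∣ k * p ^ (n + 1) := (dvd_pow_self p (by omega)).mul_left k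
      rw [Nat.ModEq]
      obtain ⟨e, he⟩ := this
      rw [he, Nat.add_mul_mod_self_left]
    simp only [idx_add, hwa]
    rw [sum_comm]
    refine sum_congr rfl ?_
    intro j _
    rw [← sum_mul, ← map_sum, ← mul_sum, ← msd_distribution φ hp.ne_zero α a₀ hH hα n a]
    push_cast
    rfl
  rw [h0, ← sum_sub_distrib]
  refine dvd_sum ?_
  intro a ha
  rw [mem_filter] at ha
  obtain ⟨j, h1, h2⟩ := idx_single hp hp2 n a ha.2
  rw [h1, h2, sum_singleton, sum_singleton, ← mul_sub]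
  apply Dvd.dvd.mul_left
  have h3 : ((1 + X) ^ j - (1 + X) ^ (j % p ^ n) : PowerSeries A) =
      (1 + X) ^ (j % p ^ n) * (((1 + X) ^ (p ^ n)) ^ (j / p ^ n) - 1) := by
    rw [mul_sub, mul_one, ← pow_mul, ← pow_add, Nat.mod_add_div]
  rw [h3]
  apply Dvd.dvd.mul_left
  exact sub_one_dvd_pow_sub_one _ _

/-- existence and uniqueness of the twisted branches -/
theorem existsUnique_padicLW {N : ℕ} {p : ℕ} [hp : Fact p.Prime] (hp2 : p ≠ 2)
    (φ : ModSym N ℤ_[p]) (α : ℤ_[p]ˣ) (a₀ : ℤ_[p]) (hH : φ.HeckeEigen p a₀)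
    (hα : (α : ℤ_[p]) ^ 2 - a₀ * α + p = 0)
    (w : ℕ → ℤ_[p]) (hw : ∀ a b : ℕ, a ≡ b [MOD p] → w a = w b) :
    ∃! L : PowerSeries ℤ_[p], ∀ n : ℕ, ((1 + X) ^ (p ^ n) - 1 : PowerSeries ℤ_[p]) ∣ L -
      (∑ a ∈ (range (p ^ (n + 1))).filter (fun a => ¬ p ∣ a),
        ∑ j ∈ (range (p ^ n)).filter
          (fun j => a ^ (p - 1) ≡ (1 + p) ^ (j * (p - 1)) [MOD p ^ (n + 1)]),
          C (w a * msd φ p α n a) * (1 + X) ^ j) := by
  obtain ⟨L, hL⟩ := exists_limit (fun n => ∑ a ∈ (range (p ^ (n + 1))).filter (fun a => ¬ p ∣ a),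
        ∑ j ∈ (range (p ^ n)).filter
          (fun j => a ^ (p - 1) ≡ (1 + p) ^ (j * (p - 1)) [MOD p ^ (n + 1)]),
          C (w a * msd φ p α n a) * (1 + X) ^ j)
    (thetaW_compat φ hp.out hp2 α a₀ hH hα w hw)
  refine ⟨L, hL, ?_⟩
  intro L' hL'
  have h1 : L' - L = 0 := by
    apply eq_zero_of_forall_dvd
    intro n
    have h2 := dvd_sub (hL' n) (hL n)
    convert h2 using 1
    ring
  exact sub_eq_zero.1 h1

end Pool.Agent.MZ
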