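import Mathlib
import Pool.Agent.MZ.Branch
import Pool.Agent.MZ.Main
import Pool.Agent.MZ.Twist

open Matrix Matrix.SpecialLinearGroup OnePoint CongruenceSubgroup Finset PowerSeries
open scoped MatrixGroups

namespace Pool.Agent.MZ

lemma isUnit_of_not_dvd {p : ℕ} [Fact p.Prime] {x : ℤ_[p]} (h : ¬ (p : ℤ_[p]) ∣ x) :
    IsUnit x := by
  by_contra hu
  apply h
  have hm : x ∈ IsLocalRing.maximalIdeal ℤ_[p] := (IsLocalRing.mem_maximalIdeal _).2 hu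
  rwa [PadicInt.maximalIdeal_eq_span_p, Ideal.mem_span_singleton] at hm

theorem existsUnique_padicLBr {N : ℕ} {p : ℕ} [hp : Fact p.Prime] (hp2 : p ≠ 2)
    (φ : ModSym N ℤ_[p]) (α : ℤ_[p]ˣ) (a₀ : ℤ_[p]) (hH : φ.HeckeEigen p a₀)
    (hα : (α : ℤ_[p]) ^ 2 - a₀ * α + p = 0) (ψ : DirichletCharacter ℤ_[p] p) :
    ∃! L : PowerSeries ℤ_[p], IsPadicLBr φ p α ψ L :=
  existsUnique_padicLW hp2 φ α a₀ hH hα (fun a => ψ (a : ZMod p)) (by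
    intro a b hab
    have : (a : ZMod p) = b := (ZMod.natCast_eq_natCast_iff _ _ _).2 hab
    simp only [this])

/-- **Branches.** -/
theorem branch_main {N : ℕ} (hN0 : N ≠ 0) {p : ℕ} [Fact p.Prime] (hp2 : p ≠ 2)
    (hpN : ¬ p ∣ N) (φ : ModSym N ℤ_[p]) (a : ℕ → ℤ_[p])
    (hH : ∀ l : ℕ, l.Prime → ¬ l ∣ N → φ.HeckeEigen l (a l))
    (α : ℤ_[p]ˣ) (hα : (α : ℤ_[p]) ^ 2 - a p * α + p = 0) {γ : SL(2, ℤ)} (hγ : γ ∈ Gamma0 N)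
    (hne : ¬ (p : ℤ_[p]) ∣ φ.val ∞ (mapGL ℚ γ • ∞)) :
    (∀ ψ : DirichletCharacter ℤ_[p] p, ∃! L : PowerSeries ℤ_[p], IsPadicLBr φ p α ψ L) ∧
    ∃ ψ : DirichletCharacter ℤ_[p] p,
      (∀ ε : ℤ_[p], (ε = 1 ∨ ε = -1) → φ.HasSign ε → ψ (-1) = ε) ∧
      ∀ L : PowerSeries ℤ_[p], IsPadicLBr φ p α ψ L → ∃ k : ℕ, IsUnit (coeff k L) := by
  have hp : p.Prime := Fact.out
  refine ⟨existsUnique_padicLBr hp2 φ α (a p) (hH p hp hpN) hα, ?_⟩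
  obtain ⟨ψ, n, j, hj, hnd, hs⟩ := exists_branch hp2 φ α
    (main_padic hN0 hp2 hpN φ a hH α hα hγ hne)
  refine ⟨ψ, hs, ?_⟩
  intro L hL
  by_contra hcon
  push Not at hcon
  apply hnd
  have h1 := hL n
  rw [thetaBr_eq] at h1
  apply dvd_of_coeff_dvd n _ L h1 _ j hj
  intro m
  by_contra hm
  exact hcon m (isUnit_of_not_dvd hm)

/-- for `p = 3` a Dirichlet character modulo `3` is determined by its value at `-1` -/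
lemma eq_one_of_three {ψ : DirichletCharacter ℤ_[3] 3} (h : ψ (-1) = 1) : ψ = 1 := by
  apply MulChar.ext
  intro u
  rw [MulChar.one_apply u.isUnit]
  have h1 : ∀ v : (ZMod 3)ˣ, (v : ZMod 3) = 1 ∨ (v : ZMod 3) = -1 := by decide
  rcases h1 u with h2 | h2
  · rw [h2, map_one]
  · rw [h2, h]

/-- **The case `p = 3`, even symbols.** -/
theorem three_main {N : ℕ} (hN0 : N ≠ 0) (h3N : ¬ 3 ∣ N) (φ : ModSym N ℤ_[3]) (hs : φ.HasSign 1)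
    (a : ℕ → ℤ_[3]) (hH : ∀ l : ℕ, l.Prime → ¬ l ∣ N → φ.HeckeEigen l (a l))
    (α : ℤ_[3]ˣ) (hα : (α : ℤ_[3]) ^ 2 - a 3 * α + 3 = 0) {γ : SL(2, ℤ)} (hγ : γ ∈ Gamma0 N)
    (hne : ¬ (3 : ℤ_[3]) ∣ φ.val ∞ (mapGL ℚ γ • ∞)) :
    ∃! L : PowerSeries ℤ_[3], IsPadicL φ 3 α L ∧ ∃ k : ℕ, IsUnit (coeff k L) := by
  obtain ⟨h1, ψ, h2, h3⟩ := branch_main hN0 (by norm_num) h3N φ a hH α (by exact_mod_cast hα) hγ
    (by exact_mod_cast hne)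
  have h4 : ψ = 1 := eq_one_of_three (h2 1 (Or.inl rfl) hs)
  subst h4
  have h5 : ∀ L : PowerSeries ℤ_[3], IsPadicLBr φ 3 α 1 L ↔ IsPadicL φ 3 α L := by
    intro L
    simp only [IsPadicLBr, IsPadicL, thetaBr_one φ Nat.prime_three]
  obtain ⟨L, hL, hLu⟩ := h1 1
  refine ⟨L, ⟨(h5 L).1 hL, h3 L hL⟩, ?_⟩
  intro L' hL'
  exact hLu L' ((h5 L').2 hL'.1)

end Pool.Agent.MZ
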