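import Mathlib
import Pool.Agent.MZ.BranchMain

open Matrix Matrix.SpecialLinearGroup OnePoint CongruenceSubgroup Finset PowerSeries
open scoped MatrixGroups

namespace Pool.Agent.MZ

section series

variable {p : ℕ} [hp : Fact p.Prime]

/-- power series with all coefficients divisible by `p` -/
lemma exists_div {F : PowerSeries ℤ_[p]} (h : ∀ m, (p : ℤ_[p]) ∣ coeff m F) :
    ∃ G : PowerSeries ℤ_[p], F = C (p : ℤ_[p]) * G := by
  choose g hg using h
  refine ⟨PowerSeries.mk g, ?_⟩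
  ext m
  rw [coeff_C_mul, coeff_mk, hg m]

/-- `(1 + T)^(p^n) - 1` is prime to `p` -/
lemma omega_dvd_of_dvd_mul (n : ℕ) {F : PowerSeries ℤ_[p]}
    (h : ((1 + X) ^ (p ^ n) - 1 : PowerSeries ℤ_[p]) ∣ C (p : ℤ_[p]) * F) :
    ((1 + X) ^ (p ^ n) - 1 : PowerSeries ℤ_[p]) ∣ F := by
  obtain ⟨G, hG⟩ := h
  have hpne : (C (p : ℤ_[p]) : PowerSeries ℤ_[p]) ≠ 0 := by
    intro h0
    have h1 := C_injective (R := ℤ_[p]) (h0.trans (map_zero (C : ℤ_[p] →+* _)).symm)
    exact hp.out.ne_zero (by exact_mod_cast h1)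
  have hker : ∀ x : ℤ_[p], (p : ℤ_[p]) ∣ x ↔ PadicInt.toZMod x = 0 := by
    intro x
    rw [← RingHom.mem_ker, PadicInt.ker_toZMod, PadicInt.maximalIdeal_eq_span_p,
      Ideal.mem_span_singleton]
  have hX : ((1 + X) ^ (p ^ n) - 1 : PowerSeries (ZMod p)) = X ^ (p ^ n) := by
    have : CharP (PowerSeries (ZMod p)) p :=
      charP_of_injective_ringHom (f := (C : ZMod p →+* PowerSeries (ZMod p))) C_injective p
    rw [add_pow_char_pow, one_pow]
    ring
  have h2 := congrArg (PowerSeries.map (PadicInt.toZMod (p := p))) hG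
  rw [map_mul, map_mul, map_sub, map_pow, map_add, map_one, map_X, hX, map_C, map_natCast,
    CharP.cast_eq_zero, map_zero, zero_mul] at h2
  have h3 : PowerSeries.map (PadicInt.toZMod (p := p)) G = 0 := by
    rcases mul_eq_zero.1 h2.symm with h4 | h4
    · exact absurd h4 (pow_ne_zero _ X_ne_zero)
    · exact h4
  obtain ⟨G', hG'⟩ := exists_div (F := G) (fun m => by
    rw [hker, ← coeff_map, h3, map_zero])
  refine ⟨G', ?_⟩
  apply mul_left_cancel₀ hpne
  rw [hG, hG']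
  ring

lemma content_mp (K n : ℕ) : ∀ (c : ℕ → ℤ_[p]) (L : PowerSeries ℤ_[p]),
    ((1 + X) ^ (p ^ n) - 1 : PowerSeries ℤ_[p]) ∣ L - ∑ j ∈ range (p ^ n), C (c j) * (1 + X) ^ j →
    (∀ m, (p : ℤ_[p]) ^ K ∣ coeff m L) → ∀ j < p ^ n, (p : ℤ_[p]) ^ K ∣ c j := by
  induction K with
  | zero => intro c L _ _ j _; simp
  | succ K ih =>
    intro c L h hL j hj
    have h1 : ∀ m, (p : ℤ_[p]) ∣ coeff m L := fun m =>
      (dvd_pow_self _ (Nat.succ_ne_zero K)).trans (hL m)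
    have h2 := dvd_of_coeff_dvd n c L h h1
    obtain ⟨L', rfl⟩ := exists_div h1
    have h3 : ∀ j, ∃ y : ℤ_[p], j < p ^ n → c j = p * y := by
      intro j
      by_cases hj : j < p ^ n
      · obtain ⟨y, hy⟩ := h2 j hj
        exact ⟨y, fun _ => hy⟩
      · exact ⟨0, fun h => absurd h hj⟩
    choose c' hc' using h3
    have h4 : C (p : ℤ_[p]) * L' - ∑ j ∈ range (p ^ n), C (c j) * (1 + X) ^ j =
        C (p : ℤ_[p]) * (L' - ∑ j ∈ range (p ^ n), C (c' j) * (1 + X) ^ j) := by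
      rw [mul_sub, mul_sum]
      congr 1
      refine sum_congr rfl ?_
      intro j hj
      rw [hc' j (mem_range.1 hj), map_mul]
      ring
    rw [h4] at h
    have h5 := omega_dvd_of_dvd_mul n h
    have hp0 : (p : ℤ_[p]) ≠ 0 := by exact_mod_cast hp.out.ne_zero
    have h6 := ih c' L' h5 (by
      intro m
      have h7 := hL m
      rw [coeff_C_mul, pow_succ'] at h7
      exact (mul_dvd_mul_iff_left hp0).1 h7) j hj
    rw [hc' j hj, pow_succ']
    exact mul_dvd_mul_left _ h6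

lemma dvd_coeff_omega (K m : ℕ) : ∃ n : ℕ, ∀ i ≤ m,
    (p : ℤ_[p]) ^ K ∣ coeff i ((1 + X) ^ (p ^ n) - 1 : PowerSeries ℤ_[p]) := by
  have hfac : ((m.factorial : ℕ) : ℤ_[p]) ≠ 0 := by
    exact_mod_cast m.factorial_ne_zero
  have hp0 : (p : ℤ_[p]) ≠ 0 := by exact_mod_cast hp.out.ne_zero
  set v := ((m.factorial : ℕ) : ℤ_[p]).valuation with hv
  have hspec := PadicInt.unitCoeff_spec hfac
  refine ⟨v + K, ?_⟩
  intro i hi
  have h1 := dvd_factorial_coeff_omega (p := p) (v + K) i m hi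
  rw [hspec, pow_add, mul_assoc, mul_comm _ ((p : ℤ_[p]) ^ _ * _), mul_assoc] at h1
  have h2 := (mul_dvd_mul_iff_left (pow_ne_zero v hp0)).1 h1
  exact (Units.dvd_mul_right).1 h2

lemma content_mpr (K : ℕ) (c : ℕ → ℕ → ℤ_[p]) (L : PowerSeries ℤ_[p])
    (h : ∀ n, ((1 + X) ^ (p ^ n) - 1 : PowerSeries ℤ_[p]) ∣
      L - ∑ j ∈ range (p ^ n), C (c n j) * (1 + X) ^ j)
    (hc : ∀ n, ∀ j < p ^ n, (p : ℤ_[p]) ^ K ∣ c n j) (m : ℕ) : (p : ℤ_[p]) ^ K ∣ coeff m L := by
  obtain ⟨n, hn⟩ := dvd_coeff_omega (p := p) K m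
  obtain ⟨G, hG⟩ := h n
  have h1 : L = ((1 + X) ^ (p ^ n) - 1) * G + ∑ j ∈ range (p ^ n), C (c n j) * (1 + X) ^ j := by
    rw [← hG]; ring
  rw [h1, map_add, map_sum]
  apply dvd_add
  · rw [coeff_mul]
    refine dvd_sum ?_
    rintro ⟨i, j⟩ hij
    rw [HasAntidiagonal.mem_antidiagonal] at hij
    exact (hn i (by simp only at hij; omega)).mul_right _
  · refine dvd_sum ?_
    intro j hj
    rw [coeff_C_mul]
    exact (hc n j (mem_range.1 hj)).mul_right _

/-- the content of the limit is the content of the finite levels -/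
theorem content_iff (K : ℕ) (c : ℕ → ℕ → ℤ_[p]) (L : PowerSeries ℤ_[p])
    (h : ∀ n, ((1 + X) ^ (p ^ n) - 1 : PowerSeries ℤ_[p]) ∣
      L - ∑ j ∈ range (p ^ n), C (c n j) * (1 + X) ^ j) :
    (∀ m, (p : ℤ_[p]) ^ K ∣ coeff m L) ↔ ∀ n, ∀ j < p ^ n, (p : ℤ_[p]) ^ K ∣ c n j :=
  ⟨fun hL n j hj => content_mp K n (c n) L (h n) hL j hj, fun hc m => content_mpr K c L h hc m⟩

end series

/-- `p = 3`, even symbols: the content of `L` is the content of the measure -/
theorem three_content {N : ℕ} (φ : ModSym N ℤ_[3]) (he : φ.Even) (α : ℤ_[3]ˣ) (K : ℕ)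
    (L : PowerSeries ℤ_[3]) (hL : IsPadicL φ 3 α L) :
    (∀ m, (3 : ℤ_[3]) ^ K ∣ coeff m L) ↔
      ∀ (n : ℕ) (b : ℤ), ¬ (3 : ℤ) ∣ b → (3 : ℤ_[3]) ^ K ∣ msd φ 3 α n b := by
  have h1 := content_iff (p := 3) K (fun n j => cc φ 3 α n j) L (by
    intro n
    rw [← theta_eq]
    exact hL n)
  push_cast at h1
  rw [h1]
  constructor
  · intro h n b hb
    obtain ⟨a, hal, ha, hab⟩ := exists_rep φ Nat.prime_three α n b (by exact_mod_cast hb)
    obtain ⟨j, hj, hjl⟩ := exists_log Nat.prime_three (by norm_num) n ha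
    have h2 := h n j hj
    rw [cc_three φ he α n j a ha hal hjl] at h2
    rw [hab]
    have h2u : IsUnit (2 : ℤ_[3]) := by
      apply isUnit_of_not_dvd
      rintro ⟨x, hx⟩
      have h3 : (3 : ℤ_[3]) ∣ 1 := ⟨1 - x, by push_cast at hx; linear_combination -hx⟩
      have h4 : IsUnit ((3 : ℕ) : ℤ_[3]) := by
        push_cast
        exact isUnit_of_dvd_one h3
      exact (PadicInt.irreducible_p (p := 3)).not_isUnit h4
    exact (h2u.dvd_mul_left).1 h2
  · intro h n j _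
    rw [cc]
    refine dvd_sum ?_
    intro a ha
    rw [mem_filter] at ha
    exact h n a (by exact_mod_cast ha.2.1)

/-- all branches of the right parity together have the content of the measure -/
theorem branch_content {N : ℕ} {p : ℕ} [hp : Fact p.Prime] (hp2 : p ≠ 2)
    (φ : ModSym N ℤ_[p]) (α : ℤ_[p]ˣ) (a₀ : ℤ_[p]) (hH : φ.HeckeEigen p a₀)
    (hα : (α : ℤ_[p]) ^ 2 - a₀ * α + p = 0) {ε : ℤ_[p]} (hε : ε = 1 ∨ ε = -1)
    (hs : φ.HasSign ε) (K : ℕ) :
    (∀ ψ : DirichletCharacter ℤ_[p] p, ψ (-1) = ε → ∀ L : PowerSeries ℤ_[p],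
      IsPadicLBr φ p α ψ L → ∀ m, (p : ℤ_[p]) ^ K ∣ coeff m L) ↔
      ∀ (n : ℕ) (b : ℤ), ¬ (p : ℤ) ∣ b → (p : ℤ_[p]) ^ K ∣ msd φ p α n b := by
  have key : ∀ (ψ : DirichletCharacter ℤ_[p] p) (L : PowerSeries ℤ_[p]),
      IsPadicLBr φ p α ψ L → ((∀ m, (p : ℤ_[p]) ^ K ∣ coeff m L) ↔
        ∀ n, ∀ j < p ^ n, (p : ℤ_[p]) ^ K ∣ ccBr φ p α ψ n j) := by
    intro ψ L hL
    apply content_iff K (fun n j => ccBr φ p α ψ n j) L
    intro n
    rw [← thetaBr_eq]
    exact hL n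
  constructor
  · intro h n b' hb'
    obtain ⟨b, hbl, hb, hbe⟩ := exists_rep φ hp.out α n b' hb'
    rw [hbe]
    obtain ⟨j, hj, hjl⟩ := exists_log hp.out hp2 n hb
    have hall : ∀ ψ : DirichletCharacter ℤ_[p] p, (p : ℤ_[p]) ^ K ∣ ccBr φ p α ψ n j := by
      intro ψ
      by_cases hψ : ψ (-1) = ε
      · obtain ⟨L, hL, -⟩ := existsUnique_padicLBr hp2 φ α a₀ hH hα ψ
        exact (key ψ L hL).1 (h ψ hψ L hL) n j hj
      · have h1 := ccBr_sign hp.out hp2 φ hs α ψ n j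
        have h3 : ψ (-1) * ψ (-1) = 1 := by
          rw [← map_mul]
          simp
        have h6 : ε * ε = 1 := by rcases hε with h | h <;> rw [h] <;> ring
        have h0 : ccBr φ p α ψ n j = 0 := by
          by_contra hne
          apply hψ
          have h4 : ψ (-1) * ε = 1 := by
            have : (ψ (-1) * ε - 1) * ccBr φ p α ψ n j = 0 := by linear_combination -h1
            exact sub_eq_zero.1 ((mul_eq_zero.1 this).resolve_right hne)
          linear_combination ε * h4 - ψ (-1) * h6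
        rw [h0]
        exact dvd_zero _
    have h1 : (p : ℤ_[p]) ^ K ∣ (p.totient : ℤ_[p]) * msd φ p α n b := by
      rw [← sum_ccBr φ α n j b hb hbl hjl]
      exact dvd_sum fun ψ _ => (hall ψ).mul_left _
    have hu : IsUnit (p.totient : ℤ_[p]) := by
      apply isUnit_of_not_dvd
      rw [Nat.totient_prime hp.out, Nat.cast_sub hp.out.one_lt.le, Nat.cast_one,
        dvd_sub_right dvd_rfl]
      intro h4
      exact (PadicInt.irreducible_p (p := p)).not_isUnit (isUnit_of_dvd_one h4)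
    exact (hu.dvd_mul_left).1 h1
  · intro h ψ _ L hL
    rw [key ψ L hL]
    intro n j _
    rw [ccBr]
    refine dvd_sum ?_
    intro a ha
    rw [mem_filter] at ha
    exact (h n a (by exact_mod_cast ha.2.1)).mul_left _

end Pool.Agent.MZ
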