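import Mathlib
import Pool.Agent.MZ.Bridge

open Matrix Matrix.SpecialLinearGroup OnePoint CongruenceSubgroup Finset
open scoped MatrixGroups

namespace Pool.Agent.MZ

/-- the point `a/c` of `P¹(ℚ)` -/
noncomputable def pt (a c : ℤ) : OnePoint ℚ := if c = 0 then ∞ else (((a : ℚ) / (c : ℚ) : ℚ) : OnePoint ℚ)

lemma pt_smul (γ : SL(2, ℤ)) {a c : ℤ} (hac : IsCoprime a c) :
    mapGL ℚ γ • pt a c = pt (γ 0 0 * a + γ 0 1 * c) (γ 1 0 * a + γ 1 1 * c) := by
  unfold pt
  by_cases hc : c = 0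
  · subst hc
    have ha : a ≠ 0 := by
      rintro rfl
      exact not_isCoprime_zero_zero hac
    rw [if_pos rfl, smul_infty, mul_zero, add_zero, mul_zero, add_zero]
    by_cases h : γ 1 0 = 0
    · rw [if_pos h, if_pos (by rw [h, zero_mul])]
    · rw [if_neg h, if_neg (mul_ne_zero h ha)]
      have haq : (a : ℚ) ≠ 0 := by exact_mod_cast ha
      congr 1
      push_cast
      rw [mul_div_mul_right _ _ haq]
  · have hcq : (c : ℚ) ≠ 0 := by exact_mod_cast hc
    rw [if_neg hc, smul_coe]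
    have e : (γ 1 0 : ℚ) * ((a : ℚ) / c) + γ 1 1 = ((γ 1 0 * a + γ 1 1 * c : ℤ) : ℚ) / c := by
      push_cast; field_simp
    have e' : (γ 0 0 : ℚ) * ((a : ℚ) / c) + γ 0 1 = ((γ 0 0 * a + γ 0 1 * c : ℤ) : ℚ) / c := by
      push_cast; field_simp
    rw [e, e']
    by_cases h : γ 1 0 * a + γ 1 1 * c = 0
    · rw [if_pos (by rw [h]; simp), if_pos h]
    · have hq : ((γ 1 0 * a + γ 1 1 * c : ℤ) : ℚ) ≠ 0 := by exact_mod_cast h
      rw [if_neg (div_ne_zero hq hcq), if_neg h]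
      congr 1
      rw [div_div_div_cancel_right₀ hcq]

lemma exists_pt (x : OnePoint ℚ) : ∃ a c : ℤ, IsCoprime a c ∧ x = pt a c := by
  induction x using OnePoint.rec with
  | infty => exact ⟨1, 0, isCoprime_one_left, by simp [pt]⟩
  | coe q =>
    refine ⟨q.num, q.den, ?_, ?_⟩
    · exact Int.isCoprime_iff_gcd_eq_one.2 (by
        have := q.reduced
        rwa [Nat.Coprime, ← Int.natAbs_natCast q.den] at this)
    · unfold pt
      rw [if_neg (by exact_mod_cast q.den_ne_zero)]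
      congr 1
      rw [Int.cast_natCast]
      exact (Rat.num_div_den q).symm

/-- Congruent primitive vectors give `Γ₀(N)`-equivalent points. -/
lemma exists_gamma {N : ℕ} {a c a' c' : ℤ} (h : IsCoprime a c) (h' : IsCoprime a' c')
    (ha : (N : ℤ) ∣ a - a') (hc : (N : ℤ) ∣ c - c') :
    ∃ γ ∈ Gamma0 N, mapGL ℚ γ • pt a c = pt a' c' := by
  obtain ⟨u, v, huv⟩ := h
  obtain ⟨u', v', huv'⟩ := h'
  -- g = (a, -v; c, u), g' = (a', -v'; c', u')
  obtain ⟨s, hs⟩ := ha
  obtain ⟨r, hr⟩ := hc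
  set t : ℤ := u * (v' - v) + v * (u - u') with ht
  have hdet : (a' * (u - t * c) + (-v') * (-c)) * (c' * (v + t * a) + u' * a) -
      (a' * (v + t * a) + (-v') * a) * (c' * (u - t * c) + u' * (-c)) = 1 := by
    linear_combination (u * a + v * c) * huv' + huv
  obtain ⟨γ, h00, h01, h10, h11⟩ := exists_sl hdet
  refine ⟨γ, ?_, ?_⟩
  · rw [Gamma0_mem, h10]
    apply (ZMod.intCast_zmod_eq_zero_iff_dvd _ N).2
    have e1 : u - u' - t * c = - N * (u * (s * u' + r * v')) := by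
      rw [ht]
      linear_combination (u - u') * (-huv) + (u * (huv - huv')) - (u * u') * hs * (1 : ℤ) -
        (u * v') * hr * (1 : ℤ)
    refine ⟨-(u * (s * u' + r * v')) * c - r * (u - t * c), ?_⟩
    linear_combination c * e1 - (u - t * c) * hr
  · rw [pt_smul γ ⟨u, v, huv⟩, h00, h01, h10, h11]
    congr 1
    · linear_combination a' * huv
    · linear_combination c' * huv

section

variable {N : ℕ} {A : Type*} [AddCommGroup A] (φ : ModSym N A)
  (h0 : ∀ γ ∈ Gamma0 N, φ.val ∞ (mapGL ℚ γ • ∞) = 0)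

include h0

/-- if all periods vanish, equivalent points are not separated -/
lemma val_smul (γ : SL(2, ℤ)) (hγ : γ ∈ Gamma0 N) (x : OnePoint ℚ) :
    φ.val x (mapGL ℚ γ • x) = 0 := by
  have h1 := φ.chain x ∞ (mapGL ℚ γ • x)
  have h2 := φ.chain ∞ (mapGL ℚ γ • ∞) (mapGL ℚ γ • x)
  rw [h0 γ hγ, zero_add, φ.inv γ hγ] at h2
  rw [← h1, ← h2, φ.chain, φ.self]

lemma val_cong {a c a' c' : ℤ} (h : IsCoprime a c) (h' : IsCoprime a' c')
    (ha : (N : ℤ) ∣ a - a') (hc : (N : ℤ) ∣ c - c') : φ.val (pt a c) (pt a' c') = 0 := by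
  obtain ⟨γ, hγ, e⟩ := exists_gamma h h' ha hc
  rw [← e]
  exact val_smul φ h0 γ hγ _

/-- `φ{x, l x} = 0` for `l ≡ 1` mod `N` -/
lemma val_scale {l : ℕ} (hl : l.Prime) (hlN : (N : ℤ) ∣ (l : ℤ) - 1) (x : OnePoint ℚ) :
    φ.val x (OnePoint.map (fun t : ℚ => (l : ℚ) * t) x) = 0 := by
  have hlZ : Prime (l : ℤ) := Nat.prime_iff_prime_int.1 hl
  have hl0 : (l : ℚ) ≠ 0 := by exact_mod_cast hl.ne_zero
  have hl0' : (l : ℤ) ≠ 0 := by exact_mod_cast hl.ne_zero
  obtain ⟨a, c, hac, rfl⟩ := exists_pt x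
  by_cases hc : c = 0
  · subst hc
    simp [pt, φ.self]
  have hcq : (c : ℚ) ≠ 0 := by exact_mod_cast hc
  obtain ⟨s, hs⟩ := hlN
  by_cases hlc : (l : ℤ) ∣ c
  · obtain ⟨c', rfl⟩ := hlc
    have hc' : c' ≠ 0 := by rintro rfl; simp at hc
    have hc'q : (c' : ℚ) ≠ 0 := by exact_mod_cast hc'
    have e : OnePoint.map (fun t : ℚ => (l : ℚ) * t) (pt a (l * c')) = pt a c' := by
      unfold pt
      rw [if_neg hc, if_neg hc', OnePoint.map_some]
      congr 1
      push_cast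
      field_simp
    rw [e]
    exact val_cong φ h0 hac (hac.of_mul_right_right) (by simp) ⟨s * c', by linear_combination c' * hs⟩
  · have e : OnePoint.map (fun t : ℚ => (l : ℚ) * t) (pt a c) = pt (l * a) c := by
      unfold pt
      rw [if_neg hc, if_neg hc, OnePoint.map_some]
      congr 1
      push_cast
      ring
    rw [e]
    exact val_cong φ h0 hac (IsCoprime.mul_left ((Prime.coprime_iff_not_dvd hlZ).2 hlc) hac)
      ⟨-(s * a), by linear_combination (-a) * hs⟩ (by simp)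

lemma val_shift {l : ℕ} (hl : l.Prime) (hlN : (N : ℤ) ∣ (l : ℤ) - 1) (k : ℕ) (x : OnePoint ℚ) :
    φ.val x (OnePoint.map (fun t : ℚ => (t + k) / (l : ℚ)) x) = 0 := by
  have hlZ : Prime (l : ℤ) := Nat.prime_iff_prime_int.1 hl
  have hl0 : (l : ℚ) ≠ 0 := by exact_mod_cast hl.ne_zero
  have hl0' : (l : ℤ) ≠ 0 := by exact_mod_cast hl.ne_zero
  obtain ⟨a, c, hac, rfl⟩ := exists_pt x
  by_cases hc : c = 0
  · subst hc
    simp [pt, φ.self]
  have hcq : (c : ℚ) ≠ 0 := by exact_mod_cast hc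
  obtain ⟨s, hs⟩ := hlN
  -- translation
  obtain ⟨γ, h00, h01, h10, h11⟩ := exists_sl (a := 1) (b := k) (c := 0) (d := 1) (by ring)
  have hγ : γ ∈ Gamma0 N := by
    rw [Gamma0_mem, h10]
    simp
  have h1 := val_smul φ h0 γ hγ (pt a c)
  rw [pt_smul γ hac, h00, h01, h10, h11, one_mul, zero_mul, zero_add, one_mul] at h1
  have hac' : IsCoprime (a + k * c) c := by
    rw [mul_comm]
    exact IsCoprime.add_mul_left_left hac _
  have h2 : φ.val (pt (a + k * c) c) (OnePoint.map (fun t : ℚ => (t + k) / (l : ℚ)) (pt a c)) = 0 := by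
    by_cases hla : (l : ℤ) ∣ a + k * c
    · obtain ⟨a', ha'⟩ := hla
      have e : OnePoint.map (fun t : ℚ => (t + k) / (l : ℚ)) (pt a c) = pt a' c := by
        unfold pt
        rw [if_neg hc, if_neg hc, OnePoint.map_some]
        congr 1
        have ha'q : (a : ℚ) + k * c = l * a' := by exact_mod_cast ha'
        rw [div_eq_div_iff hl0 hcq, add_mul, div_mul_cancel₀ _ hcq, ha'q]
        ring
      rw [e]
      refine val_cong φ h0 hac' ?_ ⟨s * a', by linear_combination ha' + a' * hs⟩ (by simp)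
      rw [ha'] at hac'
      exact hac'.of_mul_left_right
    · have hlc : l * c ≠ 0 := mul_ne_zero hl0' hc
      have e : OnePoint.map (fun t : ℚ => (t + k) / (l : ℚ)) (pt a c) = pt (a + k * c) (l * c) := by
        unfold pt
        rw [if_neg hc, if_neg hlc, OnePoint.map_some]
        congr 1
        push_cast
        field_simp
      rw [e]
      refine val_cong φ h0 hac' (IsCoprime.mul_right ?_ hac') (by simp)
        ⟨-(s * c), by linear_combination (-c) * hs⟩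
      exact ((Prime.coprime_iff_not_dvd hlZ).2 hla).symm
  have h3 := φ.chain (pt a c) (pt (a + k * c) c)
    (OnePoint.map (fun t : ℚ => (t + k) / (l : ℚ)) (pt a c))
  rw [h1, h2, zero_add] at h3
  exact h3.symm

end

/-- If all periods vanish then the symbol is Eisenstein. -/
theorem eisenstein {N : ℕ} {A : Type*} [CommRing A] (φ : ModSym N A)
    (h0 : ∀ γ ∈ Gamma0 N, φ.val ∞ (mapGL ℚ γ • ∞) = 0) {l : ℕ} (hl : l.Prime)
    (hlN : (N : ℤ) ∣ (l : ℤ) - 1) {a : A} (hH : φ.HeckeEigen l a) (x y : OnePoint ℚ) :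
    (a - (l + 1)) * φ.val x y = 0 := by
  have gen : ∀ x' y' : OnePoint ℚ, φ.val x x' = 0 → φ.val y y' = 0 → φ.val x' y' = φ.val x y := by
    intro x' y' hx hy
    have h1 := φ.chain x x' y'
    have h2 := φ.chain x y y'
    rw [hx, zero_add] at h1
    rw [hy, add_zero] at h2
    rw [h1, ← h2]
  have h1 := hH x y
  rw [gen _ _ (val_scale φ h0 hl hlN x) (val_scale φ h0 hl hlN y)] at h1
  rw [Finset.sum_congr rfl (fun k _ => gen _ _ (val_shift φ h0 hl hlN k x)
    (val_shift φ h0 hl hlN k y)), Finset.sum_const, card_range, nsmul_eq_mul] at h1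
  linear_combination -h1

/-- A residually nonzero, residually non-Eisenstein symbol has a period which is nonzero
modulo `p`. -/
theorem exists_period {N : ℕ} {p : ℕ} [Fact p.Prime] (φ : ModSym N ℤ_[p])
    (hφ : ∃ x y : OnePoint ℚ, ¬ (p : ℤ_[p]) ∣ φ.val x y) {l : ℕ} (hl : l.Prime)
    (hlN : l ≡ 1 [MOD N]) {a : ℤ_[p]} (hH : φ.HeckeEigen l a)
    (ha : ¬ (p : ℤ_[p]) ∣ a - (l + 1)) :
    ∃ γ ∈ Gamma0 N, ¬ (p : ℤ_[p]) ∣ φ.val ∞ (mapGL ℚ γ • ∞) := by
  have hker : ∀ x : ℤ_[p], PadicInt.toZMod x = 0 ↔ (p : ℤ_[p]) ∣ x := by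
    intro x
    rw [← RingHom.mem_ker, PadicInt.ker_toZMod, PadicInt.maximalIdeal_eq_span_p,
      Ideal.mem_span_singleton]
  by_contra hcon
  push Not at hcon
  obtain ⟨x, y, hxy⟩ := hφ
  set ψ := φ.map (PadicInt.toZMod (p := p)) with hψ
  have h0 : ∀ γ ∈ Gamma0 N, ψ.val ∞ (mapGL ℚ γ • ∞) = 0 := by
    intro γ hγ
    rw [hψ, ModSym.map_val]
    exact (hker _).2 (hcon γ hγ)
  have hlN' : (N : ℤ) ∣ (l : ℤ) - 1 := by
    have := (Nat.modEq_iff_dvd.1 hlN.symm)
    push_cast at this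
    exact this
  have h1 := eisenstein ψ h0 hl hlN' (hH.map _) x y
  rcases mul_eq_zero.1 h1 with h2 | h2
  · apply ha
    rw [← hker, map_sub, map_add, map_natCast, map_one]
    exact h2
  · rw [hψ, ModSym.map_val] at h2
    exact hxy ((hker _).1 h2)

end Pool.Agent.MZ
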