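import Mathlib

open Finset PowerSeries

namespace Pool.Agent.MZ

section ev

variable {R : Type*} [CommRing R] {K : Type*} [NormedField K] [CompleteSpace K] {f : R →+* K}
  {x : K}

omit [CompleteSpace K] in
lemma ev_norm_le (hf : ∀ r, ‖f r‖ ≤ 1) (L : PowerSeries R) (i : ℕ) :
    ‖f (coeff i L) * x ^ i‖ ≤ ‖x‖ ^ i := by
  rw [norm_mul, norm_pow]
  calc ‖f (coeff i L)‖ * ‖x‖ ^ i ≤ 1 * ‖x‖ ^ i :=
        mul_le_mul_of_nonneg_right (hf _) (pow_nonneg (norm_nonneg _) _)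
    _ = ‖x‖ ^ i := one_mul _

omit [CompleteSpace K] in
lemma ev_summable_norm (hf : ∀ r, ‖f r‖ ≤ 1) (hx : ‖x‖ < 1) (L : PowerSeries R) :
    Summable (fun i => ‖f (coeff i L) * x ^ i‖) :=
  Summable.of_nonneg_of_le (fun _ => norm_nonneg _) (ev_norm_le hf L)
    (summable_geometric_of_lt_one (norm_nonneg _) hx)

lemma ev_summable (hf : ∀ r, ‖f r‖ ≤ 1) (hx : ‖x‖ < 1) (L : PowerSeries R) :
    Summable (fun i => f (coeff i L) * x ^ i) :=
  (ev_summable_norm hf hx L).of_norm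

/-- evaluation at a point of the open unit disc -/
noncomputable def ev (hf : ∀ r, ‖f r‖ ≤ 1) (hx : ‖x‖ < 1) : PowerSeries R →+* K where
  toFun L := ∑' i, f (coeff i L) * x ^ i
  map_one' := by
    rw [tsum_eq_single 0]
    · simp
    · intro i hi
      rw [coeff_one, if_neg hi, map_zero, zero_mul]
  map_zero' := by simp
  map_add' L M := by
    rw [← (ev_summable hf hx L).tsum_add (ev_summable hf hx M)]
    congr 1
    ext i
    rw [map_add, map_add, add_mul]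
  map_mul' L M := by
    rw [tsum_mul_tsum_eq_tsum_sum_antidiagonal_of_summable_norm (ev_summable_norm hf hx L)
      (ev_summable_norm hf hx M)]
    congr 1
    ext i
    rw [coeff_mul, map_sum, sum_mul]
    refine sum_congr rfl ?_
    rintro ⟨a, b⟩ hab
    rw [HasAntidiagonal.mem_antidiagonal] at hab
    simp only at hab
    rw [map_mul, ← hab, pow_add]
    ring

lemma ev_hasSum (hf : ∀ r, ‖f r‖ ≤ 1) (hx : ‖x‖ < 1) (L : PowerSeries R) :
    HasSum (fun i => f (coeff i L) * x ^ i) (ev hf hx L) :=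
  (ev_summable hf hx L).hasSum

@[simp] lemma ev_C (hf : ∀ r, ‖f r‖ ≤ 1) (hx : ‖x‖ < 1) (r : R) : ev hf hx (C r) = f r := by
  change (∑' i, f (coeff i (C r)) * x ^ i) = f r
  rw [tsum_eq_single 0]
  · simp
  · intro i hi
    rw [coeff_C, if_neg hi, map_zero, zero_mul]

@[simp] lemma ev_X (hf : ∀ r, ‖f r‖ ≤ 1) (hx : ‖x‖ < 1) : ev hf hx X = x := by
  change (∑' i, f (coeff i X) * x ^ i) = x
  rw [tsum_eq_single 1]
  · simp
  · intro i hi
    rw [coeff_X, if_neg hi, map_zero, zero_mul]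

end ev

section ultra

variable {K : Type*} [NormedField K] [IsUltrametricDist K] {p : ℕ}

/-- `(1 + x)^(p^n) - 1 = x^(p^n) + p x r` with `‖r‖ ≤ 1` -/
lemma pow_aux (hp : p.Prime) (n : ℕ) {x : K} (hx : ‖x‖ ≤ 1) :
    ∃ r : K, ‖r‖ ≤ 1 ∧ (1 + x) ^ (p ^ n) - 1 = x ^ (p ^ n) + p * x * r := by
  refine ⟨∑ k ∈ Ioo 0 (p ^ n), x ^ (k - 1) * 1 ^ (p ^ n - k - 1) * ↑((p ^ n).choose k / p), ?_, ?_⟩
  · apply IsUltrametricDist.norm_sum_le_of_forall_le_of_nonneg zero_le_one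
    intro k _
    rw [one_pow, mul_one, norm_mul, norm_pow]
    have h1 : ‖x‖ ^ (k - 1) ≤ 1 := pow_le_one₀ (norm_nonneg _) hx
    have h2 : ‖(((p ^ n).choose k / p : ℕ) : K)‖ ≤ 1 := IsUltrametricDist.norm_natCast_le_one K _
    calc _ ≤ 1 * 1 := mul_le_mul h1 h2 (norm_nonneg _) zero_le_one
      _ = 1 := one_mul 1
  · have := add_pow_prime_pow_eq hp x 1 n
    rw [add_comm 1 x, this, one_pow, mul_one]
    ring

lemma norm_sub_one_le {z : K} {m : ℕ} (hm : m ≠ 0) (hz : z ^ m = 1) : ‖z - 1‖ ≤ 1 := by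
  have h1 : ‖z‖ = 1 := by
    have := congrArg norm hz
    rw [norm_pow, norm_one] at this
    exact (pow_eq_one_iff_of_nonneg (norm_nonneg _) hm).1 this
  have := IsUltrametricDist.norm_add_le_max z (-1)
  rwa [h1, norm_neg, norm_one, max_self, ← sub_eq_add_neg] at this

/-- `p`-power roots of unity are in the open disc about `1` -/
lemma norm_sub_one_lt (hp : p.Prime) (hpK : ‖(p : K)‖ < 1) {n : ℕ} {z : K}
    (hz : z ^ (p ^ n) = 1) : ‖z - 1‖ < 1 := by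
  have hle := norm_sub_one_le (pow_ne_zero n hp.ne_zero) hz
  obtain ⟨r, hr, he⟩ := pow_aux hp n hle
  rw [add_sub_cancel, hz, sub_self] at he
  have h1 : (z - 1) ^ (p ^ n) = - (p * (z - 1) * r) := by linear_combination -he
  have h2 : ‖z - 1‖ ^ (p ^ n) < 1 := by
    rw [← norm_pow, h1, norm_neg, norm_mul, norm_mul]
    calc ‖(p : K)‖ * ‖z - 1‖ * ‖r‖ ≤ ‖(p : K)‖ * 1 * 1 := by gcongr
      _ = ‖(p : K)‖ := by ring
      _ < 1 := hpK
  by_contra hcon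
  push Not at hcon
  exact absurd h2 (not_lt.2 (one_le_pow₀ hcon))

/-- a nontrivial `p`-th root of unity `w` has `‖p‖ ≤ ‖w - 1‖` -/
lemma norm_p_le {w : K} (hw : w ^ p = 1) (hw1 : w ≠ 1) : ‖(p : K)‖ ≤ ‖w - 1‖ := by
  have h1 : ∑ i ∈ range p, w ^ i = 0 := by
    have h2 := geom_sum_mul w p
    rw [hw, sub_self] at h2
    exact (mul_eq_zero.1 h2).resolve_right (sub_ne_zero.2 hw1)
  have h3 : (p : K) = ∑ i ∈ range p, (1 - w ^ i) := by
    rw [sum_sub_distrib, h1]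
    simp
  rw [h3]
  rcases Nat.eq_zero_or_pos p with h0 | h0
  · subst h0
    simp
  apply IsUltrametricDist.norm_sum_le_of_forall_le_of_nonneg (norm_nonneg _)
  intro i _
  have hw2 : ‖w‖ = 1 := by
    have := congrArg norm hw
    rw [norm_pow, norm_one] at this
    exact (pow_eq_one_iff_of_nonneg (norm_nonneg _) h0.ne').1 this
  have h4 : 1 - w ^ i = - ((∑ j ∈ range i, w ^ j) * (w - 1)) := by
    rw [geom_sum_mul]; ring
  rw [h4, norm_neg, norm_mul]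
  have h5 : ‖∑ j ∈ range i, w ^ j‖ ≤ 1 := by
    apply IsUltrametricDist.norm_sum_le_of_forall_le_of_nonneg zero_le_one
    intro j _
    rw [norm_pow, hw2, one_pow]
  calc _ ≤ 1 * ‖w - 1‖ := mul_le_mul_of_nonneg_right h5 (norm_nonneg _)
    _ = ‖w - 1‖ := one_mul _

/-- a root of unity of exact order `p^(n+1)` satisfies `‖p‖ ≤ ‖z - 1‖^(p^n)` -/
lemma norm_p_le_pow (hp : p.Prime) (hpK : ‖(p : K)‖ < 1) (hpK0 : (p : K) ≠ 0) {n : ℕ} {z : K}
    (hz : z ^ (p ^ (n + 1)) = 1) (hz1 : z ^ (p ^ n) ≠ 1) : ‖(p : K)‖ ≤ ‖z - 1‖ ^ (p ^ n) := by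
  have hlt := norm_sub_one_lt hp hpK hz
  have hw : (z ^ (p ^ n)) ^ p = 1 := by rw [← pow_mul, ← pow_succ, hz]
  have h1 := norm_p_le hw hz1
  obtain ⟨r, hr, he⟩ := pow_aux hp n hlt.le
  rw [add_sub_cancel] at he
  have hp0 : 0 < ‖(p : K)‖ := norm_pos_iff.2 hpK0
  have h2 : ‖(p : K) * (z - 1) * r‖ < ‖(p : K)‖ := by
    rw [norm_mul, norm_mul]
    calc ‖(p : K)‖ * ‖z - 1‖ * ‖r‖ ≤ ‖(p : K)‖ * ‖z - 1‖ * 1 := by gcongr
      _ = ‖(p : K)‖ * ‖z - 1‖ := mul_one _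
      _ < ‖(p : K)‖ * 1 := mul_lt_mul_of_pos_left hlt hp0
      _ = _ := mul_one _
  rw [he] at h1
  have h3 := IsUltrametricDist.norm_add_le_max ((z - 1) ^ (p ^ n)) (p * (z - 1) * r)
  have h4 := h1.trans h3
  rcases le_max_iff.1 h4 with h5 | h5
  · rwa [norm_pow] at h5
  · exact absurd h5 (not_le.2 h2)

lemma norm_hasSum_le {g : ℕ → K} {s : K} {B : ℝ} (hB : 0 ≤ B) (hg : ∀ i, ‖g i‖ ≤ B)
    (hs : HasSum g s) : ‖s‖ ≤ B := by
  have h1 : Filter.Tendsto (fun S : Finset ℕ => ‖∑ i ∈ S, g i‖) Filter.atTop (nhds ‖s‖) :=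
    hs.norm
  refine le_of_tendsto h1 (Filter.Eventually.of_forall ?_)
  intro S
  exact IsUltrametricDist.norm_sum_le_of_forall_le_of_nonneg hB (fun i _ => hg i)

end ultra

section general

variable {p : ℕ} [hp : Fact p.Prime] {K : Type*} [NormedField K] [CompleteSpace K]
  [IsUltrametricDist K] (ι : ℚ_[p] →+* K)

omit [CompleteSpace K] [IsUltrametricDist K] in
lemma norm_p_lt (hι : ∀ x, ‖ι x‖ = ‖x‖) : ‖(p : K)‖ < 1 := by
  have h1 : ι (p : ℚ_[p]) = (p : K) := map_natCast ι p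
  rw [← h1, hι]
  exact Padic.norm_p_lt_one

theorem hasSum_eval_gen (hι : ∀ x, ‖ι x‖ = ‖x‖) (L : PowerSeries ℤ_[p]) (n : ℕ) (c : ℕ → ℤ_[p])
    (h : ((1 + X) ^ (p ^ n) - 1 : PowerSeries ℤ_[p]) ∣
      L - ∑ j ∈ range (p ^ n), C (c j) * (1 + X) ^ j) (z : K) (hz : z ^ (p ^ n) = 1) :
    HasSum (fun i => ι ((coeff i L : ℤ_[p]) : ℚ_[p]) * (z - 1) ^ i)
      (∑ j ∈ range (p ^ n), ι ((c j : ℤ_[p]) : ℚ_[p]) * z ^ j) := by
  have hlt := norm_sub_one_lt hp.out (norm_p_lt ι hι) hz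
  set f : ℤ_[p] →+* K := ι.comp (PadicInt.Coe.ringHom) with hfdef
  have hf : ∀ r, ‖f r‖ ≤ 1 := by
    intro r
    change ‖ι (r : ℚ_[p])‖ ≤ 1
    rw [hι]
    exact r.norm_le_one
  have h1 := ev_hasSum hf hlt L
  obtain ⟨Q, hQ⟩ := h
  have h2 : L = ∑ j ∈ range (p ^ n), C (c j) * (1 + X) ^ j + ((1 + X) ^ (p ^ n) - 1) * Q := by
    rw [← hQ]; ring
  have h3 : ev hf hlt L = ∑ j ∈ range (p ^ n), f (c j) * z ^ j := by
    rw [h2, map_add, map_mul, map_sub, map_pow, map_add, map_one, ev_X, map_sum]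
    rw [add_sub_cancel, hz, sub_self, zero_mul, add_zero]
    refine sum_congr rfl ?_
    intro j _
    rw [map_mul, map_pow, map_add, map_one, ev_X, ev_C, add_sub_cancel]
  rw [h3] at h1
  exact h1

/-- a nonzero power series over `ℚ_[p]` with bounded coefficients has a first coefficient of
maximal norm -/
lemma exists_first_max (D : PowerSeries ℚ_[p]) (hD : ∃ B : ℝ, ∀ i, ‖coeff i D‖ ≤ B) (hne : D ≠ 0) :
    ∃ (lam : ℕ) (M : ℝ), 0 < M ∧ ‖coeff lam D‖ = M ∧ (∀ i, ‖coeff i D‖ ≤ M) ∧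
      ∀ i < lam, ‖coeff i D‖ ≤ M * (p : ℝ)⁻¹ := by
  classical
  obtain ⟨B, hB⟩ := hD
  have hp1 : (1 : ℝ) < p := by exact_mod_cast hp.out.one_lt
  have hp0 : (0 : ℝ) < p := by linarith
  obtain ⟨i0, hi0⟩ : ∃ i, coeff i D ≠ 0 := by
    by_contra hcon
    push Not at hcon
    apply hne
    ext i
    rw [hcon i, map_zero]
  have hBpos : 0 < B := lt_of_lt_of_le (norm_pos_iff.2 hi0) (hB i0)
  obtain ⟨k, hk⟩ := pow_unbounded_of_one_lt B hp1
  set P : ℤ → Prop := fun v => ∃ i, coeff i D ≠ 0 ∧ (coeff i D).valuation = v with hP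
  have hbdd : ∃ b : ℤ, ∀ z : ℤ, P z → b ≤ z := by
    refine ⟨-k, ?_⟩
    rintro v ⟨i, hi, hv⟩
    have h1 := hB i
    rw [Padic.norm_eq_zpow_neg_valuation hi, hv] at h1
    have h2 : (p : ℝ) ^ (-v) < (p : ℝ) ^ (k : ℤ) := by
      rw [zpow_natCast]
      exact lt_of_le_of_lt h1 hk
    have h3 := (zpow_lt_zpow_iff_right₀ hp1).1 h2
    omega
  obtain ⟨v, ⟨i1, hi1, hv1⟩, hmin⟩ := Int.exists_least_of_bdd hbdd ⟨_, i0, hi0, rfl⟩
  have hex : ∃ i, coeff i D ≠ 0 ∧ (coeff i D).valuation = v := ⟨i1, hi1, hv1⟩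
  refine ⟨Nat.find hex, (p : ℝ) ^ (-v), zpow_pos hp0 _, ?_, ?_, ?_⟩
  · obtain ⟨h1, h2⟩ := Nat.find_spec hex
    rw [Padic.norm_eq_zpow_neg_valuation h1, h2]
  · intro i
    by_cases hi : coeff i D = 0
    · rw [hi, norm_zero]
      exact (zpow_pos hp0 _).le
    · rw [Padic.norm_eq_zpow_neg_valuation hi]
      apply zpow_le_zpow_right₀ hp1.le
      have := hmin _ ⟨i, hi, rfl⟩
      omega
  · intro i hi
    by_cases hi0 : coeff i D = 0
    · rw [hi0, norm_zero]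
      positivity
    · rw [Padic.norm_eq_zpow_neg_valuation hi0, ← zpow_sub_one₀ hp0.ne']
      apply zpow_le_zpow_right₀ hp1.le
      have h1 := hmin _ ⟨i, hi0, rfl⟩
      have h2 := Nat.find_min hex hi
      push Not at h2
      have h3 := h2 hi0
      omega

theorem eq_zero_of_zeros_gen (hι : ∀ x, ‖ι x‖ = ‖x‖) (D : PowerSeries ℚ_[p])
    (hD : ∃ B : ℝ, ∀ i, ‖coeff i D‖ ≤ B) (z : ℕ → K)
    (hz : ∀ n, z n ^ p ^ (n + 1) = 1 ∧ z n ^ p ^ n ≠ 1)
    (h0 : ∀ n, HasSum (fun i => ι (coeff i D) * (z n - 1) ^ i) 0) : D = 0 := by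
  by_contra hne
  obtain ⟨lam, M, hM, hlam, hle, hlt⟩ := exists_first_max D hD hne
  have hp1 : (1 : ℝ) < p := by exact_mod_cast hp.out.one_lt
  have hp0 : (0 : ℝ) < p := by linarith
  have hpn : ‖(p : K)‖ = (p : ℝ)⁻¹ := by
    have h1 : ι (p : ℚ_[p]) = (p : K) := map_natCast ι p
    rw [← h1, hι]
    exact Padic.norm_p
  have hpK : ‖(p : K)‖ < 1 := norm_p_lt ι hι
  have hpK0 : (p : K) ≠ 0 := by
    rw [← norm_pos_iff, hpn]
    positivity
  obtain ⟨h1, h2⟩ := hz lam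
  set x : K := z lam - 1 with hx
  have hx1 : ‖x‖ < 1 := norm_sub_one_lt hp.out hpK h1
  have hx2 : (p : ℝ)⁻¹ ≤ ‖x‖ ^ (p ^ lam) := by
    rw [← hpn]
    exact norm_p_le_pow hp.out hpK hpK0 h1 h2
  have hx0 : 0 < ‖x‖ := by
    rcases (norm_nonneg x).lt_or_eq with h | h
    · exact h
    · exfalso
      rw [← h, zero_pow (pow_ne_zero _ hp.out.ne_zero)] at hx2
      exact absurd hx2 (not_le.2 (by positivity))
  have hlamlt : lam < p ^ lam := Nat.lt_pow_self hp.out.one_lt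
  have hx3 : (p : ℝ)⁻¹ < ‖x‖ ^ lam :=
    lt_of_le_of_lt hx2 (pow_lt_pow_right_of_lt_one₀ hx0 hx1 hlamlt)
  -- the terms other than the `lam`-th one
  set B : ℝ := max (M * (p : ℝ)⁻¹) (M * ‖x‖ ^ (lam + 1)) with hB
  have hB0 : 0 ≤ B := le_max_of_le_left (by positivity)
  have hBlt : B < M * ‖x‖ ^ lam := by
    rw [hB, max_lt_iff]
    constructor
    · exact mul_lt_mul_of_pos_left hx3 hM
    · apply mul_lt_mul_of_pos_left _ hM
      exact pow_lt_pow_right_of_lt_one₀ hx0 hx1 (Nat.lt_succ_self _)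
  have hsum := h0 lam
  have hupd := hsum.update lam 0
  have hle2 : ‖(0 : K) - ι (coeff lam D) * x ^ lam + 0‖ ≤ B := by
    have : (0 : K) - ι (coeff lam D) * x ^ lam + 0 = 0 - ι (coeff lam D) * x ^ lam + 0 := rfl
    apply norm_hasSum_le hB0 _ hupd
    intro i
    rw [Function.update_apply]
    split_ifs with hi
    · rw [norm_zero]; exact hB0
    · rw [norm_mul, hι, norm_pow]
      rcases lt_or_gt_of_ne hi with h | h
      · apply le_max_of_le_left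
        calc ‖coeff i D‖ * ‖x‖ ^ i ≤ (M * (p : ℝ)⁻¹) * 1 :=
              mul_le_mul (hlt i h) (pow_le_one₀ (norm_nonneg _) hx1.le)
                (pow_nonneg (norm_nonneg _) _) (by positivity)
          _ = _ := mul_one _
      · apply le_max_of_le_right
        apply mul_le_mul (hle i) _ (pow_nonneg (norm_nonneg _) _) hM.le
        exact pow_le_pow_of_le_one (norm_nonneg _) hx1.le h
  rw [add_zero, zero_sub, norm_neg, norm_mul, hι, norm_pow, hlam] at hle2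
  exact absurd hBlt (not_lt.2 hle2)

end general

section padicComplex

variable {p : ℕ} [hp : Fact p.Prime]

/-- (E1) -/
theorem hasSum_eval (L : PowerSeries ℤ_[p]) (n : ℕ) (c : ℕ → ℤ_[p])
    (h : ((1 + X) ^ (p ^ n) - 1 : PowerSeries ℤ_[p]) ∣
      L - ∑ j ∈ range (p ^ n), C (c j) * (1 + X) ^ j) (z : ℂ_[p]) (hz : z ^ (p ^ n) = 1) :
    HasSum (fun i => algebraMap ℚ_[p] ℂ_[p] ((coeff i L : ℤ_[p]) : ℚ_[p]) * (z - 1) ^ i)
      (∑ j ∈ range (p ^ n), algebraMap ℚ_[p] ℂ_[p] ((c j : ℤ_[p]) : ℚ_[p]) * z ^ j) :=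
  hasSum_eval_gen (algebraMap ℚ_[p] ℂ_[p]) (fun x => PadicComplex.norm_extends' p x) L n c h z hz

/-- (E2) -/
theorem eq_zero_of_zeros (D : PowerSeries ℚ_[p]) (hD : ∃ B : ℝ, ∀ i, ‖coeff i D‖ ≤ B)
    (z : ℕ → ℂ_[p]) (hz : ∀ n, z n ^ p ^ (n + 1) = 1 ∧ z n ^ p ^ n ≠ 1)
    (h0 : ∀ n, HasSum (fun i => algebraMap ℚ_[p] ℂ_[p] (coeff i D) * (z n - 1) ^ i) 0) : D = 0 :=
  eq_zero_of_zeros_gen (algebraMap ℚ_[p] ℂ_[p]) (fun x => PadicComplex.norm_extends' p x) D hD z hz h0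

end padicComplex

end Pool.Agent.MZ
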