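import Mathlib
import Pool.Agent.MZ.Content
import Pool.Agent.MZ.Periods

open Matrix Matrix.SpecialLinearGroup OnePoint CongruenceSubgroup Finset PowerSeries
open scoped MatrixGroups

namespace Pool.Agent.MZ

lemma ModSym.HasSign.even {N : ℕ} {A : Type*} [CommRing A] {φ : ModSym N A}
    (h : φ.HasSign 1) : φ.Even := by
  intro x y
  rw [h x y, one_mul]

lemma ModSym.Even.hasSign {N : ℕ} {A : Type*} [CommRing A] {φ : ModSym N A}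
    (h : φ.Even) : φ.HasSign 1 := by
  intro x y
  rw [h x y, one_mul]

/-- `p = 3`, even symbols: the content of `L` is the content of the `Γ₁(N)`-periods -/
theorem content3 {N : ℕ} (hN0 : N ≠ 0) (h3N : ¬ 3 ∣ N) (φ : ModSym N ℤ_[3])
    (hs : φ.HasSign 1) (a : ℕ → ℤ_[3])
    (hH : ∀ l : ℕ, l.Prime → ¬ l ∣ N → φ.HeckeEigen l (a l))
    (α : ℤ_[3]ˣ) (hα : (α : ℤ_[3]) ^ 2 - a 3 * α + 3 = 0) (L : PowerSeries ℤ_[3])
    (hL : IsPadicL φ 3 α L) (K : ℕ) :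
    (∀ i, (3 : ℤ_[3]) ^ K ∣ coeff i L) ↔
      ∀ γ ∈ Gamma1 N, (3 : ℤ_[3]) ^ K ∣ φ.val ∞ (mapGL ℚ γ • ∞) := by
  have h1 := periods_content (p := 3) hN0 (by norm_num) h3N φ a hH α (by exact_mod_cast hα) K
  push_cast at h1
  rw [three_content φ hs.even α K L hL, ← h1]

/-- all branches of the right parity together have the content of the `Γ₁(N)`-periods -/
theorem contentBr {N : ℕ} (hN0 : N ≠ 0) {p : ℕ} [hp : Fact p.Prime] (hp2 : p ≠ 2)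
    (hpN : ¬ p ∣ N) (φ : ModSym N ℤ_[p]) (a : ℕ → ℤ_[p])
    (hH : ∀ l : ℕ, l.Prime → ¬ l ∣ N → φ.HeckeEigen l (a l))
    (α : ℤ_[p]ˣ) (hα : (α : ℤ_[p]) ^ 2 - a p * α + p = 0) {ε : ℤ_[p]} (hε : ε = 1 ∨ ε = -1)
    (hs : φ.HasSign ε) (K : ℕ) :
    (∀ ψ : DirichletCharacter ℤ_[p] p, ψ (-1) = ε → ∀ L : PowerSeries ℤ_[p],
      IsPadicLBr φ p α ψ L → ∀ m, (p : ℤ_[p]) ^ K ∣ coeff m L) ↔
      ∀ γ ∈ Gamma1 N, (p : ℤ_[p]) ^ K ∣ φ.val ∞ (mapGL ℚ γ • ∞) := by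
  rw [branch_content hp2 φ α (a p) (hH p hp.out hpN) hα hε hs K,
    periods_content hN0 hp2 hpN φ a hH α hα K]

end Pool.Agent.MZ
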