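import Mathlib
import Pool.Agent.MZ.Content
import Pool.Agent.MZ.Periods

open Matrix Matrix.SpecialLinearGroup OnePoint CongruenceSubgroup Finset PowerSeries
open scoped MatrixGroups

namespace Pool.Agent.MZ

/-- `p = 3`: the content of the `3`-adic `L`-function is the content of the `Γ₁(N)`-periods. -/
theorem exact_content3 {N : ℕ} (hN0 : N ≠ 0) (hN3 : ¬ 3 ∣ N) (φ : ModSym N ℤ_[3]) (heven : φ.Even)
    (a : ℕ → ℤ_[3]) (hecke : ∀ l : ℕ, l.Prime → ¬ l ∣ N → φ.HeckeEigen l (a l))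
    (α : ℤ_[3]ˣ) (hα : (α : ℤ_[3]) ^ 2 - a 3 * α + 3 = 0) (L : PowerSeries ℤ_[3])
    (hL : IsPadicL φ 3 α L) (K : ℕ) :
    (∀ i : ℕ, (3 : ℤ_[3]) ^ K ∣ coeff i L) ↔
      ∀ γ ∈ Gamma1 N, (3 : ℤ_[3]) ^ K ∣ φ.val ∞ (mapGL ℚ γ • ∞) := by
  have h3 : ((3 : ℕ) : ℤ_[3]) = 3 := by norm_num
  rw [three_content φ heven α K L hL]
  have h := periods_content hN0 (p := 3) (by norm_num) hN3 φ a hecke α (by rw [h3]; exact hα) K
  rw [h3] at h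
  exact h

/-- All odd `p`: the content of the branches with the sign of `φ` is the content of the
`Γ₁(N)`-periods. -/
theorem exact_contentBr {N : ℕ} (hN0 : N ≠ 0) {p : ℕ} [Fact p.Prime] (hp2 : p ≠ 2)
    (hpN : ¬ p ∣ N) (φ : ModSym N ℤ_[p]) {ε : ℤ_[p]} (hε : ε = 1 ∨ ε = -1) (hs : φ.HasSign ε)
    (a : ℕ → ℤ_[p]) (hecke : ∀ l : ℕ, l.Prime → ¬ l ∣ N → φ.HeckeEigen l (a l))
    (α : ℤ_[p]ˣ) (hα : (α : ℤ_[p]) ^ 2 - a p * α + p = 0) (K : ℕ) :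
    (∀ ψ : DirichletCharacter ℤ_[p] p, ψ (-1) = ε → ∀ L : PowerSeries ℤ_[p],
      IsPadicLBr φ p α ψ L → ∀ m, (p : ℤ_[p]) ^ K ∣ coeff m L) ↔
      ∀ γ ∈ Gamma1 N, (p : ℤ_[p]) ^ K ∣ φ.val ∞ (mapGL ℚ γ • ∞) := by
  rw [branch_content hp2 φ α (a p) (hecke p Fact.out hpN) hα hε hs K]
  exact periods_content hN0 hp2 hpN φ a hecke α hα K

end Pool.Agent.MZ
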