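import Mathlib
import Pool.Agent.MZ.Series
import Pool.Agent.MZ.Branch

open Matrix Matrix.SpecialLinearGroup OnePoint CongruenceSubgroup Finset
open scoped MatrixGroups

namespace Pool.Agent.MZ

/-- sums over `ZMod m` as sums over `range m` -/
lemma sum_zmod_range {M : Type*} [AddCommMonoid M] {m : ℕ} [NeZero m] (f : ZMod m → M) :
    ∑ a : ZMod m, f a = ∑ b ∈ range m, f (b : ZMod m) := by
  refine sum_nbij' (fun a => a.val) (fun b => (b : ZMod m)) ?_ ?_ ?_ ?_ ?_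
  · intro a _
    rw [mem_range]
    exact ZMod.val_lt a
  · intro b _
    exact mem_univ _
  · intro a _
    exact ZMod.natCast_zmod_val a
  · intro b hb
    exact ZMod.val_natCast_of_lt (mem_range.1 hb)
  · intro a _
    rw [ZMod.natCast_zmod_val]

section G1

open Complex

/-- (G1), first part -/
theorem gauss_sum_range {m : ℕ} [NeZero m] {χ : DirichletCharacter ℂ m} (hχ : χ.IsPrimitive)
    (k : ℕ) :
    ∑ b ∈ range m, χ (b : ZMod m) * cexp (2 * Real.pi * I * k * (((b : ℚ) / (m : ℚ) : ℚ) : ℂ)) =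
      χ⁻¹ (k : ZMod m) * gaussSum χ ZMod.stdAddChar := by
  rw [← gaussSum_mulShift_of_isPrimitive ZMod.stdAddChar hχ, gaussSum, sum_zmod_range]
  refine sum_congr rfl ?_
  intro b _
  congr 1
  rw [AddChar.mulShift_apply]
  have h1 : ((k : ZMod m) * (b : ZMod m)) = (((k * b : ℕ) : ℤ) : ZMod m) := by push_cast; rfl
  rw [h1, ZMod.stdAddChar_coe]
  congr 1
  push_cast
  ring

/-- (G1), second part -/
theorem gauss_mul_inv {m : ℕ} [NeZero m] {χ : DirichletCharacter ℂ m} (hχ : χ.IsPrimitive) :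
    gaussSum χ ZMod.stdAddChar * gaussSum χ⁻¹ ZMod.stdAddChar = χ (-1) * m := by
  have hχ' : (χ⁻¹).IsPrimitive := by
    rw [DirichletCharacter.isPrimitive_def, DirichletCharacter.conductor_inv]
    exact hχ
  have h1 : ZMod.dft (χ : ZMod m → ℂ) =
      fun k => (χ⁻¹ (-1) * gaussSum χ ZMod.stdAddChar) * χ⁻¹ k := by
    funext k
    rw [hχ.fourierTransform_eq_inv_mul_gaussSum, ← neg_one_mul k, map_mul]
    ring
  have h2 := congrFun (ZMod.dft_dft (χ : ZMod m → ℂ)) (-1)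
  rw [h1, ZMod.dft_const_mul] at h2
  beta_reduce at h2
  rw [hχ'.fourierTransform_eq_inv_mul_gaussSum, inv_inv, neg_neg,
    map_one, one_mul, smul_eq_mul, mul_one] at h2
  have h3 : χ (-1) * χ⁻¹ (-1) = 1 := by
    have := _root_.mul_inv_cancel χ
    rw [← MulChar.mul_apply, this, MulChar.one_apply isUnit_neg_one]
  linear_combination χ (-1) * h2 -
    gaussSum χ ZMod.stdAddChar * gaussSum χ⁻¹ ZMod.stdAddChar * h3

end G1

/-- `χ` of level `p^(n+1)` not trivial on the classes `= 1` mod `p^n` is primitive -/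
lemma primitive_of_ne_one {K : Type*} [Field K] {p : ℕ} (hp : p.Prime) {n : ℕ}
    (χ : DirichletCharacter K (p ^ (n + 1))) (x : (ZMod (p ^ (n + 1)))ˣ)
    (hx : ZMod.unitsMap (pow_dvd_pow p (Nat.le_succ n)) x = 1) (hχ : χ x ≠ 1) :
    χ.IsPrimitive := by
  have : NeZero (p ^ (n + 1)) := ⟨pow_ne_zero _ hp.ne_zero⟩
  rw [DirichletCharacter.isPrimitive_def]
  obtain ⟨k, hk, hke⟩ := (Nat.dvd_prime_pow hp).1 χ.conductor_dvd_level
  rw [hke]
  by_contra hne
  have hkn : k ≤ n := by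
    by_contra hcon
    apply hne
    congr 1
    omega
  have h1 : χ.conductor ∣ p ^ n := by
    rw [hke]
    exact pow_dvd_pow p hkn
  have h2 := (DirichletCharacter.mem_conductorSet_iff_conductor_dvd χ
    (pow_dvd_pow p (Nat.le_succ n))).2 h1
  rw [DirichletCharacter.mem_conductorSet_iff,
    DirichletCharacter.factorsThrough_iff_ker_unitsMap (pow_dvd_pow p (Nat.le_succ n))] at h2
  have h3 := h2 ((MonoidHom.mem_ker).2 hx)
  rw [MonoidHom.mem_ker] at h3
  apply hχ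
  have h4 := congrArg (fun z : Kˣ => (z : K)) h3
  simpa using h4

/-- a primitive character of level `p^(n+1)` is nontrivial on some class `= 1` mod `p^n` -/
lemma exists_ne_one_of_primitive {K : Type*} [Field K] {p : ℕ} (hp : p.Prime) {n : ℕ}
    {χ : DirichletCharacter K (p ^ (n + 1))} (hχ : χ.IsPrimitive) :
    ∃ x : (ZMod (p ^ (n + 1)))ˣ, ZMod.unitsMap (pow_dvd_pow p (Nat.le_succ n)) x = 1 ∧
      χ x ≠ 1 := by
  have : NeZero (p ^ (n + 1)) := ⟨pow_ne_zero _ hp.ne_zero⟩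
  by_contra hcon
  push Not at hcon
  have h1 : DirichletCharacter.FactorsThrough χ (p ^ n) := by
    rw [DirichletCharacter.factorsThrough_iff_ker_unitsMap (pow_dvd_pow p (Nat.le_succ n))]
    intro x hx
    rw [MonoidHom.mem_ker] at hx ⊢
    apply Units.ext
    have := hcon x hx
    simpa using this
  have h2 := (DirichletCharacter.mem_conductorSet_iff_conductor_dvd χ
    (pow_dvd_pow p (Nat.le_succ n))).1 h1
  rw [(DirichletCharacter.isPrimitive_def χ).1 hχ] at h2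
  have h3 := Nat.le_of_dvd (pow_pos hp.pos n) h2
  have h4 := Nat.pow_lt_pow_right hp.one_lt (Nat.lt_succ_self n)
  simp only [Nat.succ_eq_add_one] at h4
  omega

/-- (G2) -/
theorem exists_wild {K : Type*} [Field K] [CharZero K] [IsAlgClosed K] {p : ℕ} (hp : p.Prime)
    (hp2 : p ≠ 2) {n : ℕ} (hn : 1 ≤ n) :
    ∃ χ : DirichletCharacter K (p ^ (n + 1)), χ.IsPrimitive ∧ χ ^ (p ^ n) = 1 ∧
      χ ((1 + p : ℕ) : ZMod (p ^ (n + 1))) ^ (p ^ (n - 1)) ≠ 1 := by
  have : NeZero (p ^ (n + 1)) := ⟨pow_ne_zero _ hp.ne_zero⟩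
  have : Fact p.Prime := ⟨hp⟩
  have hcu : Nat.Coprime (1 + p) (p ^ (n + 1)) := by
    apply Nat.Coprime.pow_right
    simp
  set u : (ZMod (p ^ (n + 1)))ˣ := ZMod.unitOfCoprime (1 + p) hcu with hu
  have hou : orderOf u = p ^ n := by
    rw [← orderOf_units, hu, ZMod.coe_unitOfCoprime]
    push_cast
    exact ZMod.orderOf_one_add_prime hp hp2 n
  set x : (ZMod (p ^ (n + 1)))ˣ := u ^ (p ^ (n - 1)) with hx
  have hpn : p ^ (n - 1) * p = p ^ n := by
    rw [← pow_succ]; congr 1; omega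
  have hx1 : x ≠ 1 := by
    intro h1
    have h2 := orderOf_dvd_of_pow_eq_one (hx ▸ h1)
    rw [hou] at h2
    have h3 := Nat.le_of_dvd (pow_pos hp.pos _) h2
    have h4 := Nat.pow_lt_pow_right hp.one_lt (show n - 1 < n by omega)
    omega
  have hxp : x ^ p = 1 := by
    rw [hx, ← pow_mul, hpn, ← hou, pow_orderOf_eq_one]
  have hker : ZMod.unitsMap (pow_dvd_pow p (Nat.le_succ n)) x = 1 := by
    apply Units.ext
    have h1 : (p : ℤ) ∣ (1 + p : ℤ) - 1 := ⟨1, by ring⟩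
    have h2 := dvd_sub_pow_of_dvd_sub h1 (n - 1)
    rw [one_pow, Nat.sub_add_cancel hn] at h2
    rw [hx, map_pow, Units.val_pow_eq_pow_val, ZMod.unitsMap_val, hu, ZMod.coe_unitOfCoprime,
      Units.val_one]
    have h3 : (((1 + p : ℤ) ^ (p ^ (n - 1)) - 1 : ℤ) : ZMod (p ^ n)) = 0 := by
      rw [ZMod.intCast_zmod_eq_zero_iff_dvd]
      push_cast
      exact h2
    push_cast at h3
    rw [ZMod.cast_natCast (pow_dvd_pow p (Nat.le_succ n))]
    push_cast
    exact sub_eq_zero.1 h3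
  have hex : NeZero ((Monoid.exponent (ZMod (p ^ (n + 1)))ˣ : ℕ) : K) :=
    ⟨by exact_mod_cast Monoid.exponent_ne_zero_of_finite⟩
  obtain ⟨χ, hχ⟩ := MulChar.exists_apply_ne_one_of_hasEnoughRootsOfUnity (ZMod (p ^ (n + 1))) K
    (a := (x : ZMod (p ^ (n + 1)))) (by
      intro h1
      exact hx1 (Units.ext h1))
  have hχx : χ (x : ZMod (p ^ (n + 1))) ^ p = 1 := by
    rw [← map_pow, ← Units.val_pow_eq_pow_val, hxp, Units.val_one, map_one]
  have hval : (χ ^ (p - 1)) (x : ZMod (p ^ (n + 1))) ≠ 1 := by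
    rw [MulChar.pow_apply_coe]
    intro h1
    apply hχ
    have h2 : χ (x : ZMod (p ^ (n + 1))) ^ p =
        χ (x : ZMod (p ^ (n + 1))) ^ (p - 1) * χ (x : ZMod (p ^ (n + 1))) := by
      rw [← pow_succ]; congr 1; have := hp.pos; omega
    rw [h1, hχx, one_mul] at h2
    exact h2.symm
  refine ⟨χ ^ (p - 1), primitive_of_ne_one hp _ x hker hval, ?_, ?_⟩
  · rw [← pow_mul]
    apply MulChar.ext
    intro v
    rw [MulChar.pow_apply_coe, MulChar.one_apply v.isUnit, ← map_pow, ← Units.val_pow_eq_pow_val]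
    have h1 : v ^ ((p - 1) * p ^ n) = 1 := by
      have h2 : Fintype.card (ZMod (p ^ (n + 1)))ˣ = (p - 1) * p ^ n := by
        rw [ZMod.card_units_eq_totient, Nat.totient_prime_pow_succ hp, mul_comm]
      rw [← h2, pow_card_eq_one]
    rw [h1, Units.val_one, map_one]
  · have h1 : ((1 + p : ℕ) : ZMod (p ^ (n + 1))) = (u : ZMod (p ^ (n + 1))) := by
      rw [hu, ZMod.coe_unitOfCoprime]
    rw [h1, ← map_pow, ← Units.val_pow_eq_pow_val, ← hx]
    exact hval

/-- the sum of a primitive character of level `p^(n+1)` against a function of `a` mod `p^n` -/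
lemma sum_primitive_eq_zero {K : Type*} [Field K] {p : ℕ} (hp : p.Prime) {n : ℕ}
    {χ : DirichletCharacter K (p ^ (n + 1))} (hχ : χ.IsPrimitive) (g : ℕ → K)
    (hg : ∀ a b : ℕ, a ≡ b [MOD p ^ n] → g a = g b) :
    ∑ a ∈ range (p ^ (n + 1)), χ (a : ZMod (p ^ (n + 1))) * g a = 0 := by
  have : NeZero (p ^ (n + 1)) := ⟨pow_ne_zero _ hp.ne_zero⟩
  obtain ⟨x, hx, hχx⟩ := exists_ne_one_of_primitive hp hχ
  set G : ZMod (p ^ (n + 1)) → K := fun z => χ z * g z.val with hG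
  have h1 : ∑ a ∈ range (p ^ (n + 1)), χ (a : ZMod (p ^ (n + 1))) * g a =
      ∑ z : ZMod (p ^ (n + 1)), G z := by
    rw [sum_zmod_range]
    refine sum_congr rfl ?_
    intro a ha
    rw [hG]
    beta_reduce
    rw [ZMod.val_natCast_of_lt (mem_range.1 ha)]
  have hxn : ((x : ZMod (p ^ (n + 1))).val : ZMod (p ^ n)) = 1 := by
    have h2 := congrArg (fun z : (ZMod (p ^ n))ˣ => (z : ZMod (p ^ n))) hx
    beta_reduce at h2
    rw [ZMod.unitsMap_val, Units.val_one] at h2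
    rw [ZMod.natCast_val]
    exact h2
  have h2 : ∀ z : ZMod (p ^ (n + 1)), G (x * z) = χ x * G z := by
    intro z
    rw [hG]
    beta_reduce
    rw [map_mul, mul_assoc]
    congr 2
    apply hg
    rw [ZMod.val_mul]
    have h3 : ((x : ZMod (p ^ (n + 1))).val * z.val) % p ^ (n + 1) ≡
        (x : ZMod (p ^ (n + 1))).val * z.val [MOD p ^ n] :=
      (Nat.mod_modEq _ _).of_dvd (pow_dvd_pow p (Nat.le_succ n))
    refine h3.trans ?_
    rw [← ZMod.natCast_eq_natCast_iff]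
    push_cast [hxn]
    ring
  have h3 : ∑ z : ZMod (p ^ (n + 1)), G z = χ x * ∑ z : ZMod (p ^ (n + 1)), G z := by
    rw [mul_sum, ← Equiv.sum_comp (Units.mulLeft x) G]
    refine sum_congr rfl ?_
    intro z _
    rw [Units.mulLeft_apply, h2]
  rw [h1]
  have h4 : (1 - χ x) * ∑ z : ZMod (p ^ (n + 1)), G z = 0 := by linear_combination h3
  rcases mul_eq_zero.1 h4 with h5 | h5
  · exact absurd (sub_eq_zero.1 h5).symm hχx
  · exact h5

/-- characters of `p`-power order only see the logarithm -/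
lemma chi_eq_pow {K : Type*} [Field K] {p : ℕ} (hp : p.Prime) {n : ℕ}
    {χ : DirichletCharacter K (p ^ (n + 1))} {k : ℕ} (hk : χ ^ (p ^ k) = 1) {a j : ℕ}
    (ha : ¬ p ∣ a) (hj : a ^ (p - 1) ≡ (1 + p) ^ (j * (p - 1)) [MOD p ^ (n + 1)]) :
    χ (a : ZMod (p ^ (n + 1))) = χ ((1 + p : ℕ) : ZMod (p ^ (n + 1))) ^ j := by
  have hca : Nat.Coprime a (p ^ (n + 1)) :=
    (Nat.Coprime.pow_left _ ((Nat.Prime.coprime_iff_not_dvd hp).2 ha)).symm
  have hcu : Nat.Coprime (1 + p) (p ^ (n + 1)) := by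
    apply Nat.Coprime.pow_right
    simp
  set x : (ZMod (p ^ (n + 1)))ˣ := ZMod.unitOfCoprime a hca with hx
  set u : (ZMod (p ^ (n + 1)))ˣ := ZMod.unitOfCoprime (1 + p) hcu with hu
  have hxa : (a : ZMod (p ^ (n + 1))) = x := by rw [hx, ZMod.coe_unitOfCoprime]
  have hua : ((1 + p : ℕ) : ZMod (p ^ (n + 1))) = u := by rw [hu, ZMod.coe_unitOfCoprime]
  have h1 : x ^ (p - 1) = u ^ (j * (p - 1)) := by
    apply Units.ext
    rw [Units.val_pow_eq_pow_val, Units.val_pow_eq_pow_val, ← hxa, ← hua]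
    have := (ZMod.natCast_eq_natCast_iff _ _ _).2 hj
    push_cast at this ⊢
    exact this
  set y : (ZMod (p ^ (n + 1)))ˣ := x * (u ^ j)⁻¹ with hy
  have hy1 : y ^ (p - 1) = 1 := by
    rw [hy, _root_.mul_pow, h1, inv_pow, ← pow_mul, mul_inv_cancel]
  set z := χ.toUnitHom y with hz
  have hz1 : z ^ (p - 1) = 1 := by rw [hz, ← map_pow, hy1, map_one]
  have hz2 : z ^ (p ^ k) = 1 := by
    apply Units.ext
    rw [hz, Units.val_pow_eq_pow_val, MulChar.coe_toUnitHom, Units.val_one,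
      ← MulChar.pow_apply_coe, hk, MulChar.one_apply y.isUnit]
  have hco : Nat.Coprime (p - 1) (p ^ k) := by
    apply Nat.Coprime.pow_right
    apply Nat.Coprime.symm
    rw [Nat.Prime.coprime_iff_not_dvd hp]
    intro hh
    have h1 := hp.two_le
    have := Nat.le_of_dvd (by omega) hh
    omega
  have h7 := Nat.dvd_gcd (orderOf_dvd_of_pow_eq_one hz1) (orderOf_dvd_of_pow_eq_one hz2)
  rw [hco, Nat.dvd_one] at h7
  have hz3 : z = 1 := orderOf_eq_one_iff.1 h7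
  have h8 : x = y * u ^ j := by rw [hy]; group
  rw [hxa, hua, h8, Units.val_mul, map_mul, Units.val_pow_eq_pow_val, map_pow]
  have h9 : χ (y : ZMod (p ^ (n + 1))) = 1 := by
    rw [← MulChar.coe_toUnitHom, ← hz, hz3, Units.val_one]
  rw [h9, one_mul]

/-- (G3) -/
theorem theta_eval {K : Type*} [Field K] {N : ℕ} {p : ℕ} [hp : Fact p.Prime] (hp2 : p ≠ 2)
    (φ : ModSym N ℤ_[p]) (α : ℤ_[p]ˣ) (i : ℤ_[p] →+* K) (n : ℕ)
    {χ : DirichletCharacter K (p ^ (n + 1))} (hχ : χ.IsPrimitive) {k : ℕ}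
    (hk : χ ^ (p ^ k) = 1) :
    ∑ a ∈ (range (p ^ (n + 1))).filter (fun a => ¬ p ∣ a),
      ∑ j ∈ (range (p ^ n)).filter
        (fun j => a ^ (p - 1) ≡ (1 + p) ^ (j * (p - 1)) [MOD p ^ (n + 1)]),
        i (msd φ p α n a) * χ ((1 + p : ℕ) : ZMod (p ^ (n + 1))) ^ j =
      i ((α⁻¹ : ℤ_[p]ˣ) : ℤ_[p]) ^ (n + 1) *
        ∑ a ∈ range (p ^ (n + 1)), χ (a : ZMod (p ^ (n + 1))) *
          i (φ.val ∞ (((a : ℚ) / (p : ℚ) ^ (n + 1) : ℚ) : OnePoint ℚ)) := by
  have hp0 : (p : ℚ) ≠ 0 := by exact_mod_cast hp.out.ne_zero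
  have h1 : ∀ a ∈ (range (p ^ (n + 1))).filter (fun a => ¬ p ∣ a),
      ∑ j ∈ (range (p ^ n)).filter
        (fun j => a ^ (p - 1) ≡ (1 + p) ^ (j * (p - 1)) [MOD p ^ (n + 1)]),
        i (msd φ p α n a) * χ ((1 + p : ℕ) : ZMod (p ^ (n + 1))) ^ j =
      χ (a : ZMod (p ^ (n + 1))) * i (msd φ p α n a) := by
    intro a ha
    rw [mem_filter] at ha
    obtain ⟨j, -, hj⟩ := idx_single hp.out hp2 n a ha.2
    change ∑ j ∈ idx p n a, i (msd φ p α n a) * χ ((1 + p : ℕ) : ZMod (p ^ (n + 1))) ^ j = _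
    rw [hj, sum_singleton]
    have h2 : j % p ^ n ∈ idx p n a := by rw [hj]; exact mem_singleton_self _
    rw [idx, mem_filter] at h2
    rw [chi_eq_pow hp.out hk ha.2 h2.2, mul_comm]
  rw [sum_congr rfl h1]
  have h2 : ∑ a ∈ (range (p ^ (n + 1))).filter (fun a => ¬ p ∣ a),
      χ (a : ZMod (p ^ (n + 1))) * i (msd φ p α n a) =
      ∑ a ∈ range (p ^ (n + 1)), χ (a : ZMod (p ^ (n + 1))) * i (msd φ p α n a) := by
    apply sum_subset (filter_subset _ _)
    intro a ha hna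
    have hpa : p ∣ a := by
      by_contra hh
      exact hna (mem_filter.2 ⟨ha, hh⟩)
    have hnu : ¬ IsUnit (a : ZMod (p ^ (n + 1))) := by
      rw [ZMod.isUnit_iff_coprime]
      intro hco
      have h3 : Nat.Coprime a p := Nat.Coprime.coprime_dvd_right (dvd_pow_self p (by omega)) hco
      have h4 := Nat.dvd_gcd hpa (dvd_refl p)
      rw [h3] at h4
      exact hp.out.one_lt.ne' (Nat.dvd_one.1 h4)
    rw [MulChar.map_nonunit _ hnu, zero_mul]
  rw [h2]
  have h3 := sum_primitive_eq_zero hp.out hχ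
    (fun a => i (φ.val ∞ (((a : ℚ) / (p : ℚ) ^ n : ℚ) : OnePoint ℚ))) (by
      intro a b hab
      beta_reduce
      congr 1
      have h4 : (p : ℤ) ^ n ∣ (b : ℤ) - a := by
        have := Nat.modEq_iff_dvd.1 hab
        push_cast at this
        exact this
      obtain ⟨t, ht⟩ := h4
      have h5 : (b : ℚ) - a = (p : ℚ) ^ n * t := by exact_mod_cast ht
      have h6 : (b : ℚ) / (p : ℚ) ^ n = (a : ℚ) / (p : ℚ) ^ n + t := by
        have h7 : (b : ℚ) = a + (p : ℚ) ^ n * t := by linear_combination h5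
        rw [h7]
        field_simp
      have h8 := φ.isSym.trans ((a : ℚ) / (p : ℚ) ^ n) t
      beta_reduce at h8
      rw [h6, h8])
  beta_reduce at h3
  have h4 : ∀ a ∈ range (p ^ (n + 1)), χ (a : ZMod (p ^ (n + 1))) * i (msd φ p α n a) =
      i ((α⁻¹ : ℤ_[p]ˣ) : ℤ_[p]) ^ (n + 1) * (χ (a : ZMod (p ^ (n + 1))) *
          i (φ.val ∞ (((a : ℚ) / (p : ℚ) ^ (n + 1) : ℚ) : OnePoint ℚ))) -
        i ((α⁻¹ : ℤ_[p]ˣ) : ℤ_[p]) ^ (n + 2) * (χ (a : ZMod (p ^ (n + 1))) *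
          i (φ.val ∞ (((a : ℚ) / (p : ℚ) ^ n : ℚ) : OnePoint ℚ))) := by
    intro a _
    rw [msd, map_sub, map_mul, map_mul, map_pow, map_pow, Int.cast_natCast]
    ring
  rw [sum_congr rfl h4, sum_sub_distrib, ← mul_sum, ← mul_sum, h3, mul_zero, sub_zero]

/-- (G4) the value at the trivial character -/
theorem coeff_zero_padicL {N : ℕ} {p : ℕ} [hp : Fact p.Prime] (φ : ModSym N ℤ_[p])
    (α : ℤ_[p]ˣ) (a₀ : ℤ_[p]) (hH : φ.HeckeEigen p a₀)
    (hα : (α : ℤ_[p]) ^ 2 - a₀ * α + p = 0) (L : PowerSeries ℤ_[p]) (hL : IsPadicL φ p α L) :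
    PowerSeries.coeff 0 L = (1 - ((α⁻¹ : ℤ_[p]ˣ) : ℤ_[p])) ^ 2 *
      φ.val ∞ ((0 : ℚ) : OnePoint ℚ) := by
  have hp0 : (p : ℚ) ≠ 0 := by exact_mod_cast hp.out.ne_zero
  set β : ℤ_[p] := ((α⁻¹ : ℤ_[p]ˣ) : ℤ_[p]) with hβ
  set c : ℤ_[p] := φ.val ∞ ((0 : ℚ) : OnePoint ℚ) with hc
  have hαβ : (α : ℤ_[p]) * β = 1 := by rw [hβ]; exact α.mul_inv
  have h0 := hL 0
  rw [pow_zero, pow_one, add_sub_cancel_left] at h0
  have h1 := PowerSeries.X_dvd_iff.1 h0
  rw [← PowerSeries.coeff_zero_eq_constantCoeff_apply, map_sub, sub_eq_zero] at h1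
  rw [h1, theta]
  have h2 : ∀ a ∈ (range (p ^ (0 + 1))).filter (fun a => ¬ p ∣ a),
      ∑ j ∈ (range (p ^ 0)).filter
        (fun j => a ^ (p - 1) ≡ (1 + p) ^ (j * (p - 1)) [MOD p ^ (0 + 1)]),
        PowerSeries.C (msd φ p α 0 a) * (1 + PowerSeries.X) ^ j =
      PowerSeries.C (msd φ p α 0 a) := by
    intro a ha
    rw [mem_filter] at ha
    have h3 : (range (p ^ 0)).filter
        (fun j => a ^ (p - 1) ≡ (1 + p) ^ (j * (p - 1)) [MOD p ^ (0 + 1)]) = {0} := by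
      ext j
      simp only [mem_filter, mem_range, mem_singleton, pow_zero, Nat.lt_one_iff]
      constructor
      · exact fun h => h.1
      · rintro rfl
        refine ⟨rfl, ?_⟩
        rw [zero_mul, pow_zero, zero_add, pow_one]
        have h4 : Nat.Coprime a p := ((Nat.Prime.coprime_iff_not_dvd hp.out).2 ha.2).symm
        have h5 := Nat.ModEq.pow_totient h4
        rwa [Nat.totient_prime hp.out] at h5
    rw [h3, sum_singleton, pow_zero, mul_one]
  rw [sum_congr rfl h2, map_sum]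
  have h3 : ∀ a ∈ (range (p ^ (0 + 1))).filter (fun a => ¬ p ∣ a),
      PowerSeries.coeff 0 (PowerSeries.C (msd φ p α 0 (a : ℤ))) =
        β * φ.val ∞ ((((0 : ℚ) + a) / p : ℚ) : OnePoint ℚ) - β ^ 2 * c := by
    intro a _
    rw [PowerSeries.coeff_zero_C, msd]
    have h4 := φ.isSym.trans 0 (a : ℤ)
    beta_reduce at h4
    rw [zero_add] at h4
    rw [zero_add, pow_one, pow_one, pow_zero, div_one, h4, zero_add, Int.cast_natCast, zero_add]
  rw [sum_congr rfl h3, sum_sub_distrib, ← mul_sum]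
  have h5 : (range (p ^ (0 + 1))).filter (fun a => ¬ p ∣ a) = (range p).erase 0 := by
    ext a
    simp only [mem_filter, mem_range, zero_add, pow_one, mem_erase]
    constructor
    · rintro ⟨h6, h7⟩
      exact ⟨by rintro rfl; exact h7 (dvd_zero _), h6⟩
    · rintro ⟨h6, h7⟩
      refine ⟨h7, ?_⟩
      intro h8
      have := Nat.le_of_dvd (Nat.pos_of_ne_zero h6) h8
      omega
  have h6 := hH.phi 0
  rw [mul_zero, ← hc] at h6
  have h7 := sum_erase_eq_sub (f := fun a : ℕ =>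
    φ.val ∞ ((((0 : ℚ) + a) / p : ℚ) : OnePoint ℚ)) (mem_range.2 hp.out.pos)
  beta_reduce at h7
  rw [h5, h7, sum_const, card_erase_of_mem (mem_range.2 hp.out.pos), card_range, nsmul_eq_mul,
    Nat.cast_sub hp.out.one_lt.le, Nat.cast_one]
  have h8 : φ.val ∞ ((((0 : ℚ) + (0 : ℕ)) / p : ℚ) : OnePoint ℚ) = c := by
    rw [hc]
    congr 2
    simp
  rw [h8]
  have h9 : β * a₀ = 1 + β ^ 2 * p := by
    have h3 : β ^ 2 * ((α : ℤ_[p]) ^ 2 - a₀ * α + p) = 0 := by rw [hα, mul_zero]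
    have h4 : β ^ 2 * ((α : ℤ_[p]) ^ 2 - a₀ * α + p) =
      ((α : ℤ_[p]) * β) ^ 2 - β * a₀ * ((α : ℤ_[p]) * β) + β ^ 2 * p := by ring
    rw [h4, hαβ] at h3
    linear_combination -h3
  linear_combination β * h6 + c * h9

end Pool.Agent.MZ
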