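import Mathlib
import Pool.Agent.MZ.Gauss

open Matrix Matrix.SpecialLinearGroup OnePoint CongruenceSubgroup Finset
open scoped MatrixGroups

namespace Pool.Agent.MZ

/-- a character whose restriction to the `(p-1)`-st roots of unity is `ψ` -/
lemma chi_eq_pow_br {K : Type*} [Field K] {p : ℕ} [hp : Fact p.Prime] {n : ℕ}
    (i : ℤ_[p] →+* K) (ψ : DirichletCharacter ℤ_[p] p)
    {χ : DirichletCharacter K (p ^ (n + 1))}
    (hχψ : ∀ a : ℕ, a ^ (p - 1) ≡ 1 [MOD p ^ (n + 1)] →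
      χ (a : ZMod (p ^ (n + 1))) = i (ψ (a : ZMod p))) {a j : ℕ}
    (ha : ¬ p ∣ a) (hj : a ^ (p - 1) ≡ (1 + p) ^ (j * (p - 1)) [MOD p ^ (n + 1)]) :
    χ (a : ZMod (p ^ (n + 1))) =
      i (ψ (a : ZMod p)) * χ ((1 + p : ℕ) : ZMod (p ^ (n + 1))) ^ j := by
  have : NeZero (p ^ (n + 1)) := ⟨pow_ne_zero _ hp.out.ne_zero⟩
  have hca : Nat.Coprime a (p ^ (n + 1)) :=
    (Nat.Coprime.pow_left _ ((Nat.Prime.coprime_iff_not_dvd hp.out).2 ha)).symm
  have hcu : Nat.Coprime (1 + p) (p ^ (n + 1)) := by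
    apply Nat.Coprime.pow_right
    simp
  set x : (ZMod (p ^ (n + 1)))ˣ := ZMod.unitOfCoprime a hca with hx
  set u : (ZMod (p ^ (n + 1)))ˣ := ZMod.unitOfCoprime (1 + p) hcu with hu
  have hxa : (a : ZMod (p ^ (n + 1))) = x := by rw [hx, ZMod.coe_unitOfCoprime]
  have hua : ((1 + p : ℕ) : ZMod (p ^ (n + 1))) = u := by rw [hu, ZMod.coe_unitOfCoprime]
  have h1 : x ^ (p - 1) = u ^ (j * (p - 1)) := by
    apply Units.ext
    rw [Units.val_pow_eq_pow_val, Units.val_pow_eq_pow_val, ← hxa, ← hua]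
    have := (ZMod.natCast_eq_natCast_iff _ _ _).2 hj
    push_cast at this ⊢
    exact this
  set y : (ZMod (p ^ (n + 1)))ˣ := x * (u ^ j)⁻¹ with hy
  have hy1 : y ^ (p - 1) = 1 := by
    rw [hy, _root_.mul_pow, h1, inv_pow, ← pow_mul, mul_inv_cancel]
  have h8 : x = y * u ^ j := by rw [hy]; group
  set b : ℕ := (y : ZMod (p ^ (n + 1))).val with hb
  have hby : (b : ZMod (p ^ (n + 1))) = y := by rw [hb, ZMod.natCast_zmod_val]
  have hb1 : b ^ (p - 1) ≡ 1 [MOD p ^ (n + 1)] := by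
    rw [← ZMod.natCast_eq_natCast_iff]
    push_cast
    rw [hby, ← Units.val_pow_eq_pow_val, hy1, Units.val_one]
  have hbp : (b : ZMod p) = (a : ZMod p) := by
    have h2 : (a : ZMod (p ^ (n + 1))) = ((b * (1 + p) ^ j : ℕ) : ZMod (p ^ (n + 1))) := by
      rw [hxa, h8, Units.val_mul, Units.val_pow_eq_pow_val, ← hby, ← hua]
      push_cast
      ring
    have h3 := (ZMod.natCast_eq_natCast_iff _ _ _).1 h2
    have h4 : a ≡ b * (1 + p) ^ j [MOD p] := h3.of_dvd (dvd_pow_self _ (by omega))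
    have h5 := (ZMod.natCast_eq_natCast_iff _ _ _).2 h4
    rw [h5]
    push_cast
    rw [ZMod.natCast_self, add_zero, one_pow, mul_one]
  have h9 := hχψ b hb1
  rw [hby, hbp] at h9
  rw [hxa, hua, h8, Units.val_mul, map_mul, Units.val_pow_eq_pow_val, map_pow, h9]

/-- (G3) for the branch of `ψ` -/
theorem thetaBr_eval {K : Type*} [Field K] {N : ℕ} {p : ℕ} [hp : Fact p.Prime] (hp2 : p ≠ 2)
    (φ : ModSym N ℤ_[p]) (α : ℤ_[p]ˣ) (i : ℤ_[p] →+* K) (ψ : DirichletCharacter ℤ_[p] p) (n : ℕ)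
    {χ : DirichletCharacter K (p ^ (n + 1))} (hχ : χ.IsPrimitive)
    (hχψ : ∀ a : ℕ, a ^ (p - 1) ≡ 1 [MOD p ^ (n + 1)] →
      χ (a : ZMod (p ^ (n + 1))) = i (ψ (a : ZMod p))) :
    ∑ a ∈ (range (p ^ (n + 1))).filter (fun a => ¬ p ∣ a),
      ∑ j ∈ (range (p ^ n)).filter
        (fun j => a ^ (p - 1) ≡ (1 + p) ^ (j * (p - 1)) [MOD p ^ (n + 1)]),
        i (ψ (a : ZMod p) * msd φ p α n a) * χ ((1 + p : ℕ) : ZMod (p ^ (n + 1))) ^ j =
      i ((α⁻¹ : ℤ_[p]ˣ) : ℤ_[p]) ^ (n + 1) *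
        ∑ a ∈ range (p ^ (n + 1)), χ (a : ZMod (p ^ (n + 1))) *
          i (φ.val ∞ (((a : ℚ) / (p : ℚ) ^ (n + 1) : ℚ) : OnePoint ℚ)) := by
  have hp0 : (p : ℚ) ≠ 0 := by exact_mod_cast hp.out.ne_zero
  have h1 : ∀ a ∈ (range (p ^ (n + 1))).filter (fun a => ¬ p ∣ a),
      ∑ j ∈ (range (p ^ n)).filter
        (fun j => a ^ (p - 1) ≡ (1 + p) ^ (j * (p - 1)) [MOD p ^ (n + 1)]),
        i (ψ (a : ZMod p) * msd φ p α n a) * χ ((1 + p : ℕ) : ZMod (p ^ (n + 1))) ^ j =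
      χ (a : ZMod (p ^ (n + 1))) * i (msd φ p α n a) := by
    intro a ha
    rw [mem_filter] at ha
    obtain ⟨j, -, hj⟩ := idx_single hp.out hp2 n a ha.2
    change ∑ j ∈ idx p n a, i (ψ (a : ZMod p) * msd φ p α n a) *
      χ ((1 + p : ℕ) : ZMod (p ^ (n + 1))) ^ j = _
    rw [hj, sum_singleton]
    have h2 : j % p ^ n ∈ idx p n a := by rw [hj]; exact mem_singleton_self _
    rw [idx, mem_filter] at h2
    rw [chi_eq_pow_br i ψ hχψ ha.2 h2.2, map_mul]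
    ring
  rw [sum_congr rfl h1]
  have h2 : ∑ a ∈ (range (p ^ (n + 1))).filter (fun a => ¬ p ∣ a),
      χ (a : ZMod (p ^ (n + 1))) * i (msd φ p α n a) =
      ∑ a ∈ range (p ^ (n + 1)), χ (a : ZMod (p ^ (n + 1))) * i (msd φ p α n a) := by
    apply sum_subset (filter_subset _ _)
    intro a ha hna
    have hpa : p ∣ a := by
      by_contra hh
      exact hna (mem_filter.2 ⟨ha, hh⟩)
    have hnu : ¬ IsUnit (a : ZMod (p ^ (n + 1))) := by
      rw [ZMod.isUnit_iff_coprime]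
      intro hco
      have h3 : Nat.Coprime a p := Nat.Coprime.coprime_dvd_right (dvd_pow_self p (by omega)) hco
      have h4 := Nat.dvd_gcd hpa (dvd_refl p)
      rw [h3] at h4
      exact hp.out.one_lt.ne' (Nat.dvd_one.1 h4)
    rw [MulChar.map_nonunit _ hnu, zero_mul]
  rw [h2]
  have h3 := sum_primitive_eq_zero hp.out hχ
    (fun a => i (φ.val ∞ (((a : ℚ) / (p : ℚ) ^ n : ℚ) : OnePoint ℚ))) (by
      intro a b hab
      beta_reduce
      congr 1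
      have h4 : (p : ℤ) ^ n ∣ (b : ℤ) - a := by
        have := Nat.modEq_iff_dvd.1 hab
        push_cast at this
        exact this
      obtain ⟨t, ht⟩ := h4
      have h5 : (b : ℚ) - a = (p : ℚ) ^ n * t := by exact_mod_cast ht
      have h6 : (b : ℚ) / (p : ℚ) ^ n = (a : ℚ) / (p : ℚ) ^ n + t := by
        have h7 : (b : ℚ) = a + (p : ℚ) ^ n * t := by linear_combination h5
        rw [h7]
        field_simp
      have h8 := φ.isSym.trans ((a : ℚ) / (p : ℚ) ^ n) t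
      beta_reduce at h8
      rw [h6, h8])
  beta_reduce at h3
  have h4 : ∀ a ∈ range (p ^ (n + 1)), χ (a : ZMod (p ^ (n + 1))) * i (msd φ p α n a) =
      i ((α⁻¹ : ℤ_[p]ˣ) : ℤ_[p]) ^ (n + 1) * (χ (a : ZMod (p ^ (n + 1))) *
          i (φ.val ∞ (((a : ℚ) / (p : ℚ) ^ (n + 1) : ℚ) : OnePoint ℚ))) -
        i ((α⁻¹ : ℤ_[p]ˣ) : ℤ_[p]) ^ (n + 2) * (χ (a : ZMod (p ^ (n + 1))) *
          i (φ.val ∞ (((a : ℚ) / (p : ℚ) ^ n : ℚ) : OnePoint ℚ))) := by
    intro a _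
    rw [msd, map_sub, map_mul, map_mul, map_pow, map_pow, Int.cast_natCast]
    ring
  rw [sum_congr rfl h4, sum_sub_distrib, ← mul_sum, ← mul_sum, h3, mul_zero, sub_zero]

end Pool.Agent.MZ
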