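import Mathlib
import Pool.Agent.MZ.Bridge

open Matrix Matrix.SpecialLinearGroup OnePoint CongruenceSubgroup Finset
open scoped MatrixGroups

namespace Pool.Agent.MZ

/-- the case where the whole measure vanishes: `Phi` is constant on `ℤ[1/p]` -/
lemma const_of_msd {k : Type*} [Field k] {p : ℕ} [CharP k p] (hp : p.Prime) {Φ : ℚ → k}
    (htr : ∀ (x : ℚ) (n : ℤ), Φ (x + n) = Φ x) {al : k} (hal : al ≠ 0)
    (hT : Φ ((p : ℚ) * 0) + ∑ j ∈ range p, Φ (((0 : ℚ) + j) / p) = al * Φ 0)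
    (hm : ∀ (n : ℕ) (a : ℤ), ¬ (p : ℤ) ∣ a →
      Φ ((a : ℚ) / (p : ℚ) ^ (n + 1)) = al⁻¹ * Φ ((a : ℚ) / (p : ℚ) ^ n)) :
    ∃ c0 : k, ∀ (m : ℤ) (n : ℕ), Φ ((m : ℚ) / (p : ℚ) ^ n) = c0 := by
  have hp0 : (p : ℚ) ≠ 0 := by exact_mod_cast hp.ne_zero
  have hint : ∀ m : ℤ, Φ (m : ℚ) = Φ 0 := by
    intro m
    have := htr 0 m
    rwa [zero_add] at this
  have h1 : ∀ (n : ℕ) (a : ℤ), ¬ (p : ℤ) ∣ a →
      Φ ((a : ℚ) / (p : ℚ) ^ n) = al⁻¹ ^ n * Φ 0 := by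
    intro n
    induction n with
    | zero => intro a _; simpa using hint a
    | succ n ih =>
      intro a ha
      rw [hm n a ha, ih a ha, pow_succ]
      ring
  -- the value at 0
  have hsum : ∑ j ∈ range p, Φ (((0 : ℚ) + j) / p) = Φ 0 + (p - 1 : k) * (al⁻¹ * Φ 0) := by
    obtain ⟨q, rfl⟩ : ∃ q, p = q + 1 := ⟨p - 1, by have := hp.pos; omega⟩
    rw [sum_range_succ']
    have : ∀ j ∈ range q, Φ (((0 : ℚ) + ((j + 1 : ℕ) : ℚ)) / ((q + 1 : ℕ) : ℚ)) =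
        al⁻¹ * Φ 0 := by
      intro j hj
      rw [mem_range] at hj
      have hnd : ¬ ((q + 1 : ℕ) : ℤ) ∣ ((j + 1 : ℕ) : ℤ) := by
        intro hh
        have := Nat.le_of_dvd (by omega) (Int.natCast_dvd_natCast.1 hh)
        omega
      have := h1 1 _ hnd
      rw [pow_one, pow_one] at this
      rw [zero_add, ← this]
      push_cast
      rfl
    rw [sum_congr rfl this, sum_const, card_range, nsmul_eq_mul]
    simp only [Nat.cast_zero, add_zero, zero_div]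
    push_cast
    ring
  have hpk : (p : k) = 0 := CharP.cast_eq_zero k p
  have hc : (al - 1) ^ 2 * Φ 0 = 0 := by
    rw [hsum, hpk, mul_zero] at hT
    have h2 : al * (Φ 0 + (Φ 0 + (0 - 1) * (al⁻¹ * Φ 0))) = al * (al * Φ 0) := by rw [hT]
    have h3 : al * al⁻¹ = 1 := mul_inv_cancel₀ hal
    linear_combination -h2 - Φ 0 * h3
  have h2 : ∀ (n : ℕ) (a : ℤ), ¬ (p : ℤ) ∣ a → Φ ((a : ℚ) / (p : ℚ) ^ n) = Φ 0 := by
    intro n a ha
    rw [h1 n a ha]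
    rcases mul_eq_zero.1 hc with h | h
    · have : al = 1 := sub_eq_zero.1 (pow_eq_zero_iff (two_ne_zero) |>.1 h)
      rw [this]
      simp
    · rw [h, mul_zero]
  refine ⟨Φ 0, ?_⟩
  intro m n
  induction n generalizing m with
  | zero => simpa using hint m
  | succ n ih =>
    by_cases hd : (p : ℤ) ∣ m
    · obtain ⟨m', rfl⟩ := hd
      rw [← ih m']
      congr 1
      rw [pow_succ]
      push_cast
      field_simp
    · exact h2 _ _ hd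

lemma toZMod_eq_zero {p : ℕ} [Fact p.Prime] (x : ℤ_[p]) :
    PadicInt.toZMod x = 0 ↔ (p : ℤ_[p]) ∣ x := by
  rw [← RingHom.mem_ker, PadicInt.ker_toZMod, PadicInt.maximalIdeal_eq_span_p,
    Ideal.mem_span_singleton]

/-- Theorem A, as an input -/
def ThmA (N p : ℕ) (k : Type*) [Field k] : Prop :=
  ∀ Φ : ℚ → k, IsSym N Φ →
    (∀ l : ℕ, l.Prime → ¬ l ∣ N → l ≠ p → ∃ al : k, ∀ y : ℚ,
      Φ ((l : ℚ) * y) + ∑ j ∈ range l, Φ ((y + j) / l) = al * Φ y) →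
    (∃ c0 : k, ∀ (m : ℤ) (n : ℕ), Φ ((m : ℚ) / (p : ℚ) ^ n) = c0) →
    ∀ a c : ℤ, IsCoprime a c → (N : ℤ) ∣ c → c ≠ 0 → Φ ((a : ℚ) / c) = 0

theorem msd_not_dvd {p : ℕ} [hp : Fact p.Prime] {N : ℕ} (φ : ModSym N ℤ_[p]) (a : ℕ → ℤ_[p])
    (hpN : ¬ p ∣ N) (hH : ∀ l : ℕ, l.Prime → ¬ l ∣ N → φ.HeckeEigen l (a l)) (α : ℤ_[p]ˣ)
    (hα : (α : ℤ_[p]) ^ 2 - a p * α + p = 0) (hA : ThmA N p (ZMod p))
    (hγ : ∃ γ ∈ Gamma0 N, ¬ (p : ℤ_[p]) ∣ φ.val ∞ (mapGL ℚ γ • ∞)) :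
    ∃ (n : ℕ) (b : ℤ), ¬ (p : ℤ) ∣ b ∧ ¬ (p : ℤ_[p]) ∣ msd φ p α n b := by
  by_contra hcon
  push Not at hcon
  set f : ℤ_[p] →+* ZMod p := PadicInt.toZMod with hf
  set ψ := φ.map f with hψ
  have hsym := ψ.isSym
  set Φ : ℚ → ZMod p := fun x : ℚ => ψ.val ∞ (x : OnePoint ℚ) with hΦ
  have hαu : IsUnit (f α) := α.isUnit.map f
  have hal : f α ≠ 0 := hαu.ne_zero
  have hap : f (a p) = f α := by
    have h1 : f ((α : ℤ_[p]) ^ 2 - a p * α + p) = 0 := by rw [hα, map_zero]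
    rw [map_add, map_sub, map_pow, map_mul, map_natCast, CharP.cast_eq_zero, add_zero] at h1
    have h2 : f α * (f α - f (a p)) = 0 := by linear_combination h1
    rcases mul_eq_zero.1 h2 with h3 | h3
    · exact absurd h3 hal
    · exact (sub_eq_zero.1 h3).symm
  have hinv : f ((α⁻¹ : ℤ_[p]ˣ) : ℤ_[p]) = (f α)⁻¹ := by
    apply eq_inv_of_mul_eq_one_left
    rw [← map_mul, Units.inv_mul, map_one]
  have hHk : ∀ l : ℕ, l.Prime → ¬ l ∣ N → ∀ y : ℚ,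
      Φ ((l : ℚ) * y) + ∑ j ∈ range l, Φ ((y + j) / l) = f (a l) * Φ y := by
    intro l hl hlN y
    exact ((hH l hl hlN).map f).phi y
  have hc : ∃ c0 : ZMod p, ∀ (m : ℤ) (n : ℕ), Φ ((m : ℚ) / (p : ℚ) ^ n) = c0 := by
    refine const_of_msd hp.out hsym.trans hal ?_ ?_
    · rw [← hap]
      exact hHk p hp.out hpN 0
    · intro n b hb
      have h1 := (toZMod_eq_zero _).2 (hcon n b hb)
      change f (msd φ p α n b) = 0 at h1
      rw [msd, map_sub, map_mul, map_mul, map_pow, map_pow, hinv] at h1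
      have h2 : ((f α)⁻¹) ^ (n + 1) * (Φ ((b : ℚ) / (p : ℚ) ^ (n + 1)) -
          (f α)⁻¹ * Φ ((b : ℚ) / (p : ℚ) ^ n)) = 0 := by
        have : ((f α)⁻¹) ^ (n + 1) * Φ ((b : ℚ) / (p : ℚ) ^ (n + 1)) -
          ((f α)⁻¹) ^ (n + 2) * Φ ((b : ℚ) / (p : ℚ) ^ n) = 0 := h1
        linear_combination this
      rcases mul_eq_zero.1 h2 with h3 | h3
      · exact absurd h3 (pow_ne_zero _ (inv_ne_zero hal))
      · exact sub_eq_zero.1 h3
  have hA' := hA Φ hsym (fun l hl hlN _ => ⟨f (a l), hHk l hl hlN⟩) hc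
  obtain ⟨γ, hγ, hnd⟩ := hγ
  apply hnd
  rw [← toZMod_eq_zero]
  exact ψ.infty_eq_zero hA' γ hγ

end Pool.Agent.MZ
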