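import Mathlib

/-!
# Primitives of cusp forms of weight two

`Prim g G` says that `G` is the primitive of `g` on the upper half plane which vanishes at `i∞`.
-/

set_option autoImplicit false

open UpperHalfPlane hiding I
open Filter Topology Complex Function
open scoped MatrixGroups Manifold Real

namespace Pool.Agent.MZ.Per

/-- `G` is a primitive of `g` on the upper half plane and tends to `b` at `i∞`. -/
structure Prim (g G : ℍ → ℂ) (b : ℂ) : Prop where
  der : ∀ z : ℍ, HasDerivAt (G ∘ ofComplex) (g z) (z : ℂ)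
  lim : Tendsto G atImInfty (𝓝 b)

theorem im_pos_open : IsOpen {z : ℂ | 0 < z.im} := isOpen_lt continuous_const Complex.continuous_im

theorem im_pos_convex : Convex ℝ {z : ℂ | 0 < z.im} := convex_halfSpace_im_gt 0

/-- Two functions with the same derivative differ by a constant. -/
theorem sub_const {g G H : ℍ → ℂ} (hG : ∀ z : ℍ, HasDerivAt (G ∘ ofComplex) (g z) (z : ℂ))
    (hH : ∀ z : ℍ, HasDerivAt (H ∘ ofComplex) (g z) (z : ℂ)) :
    ∃ c : ℂ, ∀ z, G z = H z + c := by
  have hd : ∀ z ∈ {z : ℂ | 0 < z.im}, HasDerivAt ((G ∘ ofComplex) - (H ∘ ofComplex)) 0 z := by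
    intro z hz
    have h1 := hG ⟨z, hz⟩
    have h2 := hH ⟨z, hz⟩
    have h3 := h1.sub h2
    simpa using h3
  have hconst : ∀ z ∈ {z : ℂ | 0 < z.im}, ∀ w ∈ {z : ℂ | 0 < z.im},
      ((G ∘ ofComplex) - (H ∘ ofComplex)) z = ((G ∘ ofComplex) - (H ∘ ofComplex)) w := by
    intro z hz w hw
    have := im_pos_convex.norm_image_sub_le_of_norm_hasDerivWithin_le
      (f := (G ∘ ofComplex) - (H ∘ ofComplex)) (f' := fun _ => 0) (C := 0)
      (fun x hx => (hd x hx).hasDerivWithinAt) (by simp) hw hz
    simpa [sub_eq_zero] using this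
  refine ⟨G UpperHalfPlane.I - H UpperHalfPlane.I, fun z => ?_⟩
  have := hconst z z.im_pos (UpperHalfPlane.I : ℍ) UpperHalfPlane.I.im_pos
  simp only [Pi.sub_apply, comp_apply, ofComplex_apply] at this
  rw [← this]
  ring

/-- A holomorphic periodic function which vanishes at `i∞` has a primitive which vanishes at
`i∞`. -/
theorem exists_prim {g : ℍ → ℂ} {w : ℝ} (hw : 0 < w) (hper : Periodic (g ∘ ofComplex) (w : ℂ))
    (hhol : MDiff g) (hzero : IsZeroAtImInfty g) : ∃ G : ℍ → ℂ, Prim g G 0 := by
  have hbdd : IsBoundedAtImInfty g := hzero.isBoundedAtImInfty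
  have hcusp0 : cuspFunction w g 0 = 0 := hzero.cuspFunction_apply_zero hw
  have hdiff : DifferentiableOn ℂ (cuspFunction w g) (Metric.ball 0 1) :=
    differentiableOn_cuspFunction_ball hw hper hhol hbdd
  have hds : DifferentiableOn ℂ (dslope (cuspFunction w g) 0) (Metric.ball 0 1) :=
    (Complex.differentiableOn_dslope (Metric.ball_mem_nhds 0 zero_lt_one)).2 hdiff
  obtain ⟨K, hK0, hK⟩ := (DifferentiableOn.isExactOn_ball hds).with_val_at 0 0
  have h2pi : (2 * π * Complex.I : ℂ) ≠ 0 := two_pi_I_ne_zero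
  have hwc : (w : ℂ) ≠ 0 := by exact_mod_cast hw.ne'
  refine ⟨fun z => (w : ℂ) / (2 * π * Complex.I) * K (Periodic.qParam w z), ?_, ?_⟩
  · intro z
    set q := Periodic.qParam w (z : ℂ) with hq
    have hqn : ‖q‖ < 1 := Periodic.norm_qParam_lt_one hw z.im_pos
    have hq0 : q ≠ 0 := Periodic.qParam_ne_zero _
    have h1 := hK q (by simpa using hqn)
    have h2 : HasDerivAt (fun z : ℂ => Periodic.qParam w z) (2 * π * Complex.I / w * q) z := by
      have : HasDerivAt (fun z : ℂ => Complex.exp (2 * π * Complex.I * z / w))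
          (Complex.exp (2 * π * Complex.I * z / w) * (2 * π * Complex.I / w)) (z : ℂ) := by
        apply HasDerivAt.cexp
        have := ((hasDerivAt_id (z : ℂ)).const_mul (2 * π * Complex.I)).div_const (w : ℂ)
        simpa using this
      rw [mul_comm]
      exact this
    have h3 := (h1.comp (z : ℂ) h2).const_mul ((w : ℂ) / (2 * π * Complex.I))
    have h4 : dslope (cuspFunction w g) 0 q = q⁻¹ * g z := by
      rw [dslope_of_ne _ hq0, slope_def_field, hcusp0, sub_zero, sub_zero,
        eq_cuspFunction z hw.ne' hper]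
      ring
    rw [h4] at h3
    have h5 : (w : ℂ) / (2 * π * Complex.I) * (q⁻¹ * g z * (2 * π * Complex.I / w * q)) = g z := by
      field_simp
    rw [h5] at h3
    refine h3.congr_of_eventuallyEq ?_
    filter_upwards [im_pos_open.mem_nhds z.im_pos] with x hx
    simp only [comp_apply]
    rw [ofComplex_apply_of_im_pos hx]
  · have h1 : ContinuousAt K 0 := (hK 0 (by simp)).continuousAt
    have h2 := h1.tendsto.comp (qParam_tendsto_atImInfty hw)
    rw [hK0] at h2
    have h3 := h2.const_mul ((w : ℂ) / (2 * π * Complex.I))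
    simpa using h3

end Pool.Agent.MZ.Per
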