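import Pool.Agent.MZ.PerA

/-!
# Primitives and the action of the modular group
-/

set_option autoImplicit false

open UpperHalfPlane hiding I
open Filter Topology Complex Function CongruenceSubgroup
open scoped MatrixGroups Manifold Real ModularForm

namespace Pool.Agent.MZ.Per

/-- The primitive composed with `σ` is a primitive of `g|σ`. -/
theorem comp_sl {g G : ℍ → ℂ} (hG : ∀ z : ℍ, HasDerivAt (G ∘ ofComplex) (g z) (z : ℂ))
    (σ : SL(2, ℤ)) (z : ℍ) :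
    HasDerivAt ((fun τ : ℍ => G (σ • τ)) ∘ ofComplex) ((g ∣[(2 : ℤ)] σ) z) (z : ℂ) := by
  have hden : ((σ 1 0 : ℂ) * z + σ 1 1) ≠ 0 := by
    have := denom_ne_zero (σ : GL (Fin 2) ℝ) z
    simpa [denom] using this
  have hdet : (σ 0 0 : ℂ) * σ 1 1 - σ 0 1 * σ 1 0 = 1 := by
    have := Matrix.det_fin_two σ.1
    rw [σ.2] at this
    exact_mod_cast this.symm
  have h1 : HasDerivAt (fun x : ℂ => ((σ 0 0 : ℂ) * x + σ 0 1) / ((σ 1 0 : ℂ) * x + σ 1 1))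
      (((σ 1 0 : ℂ) * z + σ 1 1) ^ (-2 : ℤ)) (z : ℂ) := by
    have hn : HasDerivAt (fun x : ℂ => (σ 0 0 : ℂ) * x + σ 0 1) (σ 0 0 : ℂ) (z : ℂ) := by
      simpa using ((hasDerivAt_id (z : ℂ)).const_mul (σ 0 0 : ℂ)).add_const (σ 0 1 : ℂ)
    have hd : HasDerivAt (fun x : ℂ => (σ 1 0 : ℂ) * x + σ 1 1) (σ 1 0 : ℂ) (z : ℂ) := by
      simpa using ((hasDerivAt_id (z : ℂ)).const_mul (σ 1 0 : ℂ)).add_const (σ 1 1 : ℂ)
    have := hn.div hd hden
    convert! this using 1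
    rw [zpow_neg, eq_div_iff (pow_ne_zero 2 hden)]
    have h2 : ((σ 1 0 : ℂ) * z + σ 1 1) ^ (2 : ℤ) = ((σ 1 0 : ℂ) * z + σ 1 1) ^ 2 := by
      norm_cast
    rw [h2, inv_mul_cancel₀ (pow_ne_zero 2 hden)]
    linear_combination -hdet
  have hcoe : ((σ • z : ℍ) : ℂ) = ((σ 0 0 : ℂ) * z + σ 0 1) / ((σ 1 0 : ℂ) * z + σ 1 1) := by
    rw [coe_specialLinearGroup_apply]
    simp
  have h2 := hG (σ • z)
  rw [hcoe] at h2
  have h3 := h2.comp (z : ℂ) h1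
  have h4 : (g ∣[(2 : ℤ)] σ) z = g (σ • z) * ((σ 1 0 : ℂ) * z + σ 1 1) ^ (-2 : ℤ) := by
    rw [ModularForm.SL_slash_apply]
    rfl
  rw [h4]
  refine h3.congr_of_eventuallyEq ?_
  filter_upwards [im_pos_open.mem_nhds z.im_pos] with x hx
  simp only [comp_apply]
  congr 1
  have h5 : ((σ 0 0 : ℂ) * x + σ 0 1) / ((σ 1 0 : ℂ) * x + σ 1 1) = ((σ • (⟨x, hx⟩ : ℍ) : ℍ) : ℂ) := by
    rw [coe_specialLinearGroup_apply]
    simp
  rw [h5, ofComplex_apply, ofComplex_apply_of_im_pos hx]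

open ConjAct Pointwise in
/-- The translates of a cusp form of weight two have primitives. -/
theorem exists_prim_slash {Γ : Subgroup (GL (Fin 2) ℝ)} [Γ.IsArithmetic] (f : CuspForm Γ 2)
    (σ : SL(2, ℤ)) : ∃ H : ℍ → ℂ, Prim (⇑f ∣[(2 : ℤ)] σ) H 0 := by
  have harith : ((toConjAct (σ : GL (Fin 2) ℝ)⁻¹) • Γ).IsArithmetic := by
    simpa [(show Rat.castHom ℝ = algebraMap ℚ ℝ by rfl), map_inv, Matrix.SpecialLinearGroup.map_mapGL]
      using! Subgroup.IsArithmetic.conj Γ (Matrix.SpecialLinearGroup.mapGL ℚ σ)⁻¹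
  set Γ' := (toConjAct (σ : GL (Fin 2) ℝ)⁻¹) • Γ
  let F : CuspForm Γ' 2 := CuspForm.translate f (σ : GL (Fin 2) ℝ)
  have hh : 0 < Γ'.strictWidthInfty := Γ'.strictWidthInfty_pos_iff.mpr Fact.out
  have hΓ : Γ'.strictWidthInfty ∈ Γ'.strictPeriods := Γ'.strictWidthInfty_mem_strictPeriods
  exact exists_prim (g := F) hh (SlashInvariantFormClass.periodic_comp_ofComplex F hΓ)
    (CuspFormClass.holo F) (CuspFormClass.zero_at_infty F)

/-- The primitive of a cusp form has limits at all cusps. -/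
theorem exists_lim {Γ : Subgroup (GL (Fin 2) ℝ)} [Γ.IsArithmetic] (f : CuspForm Γ 2)
    {G : ℍ → ℂ} (hG : ∀ z : ℍ, HasDerivAt (G ∘ ofComplex) (f z) (z : ℂ)) (σ : SL(2, ℤ)) :
    ∃ b : ℂ, Tendsto (fun τ : ℍ => G (σ • τ)) atImInfty (𝓝 b) := by
  obtain ⟨H, hH⟩ := exists_prim_slash f σ
  obtain ⟨c, hc⟩ := sub_const (comp_sl hG σ) hH.der
  refine ⟨0 + c, ?_⟩
  have := hH.lim.add_const c
  refine this.congr fun z => ?_
  exact (hc z).symm

end Pool.Agent.MZ.Per
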