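import Pool.Agent.MZ.PerB
import Pool.Agent.MZ.Bridge

/-!
# Boundary values at the cusps
-/

set_option autoImplicit false

open UpperHalfPlane hiding I
open Filter Topology Complex Function CongruenceSubgroup
open Matrix.SpecialLinearGroup (mapGL)
open scoped MatrixGroups Manifold Real ModularForm OnePoint

namespace Pool.Agent.MZ.Per

/-- The point `x + i t`. -/
noncomputable def vert (x : ℝ) (t : ℝ) : ℍ := ofComplex ((x : ℂ) + (t : ℂ) * Complex.I)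

theorem coe_vert {x t : ℝ} (ht : 0 < t) : ((vert x t : ℍ) : ℂ) = (x : ℂ) + (t : ℂ) * Complex.I := by
  have : 0 < ((x : ℂ) + (t : ℂ) * Complex.I).im := by simpa using ht
  rw [vert, ofComplex_apply_of_im_pos this]

theorem im_vert {x t : ℝ} (ht : 0 < t) : (vert x t).im = t := by
  rw [← coe_im, coe_vert ht]
  simp

/-- The boundary value of `G` at a cusp; at a rational number `x` it is the limit of `G (x + i t)`
as `t → 0+`; at `∞` it is `0`. -/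
noncomputable def bd (G : ℍ → ℂ) (x : OnePoint ℚ) : ℂ :=
  OnePoint.elim x 0 (fun x : ℚ => limUnder (𝓝[>] (0 : ℝ)) (fun t => G (vert x t)))

@[simp] theorem bd_infty (G : ℍ → ℂ) : bd G ∞ = 0 := rfl

theorem bd_coe (G : ℍ → ℂ) (x : ℚ) :
    bd G (x : OnePoint ℚ) = limUnder (𝓝[>] (0 : ℝ)) (fun t => G (vert x t)) := rfl

theorem im_sl {σ : SL(2, ℤ)} (h : σ 1 0 = 0) (τ : ℍ) : (σ • τ).im = τ.im := by
  have hdet : (σ 0 0) * σ 1 1 - σ 0 1 * σ 1 0 = 1 := by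
    have := Matrix.det_fin_two σ.1
    rw [σ.2] at this
    exact this.symm
  rw [h, mul_zero, sub_zero] at hdet
  have h11 : σ 1 1 = 1 ∨ σ 1 1 = -1 := Int.isUnit_iff.1 (IsUnit.of_mul_eq_one_right _ hdet)
  rw [ModularGroup.im_smul_eq_div_normSq, ModularGroup.denom_apply, h]
  rcases h11 with h | h <;> simp [h]

theorem tendsto_sl {σ : SL(2, ℤ)} (h : σ 1 0 = 0) :
    Tendsto (fun τ : ℍ => σ • τ) atImInfty atImInfty := by
  rw [atImInfty, tendsto_comap_iff]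
  refine tendsto_comap.congr fun τ => ?_
  exact (im_sl h τ).symm

/-- The vertical line ending at `σ ∞`. -/
theorem vert_sl {σ : SL(2, ℤ)} (h : σ 1 0 ≠ 0) {t : ℝ} (ht : 0 < t) :
    σ • (vert (-(σ 1 1 : ℝ) / (σ 1 0 : ℝ)) (1 / ((σ 1 0 : ℝ) ^ 2 * t))) =
      vert ((σ 0 0 : ℝ) / (σ 1 0 : ℝ)) t := by
  have hdet : (σ 0 0 : ℂ) * σ 1 1 - σ 0 1 * σ 1 0 = 1 := by
    have := Matrix.det_fin_two σ.1
    rw [σ.2] at this
    exact_mod_cast this.symm
  have hc : (σ 1 0 : ℂ) ≠ 0 := by exact_mod_cast h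
  have hcr : (σ 1 0 : ℝ) ≠ 0 := by exact_mod_cast h
  have htc : (t : ℂ) ≠ 0 := by exact_mod_cast ht.ne'
  have hpos : 0 < 1 / ((σ 1 0 : ℝ) ^ 2 * t) := by positivity
  apply UpperHalfPlane.ext
  rw [coe_specialLinearGroup_apply, coe_vert ht, coe_vert hpos]
  simp only [algebraMap_int_eq, eq_intCast, ofReal_intCast]
  push_cast
  have hI : (Complex.I : ℂ) ≠ 0 := Complex.I_ne_zero
  have hI2 : Complex.I * Complex.I = -1 := Complex.I_mul_I
  have h2 : (σ 1 0 : ℂ) * (-(σ 1 1 : ℂ) / (σ 1 0 : ℂ) + 1 / ((σ 1 0 : ℂ) ^ 2 * t) * Complex.I) + σ 1 1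
      = Complex.I / ((σ 1 0 : ℂ) * t) := by
    field_simp
    ring
  rw [h2]
  have h3 : Complex.I / ((σ 1 0 : ℂ) * t) ≠ 0 := div_ne_zero hI (mul_ne_zero hc htc)
  rw [div_eq_iff h3]
  have h4 : (t : ℂ) * Complex.I * (Complex.I / ((σ 1 0 : ℂ) * t)) = -1 / (σ 1 0 : ℂ) := by
    have : (t : ℂ) * Complex.I * (Complex.I / ((σ 1 0 : ℂ) * t)) =
        Complex.I * Complex.I / (σ 1 0 : ℂ) := by field_simp
    rw [this, hI2]
  rw [add_mul, h4]
  have h5 : (σ 0 0 : ℂ) / (σ 1 0 : ℂ) * (Complex.I / ((σ 1 0 : ℂ) * t)) =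
      (σ 0 0 : ℂ) * (1 / ((σ 1 0 : ℂ) ^ 2 * t) * Complex.I) := by field_simp
  rw [h5]
  have h6 : (σ 0 0 : ℂ) * (-(σ 1 1 : ℂ) / (σ 1 0 : ℂ)) + σ 0 1 = -1 / (σ 1 0 : ℂ) := by
    field_simp
    linear_combination -hdet
  linear_combination h6

/-- The limit at `σ ∞` is the boundary value. -/
theorem tendsto_bd {G : ℍ → ℂ} (h0 : Tendsto G atImInfty (𝓝 0))
    (hlim : ∀ σ : SL(2, ℤ), ∃ b : ℂ, Tendsto (fun τ : ℍ => G (σ • τ)) atImInfty (𝓝 b))
    (σ : SL(2, ℤ)) :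
    Tendsto (fun τ : ℍ => G (σ • τ)) atImInfty (𝓝 (bd G (mapGL ℚ σ • ∞))) := by
  by_cases hc : σ 1 0 = 0
  · rw [smul_infty, if_pos hc]
    exact h0.comp (tendsto_sl hc)
  · rw [smul_infty, if_neg hc, bd_coe]
    obtain ⟨b, hb⟩ := hlim σ
    have hcr : (σ 1 0 : ℝ) ≠ 0 := by exact_mod_cast hc
    have h1 : Tendsto (fun t : ℝ => vert (-(σ 1 1 : ℝ) / (σ 1 0 : ℝ)) (1 / ((σ 1 0 : ℝ) ^ 2 * t)))
        (𝓝[>] 0) atImInfty := by
      rw [atImInfty, tendsto_comap_iff]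
      have h2 : Tendsto (fun t : ℝ => ((σ 1 0 : ℝ) ^ 2)⁻¹ * t⁻¹) (𝓝[>] 0) atTop :=
        tendsto_inv_nhdsGT_zero.const_mul_atTop (by positivity)
      refine h2.congr' ?_
      filter_upwards [self_mem_nhdsWithin] with t ht
      have ht' : 0 < t := ht
      have hpos : 0 < 1 / ((σ 1 0 : ℝ) ^ 2 * t) := by positivity
      simp only [comp_apply]
      rw [im_vert hpos, one_div, mul_inv]
    have h3 : Tendsto (fun t : ℝ => G (vert (((σ 0 0 : ℚ) / (σ 1 0 : ℚ) : ℚ) : ℝ) t))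
        (𝓝[>] 0) (𝓝 b) := by
      refine (hb.comp h1).congr' ?_
      filter_upwards [self_mem_nhdsWithin] with t ht
      simp only [comp_apply]
      rw [vert_sl hc ht]
      push_cast
      rfl
    rw [h3.limUnder_eq]
    exact hb

/-- Convergence on vertical lines. -/
theorem tendsto_vert {G : ℍ → ℂ}
    (hlim : ∀ σ : SL(2, ℤ), ∃ b : ℂ, Tendsto (fun τ : ℍ => G (σ • τ)) atImInfty (𝓝 b)) (x : ℚ) :
    Tendsto (fun t : ℝ => G (vert x t)) (𝓝[>] 0) (𝓝 (bd G (x : OnePoint ℚ))) := by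
  obtain ⟨σ, hσ⟩ := OnePoint.exists_mem_SL2 ℤ (x : OnePoint ℚ)
  rw [smul_infty] at hσ
  by_cases hc : σ 1 0 = 0
  · rw [if_pos hc] at hσ
    exact absurd hσ (OnePoint.infty_ne_coe _)
  · rw [if_neg hc] at hσ
    have hx : x = (σ 0 0 : ℚ) / (σ 1 0 : ℚ) := (OnePoint.coe_injective hσ).symm
    obtain ⟨b, hb⟩ := hlim σ
    have hcr : (σ 1 0 : ℝ) ≠ 0 := by exact_mod_cast hc
    have h1 : Tendsto (fun t : ℝ => vert (-(σ 1 1 : ℝ) / (σ 1 0 : ℝ)) (1 / ((σ 1 0 : ℝ) ^ 2 * t)))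
        (𝓝[>] 0) atImInfty := by
      rw [atImInfty, tendsto_comap_iff]
      have h2 : Tendsto (fun t : ℝ => ((σ 1 0 : ℝ) ^ 2)⁻¹ * t⁻¹) (𝓝[>] 0) atTop :=
        tendsto_inv_nhdsGT_zero.const_mul_atTop (by positivity)
      refine h2.congr' ?_
      filter_upwards [self_mem_nhdsWithin] with t ht
      have ht' : 0 < t := ht
      have hpos : 0 < 1 / ((σ 1 0 : ℝ) ^ 2 * t) := by positivity
      simp only [comp_apply]
      rw [im_vert hpos, one_div, mul_inv]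
    have h3 : Tendsto (fun t : ℝ => G (vert x t)) (𝓝[>] 0) (𝓝 b) := by
      refine (hb.comp h1).congr' ?_
      filter_upwards [self_mem_nhdsWithin] with t ht
      simp only [comp_apply]
      rw [vert_sl hc ht, hx]
      push_cast
      rfl
    rw [bd_coe, h3.limUnder_eq]
    exact h3

/-- Equivariance of the boundary values. -/
theorem bd_smul {G : ℍ → ℂ} (h0 : Tendsto G atImInfty (𝓝 0))
    (hlim : ∀ σ : SL(2, ℤ), ∃ b : ℂ, Tendsto (fun τ : ℍ => G (σ • τ)) atImInfty (𝓝 b))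
    {γ : SL(2, ℤ)} {c : ℂ} (hγ : ∀ τ : ℍ, G (γ • τ) = G τ + c) (x : OnePoint ℚ) :
    bd G (mapGL ℚ γ • x) = bd G x + c := by
  obtain ⟨σ, rfl⟩ := OnePoint.exists_mem_SL2 ℤ x
  have h1 := tendsto_bd h0 hlim (γ * σ)
  have h2 := (tendsto_bd h0 hlim σ).add_const c
  rw [map_mul, mul_smul] at h1
  refine tendsto_nhds_unique (h1.congr fun τ => ?_) h2
  rw [mul_smul, hγ]

end Pool.Agent.MZ.Per
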