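import Pool.Agent.MZ.PerD

/-!
# Hecke operators
-/

set_option autoImplicit false

open UpperHalfPlane hiding I
open Filter Topology Complex Function CongruenceSubgroup
open Matrix.SpecialLinearGroup (mapGL)
open scoped MatrixGroups Manifold Real ModularForm OnePoint

namespace Pool.Agent.MZ.Per

/-- A sum of roots of unity. -/
theorem sum_exp {l : ℕ} (hl : 0 < l) (n : ℕ) (z : ℂ) :
    ∑ k ∈ Finset.range l, cexp (2 * π * Complex.I * n * ((z + k) / l)) =
      if l ∣ n then (l : ℂ) * cexp (2 * π * Complex.I * ((n / l : ℕ) : ℂ) * z) else 0 := by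
  have hlc : (l : ℂ) ≠ 0 := by exact_mod_cast hl.ne'
  set ζ : ℂ := cexp (2 * π * Complex.I * n / l) with hζ
  have h1 : ∀ k ∈ Finset.range l, cexp (2 * π * Complex.I * n * ((z + k) / l)) =
      cexp (2 * π * Complex.I * n * z / l) * ζ ^ k := by
    intro k _
    rw [hζ, ← Complex.exp_nat_mul, ← Complex.exp_add]
    congr 1
    field_simp
  rw [Finset.sum_congr rfl h1, ← Finset.mul_sum]
  split_ifs with h
  · obtain ⟨m, rfl⟩ := h
    have h2 : ζ = 1 := by
      rw [hζ, Complex.exp_eq_one_iff]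
      refine ⟨m, ?_⟩
      push_cast
      field_simp
    rw [h2]
    simp only [one_pow, Finset.sum_const, Finset.card_range, nsmul_eq_mul, mul_one]
    rw [Nat.mul_div_cancel_left _ hl, mul_comm]
    congr 2
    push_cast
    field_simp
  · have h2 : ζ ≠ 1 := by
      rw [hζ, Ne, Complex.exp_eq_one_iff]
      rintro ⟨m, hm⟩
      apply h
      have h3 : (n : ℂ) = l * m := by
        have h4 : (2 * π * Complex.I : ℂ) ≠ 0 := two_pi_I_ne_zero
        field_simp at hm
        apply mul_left_cancel₀ h4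
        linear_combination (2 * π * Complex.I) * hm
      have h5 : (n : ℤ) = l * m := by exact_mod_cast h3
      exact Int.natCast_dvd_natCast.1 ⟨m, h5⟩
    have h3 : ζ ^ l = 1 := by
      rw [hζ, ← Complex.exp_nat_mul, Complex.exp_eq_one_iff]
      refine ⟨n, ?_⟩
      push_cast
      field_simp
    rw [geom_sum_eq h2, h3, sub_self, zero_div, mul_zero]

theorem hecke_f {f : ℍ → ℂ} {a : ℕ → ℂ}
    (hq : ∀ z : ℂ, 0 < z.im → HasSum (fun n : ℕ => a n * cexp (2 * π * Complex.I * n * z))
      (f (ofComplex z))) {l : ℕ} (hl : 0 < l) {al : ℂ}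
    (hrel : ∀ n, a (l * n) + (if l ∣ n then (l : ℂ) * a (n / l) else 0) = al * a n)
    {z : ℂ} (hz : 0 < z.im) :
    (∑ k ∈ Finset.range l, f (ofComplex ((z + k) / l))) * (l : ℂ)⁻¹ +
      (l : ℂ) * f (ofComplex (l * z)) = al * f (ofComplex z) := by
  have hlr : (0 : ℝ) < l := by exact_mod_cast hl
  have hlc : (l : ℂ) ≠ 0 := by exact_mod_cast hl.ne'
  have him : ∀ k : ℕ, 0 < ((z + k) / l).im := by
    intro k
    have : ((z + k) / l).im = z.im / l := by
      rw [Complex.div_natCast_im]
      simp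
    rw [this]
    positivity
  have him2 : 0 < ((l : ℂ) * z).im := by
    simp only [mul_im, natCast_re, natCast_im, zero_mul, add_zero]
    positivity
  have hinj : Injective (fun m : ℕ => l * m) := fun m n h => Nat.eq_of_mul_eq_mul_left hl h
  have h1 : HasSum (fun n : ℕ => ∑ k ∈ Finset.range l,
      a n * cexp (2 * π * Complex.I * n * ((z + k) / l)))
      (∑ k ∈ Finset.range l, f (ofComplex ((z + k) / l))) :=
    hasSum_sum fun k _ => hq _ (him k)
  have h2 : HasSum (fun m : ℕ => (l : ℂ) * a (l * m) * cexp (2 * π * Complex.I * m * z))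
      (∑ k ∈ Finset.range l, f (ofComplex ((z + k) / l))) := by
    rw [← hinj.hasSum_iff] at h1
    · convert! h1 using 2 with m
      simp only [comp_apply]
      rw [← Finset.mul_sum, sum_exp hl, if_pos (dvd_mul_right _ _), Nat.mul_div_cancel_left _ hl]
      ring
    · intro n hn
      rw [← Finset.mul_sum, sum_exp hl, if_neg, mul_zero]
      rintro ⟨m, hm⟩
      exact hn ⟨m, hm.symm⟩
  have h3 : HasSum (fun n : ℕ => (if l ∣ n then a (n / l) else 0) *
      cexp (2 * π * Complex.I * n * z)) (f (ofComplex (l * z))) := by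
    rw [← hinj.hasSum_iff]
    · convert! hq _ him2 using 2 with m
      simp only [comp_apply]
      rw [if_pos (dvd_mul_right _ _), Nat.mul_div_cancel_left _ hl]
      congr 2
      push_cast
      ring
    · intro n hn
      rw [if_neg, zero_mul]
      rintro ⟨m, hm⟩
      exact hn ⟨m, hm.symm⟩
  have h4 := (h2.mul_right (l : ℂ)⁻¹).add (h3.mul_left (l : ℂ))
  have h5 := (hq z hz).mul_left al
  refine h4.unique ?_
  convert! h5 using 2 with n
  rw [← mul_assoc al, ← hrel n]
  split_ifs with h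
  · field_simp
  · field_simp
    ring

/-- The Hecke relation for the primitive. -/
theorem hecke_G {g G : ℍ → ℂ} (hG : Prim g G 0) {l : ℕ} (hl : 0 < l) {al : ℂ}
    (hrel : ∀ z : ℂ, 0 < z.im → (∑ k ∈ Finset.range l, g (ofComplex ((z + k) / l))) * (l : ℂ)⁻¹ +
      (l : ℂ) * g (ofComplex (l * z)) = al * g (ofComplex z)) (z : ℍ) :
    (∑ k ∈ Finset.range l, G (ofComplex (((z : ℂ) + k) / l))) + G (ofComplex (l * (z : ℂ))) =
      al * G z := by
  have hlr : (0 : ℝ) < l := by exact_mod_cast hl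
  have hlc : (l : ℂ) ≠ 0 := by exact_mod_cast hl.ne'
  have him : ∀ (z : ℂ) (k : ℕ), 0 < z.im → 0 < ((z + k) / l).im := by
    intro z k hz
    have : ((z + k) / l).im = z.im / l := by
      rw [Complex.div_natCast_im]
      simp
    rw [this]
    positivity
  have him2 : ∀ z : ℂ, 0 < z.im → 0 < ((l : ℂ) * z).im := by
    intro z hz
    simp only [mul_im, natCast_re, natCast_im, zero_mul, add_zero]
    positivity
  set D : ℍ → ℂ := fun z => (∑ k ∈ Finset.range l, G (ofComplex (((z : ℂ) + k) / l))) +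
    G (ofComplex (l * (z : ℂ))) - al * G z with hD
  have hderG : ∀ z : ℂ, 0 < z.im → HasDerivAt (G ∘ ofComplex) (g (ofComplex z)) z := by
    intro z hz
    have := hG.der ⟨z, hz⟩
    rw [ofComplex_apply_of_im_pos hz]
    exact this
  have hder : ∀ z : ℍ, HasDerivAt (D ∘ ofComplex) 0 (z : ℂ) := by
    intro z
    have h1 : ∀ k ∈ Finset.range l, HasDerivAt (fun x : ℂ => (G ∘ ofComplex) ((x + k) / l))
        (g (ofComplex (((z : ℂ) + k) / l)) * (l : ℂ)⁻¹) (z : ℂ) := by
      intro k _
      have h2 : HasDerivAt (fun x : ℂ => (x + k) / l) (l : ℂ)⁻¹ (z : ℂ) := by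
        have := ((hasDerivAt_id (z : ℂ)).add_const (k : ℂ)).div_const (l : ℂ)
        simpa [one_div] using this
      exact HasDerivAt.comp (z : ℂ) (hderG _ (him _ k z.im_pos)) h2
    have h3 : HasDerivAt (fun x : ℂ => (G ∘ ofComplex) (l * x))
        (g (ofComplex (l * (z : ℂ))) * (l : ℂ)) (z : ℂ) := by
      have h2 : HasDerivAt (fun x : ℂ => (l : ℂ) * x) (l : ℂ) (z : ℂ) := by
        simpa using (hasDerivAt_id (z : ℂ)).const_mul (l : ℂ)
      exact HasDerivAt.comp (z : ℂ) (hderG _ (him2 _ z.im_pos)) h2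
    have h4 := ((HasDerivAt.fun_sum h1).add h3).sub ((hderG z z.im_pos).const_mul al)
    have h5 : (∑ k ∈ Finset.range l, g (ofComplex (((z : ℂ) + k) / l)) * (l : ℂ)⁻¹) +
        g (ofComplex (l * (z : ℂ))) * (l : ℂ) - al * g (ofComplex (z : ℂ)) = 0 := by
      have := hrel z z.im_pos
      rw [← Finset.sum_mul]
      linear_combination this
    rw [h5] at h4
    refine h4.congr_of_eventuallyEq ?_
    filter_upwards [im_pos_open.mem_nhds z.im_pos] with x hx
    simp only [comp_apply, hD, Pi.add_apply, Pi.sub_apply]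
    rw [ofComplex_apply_of_im_pos hx]
  have hzero : ∀ z : ℍ, HasDerivAt ((fun _ : ℍ => (0 : ℂ)) ∘ ofComplex) 0 (z : ℂ) := by
    intro z
    exact hasDerivAt_const _ _
  obtain ⟨c, hc⟩ := sub_const hder hzero
  have hlim : Tendsto D atImInfty (𝓝 0) := by
    have h1 : ∀ k ∈ Finset.range l,
        Tendsto (fun z : ℍ => G (ofComplex (((z : ℂ) + k) / l))) atImInfty (𝓝 0) := by
      intro k _
      refine hG.lim.comp ?_
      rw [atImInfty, tendsto_comap_iff]
      have h2 : Tendsto (fun z : ℍ => z.im / l) (comap UpperHalfPlane.im atTop) atTop :=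
        tendsto_comap.atTop_div_const hlr
      refine h2.congr fun z => ?_
      simp only [comp_apply]
      rw [ofComplex_apply_of_im_pos (him _ k z.im_pos)]
      show z.im / l = (((z : ℂ) + k) / l).im
      rw [Complex.div_natCast_im]
      simp
    have h3 : Tendsto (fun z : ℍ => G (ofComplex (l * (z : ℂ)))) atImInfty (𝓝 0) := by
      refine hG.lim.comp ?_
      rw [atImInfty, tendsto_comap_iff]
      have h2 : Tendsto (fun z : ℍ => l * z.im) (comap UpperHalfPlane.im atTop) atTop :=
        tendsto_comap.const_mul_atTop hlr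
      refine h2.congr fun z => ?_
      simp only [comp_apply]
      rw [ofComplex_apply_of_im_pos (him2 _ z.im_pos)]
      show l * z.im = ((l : ℂ) * z).im
      simp
    have h4 := ((tendsto_finsetSum _ h1).add h3).sub (hG.lim.const_mul al)
    simpa using h4
  have hc0 : c = 0 := by
    have h1 : Tendsto D atImInfty (𝓝 c) := by
      have : D = fun _ => c := by
        ext z
        rw [hc z, zero_add]
      rw [this]
      exact tendsto_const_nhds
    exact tendsto_nhds_unique h1 hlim
  have := hc z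
  rw [hc0] at this
  simp only [hD] at this
  linear_combination this

/-- The Hecke relation for the boundary values. -/
theorem hecke_bd {g G : ℍ → ℂ} (hG : Prim g G 0)
    (hlim : ∀ σ : SL(2, ℤ), ∃ b : ℂ, Tendsto (fun τ : ℍ => G (σ • τ)) atImInfty (𝓝 b))
    {l : ℕ} (hl : 0 < l) {al : ℂ}
    (hrel : ∀ z : ℂ, 0 < z.im → (∑ k ∈ Finset.range l, g (ofComplex ((z + k) / l))) * (l : ℂ)⁻¹ +
      (l : ℂ) * g (ofComplex (l * z)) = al * g (ofComplex z)) (x : ℚ) :
    bd G (((l : ℚ) * x : ℚ) : OnePoint ℚ) +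
      ∑ k ∈ Finset.range l, bd G (((x + k) / (l : ℚ) : ℚ) : OnePoint ℚ) =
        al * bd G (x : OnePoint ℚ) := by
  have hlr : (0 : ℝ) < l := by exact_mod_cast hl
  have hlc : (l : ℂ) ≠ 0 := by exact_mod_cast hl.ne'
  have hpos : ∀ᶠ t : ℝ in 𝓝[>] 0, 0 < t := self_mem_nhdsWithin
  have h1 : ∀ k ∈ Finset.range l,
      Tendsto (fun t : ℝ => G (ofComplex (((vert x t : ℍ) + (k : ℂ)) / l))) (𝓝[>] 0)
        (𝓝 (bd G (((x + k) / (l : ℚ) : ℚ) : OnePoint ℚ))) := by
    intro k _
    have h2 := tendsto_vert hlim ((x + k) / (l : ℚ))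
    have h3 : Tendsto (fun t : ℝ => t / l) (𝓝[>] 0) (𝓝[>] 0) := by
      have h4 : Tendsto (fun t : ℝ => t / l) (𝓝[>] 0) (𝓝 0) := by
        have : Tendsto (fun t : ℝ => t / l) (𝓝 0) (𝓝 (0 / l)) := tendsto_id.div_const _
        rw [zero_div] at this
        exact this.mono_left nhdsWithin_le_nhds
      refine tendsto_nhdsWithin_iff.2 ⟨h4, ?_⟩
      filter_upwards [hpos] with t ht
      exact div_pos ht hlr
    refine (h2.comp h3).congr' ?_
    filter_upwards [hpos] with t ht
    simp only [comp_apply]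
    rw [coe_vert ht, vert]
    congr 2
    push_cast
    field_simp
    ring
  have h2 : Tendsto (fun t : ℝ => G (ofComplex (l * ((vert x t : ℍ) : ℂ)))) (𝓝[>] 0)
      (𝓝 (bd G (((l : ℚ) * x : ℚ) : OnePoint ℚ))) := by
    have h2 := tendsto_vert hlim ((l : ℚ) * x)
    have h3 : Tendsto (fun t : ℝ => (l : ℝ) * t) (𝓝[>] 0) (𝓝[>] 0) := by
      have h4 : Tendsto (fun t : ℝ => (l : ℝ) * t) (𝓝[>] 0) (𝓝 0) := by
        have : Tendsto (fun t : ℝ => (l : ℝ) * t) (𝓝 0) (𝓝 (l * 0)) := tendsto_id.const_mul _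
        rw [mul_zero] at this
        exact this.mono_left nhdsWithin_le_nhds
      refine tendsto_nhdsWithin_iff.2 ⟨h4, ?_⟩
      filter_upwards [hpos] with t ht
      exact mul_pos hlr ht
    refine (h2.comp h3).congr' ?_
    filter_upwards [hpos] with t ht
    simp only [comp_apply]
    rw [coe_vert ht, vert]
    congr 2
    push_cast
    ring
  have h3 := (tendsto_vert hlim x).const_mul al
  have h4 := h2.add (tendsto_finsetSum _ h1)
  refine tendsto_nhds_unique h4 (h3.congr fun t => ?_)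
  rw [← hecke_G hG hl hrel]
  ring

end Pool.Agent.MZ.Per
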