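import Pool.Agent.MZ.PerE

/-!
# The `q`-expansion and the decay at the cusps
-/

set_option autoImplicit false

open UpperHalfPlane hiding I
open Filter Topology Complex Function CongruenceSubgroup Asymptotics
open Matrix.SpecialLinearGroup (mapGL)
open scoped MatrixGroups Manifold Real ModularForm OnePoint

namespace Pool.Agent.MZ.Per

variable {N : ℕ} [NeZero N]

theorem hasSum_q (f : CuspForm (Gamma0 N) 2) {a : ℕ → ℂ}
    (ha : ∀ n, (qExpansion 1 f).coeff n = a n) (z : ℂ) (hz : 0 < z.im) :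
    HasSum (fun n : ℕ => a n * cexp (2 * π * Complex.I * n * z)) (f (ofComplex z)) := by
  have h1 : (1 : ℝ) ∈ ((Gamma0 N : Subgroup SL(2, ℤ)) : Subgroup (GL (Fin 2) ℝ)).strictPeriods := by
    rw [strictPeriods_Gamma0]
    exact AddSubgroup.mem_zmultiples 1
  have h2 := ModularForm.hasSum_qExpansion f one_pos h1 (ofComplex z)
  convert! h2 using 2 with n
  rw [ha n]
  congr 1
  rw [Periodic.qParam, ofComplex_apply_of_im_pos hz, ← Complex.exp_nat_mul]
  congr 1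
  simp only [ofReal_one, div_one]
  ring

theorem coeff_isBigO (f : CuspForm (Gamma0 N) 2) {a : ℕ → ℂ}
    (ha : ∀ n, (qExpansion 1 f).coeff n = a n) :
    a =O[atTop] fun n : ℕ => (n : ℝ) ^ (1 : ℝ) := by
  have h1 := CuspFormClass.qExpansion_isBigO f
  have h2 : ((Gamma0 N : Subgroup SL(2, ℤ)) : Subgroup (GL (Fin 2) ℝ)).strictWidthInfty = 1 := by
    simp
  rw [h2] at h1
  simp only [ha] at h1
  convert! h1 using 2
  norm_num

omit [NeZero N] in
theorem coeff_zero (f : CuspForm (Gamma0 N) 2) {a : ℕ → ℂ}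
    (ha : ∀ n, (qExpansion 1 f).coeff n = a n) : a 0 = 0 := by
  have h1 : (1 : ℝ) ∈ ((Gamma0 N : Subgroup SL(2, ℤ)) : Subgroup (GL (Fin 2) ℝ)).strictPeriods := by
    rw [strictPeriods_Gamma0]
    exact AddSubgroup.mem_zmultiples 1
  rw [← ha 0]
  exact CuspFormClass.qExpansion_coeff_zero f one_pos h1

open ConjAct Pointwise in
/-- The translates of a cusp form of weight two decay exponentially. -/
theorem exp_decay_slash {Γ : Subgroup (GL (Fin 2) ℝ)} [Γ.IsArithmetic] (f : CuspForm Γ 2)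
    (σ : SL(2, ℤ)) : ∃ c > 0, (⇑f ∣[(2 : ℤ)] σ) =O[atImInfty] fun τ => Real.exp (-c * τ.im) := by
  have harith : ((toConjAct (σ : GL (Fin 2) ℝ)⁻¹) • Γ).IsArithmetic := by
    simpa [(show Rat.castHom ℝ = algebraMap ℚ ℝ by rfl), map_inv, Matrix.SpecialLinearGroup.map_mapGL]
      using! Subgroup.IsArithmetic.conj Γ (Matrix.SpecialLinearGroup.mapGL ℚ σ)⁻¹
  set Γ' := (toConjAct (σ : GL (Fin 2) ℝ)⁻¹) • Γ
  let F : CuspForm Γ' 2 := CuspForm.translate f (σ : GL (Fin 2) ℝ)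
  exact CuspFormClass.exp_decay_atImInfty' F

/-- Rapid decay on vertical lines ending at rational points. -/
theorem decay_vert {Γ : Subgroup (GL (Fin 2) ℝ)} [Γ.IsArithmetic] (f : CuspForm Γ 2) (x : ℚ)
    (r : ℝ) : (fun t : ℝ => f (vert x t)) =O[𝓝[>] 0] fun t => t ^ r := by
  obtain ⟨σ, hσ⟩ := OnePoint.exists_mem_SL2 ℤ (x : OnePoint ℚ)
  rw [smul_infty] at hσ
  by_cases hc : σ 1 0 = 0
  · rw [if_pos hc] at hσ
    exact absurd hσ (OnePoint.infty_ne_coe _)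
  rw [if_neg hc] at hσ
  have hx : x = (σ 0 0 : ℚ) / (σ 1 0 : ℚ) := (OnePoint.coe_injective hσ).symm
  have hcr : (σ 1 0 : ℝ) ≠ 0 := by exact_mod_cast hc
  obtain ⟨c, hc0, hO⟩ := exp_decay_slash f σ
  have hpos : ∀ᶠ t : ℝ in 𝓝[>] 0, 0 < t := self_mem_nhdsWithin
  set τ : ℝ → ℍ := fun t => vert (-(σ 1 1 : ℝ) / (σ 1 0 : ℝ)) (1 / ((σ 1 0 : ℝ) ^ 2 * t)) with hτ
  have h1 : Tendsto τ (𝓝[>] 0) atImInfty := by
    rw [atImInfty, tendsto_comap_iff]
    have h2 : Tendsto (fun t : ℝ => ((σ 1 0 : ℝ) ^ 2)⁻¹ * t⁻¹) (𝓝[>] 0) atTop :=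
      tendsto_inv_nhdsGT_zero.const_mul_atTop (by positivity)
    refine h2.congr' ?_
    filter_upwards [hpos] with t ht
    have hpos : 0 < 1 / ((σ 1 0 : ℝ) ^ 2 * t) := by positivity
    simp only [comp_apply, hτ]
    rw [im_vert hpos, one_div, mul_inv]
  have h2 := hO.comp_tendsto h1
  have h3 : (fun t : ℝ => Real.exp (-c * (τ t).im)) =O[𝓝[>] 0] fun t => t ^ (r + 2) := by
    have h4 : (fun u : ℝ => Real.exp (-(c / (σ 1 0 : ℝ) ^ 2) * u)) =O[atTop]
        fun u => u ^ (-(r + 2)) :=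
      (isLittleO_exp_neg_mul_rpow_atTop (by positivity) _).isBigO
    have h5 := h4.comp_tendsto (tendsto_inv_nhdsGT_zero (𝕜 := ℝ))
    refine (h5.congr' ?_ ?_)
    · filter_upwards [hpos] with t ht
      have hpos : 0 < 1 / ((σ 1 0 : ℝ) ^ 2 * t) := by positivity
      simp only [comp_apply, hτ]
      rw [im_vert hpos]
      congr 1
      field_simp
    · filter_upwards [hpos] with t ht
      simp only [comp_apply]
      rw [Real.inv_rpow ht.le, ← Real.rpow_neg ht.le, neg_neg]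
  have h4 := h2.trans h3
  have h5 : (fun t : ℝ => f (vert x t)) =ᶠ[𝓝[>] 0]
      fun t : ℝ => ((⇑f ∣[(2 : ℤ)] σ) (τ t)) * (-((σ 1 0 : ℂ) ^ 2)⁻¹ * ((t : ℂ)⁻¹) ^ 2) := by
    filter_upwards [hpos] with t ht
    have hpos : 0 < 1 / ((σ 1 0 : ℝ) ^ 2 * t) := by positivity
    have hcc : (σ 1 0 : ℂ) ≠ 0 := by exact_mod_cast hc
    have htc : (t : ℂ) ≠ 0 := by exact_mod_cast ht.ne'
    have h6 : σ • τ t = vert x t := by
      have := vert_sl hc ht
      rw [hτ]
      simp only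
      rw [this, hx]
      push_cast
      rfl
    have h7 : denom σ (τ t) = Complex.I / ((σ 1 0 : ℂ) * t) := by
      rw [ModularGroup.denom_apply, hτ]
      simp only
      rw [coe_vert hpos]
      push_cast
      field_simp
      ring
    rw [ModularForm.SL_slash_apply, h6, h7]
    have h8 : (Complex.I / ((σ 1 0 : ℂ) * t)) ^ (-2 : ℤ) * (-((σ 1 0 : ℂ) ^ 2)⁻¹ * ((t : ℂ)⁻¹) ^ 2)
        = 1 := by
      rw [zpow_neg]
      have h9 : (Complex.I / ((σ 1 0 : ℂ) * t)) ^ (2 : ℤ) =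
          -((σ 1 0 : ℂ) ^ 2)⁻¹ * ((t : ℂ)⁻¹) ^ 2 := by
        rw [zpow_ofNat, div_pow, Complex.I_sq]
        field_simp
      rw [h9]
      apply inv_mul_cancel₀
      rw [neg_mul]
      apply neg_ne_zero.2
      exact mul_ne_zero (inv_ne_zero (pow_ne_zero _ hcc)) (pow_ne_zero _ (inv_ne_zero htc))
    rw [mul_assoc, h8, mul_one]
  refine h5.trans_isBigO ?_
  have h6 : (fun t : ℝ => -((σ 1 0 : ℂ) ^ 2)⁻¹ * ((t : ℂ)⁻¹) ^ 2) =O[𝓝[>] 0]
      fun t : ℝ => t ^ (-2 : ℝ) := by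
    apply IsBigO.const_mul_left
    refine IsBigO.of_norm_eventuallyLE ?_
    filter_upwards [hpos] with t ht
    rw [norm_pow, norm_inv, Complex.norm_real, Real.norm_of_nonneg ht.le, Real.rpow_neg ht.le,
      Real.rpow_ofNat, inv_pow]
  have h7 := h4.mul h6
  refine h7.trans (EventuallyEq.isBigO ?_)
  filter_upwards [hpos] with t ht
  rw [← Real.rpow_add ht]
  congr 1
  ring

end Pool.Agent.MZ.Per
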