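import Pool.Agent.MZ.PerF

/-!
# Values of twisted `L`-functions at `s = 1`
-/

set_option autoImplicit false

open UpperHalfPlane hiding I
open Filter Topology Complex Function CongruenceSubgroup Asymptotics MeasureTheory Set
open Matrix.SpecialLinearGroup (mapGL)
open scoped MatrixGroups Manifold Real ModularForm OnePoint

namespace Pool.Agent.MZ.Per

/-- `v` is the value at `s = 1` of the entire continuation of the Dirichlet series
`∑ c(n) n^{-s}`, which converges for `Re s > 2`. -/
def IsLValue (c : ℕ → ℂ) (v : ℂ) : Prop :=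
  ∃ D : ℂ → ℂ, Differentiable ℂ D ∧ (∀ s : ℂ, 2 < s.re → LSeriesHasSum c s (D s)) ∧ D 1 = v

theorem IsLValue.unique {c : ℕ → ℂ} {v w : ℂ} (hv : IsLValue c v) (hw : IsLValue c w) : v = w := by
  obtain ⟨D, hD, hD2, rfl⟩ := hv
  obtain ⟨E, hE, hE2, rfl⟩ := hw
  have h1 : AnalyticOnNhd ℂ D univ := fun z _ => hD.analyticAt z
  have h2 : AnalyticOnNhd ℂ E univ := fun z _ => hE.analyticAt z
  have h3 : D =ᶠ[𝓝 3] E := by
    have : {s : ℂ | 2 < s.re} ∈ 𝓝 (3 : ℂ) := by
      apply (isOpen_lt continuous_const Complex.continuous_re).mem_nhds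
      show (2 : ℝ) < (3 : ℂ).re
      norm_num
    filter_upwards [this] with s hs
    exact (hD2 s hs).unique (hE2 s hs)
  have h4 := h1.eqOn_of_preconnected_of_eventuallyEq h2 isPreconnected_univ (mem_univ (3 : ℂ)) h3
  exact h4 (mem_univ (1 : ℂ))

variable {N : ℕ} [NeZero N]

theorem vert_tendsto (x : ℝ) : Tendsto (vert x) atTop atImInfty := by
  rw [atImInfty, tendsto_comap_iff]
  refine tendsto_id.congr' ?_
  filter_upwards [eventually_gt_atTop 0] with t ht
  simp only [id_eq, comp_apply]
  rw [im_vert ht]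

theorem vert_decay_top (f : CuspForm (Gamma0 N) 2) (x : ℝ) (r : ℝ) :
    (fun t : ℝ => f (vert x t)) =O[atTop] fun t => t ^ r := by
  obtain ⟨c, hc0, hO⟩ := exp_decay_slash f 1
  rw [SlashAction.slash_one] at hO
  have h1 := hO.comp_tendsto (vert_tendsto x)
  have h2 : (fun u : ℝ => Real.exp (-c * u)) =O[atTop] fun u => u ^ r :=
    (isLittleO_exp_neg_mul_rpow_atTop hc0 _).isBigO
  refine h1.trans (IsBigO.congr' h2 ?_ EventuallyEq.rfl)
  filter_upwards [eventually_gt_atTop 0] with t ht
  simp only [comp_apply]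
  rw [im_vert ht]

omit [NeZero N] in
theorem continuousOn_vert (f : CuspForm (Gamma0 N) 2) (x : ℝ) :
    ContinuousOn (fun t : ℝ => f (vert x t)) (Ioi 0) := by
  intro t ht
  have ht' : 0 < t := ht
  have him : 0 < ((x : ℂ) + (t : ℂ) * Complex.I).im := by simpa using ht'
  have h1 : ContinuousAt (fun t : ℝ => (x : ℂ) + (t : ℂ) * Complex.I) t := by fun_prop
  have h2 : ContinuousAt (fun z : ℂ => f (ofComplex z)) ((x : ℂ) + (t : ℂ) * Complex.I) := by
    have := (UpperHalfPlane.mdifferentiableAt_iff.mp (CuspFormClass.holo f ⟨_, him⟩))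
    exact this.continuousAt
  exact (ContinuousAt.comp (f := fun t : ℝ => (x : ℂ) + (t : ℂ) * Complex.I) h2
    h1).continuousWithinAt

theorem integrable_vert (f : CuspForm (Gamma0 N) 2) (x : ℚ) :
    IntegrableOn (fun t : ℝ => f (vert x t)) (Ioi 0) := by
  have h1 : MellinConvergent (fun t : ℝ => f (vert x t)) 1 :=
    mellinConvergent_of_isBigO_rpow (a := 2) (b := 0)
      ((continuousOn_vert f x).locallyIntegrableOn measurableSet_Ioi)
      (vert_decay_top f x _) (by norm_num) (decay_vert f x _) (by norm_num)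
  rw [MellinConvergent] at h1
  simpa using h1

theorem integral_vert (f : CuspForm (Gamma0 N) 2) (x : ℚ) :
    2 * π * ∫ t in Ioi (0 : ℝ), f (vert x t) = bd (G f) (x : OnePoint ℚ) := by
  set F : ℝ → ℂ := Function.update (fun t => G f (vert x t)) 0 (bd (G f) (x : OnePoint ℚ)) with hF
  have hF0 : F 0 = bd (G f) (x : OnePoint ℚ) := by rw [hF, Function.update_self]
  have hFt : ∀ t : ℝ, 0 < t → F t = G f (vert x t) := fun t ht => by
    rw [hF, Function.update_of_ne ht.ne']
  have hcont : ContinuousWithinAt F (Ici 0) 0 := by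
    rw [← Ioi_insert, continuousWithinAt_insert_self]
    show Tendsto F (𝓝[>] 0) (𝓝 (F 0))
    rw [hF0]
    refine (tendsto_vert (lim_G f) x).congr' ?_
    filter_upwards [self_mem_nhdsWithin] with t ht
    exact (hFt t ht).symm
  have hderiv : ∀ t ∈ Ioi (0 : ℝ), HasDerivAt F (-(2 * π) * f (vert x t)) t := by
    intro t ht
    have ht' : 0 < t := ht
    have h1 := (prim_G f).der (vert x t)
    rw [coe_vert ht'] at h1
    have h2 : HasDerivAt (fun t : ℝ => (x : ℂ) + (t : ℂ) * Complex.I) Complex.I t := by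
      have := ((hasDerivAt_id (t : ℂ)).comp_ofReal.mul_const Complex.I).const_add (x : ℂ)
      simpa using this
    have h3 := HasDerivAt.comp t (h₂ := G f ∘ ofComplex) (by simpa using h1) h2
    have h4 : (2 * π * Complex.I * f (vert x t)) * Complex.I = -(2 * π) * f (vert x t) := by
      linear_combination (2 * π * f (vert x t)) * Complex.I_mul_I
    rw [h4] at h3
    refine h3.congr_of_eventuallyEq ?_
    filter_upwards [Ioi_mem_nhds ht'] with s hs
    rw [hFt s hs]
    simp only [comp_apply, vert]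
    push_cast
    rfl
  have hlim : Tendsto F atTop (𝓝 0) := by
    refine ((prim_G f).lim.comp (vert_tendsto x)).congr' ?_
    filter_upwards [eventually_gt_atTop 0] with t ht
    exact (hFt t ht).symm
  have := integral_Ioi_of_hasDerivAt_of_tendsto hcont hderiv
    ((integrable_vert f x).const_mul _) hlim
  rw [integral_const_mul, hF0] at this
  linear_combination -this

/-- The values of twisted `L`-functions in terms of the boundary values. -/
theorem isLValue (f : CuspForm (Gamma0 N) 2) {a : ℕ → ℂ}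
    (ha : ∀ n, (qExpansion 1 f).coeff n = a n) {ι : Type*} (B : Finset ι) (w : ι → ℂ) (x : ι → ℚ)
    {c : ℕ → ℂ} (hc : ∀ n, c n = a n * ∑ b ∈ B, w b * cexp (2 * π * Complex.I * n * (x b : ℂ))) :
    IsLValue c (∑ b ∈ B, w b * bd (G f) (x b : OnePoint ℚ)) := by
  have ha0 := coeff_zero f ha
  set g : ℝ → ℂ := fun t => ∑ b ∈ B, w b * f (vert (x b) t) with hg
  have hgtop : ∀ r : ℝ, g =O[atTop] fun t => t ^ r := fun r =>
    IsBigO.fun_sum fun b _ => (vert_decay_top f (x b) r).const_mul_left _
  have hgbot : ∀ r : ℝ, g =O[𝓝[>] 0] fun t => t ^ r := fun r =>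
    IsBigO.fun_sum fun b _ => (decay_vert f (x b) r).const_mul_left _
  have hgc : ContinuousOn g (Ioi 0) := by
    apply continuousOn_finsetSum
    intro b _
    exact continuousOn_const.mul (continuousOn_vert f (x b))
  have hgl : LocallyIntegrableOn g (Ioi 0) := hgc.locallyIntegrableOn measurableSet_Ioi
  have hM : Differentiable ℂ (mellin g) := fun s =>
    mellin_differentiableAt_of_isBigO_rpow (a := s.re + 1) (b := s.re - 1) hgl (hgtop _)
      (by linarith) (hgbot _) (by linarith)
  have hgsum : ∀ t ∈ Ioi (0 : ℝ), HasSum (fun n : ℕ => c n * Real.exp (-(2 * π * n) * t)) (g t) := by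
    intro t ht
    have ht' : 0 < t := ht
    have h1 : HasSum (fun n : ℕ => ∑ b ∈ B, w b * (a n *
        cexp (2 * π * Complex.I * n * ((x b : ℝ) + (t : ℂ) * Complex.I)))) (g t) := by
      apply hasSum_sum
      intro b _
      exact (hasSum_q f ha _ (by simpa using ht')).mul_left _
    convert! h1 using 2 with n
    rw [hc n, Finset.mul_sum, Finset.sum_mul]
    refine Finset.sum_congr rfl fun b _ => ?_
    have h2 : cexp (2 * π * Complex.I * n * ((x b : ℝ) + (t : ℂ) * Complex.I)) =
        cexp (2 * π * Complex.I * n * (x b : ℂ)) * (Real.exp (-(2 * π * n) * t) : ℂ) := by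
      rw [ofReal_exp, ← Complex.exp_add]
      congr 1
      push_cast
      linear_combination (2 * π * n * t) * Complex.I_mul_I
    rw [h2]
    ring
  -- the coefficients are `O(n)`
  have hcO : c =O[atTop] fun n : ℕ => (n : ℝ) ^ (1 : ℝ) := by
    have h1 : (fun n : ℕ => ∑ b ∈ B, w b * cexp (2 * π * Complex.I * n * (x b : ℂ))) =O[atTop]
        fun _ : ℕ => (1 : ℝ) := by
      refine IsBigO.fun_sum fun b _ => IsBigO.const_mul_left ?_ _
      refine IsBigO.of_norm_le fun n => ?_
      have : (2 * π * Complex.I * n * (x b : ℂ)) = ((2 * π * n * (x b : ℝ) : ℝ) : ℂ) * Complex.I := by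
        push_cast
        ring
      rw [this, Complex.norm_exp_ofReal_mul_I]
    have h2 := (coeff_isBigO f ha).mul h1
    simp only [mul_one] at h2
    exact h2.congr_left fun n => (hc n).symm
  refine ⟨fun s => (2 * π : ℂ) ^ s * (Gamma s)⁻¹ * mellin g s, ?_, ?_, ?_⟩
  · have h2pi : (2 * π : ℂ) ≠ 0 := by
      exact_mod_cast Real.two_pi_pos.ne'
    have h1 : Differentiable ℂ fun s : ℂ => (2 * π : ℂ) ^ s := fun s =>
      (differentiableAt_id).const_cpow (Or.inl h2pi)
    exact (h1.mul differentiable_one_div_Gamma).mul hM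
  · intro s hs
    have hs0 : 0 < s.re := by linarith
    have h1 : HasSum (fun n : ℕ => Gamma s * c n / ((2 * π * n : ℝ) : ℂ) ^ s) (mellin g s) := by
      refine hasSum_mellin (p := fun n : ℕ => 2 * π * n) ?_ hs0 ?_ ?_
      · intro n
        rcases Nat.eq_zero_or_pos n with rfl | hn
        · left
          rw [hc 0, ha0, zero_mul]
        · right
          positivity
      · intro t ht
        exact hgsum t ht
      · have h3 : (fun n : ℕ => ‖c n‖ / (2 * π * n) ^ s.re) =
            fun n : ℕ => ((2 * π) ^ s.re)⁻¹ * (‖c n‖ / (n : ℝ) ^ s.re) := by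
          ext n
          rw [Real.mul_rpow Real.two_pi_pos.le (Nat.cast_nonneg n)]
          field_simp
        rw [h3]
        apply Summable.mul_left
        apply summable_of_isBigO_nat (Real.summable_nat_rpow.mpr <| show 1 - s.re < -1 by linarith)
        simp only [Real.rpow_sub' (Nat.cast_nonneg _) (show 1 - s.re ≠ 0 by linarith)]
        apply IsBigO.mul _ (isBigO_refl _ _)
        exact hcO.norm_left
    have h2 := h1.mul_left ((2 * π : ℂ) ^ s * (Gamma s)⁻¹)
    rw [LSeriesHasSum]
    convert! h2 using 2 with n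
    rw [LSeries.term_def]
    split_ifs with hn
    · rw [hn, hc 0, ha0]
      simp
    · have hG := Gamma_ne_zero_of_re_pos hs0
      have h2pi : (2 * π : ℂ) ≠ 0 := by
        exact_mod_cast Real.two_pi_pos.ne'
      have h4 : ((2 * π * n : ℝ) : ℂ) ^ s = (2 * π : ℂ) ^ s * (n : ℂ) ^ s := by
        have := mul_cpow_ofReal_nonneg Real.two_pi_pos.le (Nat.cast_nonneg n : (0 : ℝ) ≤ n) s
        push_cast at this ⊢
        exact this
      have h5 : (2 * π : ℂ) ^ s ≠ 0 := by
        rw [Ne, cpow_eq_zero_iff]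
        exact fun h => h2pi h.1
      have h6 : (n : ℂ) ^ s ≠ 0 := by
        rw [Ne, cpow_eq_zero_iff]
        exact fun h => hn (by exact_mod_cast h.1)
      rw [h4]
      field_simp
  · have h1 : mellin g 1 = ∫ t in Ioi (0 : ℝ), g t := by
      rw [mellin]
      refine setIntegral_congr_fun measurableSet_Ioi fun t _ => ?_
      simp
    show (2 * π : ℂ) ^ (1 : ℂ) * (Complex.Gamma 1)⁻¹ * mellin g 1 = _
    rw [h1, cpow_one, Gamma_one, inv_one, mul_one]
    rw [hg, integral_finsetSum _ fun b _ => (integrable_vert f (x b)).const_mul (w b)]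
    rw [Finset.mul_sum]
    refine Finset.sum_congr rfl fun b _ => ?_
    rw [integral_const_mul, ← integral_vert f (x b)]
    ring

end Pool.Agent.MZ.Per
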