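import Pool.Agent.MZ.PerG
import Pool.Agent.MZ.BranchDefs

/-!
# Real structure and integrality
-/

set_option autoImplicit false

open UpperHalfPlane hiding I
open Filter Topology Complex Function CongruenceSubgroup
open Matrix.SpecialLinearGroup (mapGL)
open scoped MatrixGroups Manifold Real ModularForm OnePoint ComplexConjugate

namespace Pool.Agent.MZ.Per

variable {N : ℕ} [NeZero N]

theorem im_neg_conj {z : ℂ} (hz : 0 < z.im) : 0 < (-(conj z)).im := by simpa using hz

theorem f_conj (f : CuspForm (Gamma0 N) 2) {a : ℕ → ℂ}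
    (ha : ∀ n, (qExpansion 1 f).coeff n = a n) (hr : ∀ n, conj (a n) = a n) {z : ℂ}
    (hz : 0 < z.im) : f (ofComplex (-(conj z))) = conj (f (ofComplex z)) := by
  have h1 := hasSum_q f ha _ (im_neg_conj hz)
  have h2 := (hasSum_q f ha z hz).map (starRingEnd ℂ) Complex.continuous_conj
  refine h1.unique ?_
  convert! h2 using 2 with n
  simp only [comp_apply]
  rw [map_mul, hr n, ← Complex.exp_conj]
  congr 2
  simp only [map_mul, conj_I, map_ofNat, conj_ofReal, map_natCast]
  ring

theorem G_conj (f : CuspForm (Gamma0 N) 2) {a : ℕ → ℂ}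
    (ha : ∀ n, (qExpansion 1 f).coeff n = a n) (hr : ∀ n, conj (a n) = a n) (z : ℍ) :
    conj (G f (ofComplex (-(conj (z : ℂ))))) = G f z := by
  set H : ℍ → ℂ := fun z => conj (G f (ofComplex (-(conj (z : ℂ))))) with hH
  have hder : ∀ z : ℍ, HasDerivAt (H ∘ ofComplex) (2 * π * Complex.I * f z) (z : ℂ) := by
    intro z
    have hz := im_neg_conj z.im_pos
    have h1 := (prim_G f).der ⟨_, hz⟩
    have h2 : HasDerivAt (fun x : ℂ => (G f ∘ ofComplex) (-x))
        (2 * π * Complex.I * f (ofComplex (-(conj (z : ℂ)))) * (-1)) (conj (z : ℂ)) := by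
      rw [ofComplex_apply_of_im_pos hz]
      exact HasDerivAt.comp (conj (z : ℂ)) h1 (hasDerivAt_neg _)
    have h3 := h2.conj_conj
    rw [Complex.conj_conj] at h3
    have h4 : conj (2 * π * Complex.I * f (ofComplex (-(conj (z : ℂ)))) * (-1)) =
        2 * π * Complex.I * f z := by
      rw [f_conj f ha hr z.im_pos, ofComplex_apply]
      simp only [map_mul, conj_I, map_ofNat, conj_ofReal, Complex.conj_conj, map_neg, map_one]
      ring
    rw [h4] at h3
    refine h3.congr_of_eventuallyEq ?_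
    filter_upwards [im_pos_open.mem_nhds z.im_pos] with x hx
    simp only [comp_apply, hH]
    rw [ofComplex_apply_of_im_pos hx]
  obtain ⟨c, hc⟩ := sub_const hder (prim_G f).der
  have hlim : Tendsto H atImInfty (𝓝 0) := by
    have h1 : Tendsto (fun z : ℍ => ofComplex (-(conj (z : ℂ)))) atImInfty atImInfty := by
      rw [atImInfty, tendsto_comap_iff]
      refine tendsto_comap.congr fun z => ?_
      simp only [comp_apply]
      rw [ofComplex_apply_of_im_pos (im_neg_conj z.im_pos)]
      show z.im = (-(conj (z : ℂ))).im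
      simp
    have h2 := (Complex.continuous_conj.tendsto 0).comp ((prim_G f).lim.comp h1)
    rw [map_zero] at h2
    exact h2
  have hc0 : c = 0 := by
    have h1 : Tendsto (fun z => G f z + c) atImInfty (𝓝 (0 + c)) := (prim_G f).lim.add_const c
    have h2 := h1.congr fun z => (hc z).symm
    rw [zero_add] at h2
    exact tendsto_nhds_unique h2 hlim
  have := hc z
  rw [hc0, add_zero] at this
  exact this

theorem bd_neg (f : CuspForm (Gamma0 N) 2) {a : ℕ → ℂ}
    (ha : ∀ n, (qExpansion 1 f).coeff n = a n) (hr : ∀ n, conj (a n) = a n) (x : OnePoint ℚ) :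
    bd (G f) (OnePoint.map (fun t : ℚ => -t) x) = conj (bd (G f) x) := by
  induction x using OnePoint.rec with
  | infty => simp
  | coe x =>
    rw [OnePoint.map_some]
    have h1 := tendsto_vert (lim_G f) (-x)
    have h2 := (Complex.continuous_conj.tendsto _).comp (tendsto_vert (lim_G f) x)
    refine tendsto_nhds_unique h1 (h2.congr' ?_)
    filter_upwards [self_mem_nhdsWithin] with t ht
    have ht' : 0 < t := ht
    simp only [comp_apply]
    rw [← G_conj f ha hr (vert (x : ℝ) t), Complex.conj_conj, coe_vert ht', vert]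
    congr 2
    simp only [map_add, map_mul, conj_I, conj_ofReal]
    push_cast
    ring

omit [NeZero N] in
/-- Primitive vectors which are congruent modulo `N` are equivalent under `Γ₁(N)`. -/
theorem exists_gamma {a c A C : ℤ} (h1 : IsCoprime a c) (h2 : IsCoprime A C)
    (ha : (N : ℤ) ∣ A - a) (hc : (N : ℤ) ∣ C - c) (hc0 : c ≠ 0) (hC0 : C ≠ 0) :
    ∃ γ ∈ Gamma1 N, mapGL ℚ γ • (((a : ℚ) / (c : ℚ) : ℚ) : OnePoint ℚ) =
      (((A : ℚ) / (C : ℚ) : ℚ) : OnePoint ℚ) := by
  obtain ⟨d, b, hdb⟩ := h1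
  obtain ⟨D, B, hDB⟩ := h2
  obtain ⟨u, hu⟩ := ha
  obtain ⟨v, hv⟩ := hc
  obtain ⟨j, hj⟩ : ∃ j : ℤ, j = d * B - b * D := ⟨_, rfl⟩
  obtain ⟨σ, h00, h01, h10, h11⟩ := exists_sl (a := a) (b := -b) (c := c) (d := d)
    (by linear_combination hdb)
  obtain ⟨τ, k00, k01, k10, k11⟩ := exists_sl (a := A) (b := j * A - B) (c := C) (d := j * C + D)
    (by linear_combination hDB)
  refine ⟨τ * σ⁻¹, ?_, ?_⟩
  · have hent : ∀ i k : Fin 2, (τ * σ⁻¹) i k =
        τ i 0 * (!![σ 1 1, -σ 0 1; -σ 1 0, σ 0 0] : Matrix (Fin 2) (Fin 2) ℤ) 0 k +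
          τ i 1 * (!![σ 1 1, -σ 0 1; -σ 1 0, σ 0 0] : Matrix (Fin 2) (Fin 2) ℤ) 1 k := by
      intro i k
      rw [Matrix.SpecialLinearGroup.coe_mul, Matrix.SpecialLinearGroup.coe_inv,
        Matrix.adjugate_fin_two, Matrix.mul_apply, Fin.sum_univ_two]
    have h10' : (τ * σ⁻¹) 1 0 = C * d - (j * C + D) * c := by
      rw [hent]
      simp only [Matrix.of_apply, Matrix.cons_val', Matrix.cons_val_zero, Matrix.cons_val_one,
        Matrix.cons_val_fin_one]
      rw [k10, k11, h11, h10]
      ring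
    have h00' : (τ * σ⁻¹) 0 0 = A * d - (j * A - B) * c := by
      rw [hent]
      simp only [Matrix.of_apply, Matrix.cons_val', Matrix.cons_val_zero, Matrix.cons_val_one,
        Matrix.cons_val_fin_one]
      rw [k00, k01, h11, h10]
      ring
    have h11' : (τ * σ⁻¹) 1 1 = C * b + (j * C + D) * a := by
      rw [hent]
      simp only [Matrix.of_apply, Matrix.cons_val', Matrix.cons_val_zero, Matrix.cons_val_one,
        Matrix.cons_val_fin_one]
      rw [k10, k11, h01, h00]
      ring
    -- `j C + D = d` modulo `N`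
    have hD' : (j * C + D) - d = N * (j * v - d * (u * D + v * B)) := by
      linear_combination -(d * D) * hu - (d * B) * hv + c * hj + d * hDB - D * hdb + j * hv
    rw [Gamma1_mem]
    refine ⟨?_, ?_, ?_⟩
    · have : (N : ℤ) ∣ (τ * σ⁻¹) 0 0 - 1 := by
        rw [h00']
        refine ⟨v * (j * A - B) - A * (j * v - d * (u * D + v * B)), ?_⟩
        linear_combination (j * A - B) * hv - A * hD' + hDB
      have h5 := (ZMod.intCast_zmod_eq_zero_iff_dvd _ N).2 this
      push_cast at h5
      rwa [sub_eq_zero] at h5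
    · have : (N : ℤ) ∣ (τ * σ⁻¹) 1 1 - 1 := by
        rw [h11']
        refine ⟨b * v + a * (j * v - d * (u * D + v * B)), ?_⟩
        linear_combination b * hv + a * hD' + hdb
      have h5 := (ZMod.intCast_zmod_eq_zero_iff_dvd _ N).2 this
      push_cast at h5
      rwa [sub_eq_zero] at h5
    · rw [h10', ZMod.intCast_zmod_eq_zero_iff_dvd]
      refine ⟨c * d * (u * D + v * B) + v * (d - j * c), ?_⟩
      linear_combination c * d * D * hu + c * d * B * hv - c ^ 2 * hj - c * d * hDB + c * D * hdb +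
        (d - j * c) * hv
  · have h3 : mapGL ℚ σ • (∞ : OnePoint ℚ) = (((a : ℚ) / (c : ℚ) : ℚ) : OnePoint ℚ) := by
      rw [smul_infty, h10, h00, if_neg hc0]
    have h4 : mapGL ℚ τ • (∞ : OnePoint ℚ) = (((A : ℚ) / (C : ℚ) : ℚ) : OnePoint ℚ) := by
      rw [smul_infty, k10, k00, if_neg hC0]
    rw [← h3, ← h4, ← mul_smul, ← map_mul, inv_mul_cancel_right]

end Pool.Agent.MZ.Per
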