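import Pool.Agent.MZ.PerH

/-!
# The `p`-adic modular symbol of a cusp form
-/

set_option autoImplicit false

open UpperHalfPlane hiding I
open Filter Topology Complex Function CongruenceSubgroup
open Matrix.SpecialLinearGroup (mapGL)
open scoped MatrixGroups Manifold Real ModularForm OnePoint ComplexConjugate

namespace Pool.Agent.MZ.Per

variable {N : ℕ} [NeZero N]

/-- The real part of the boundary value. -/
noncomputable def S (f : CuspForm (Gamma0 N) 2) (x : OnePoint ℚ) : ℝ := (bd (G f) x).re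

theorem S_smul (f : CuspForm (Gamma0 N) 2) {γ : SL(2, ℤ)} (hγ : γ ∈ Gamma0 N) (x : OnePoint ℚ) :
    S f (mapGL ℚ γ • x) = S f x + (period f γ).re := by
  rw [S, bd_smul' f hγ, add_re, S]

theorem re_diff {f : CuspForm (Gamma0 N) 2} {Ω : ℝ}
    (hper : ∀ γ ∈ Gamma1 N, (period f γ).re ∈ AddSubgroup.zmultiples Ω) {a c A C : ℤ}
    (h1 : IsCoprime a c) (h2 : IsCoprime A C)
    (ha : (N : ℤ) ∣ A - a) (hc : (N : ℤ) ∣ C - c) (hc0 : c ≠ 0) (hC0 : C ≠ 0) :
    S f (((a : ℚ) / (c : ℚ) : ℚ) : OnePoint ℚ) - S f (((A : ℚ) / (C : ℚ) : ℚ) : OnePoint ℚ) ∈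
      AddSubgroup.zmultiples Ω := by
  obtain ⟨γ, hγ, h3⟩ := exists_gamma h1 h2 ha hc hc0 hC0
  rw [← h3, S_smul f (Gamma1_in_Gamma0 N hγ)]
  have := neg_mem (hper γ hγ)
  convert! this using 1
  ring

theorem re_trans {f : CuspForm (Gamma0 N) 2} {Ω : ℝ}
    (hper : ∀ γ ∈ Gamma1 N, (period f γ).re ∈ AddSubgroup.zmultiples Ω) (x : ℚ) (k : ℤ) :
    S f (x : OnePoint ℚ) - S f ((x + k : ℚ) : OnePoint ℚ) ∈ AddSubgroup.zmultiples Ω := by
  obtain ⟨γ, h00, h01, h10, h11⟩ := exists_sl (a := 1) (b := k) (c := 0) (d := 1) (by ring)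
  have hmem : γ ∈ Gamma1 N := by
    rw [Gamma1_mem, h10, h00, h11]
    simp
  have h := S_smul f (Gamma1_in_Gamma0 N hmem) (x : OnePoint ℚ)
  rw [smul_coe, h00, h01, h10, h11] at h
  have h2 : ¬ (((0 : ℤ) : ℚ) * x + ((1 : ℤ) : ℚ) = 0) := by simp
  rw [if_neg h2] at h
  have h3 : ((((1 : ℤ) : ℚ) * x + (k : ℚ)) / (((0 : ℤ) : ℚ) * x + ((1 : ℤ) : ℚ)) : ℚ) = x + k := by
    simp
  rw [h3] at h
  rw [h]
  have := neg_mem (hper γ hmem)
  convert! this using 1
  ring

theorem coprime_num_den (x : ℚ) : IsCoprime x.num (x.den : ℤ) := by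
  rw [Int.isCoprime_iff_gcd_eq_one]
  exact x.reduced

/-- Integrality of the boundary values up to `l + 1 - a_l`. -/
theorem hecke_int {f : CuspForm (Gamma0 N) 2} {Ω : ℝ}
    (hper : ∀ γ ∈ Gamma1 N, (period f γ).re ∈ AddSubgroup.zmultiples Ω) {l : ℕ} (hl : l.Prime)
    (hl1 : (N : ℤ) ∣ (l : ℤ) - 1) {al : ℤ}
    (hH : ∀ x : ℚ, bd (G f) (((l : ℚ) * x : ℚ) : OnePoint ℚ) +
      ∑ k ∈ Finset.range l, bd (G f) (((x + k) / (l : ℚ) : ℚ) : OnePoint ℚ) =
        (al : ℂ) * bd (G f) (x : OnePoint ℚ)) (x : ℚ) :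
    (((l : ℤ) + 1 - al : ℤ) : ℝ) * S f (x : OnePoint ℚ) ∈ AddSubgroup.zmultiples Ω := by
  have hl0 : (l : ℚ) ≠ 0 := by exact_mod_cast hl.ne_zero
  have hlz : (l : ℤ) ≠ 0 := by exact_mod_cast hl.ne_zero
  have hlp : Prime (l : ℤ) := Nat.prime_iff_prime_int.1 hl
  have hsum : (((l : ℤ) + 1 - al : ℤ) : ℝ) * S f (x : OnePoint ℚ) =
      (S f (x : OnePoint ℚ) - S f (((l : ℚ) * x : ℚ) : OnePoint ℚ)) +
      ∑ k ∈ Finset.range l, (S f (x : OnePoint ℚ) -
        S f (((x + k) / (l : ℚ) : ℚ) : OnePoint ℚ)) := by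
    have h1 := congrArg Complex.re (hH x)
    rw [add_re, re_sum] at h1
    have h2 : ((al : ℂ) * bd (G f) (x : OnePoint ℚ)).re = al * S f (x : OnePoint ℚ) := by
      rw [S, show ((al : ℂ)) = ((al : ℝ) : ℂ) by push_cast; rfl, re_ofReal_mul]
    rw [h2] at h1
    rw [Finset.sum_sub_distrib, Finset.sum_const, Finset.card_range, nsmul_eq_mul]
    simp only [S] at h1 ⊢
    push_cast
    linear_combination h1
  rw [hsum]
  set a : ℤ := x.num with ha
  set c : ℤ := (x.den : ℤ) with hc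
  have hc0 : c ≠ 0 := by rw [hc]; exact_mod_cast x.den_nz
  have hac : IsCoprime a c := coprime_num_den x
  have hx : x = (a : ℚ) / (c : ℚ) := by
    rw [ha, hc]
    push_cast
    exact (Rat.num_div_den x).symm
  have hcq : (c : ℚ) ≠ 0 := by exact_mod_cast hc0
  refine add_mem ?_ (sum_mem fun k _ => ?_)
  · by_cases hlc : (l : ℤ) ∣ c
    · obtain ⟨c1, hc1⟩ := hlc
      have hc10 : c1 ≠ 0 := by rintro rfl; exact hc0 (by rw [hc1, mul_zero])
      have h1 : IsCoprime a c1 := by
        rw [hc1] at hac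
        exact hac.of_mul_right_right
      have h2 : (N : ℤ) ∣ c1 - c := by
        obtain ⟨u, hu⟩ := hl1
        exact ⟨-(u * c1), by rw [hc1]; linear_combination -c1 * hu⟩
      have h3 := re_diff hper hac h1 (by simp) h2 hc0 hc10
      have h4 : (l : ℚ) * x = (a : ℚ) / (c1 : ℚ) := by
        have hc1q : (c1 : ℚ) ≠ 0 := by exact_mod_cast hc10
        rw [hx, hc1]
        push_cast
        field_simp
      rw [h4, hx]
      exact h3
    · have h1 : IsCoprime (l * a : ℤ) c := by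
        refine IsCoprime.mul_left ?_ hac
        exact (hlp.irreducible.coprime_iff_not_dvd).2 hlc
      have h2 : (N : ℤ) ∣ l * a - a := by
        obtain ⟨u, hu⟩ := hl1
        exact ⟨u * a, by linear_combination a * hu⟩
      have h3 := re_diff hper hac h1 h2 (by simp) hc0 hc0
      have h4 : (l : ℚ) * x = ((l * a : ℤ) : ℚ) / (c : ℚ) := by
        rw [hx]
        push_cast
        ring
      rw [h4, hx]
      exact h3
  · -- compare with `x + k`
    have htr := re_trans hper x k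
    have hac' : IsCoprime (a + k * c) c := by
      have := IsCoprime.add_mul_left_left hac (k : ℤ)
      rwa [mul_comm c] at this
    have hxk : x + ((k : ℤ) : ℚ) = ((a + k * c : ℤ) : ℚ) / (c : ℚ) := by
      rw [hx]
      push_cast
      field_simp
    have h5 : S f ((x + ((k : ℤ) : ℚ) : ℚ) : OnePoint ℚ) -
        S f (((x + k) / (l : ℚ) : ℚ) : OnePoint ℚ) ∈ AddSubgroup.zmultiples Ω := by
      by_cases hlk : (l : ℤ) ∣ a + k * c
      · obtain ⟨a1, ha1⟩ := hlk
        have h1 : IsCoprime a1 c := by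
          rw [ha1] at hac'
          exact hac'.of_mul_left_right
        have h2 : (N : ℤ) ∣ a1 - (a + k * c) := by
          obtain ⟨u, hu⟩ := hl1
          exact ⟨-(u * a1), by rw [ha1]; linear_combination -a1 * hu⟩
        have h3 := re_diff hper hac' h1 h2 (by simp) hc0 hc0
        have h4 : (x + k) / (l : ℚ) = (a1 : ℚ) / (c : ℚ) := by
          have : x + (k : ℚ) = ((a + k * c : ℤ) : ℚ) / (c : ℚ) := by exact_mod_cast hxk
          rw [this, ha1]
          push_cast
          field_simp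
        rw [h4, hxk]
        exact h3
      · have hlc0 : (l : ℤ) * c ≠ 0 := mul_ne_zero hlz hc0
        have h1 : IsCoprime (a + k * c) (l * c) := by
          refine IsCoprime.mul_right ?_ hac'
          exact ((hlp.irreducible.coprime_iff_not_dvd).2 hlk).symm
        have h2 : (N : ℤ) ∣ l * c - c := by
          obtain ⟨u, hu⟩ := hl1
          exact ⟨u * c, by linear_combination c * hu⟩
        have h3 := re_diff hper hac' h1 (by simp) h2 hc0 hlc0
        have h4 : (x + k) / (l : ℚ) = ((a + k * c : ℤ) : ℚ) / ((l * c : ℤ) : ℚ) := by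
          have : x + (k : ℚ) = ((a + k * c : ℤ) : ℚ) / (c : ℚ) := by exact_mod_cast hxk
          rw [this]
          push_cast
          field_simp
        rw [h4, hxk]
        exact h3
    have := add_mem htr h5
    convert! this using 1
    ring

end Pool.Agent.MZ.Per
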