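import Pool.Agent.MZ.PerI

/-!
# The integral modular symbol of a cusp form
-/

set_option autoImplicit false

open UpperHalfPlane hiding I
open Filter Topology Complex Function CongruenceSubgroup
open Matrix.SpecialLinearGroup (mapGL)
open scoped MatrixGroups Manifold Real ModularForm OnePoint ComplexConjugate

namespace Pool.Agent.MZ.Per

variable {N : ℕ} [NeZero N]

/-- The Hecke relations between the coefficients away from `N`. -/
def HeckeRel (N : ℕ) (a : ℕ → ℤ) : Prop :=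
  ∀ l : ℕ, l.Prime → ¬ l ∣ N → ∀ n : ℕ,
    a (l * n) + (if l ∣ n then (l : ℤ) * a (n / l) else 0) = a l * a n

theorem bd_hecke (f : CuspForm (Gamma0 N) 2) {a : ℕ → ℤ}
    (ha : ∀ n, (qExpansion 1 f).coeff n = a n) (hH : HeckeRel N a) {l : ℕ} (hl : l.Prime)
    (hlN : ¬ l ∣ N) (x : ℚ) :
    bd (G f) (((l : ℚ) * x : ℚ) : OnePoint ℚ) +
      ∑ k ∈ Finset.range l, bd (G f) (((x + k) / (l : ℚ) : ℚ) : OnePoint ℚ) =
        ((a l : ℤ) : ℂ) * bd (G f) (x : OnePoint ℚ) := by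
  refine hecke_bd (prim_G f) (lim_G f) hl.pos ?_ x
  intro z hz
  have h1 := hecke_f (a := fun n => ((a n : ℤ) : ℂ)) (hasSum_q f (a := fun n => ((a n : ℤ) : ℂ)) ha)
    hl.pos (al := ((a l : ℤ) : ℂ)) (by
      intro n
      have := hH l hl hlN n
      rw [← Int.cast_mul, ← this]
      push_cast
      rfl) hz
  have h2 : ∀ w : ℕ → ℂ, ∑ k ∈ Finset.range l, 2 * π * Complex.I * w k =
      2 * π * Complex.I * ∑ k ∈ Finset.range l, w k := fun w => (Finset.mul_sum _ _ _).symm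
  rw [h2]
  linear_combination (2 * π * Complex.I) * h1

/-- The modular symbol of `(l + 1 - a_l) Re (2 π i f(z) dz) / Ω`, for a prime `l = 1 mod N`, has
values in `ℤ`. -/
theorem exists_int_sym (f : CuspForm (Gamma0 N) 2) {a : ℕ → ℤ}
    (ha : ∀ n, (qExpansion 1 f).coeff n = a n) (hH : HeckeRel N a) {Ω : ℝ} (hΩ : Ω ≠ 0)
    (hper : ∀ γ ∈ Gamma1 N, (period f γ).re ∈ AddSubgroup.zmultiples Ω) {l : ℕ} (hl : l.Prime)
    (hl1 : (N : ℤ) ∣ (l : ℤ) - 1) :
    ∃ φ : ModSym N ℤ, (∀ x : OnePoint ℚ,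
        (((l : ℤ) + 1 - a l : ℤ) : ℝ) * S f x = (φ.val ∞ x : ℤ) * Ω) ∧
      φ.HasSign 1 ∧ ∀ q : ℕ, q.Prime → ¬ q ∣ N → φ.HeckeEigen q (a q) := by
  set u : ℤ := (l : ℤ) + 1 - a l with hu
  have hlN : ¬ l ∣ N := by
    intro h
    have h1 : (l : ℤ) ∣ (l : ℤ) - 1 := (Int.natCast_dvd_natCast.2 h).trans hl1
    have h2 : (l : ℤ) ∣ 1 := by
      have := dvd_sub (dvd_refl (l : ℤ)) h1
      simpa using this
    have h3 : l ∣ 1 := by exact_mod_cast h2
    exact hl.one_lt.ne' (Nat.dvd_one.1 h3)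
  have hex : ∀ x : OnePoint ℚ, ∃ n : ℤ, (u : ℝ) * S f x = n * Ω := by
    intro x
    induction x using OnePoint.rec with
    | infty => exact ⟨0, by simp [S]⟩
    | coe x =>
      have h1 := hecke_int hper hl hl1 (al := a l) (bd_hecke f ha hH hl hlN) x
      obtain ⟨k, hk⟩ := AddSubgroup.mem_zmultiples_iff.1 h1
      exact ⟨k, by rw [hu, ← hk, zsmul_eq_mul]⟩
  choose n hn using hex
  have hinj : ∀ k m : ℤ, (k : ℝ) * Ω = m * Ω → k = m := by
    intro k m h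
    exact_mod_cast mul_right_cancel₀ hΩ h
  have hn0 : n ∞ = 0 := by
    apply hinj
    rw [← hn]
    simp [S]
  have hsmul : ∀ γ ∈ Gamma0 N, ∀ x y : OnePoint ℚ,
      n (mapGL ℚ γ • y) - n (mapGL ℚ γ • x) = n y - n x := by
    intro γ hγ x y
    apply hinj
    push_cast
    rw [sub_mul, sub_mul, ← hn, ← hn, ← hn, ← hn, S_smul f hγ, S_smul f hγ]
    ring
  let φ : ModSym N ℤ :=
    { val := fun x y => n y - n x
      chain := fun x y z => by ring
      inv := fun γ hγ x y => hsmul γ hγ x y }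
  have hneg : ∀ x : OnePoint ℚ, n (OnePoint.map (fun t : ℚ => -t) x) = n x := by
    intro x
    apply hinj
    rw [← hn, ← hn]
    congr 1
    rw [S, S, bd_neg f (a := fun n => ((a n : ℤ) : ℂ)) ha (fun n => by simp), conj_re]
  have hhecke : ∀ q : ℕ, q.Prime → ¬ q ∣ N → ∀ x : OnePoint ℚ,
      n (OnePoint.map (fun t : ℚ => (q : ℚ) * t) x) +
        ∑ k ∈ Finset.range q, n (OnePoint.map (fun t : ℚ => (t + k) / (q : ℚ)) x) = a q * n x := by
    intro q hq hqN x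
    induction x using OnePoint.rec with
    | infty => simp [hn0]
    | coe x =>
      apply hinj
      simp only [OnePoint.map_some]
      push_cast
      rw [add_mul, Finset.sum_mul, mul_assoc, ← hn, ← hn]
      simp only [← hn]
      have h1 := congrArg Complex.re (bd_hecke f ha hH hq hqN x)
      rw [add_re, re_sum] at h1
      have h2 : (((a q : ℤ) : ℂ) * bd (G f) (x : OnePoint ℚ)).re = a q * S f (x : OnePoint ℚ) := by
        rw [S, show (((a q : ℤ) : ℂ)) = (((a q : ℤ) : ℝ) : ℂ) by push_cast; rfl, re_ofReal_mul]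
      rw [h2] at h1
      rw [← Finset.mul_sum]
      simp only [S] at h1 ⊢
      linear_combination (u : ℝ) * h1
  refine ⟨φ, fun x => ?_, fun x y => ?_, fun q hq hqN x y => ?_⟩
  · show (u : ℝ) * S f x = ((n x - n ∞ : ℤ) : ℝ) * Ω
    rw [hn0, sub_zero, hn]
  · show n _ - n _ = 1 * (n y - n x)
    rw [hneg, hneg, one_mul]
  · show (n _ - n _) + ∑ k ∈ Finset.range q, (n _ - n _) = a q * (n y - n x)
    rw [Finset.sum_sub_distrib, mul_sub, ← hhecke q hq hqN x, ← hhecke q hq hqN y]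
    ring

/-- The periods of this symbol over `Γ₁(N)`. -/
theorem int_sym_periods {f : CuspForm (Gamma0 N) 2} {Ω : ℝ} (hΩ : Ω ≠ 0)
    (hper : {r : ℝ | ∃ γ ∈ Gamma1 N, r = (period f γ).re} = {r : ℝ | ∃ k : ℤ, r = k * Ω})
    {u : ℤ} {φ : ModSym N ℤ} (hφ : ∀ x : OnePoint ℚ, (u : ℝ) * S f x = (φ.val ∞ x : ℤ) * Ω) :
    (∀ γ ∈ Gamma1 N, u ∣ φ.val ∞ (mapGL ℚ γ • ∞)) ∧
      ∃ γ ∈ Gamma1 N, φ.val ∞ (mapGL ℚ γ • ∞) = u := by
  have hinj : ∀ k m : ℤ, (k : ℝ) * Ω = m * Ω → k = m := by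
    intro k m h
    exact_mod_cast mul_right_cancel₀ hΩ h
  have hval : ∀ γ ∈ Gamma1 N, (u : ℝ) * (period f γ).re = (φ.val ∞ (mapGL ℚ γ • ∞) : ℤ) * Ω := by
    intro γ hγ
    rw [← hφ, S_smul f (Gamma1_in_Gamma0 N hγ)]
    simp [S]
  constructor
  · intro γ hγ
    have h1 : (period f γ).re ∈ {r : ℝ | ∃ k : ℤ, r = k * Ω} := by
      rw [← hper]
      exact ⟨γ, hγ, rfl⟩
    obtain ⟨k, hk⟩ := h1
    refine ⟨k, hinj _ _ ?_⟩
    rw [← hval γ hγ, hk]
    push_cast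
    ring
  · have h1 : Ω ∈ {r : ℝ | ∃ γ ∈ Gamma1 N, r = (period f γ).re} := by
      rw [hper]
      exact ⟨1, by simp⟩
    obtain ⟨γ, hγ, hk⟩ := h1
    refine ⟨γ, hγ, hinj _ _ ?_⟩
    rw [← hval γ hγ, ← hk]

end Pool.Agent.MZ.Per
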