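import Pool.Agent.MZ.PerK
import Pool.Agent.MZ.Eval
import Pool.Agent.MZ.Gauss
import Pool.Agent.MZ.Content

/-!
# The interpolation property
-/

set_option autoImplicit false

open Filter Topology Complex Function CongruenceSubgroup
open Matrix.SpecialLinearGroup (mapGL)
open scoped MatrixGroups Real ModularForm OnePoint ComplexConjugate

namespace Pool.Agent.MZ.Per

/-- The field of algebraic numbers in `ℂ`. -/
abbrev Qbar : Type := algebraicClosure ℚ ℂ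

/-- `L` is the `p`-adic `L`-function of Mazur and Swinnerton-Dyer of a form with `q`-expansion
`∑ a(k) q^k`, for the period `Ω`. -/
structure IsMSD (p : ℕ) [Fact p.Prime] (a : ℕ → ℤ) (Ω : ℝ) (α : ℤ_[p]ˣ)
    (L : PowerSeries ℚ_[p]) : Prop where
  bdd : ∃ B : ℝ, ∀ i, ‖PowerSeries.coeff i L‖ ≤ B
  one : ∃ r : ℚ, IsLValue (fun k => (a k : ℂ)) ((r : ℂ) * Ω) ∧
    PowerSeries.coeff 0 L = (1 - (((α⁻¹ : ℤ_[p]ˣ) : ℤ_[p]) : ℚ_[p])) ^ 2 * (r : ℚ_[p])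
  chi : ∀ (n : ℕ) (χ : DirichletCharacter Qbar (p ^ (n + 1))), χ.IsPrimitive →
    (∃ k : ℕ, χ ^ (p ^ k) = 1) → ∀ j : Qbar →+* ℂ_[p], ∃ v : Qbar,
      IsLValue (fun k => ((χ⁻¹ (k : ZMod (p ^ (n + 1))) : Qbar) : ℂ) * (a k : ℂ))
        ((v : ℂ) * Ω * gaussSum (χ⁻¹.ringHomComp (algebraMap Qbar ℂ)) ZMod.stdAddChar /
          (p : ℂ) ^ (n + 1)) ∧
      HasSum (fun i => algebraMap ℚ_[p] ℂ_[p] (PowerSeries.coeff i L) *
          (j (χ ((1 + p : ℕ) : ZMod (p ^ (n + 1)))) - 1) ^ i)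
        (algebraMap ℚ_[p] ℂ_[p] (((α⁻¹ : ℤ_[p]ˣ) : ℤ_[p]) : ℚ_[p]) ^ (n + 1) * j v)

theorem even_of_pow {K : Type*} [Field K] {p : ℕ} (hp : p.Prime) (hp2 : p ≠ 2) {m : ℕ}
    {χ : DirichletCharacter K m} {k : ℕ} (hk : χ ^ (p ^ k) = 1) : χ (-1) = 1 := by
  have h1 : χ (-1) ^ 2 = 1 := by
    rw [← map_pow]
    simp
  have h2 : χ (-1) ^ (p ^ k) = 1 := by
    have h3 : (χ ^ (p ^ k)) (-1) = 1 := by
      rw [hk]
      exact MulChar.one_apply (isUnit_one.neg)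
    rwa [MulChar.pow_apply' _ (pow_ne_zero _ hp.ne_zero)] at h3
  have hodd : Odd (p ^ k) := (hp.odd_of_ne_two hp2).pow
  obtain ⟨t, ht⟩ := hodd
  rw [ht, pow_succ, pow_mul, h1, one_pow, one_mul] at h2
  exact h2

theorem chi_pow {K : Type*} [Field K] {p : ℕ} {n : ℕ}
    (χ : DirichletCharacter K (p ^ (n + 1))) :
    χ ((1 + p : ℕ) : ZMod (p ^ (n + 1))) ^ (p ^ n) = 1 := by
  have h1 : ((1 + p : ℕ) : ZMod (p ^ (n + 1))) ^ (p ^ n) = 1 := by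
    have h2 : ((p : ℤ)) ∣ (1 + p : ℤ) - 1 := ⟨1, by ring⟩
    have h3 := dvd_sub_pow_of_dvd_sub h2 n
    rw [one_pow] at h3
    have h4 : (((1 + p : ℤ) ^ (p ^ n) - 1 : ℤ) : ZMod (p ^ (n + 1))) = 0 := by
      rw [ZMod.intCast_zmod_eq_zero_iff_dvd]
      push_cast
      exact h3
    push_cast at h4 ⊢
    exact sub_eq_zero.1 h4
  rw [← map_pow, h1, map_one]

theorem isLValue_Qbar {N : ℕ} [NeZero N] (f : CuspForm (Gamma0 N) 2) {a : ℕ → ℤ}
    (ha : ∀ n, (UpperHalfPlane.qExpansion 1 f).coeff n = a n) {u : ℤ} (hu : u ≠ 0) {Ω : ℝ}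
    {φ : ModSym N ℤ} (hφ : ∀ x : OnePoint ℚ, (u : ℝ) * S f x = (φ.val ∞ x : ℤ) * Ω)
    {m : ℕ} [NeZero m] (χ : DirichletCharacter Qbar m) (hχ : χ.IsPrimitive)
    (heven : χ (-1) = 1) :
    IsLValue (fun k => ((χ⁻¹ (k : ZMod m) : Qbar) : ℂ) * (a k : ℂ))
      (((∑ b ∈ Finset.range m, χ (b : ZMod m) *
        ((φ.val ∞ (((b : ℚ) / (m : ℚ) : ℚ) : OnePoint ℚ) : ℤ) : Qbar) / (u : Qbar) : Qbar) : ℂ) *
          Ω * gaussSum (χ⁻¹.ringHomComp (algebraMap Qbar ℂ)) ZMod.stdAddChar / m) := by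
  set χ' : DirichletCharacter ℂ m := χ.ringHomComp (algebraMap Qbar ℂ) with hχ'
  have hprim : χ'.IsPrimitive := (isPrimitive_ringHomComp χ _).2 hχ
  have heven' : χ' (-1) = 1 := by
    rw [hχ', MulChar.ringHomComp_apply, heven, map_one]
  have hττ : gaussSum χ' ZMod.stdAddChar * gaussSum χ'⁻¹ ZMod.stdAddChar = m := by
    rw [gauss_mul_inv hprim, heven', one_mul]
  have h1 := isLValue_char f ha (NeZero.pos m) χ' heven' (fun k => gauss_sum_range hprim k) hττ hu hφ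
  have h2 : χ'⁻¹ = χ⁻¹.ringHomComp (algebraMap Qbar ℂ) := by
    rw [hχ', MulChar.ringHomComp_inv]
  rw [h2] at h1
  convert! h1 using 4
  show algebraMap Qbar ℂ _ = _
  rw [map_sum]
  refine Finset.sum_congr rfl fun b _ => ?_
  rw [map_div₀, map_mul, map_intCast, map_intCast]
  rfl

theorem isMSD_exists {N : ℕ} [NeZero N] {p : ℕ} [hp : Fact p.Prime] (hp2 : p ≠ 2)
    (f : CuspForm (Gamma0 N) 2) {a : ℕ → ℤ}
    (ha : ∀ n, (UpperHalfPlane.qExpansion 1 f).coeff n = a n) {α : ℤ_[p]ˣ}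
    (hα : (α : ℤ_[p]) ^ 2 - (a p : ℤ_[p]) * α + p = 0) {u : ℤ} (hu : u ≠ 0) {Ω : ℝ}
    {φ : ModSym N ℤ} (hφ : ∀ x : OnePoint ℚ, (u : ℝ) * S f x = (φ.val ∞ x : ℤ) * Ω)
    (hH : φ.HeckeEigen p (a p)) {L : PowerSeries ℤ_[p]}
    (hL : IsPadicL (φ.map (Int.castRingHom ℤ_[p])) p α L) :
    IsMSD p a Ω α (PowerSeries.mk fun i => ((PowerSeries.coeff i L : ℤ_[p]) : ℚ_[p]) / (u : ℚ_[p])) := by
  have huq : (u : ℚ_[p]) ≠ 0 := by exact_mod_cast hu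
  have hH' : (φ.map (Int.castRingHom ℤ_[p])).HeckeEigen p ((a p : ℤ) : ℤ_[p]) := hH.map _
  refine ⟨⟨1 / ‖(u : ℚ_[p])‖, fun i => ?_⟩, ?_, ?_⟩
  · rw [PowerSeries.coeff_mk, norm_div]
    have h1 : ‖((PowerSeries.coeff i L : ℤ_[p]) : ℚ_[p])‖ ≤ 1 := PadicInt.norm_le_one _
    gcongr
  · refine ⟨((φ.val ∞ ((0 : ℚ) : OnePoint ℚ) : ℤ) : ℚ) / (u : ℚ), isLValue_one f ha hu hφ, ?_⟩
    rw [PowerSeries.coeff_mk, coeff_zero_padicL _ α _ hH' hα L hL]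
    simp only [ModSym.map_val, eq_intCast]
    push_cast
    ring
  · intro n χ hχ hk j
    obtain ⟨k, hk⟩ := hk
    have hm : 0 < p ^ (n + 1) := pow_pos hp.out.pos _
    have hNZ : NeZero (p ^ (n + 1)) := ⟨hm.ne'⟩
    have h1 := isLValue_Qbar f ha hu hφ χ hχ (even_of_pow hp.out hp2 hk)
    refine ⟨_, by
      convert! h1 using 2
      push_cast
      rfl, ?_⟩
    -- the `p`-adic side
    set ι : ℤ_[p] →+* ℂ_[p] := (algebraMap ℚ_[p] ℂ_[p]).comp PadicInt.Coe.ringHom with hι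
    set χ' : DirichletCharacter ℂ_[p] (p ^ (n + 1)) := χ.ringHomComp j with hχ'
    have hprim : χ'.IsPrimitive := (isPrimitive_ringHomComp χ _).2 hχ
    have hk' : χ' ^ (p ^ k) = 1 := by
      rw [hχ', MulChar.ringHomComp_pow, hk, MulChar.ringHomComp_one]
    set z : ℂ_[p] := χ' ((1 + p : ℕ) : ZMod (p ^ (n + 1))) with hz
    have hzp : z ^ (p ^ n) = 1 := chi_pow χ'
    have h2 := hasSum_eval L n (cc (φ.map (Int.castRingHom ℤ_[p])) p α n) (by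
      rw [← theta_eq]
      exact hL n) z hzp
    have h3 := theta_eval hp2 (φ.map (Int.castRingHom ℤ_[p])) α ι n hprim hk'
    have h4 : ∑ j ∈ Finset.range (p ^ n),
        algebraMap ℚ_[p] ℂ_[p] ((cc (φ.map (Int.castRingHom ℤ_[p])) p α n j : ℤ_[p]) : ℚ_[p]) * z ^ j =
      ι ((α⁻¹ : ℤ_[p]ˣ) : ℤ_[p]) ^ (n + 1) * ∑ b ∈ Finset.range (p ^ (n + 1)),
        χ' (b : ZMod (p ^ (n + 1))) * ι ((φ.map (Int.castRingHom ℤ_[p])).val ∞
          (((b : ℚ) / (p : ℚ) ^ (n + 1) : ℚ) : OnePoint ℚ)) := by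
      rw [← h3]
      have h5 : ∀ j : ℕ, algebraMap ℚ_[p] ℂ_[p]
          ((cc (φ.map (Int.castRingHom ℤ_[p])) p α n j : ℤ_[p]) : ℚ_[p]) * z ^ j =
          ∑ b ∈ (Finset.range (p ^ (n + 1))).filter
            (fun b => ¬ p ∣ b ∧ b ^ (p - 1) ≡ (1 + p) ^ (j * (p - 1)) [MOD p ^ (n + 1)]),
            ι (msd (φ.map (Int.castRingHom ℤ_[p])) p α n b) * z ^ j := by
        intro j
        show ι (cc (φ.map (Int.castRingHom ℤ_[p])) p α n j) * z ^ j = _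
        rw [cc, map_sum, Finset.sum_mul]
      rw [Finset.sum_congr rfl fun j _ => h5 j]
      refine Finset.sum_comm' ?_
      intro x y
      simp only [Finset.mem_filter]
      tauto
    rw [h4] at h2
    have h5 := h2.mul_right (algebraMap ℚ_[p] ℂ_[p] (u : ℚ_[p]))⁻¹
    convert! h5 using 1
    · ext i
      rw [PowerSeries.coeff_mk, map_div₀]
      show _ / _ * (z - 1) ^ i = _
      ring
    · rw [mul_assoc]
      congr 1
      rw [map_sum, Finset.sum_mul]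
      refine Finset.sum_congr rfl fun b _ => ?_
      rw [map_div₀, map_mul, map_intCast, map_intCast, ModSym.map_val]
      simp only [eq_intCast, map_intCast]
      push_cast
      rw [div_eq_mul_inv]
      rfl

end Pool.Agent.MZ.Per
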