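import Pool.Agent.MZ.PerF

/-!
# Maximum principle: `|a_l| < l + 1` for a cusp form of weight two
-/

set_option autoImplicit false

open UpperHalfPlane hiding I
open Filter Topology Complex Function CongruenceSubgroup Asymptotics
open Matrix.SpecialLinearGroup (mapGL)
open scoped MatrixGroups Manifold Real ModularForm OnePoint Modular

namespace Pool.Agent.MZ.Per

/-- An invariant nonnegative continuous function on the upper half plane tending to zero at all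
cusps attains its maximum. -/
theorem exists_max_of_invariant {F : ℍ → ℝ} (hc : Continuous F)
    (h0 : ∀ g : SL(2, ℤ), Tendsto (fun τ => F (g • τ)) atImInfty (𝓝 0))
    {Γ : Subgroup SL(2, ℤ)} [Γ.FiniteIndex] (hinv : ∀ g ∈ Γ, ∀ τ : ℍ, F (g • τ) = F τ)
    {τ1 : ℍ} (h1 : 0 < F τ1) : ∃ τ0 : ℍ, ∀ τ : ℍ, F τ ≤ F τ0 := by
  classical
  have : Finite (SL(2, ℤ) ⧸ Γ) := Subgroup.finite_quotient_of_finiteIndex
  have hfin : Fintype (SL(2, ℤ) ⧸ Γ) := Fintype.ofFinite _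
  -- representatives
  have hrep : ∀ (g : SL(2, ℤ)) (z : ℍ), F (g⁻¹ • z) = F ((Quotient.out (g : SL(2, ℤ) ⧸ Γ))⁻¹ • z) := by
    intro g z
    obtain ⟨h, hh⟩ := QuotientGroup.mk_out_eq_mul Γ g
    rw [hh, mul_inv_rev, mul_smul]
    exact (hinv _ (inv_mem h.2) _).symm
  set R : (SL(2, ℤ) ⧸ Γ) → SL(2, ℤ) := fun γ => (Quotient.out γ)⁻¹ with hR
  have hlim : ∀ γ : SL(2, ℤ) ⧸ Γ, ∃ y : ℝ, ∀ z : ℍ, y ≤ z.im → F (R γ • z) < F τ1 := by
    intro γ
    have h2 := (h0 (R γ)).eventually (gt_mem_nhds h1)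
    rw [UpperHalfPlane.atImInfty, eventually_comap, eventually_atTop] at h2
    obtain ⟨y, hy⟩ := h2
    exact ⟨y, fun z hz => hy _ hz z rfl⟩
  choose y hy using hlim
  set Y : ℝ := ∑ γ, |y γ| with hY
  have hyY : ∀ γ, y γ ≤ Y := by
    intro γ
    refine (le_abs_self _).trans ?_
    exact Finset.single_le_sum (f := fun γ => |y γ|) (fun γ _ => abs_nonneg _) (Finset.mem_univ γ)
  -- reduce
  have hred : ∀ τ : ℍ, ∃ (γ : SL(2, ℤ) ⧸ Γ) (z : ℍ), z ∈ 𝒟 ∧ F τ = F (R γ • z) := by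
    intro τ
    obtain ⟨g, hg⟩ := ModularGroup.exists_smul_mem_fd τ
    refine ⟨(g : SL(2, ℤ) ⧸ Γ), g • τ, hg, ?_⟩
    rw [hR]
    simp only
    rw [← hrep g (g • τ), inv_smul_smul]
  have hcpt := ModularGroup.isCompact_truncatedFundamentalDomain Y
  have hne : (ModularGroup.truncatedFundamentalDomain Y).Nonempty := by
    obtain ⟨γ, z, hz, hzF⟩ := hred τ1
    refine ⟨z, hz, ?_⟩
    by_contra hcon
    push Not at hcon
    have := hy γ z ((hyY γ).trans hcon.le)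
    rw [← hzF] at this
    exact lt_irrefl _ this
  have hmax : ∀ γ : SL(2, ℤ) ⧸ Γ, ∃ z ∈ ModularGroup.truncatedFundamentalDomain Y,
      ∀ w ∈ ModularGroup.truncatedFundamentalDomain Y, F (R γ • w) ≤ F (R γ • z) := by
    intro γ
    have hcont : ContinuousOn (fun z : ℍ => F (R γ • z)) (ModularGroup.truncatedFundamentalDomain Y) := by
      apply Continuous.continuousOn
      have h5 : Continuous (fun z : ℍ => R γ • z) := by
        simp only [ModularGroup.sl_moeb]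
        fun_prop
      exact hc.comp h5
    obtain ⟨z, hz, hzm⟩ := hcpt.exists_isMaxOn hne hcont
    exact ⟨z, hz, fun w hw => hzm hw⟩
  choose zm hzm hzmax using hmax
  obtain ⟨γ0, hγ0⟩ := Finite.exists_max (fun γ : SL(2, ℤ) ⧸ Γ => F (R γ • zm γ))
  refine ⟨R γ0 • zm γ0, ?_⟩
  have hcase : ∀ τ : ℍ, F τ ≤ F (R γ0 • zm γ0) ∨ F τ < F τ1 := by
    intro τ
    obtain ⟨γ, z, hz, hzF⟩ := hred τ
    by_cases h3 : z.im ≤ Y
    · left
      rw [hzF]
      exact (hzmax γ z ⟨hz, h3⟩).trans (hγ0 γ)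
    · right
      push Not at h3
      rw [hzF]
      exact hy γ z ((hyY γ).trans h3.le)
  have h4 : F τ1 ≤ F (R γ0 • zm γ0) := by
    rcases hcase τ1 with h | h
    · exact h
    · exact absurd h (lt_irrefl _)
  intro τ
  rcases hcase τ with h | h
  · exact h
  · exact h.le.trans h4

variable {N : ℕ} [NeZero N]

open ConjAct Pointwise in
theorem zero_infty {Γ : Subgroup (GL (Fin 2) ℝ)} [Γ.IsArithmetic] (f : CuspForm Γ 2)
    (g : SL(2, ℤ)) :
    Tendsto (fun τ => ‖petersson 2 f f (g • τ)‖) atImInfty (𝓝 0) := by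
  rw [← tendsto_zero_iff_norm_tendsto_zero]
  simp_rw [← UpperHalfPlane.petersson_slash_SL]
  have : ((toConjAct (g : GL (Fin 2) ℝ)⁻¹) • Γ).IsArithmetic := by
    simpa [(show Rat.castHom ℝ = algebraMap ℚ ℝ by rfl), map_inv,
      Matrix.SpecialLinearGroup.map_mapGL]
      using! Subgroup.IsArithmetic.conj Γ (mapGL ℚ g)⁻¹
  exact (CuspFormClass.zero_at_infty <| CuspForm.translate f g).petersson_isZeroAtImInfty_left 2 _
    (ModularForm.translate f g)

theorem norm_petersson (f : ℍ → ℂ) (τ : ℍ) : ‖petersson 2 f f τ‖ = (‖f τ‖ * τ.im) ^ 2 := by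
  rw [petersson, norm_mul, norm_mul, Complex.norm_conj, norm_zpow, Complex.norm_real,
    Real.norm_of_nonneg τ.im_pos.le]
  norm_cast
  ring

/-- the maximum of `|f| y` is attained -/
theorem exists_max (f : CuspForm (Gamma0 N) 2) (hf : ∃ τ : ℍ, f τ ≠ 0) :
    ∃ τ0 : ℍ, 0 < ‖f τ0‖ * τ0.im ∧ ∀ τ : ℍ, ‖f τ‖ * τ.im ≤ ‖f τ0‖ * τ0.im := by
  obtain ⟨τ1, h1⟩ := hf
  have hpos : 0 < ‖petersson 2 f f τ1‖ := by
    rw [norm_petersson]
    have := norm_pos_iff.2 h1
    have := τ1.im_pos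
    positivity
  have hcf : Continuous f := f.holo'.continuous
  obtain ⟨τ0, h0⟩ := exists_max_of_invariant (Γ := Gamma0 N) (F := fun τ => ‖petersson 2 f f τ‖)
    (by fun_prop) (zero_infty f) (fun g hg τ => SlashInvariantFormClass.norm_petersson_smul
      (Γ := ((Gamma0 N : Subgroup SL(2, ℤ)) : Subgroup (GL (Fin 2) ℝ))) (g := (g : GL (Fin 2) ℝ))
      (by exact ⟨g, hg, rfl⟩)) hpos
  have hle : ∀ τ : ℍ, ‖f τ‖ * τ.im ≤ ‖f τ0‖ * τ0.im := by
    intro τ
    have := h0 τ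
    simp only [norm_petersson] at this
    have h2 : 0 ≤ ‖f τ0‖ * τ0.im := mul_nonneg (norm_nonneg _) τ0.im_pos.le
    exact le_of_sq_le_sq this h2
  refine ⟨τ0, lt_of_lt_of_le ?_ (hle τ1), hle⟩
  exact mul_pos (norm_pos_iff.2 h1) τ1.im_pos

theorem im_ofComplex_eq {z : ℂ} (hz : 0 < z.im) : (ofComplex z).im = z.im := by
  rw [ofComplex_apply_of_im_pos hz]
  rfl

/-- **Strict Hecke bound**: if `T_l f = a f` for a nonzero cusp form `f` of weight two then
`|a| < l + 1`. -/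
theorem norm_lt (f : CuspForm (Gamma0 N) 2) (hf : ∃ τ : ℍ, f τ ≠ 0) {l : ℕ} (hl : 2 ≤ l) {al : ℂ}
    (hrel : ∀ z : ℂ, 0 < z.im → (∑ k ∈ Finset.range l, f (ofComplex ((z + k) / l))) * (l : ℂ)⁻¹ +
      (l : ℂ) * f (ofComplex (l * z)) = al * f (ofComplex z)) : ‖al‖ < l + 1 := by
  by_contra hcon
  push Not at hcon
  obtain ⟨τ0, hpos, hmax⟩ := exists_max f hf
  set M : ℝ := ‖f τ0‖ * τ0.im with hM
  have hl0 : 0 < l := by omega
  have hlr : (0 : ℝ) < l := by exact_mod_cast hl0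
  -- bounds at points of the plane
  have hb : ∀ z : ℂ, 0 < z.im → ‖f (ofComplex z)‖ * z.im ≤ M := by
    intro z hz
    have := hmax (ofComplex z)
    rwa [im_ofComplex_eq hz] at this
  have him : ∀ (z : ℂ) (k : ℕ), ((z + k) / l).im = z.im / l := by
    intro z k
    rw [Complex.div_natCast_im]
    simp
  have him2 : ∀ z : ℂ, ((l : ℂ) * z).im = l * z.im := by
    intro z
    simp only [mul_im, natCast_re, natCast_im, zero_mul, add_zero]
  -- a maximum point is moved to a maximum point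
  have hstep : ∀ z : ℂ, 0 < z.im → M ≤ ‖f (ofComplex z)‖ * z.im →
      M ≤ ‖f (ofComplex (l * z))‖ * ((l : ℂ) * z).im := by
    intro z hz hzM
    have h1 := congrArg norm (hrel z hz)
    rw [norm_mul] at h1
    have h2 : ‖al‖ * ‖f (ofComplex z)‖ ≤ (∑ k ∈ Finset.range l, ‖f (ofComplex ((z + k) / l))‖) *
        (l : ℝ)⁻¹ + l * ‖f (ofComplex (l * z))‖ := by
      rw [← h1]
      refine (norm_add_le _ _).trans ?_
      rw [norm_mul, norm_mul, norm_inv, Complex.norm_natCast]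
      gcongr
      exact norm_sum_le _ _
    have h3 : ((l : ℝ) + 1) * M ≤ ‖al‖ * ‖f (ofComplex z)‖ * z.im := by
      rw [mul_assoc]
      exact mul_le_mul hcon hzM hpos.le (norm_nonneg _)
    have h4 : (∑ k ∈ Finset.range l, ‖f (ofComplex ((z + k) / l))‖) * (l : ℝ)⁻¹ * z.im ≤ l * M := by
      have h5 : (∑ k ∈ Finset.range l, ‖f (ofComplex ((z + k) / l))‖) * (l : ℝ)⁻¹ * z.im =
          ∑ k ∈ Finset.range l, ‖f (ofComplex ((z + k) / l))‖ * (z.im / l) := by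
        rw [mul_assoc, Finset.sum_mul]
        refine Finset.sum_congr rfl fun k _ => ?_
        rw [div_eq_mul_inv (z.im), mul_comm (z.im)]
      rw [h5]
      calc _ ≤ ∑ _k ∈ Finset.range l, M := by
            refine Finset.sum_le_sum fun k _ => ?_
            have := hb ((z + k) / l) (by rw [him]; positivity)
            rwa [him] at this
        _ = l * M := by simp
    have h6 : ‖al‖ * ‖f (ofComplex z)‖ * z.im ≤
        (∑ k ∈ Finset.range l, ‖f (ofComplex ((z + k) / l))‖) * (l : ℝ)⁻¹ * z.im +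
          l * ‖f (ofComplex (l * z))‖ * z.im := by
      have := mul_le_mul_of_nonneg_right h2 hz.le
      linarith
    rw [him2]
    nlinarith
  -- iterate
  have hiter : ∀ n : ℕ, M ≤ ‖f (ofComplex ((l : ℂ) ^ n * (τ0 : ℂ)))‖ * ((l : ℝ) ^ n * τ0.im) ∧
      ((l : ℂ) ^ n * (τ0 : ℂ)).im = (l : ℝ) ^ n * τ0.im := by
    intro n
    induction n with
    | zero => simp [hM]
    | succ n ih =>
      obtain ⟨ih1, ih2⟩ := ih
      have hz : 0 < ((l : ℂ) ^ n * (τ0 : ℂ)).im := by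
        rw [ih2]
        have := τ0.im_pos
        positivity
      have h1 := hstep _ hz (by rw [ih2]; exact ih1)
      have h2 : (l : ℂ) * ((l : ℂ) ^ n * (τ0 : ℂ)) = (l : ℂ) ^ (n + 1) * (τ0 : ℂ) := by ring
      have h3 : ((l : ℂ) ^ (n + 1) * (τ0 : ℂ)).im = (l : ℝ) ^ (n + 1) * τ0.im := by
        rw [← h2, him2, ih2]; ring
      rw [h2, h3] at h1
      exact ⟨h1, h3⟩
  -- but `|f| y` tends to zero
  have hz := zero_infty f 1
  simp only [one_smul, norm_petersson] at hz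
  have h1 := hz.eventually (gt_mem_nhds (show 0 < M ^ 2 by positivity))
  rw [UpperHalfPlane.atImInfty, eventually_comap, eventually_atTop] at h1
  obtain ⟨y, hy⟩ := h1
  have hl1 : (1 : ℝ) < l := by exact_mod_cast hl
  obtain ⟨n, hn⟩ := pow_unbounded_of_one_lt (y / τ0.im) hl1
  rw [div_lt_iff₀ τ0.im_pos] at hn
  obtain ⟨h2, h3⟩ := hiter n
  have h4 : 0 < ((l : ℂ) ^ n * (τ0 : ℂ)).im := by
    rw [h3]
    have := τ0.im_pos
    positivity
  have h5 := hy _ (by rw [im_ofComplex_eq h4, h3]; exact hn.le)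
    (ofComplex ((l : ℂ) ^ n * (τ0 : ℂ))) rfl
  rw [im_ofComplex_eq h4, h3] at h5
  have h6 : M ^ 2 ≤ (‖f (ofComplex ((l : ℂ) ^ n * (τ0 : ℂ)))‖ * ((l : ℝ) ^ n * τ0.im)) ^ 2 :=
    pow_le_pow_left₀ hpos.le h2 2
  exact absurd h5 (not_lt.2 h6)

/-- `a_l ≠ l + 1` for a nonzero Hecke eigenform of weight two, in terms of the `q`-expansion -/
theorem coeff_ne (f : CuspForm (Gamma0 N) 2) (hf : ∃ τ : ℍ, f τ ≠ 0) {a : ℕ → ℂ}
    (ha : ∀ n, (qExpansion 1 f).coeff n = a n) {l : ℕ} (hl : 2 ≤ l) {al : ℂ}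
    (hrel : ∀ n, a (l * n) + (if l ∣ n then (l : ℂ) * a (n / l) else 0) = al * a n) :
    al ≠ l + 1 := by
  intro hal
  have h1 := norm_lt f hf hl (al := al) (fun z hz => hecke_f (hasSum_q f ha) (by omega) hrel hz)
  rw [hal] at h1
  have h2 : ‖((l : ℂ) + 1)‖ = l + 1 := by
    have : ((l : ℂ) + 1) = (((l + 1 : ℕ)) : ℂ) := by push_cast; rfl
    rw [this, Complex.norm_natCast]
    push_cast
    rfl
  rw [h2] at h1
  exact lt_irrefl _ h1

/-- there is a prime `l ≡ 1` mod `N`, not dividing `N`, with `a_l ≠ l + 1` (in fact every prime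
not dividing `N` has this property) -/
theorem exists_prime_ne (f : CuspForm (Gamma0 N) 2) (hf : ∃ τ : ℍ, f τ ≠ 0) {a : ℕ → ℂ}
    (ha : ∀ n, (qExpansion 1 f).coeff n = a n)
    (hrel : ∀ l : ℕ, l.Prime → ¬ l ∣ N → ∀ n,
      a (l * n) + (if l ∣ n then (l : ℂ) * a (n / l) else 0) = a l * a n) (m : ℕ) :
    ∃ l : ℕ, l.Prime ∧ m < l ∧ l ≡ 1 [MOD N] ∧ ¬ l ∣ N ∧ a l ≠ l + 1 := by
  obtain ⟨l, hl, hlm, hlN⟩ := Nat.exists_prime_gt_modEq_one (k := N) (m + N) (NeZero.ne N)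
  have hndvd : ¬ l ∣ N := by
    intro hh
    have := Nat.le_of_dvd (Nat.pos_of_ne_zero (NeZero.ne N)) hh
    omega
  exact ⟨l, hl, by omega, hlN, hndvd, coeff_ne f hf ha hl.two_le (hrel l hl hndvd)⟩

end Pool.Agent.MZ.Per
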