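import Pool.Agent.MZ.PerL
import Pool.Agent.MZ.Ram
import Pool.Agent.MZ.Exact

/-!
# The `p`-adic `L`-function of a cusp form of weight two
-/

set_option autoImplicit false

open Filter Topology Complex Function CongruenceSubgroup
open Matrix.SpecialLinearGroup (mapGL)
open scoped MatrixGroups Real ModularForm OnePoint ComplexConjugate

namespace Pool.Agent.MZ.Per

/-- The unit root. -/
theorem exists_unit_root {p : ℕ} [hp : Fact p.Prime] {a : ℤ} (ha : ¬ (p : ℤ) ∣ a) :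
    ∃ α : ℤ_[p]ˣ, (α : ℤ_[p]) ^ 2 - (a : ℤ_[p]) * α + p = 0 := by
  have hna : ‖(a : ℤ_[p])‖ = 1 := by
    rw [PadicInt.norm_intCast_eq_one_iff, Int.isCoprime_iff_gcd_eq_one, Int.gcd_comm]
    exact (Nat.Prime.coprime_iff_not_dvd hp.out).2 (fun h => ha (Int.natCast_dvd.2 h))
  set F : Polynomial ℤ_[p] := Polynomial.X ^ 2 - Polynomial.C (a : ℤ_[p]) * Polynomial.X +
    Polynomial.C (p : ℤ_[p]) with hF
  have hFev : ∀ x : ℤ_[p], F.aeval x = x ^ 2 - (a : ℤ_[p]) * x + p := by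
    intro x
    simp [hF]
  have hFd : ∀ x : ℤ_[p], F.derivative.aeval x = 2 * x - (a : ℤ_[p]) := by
    intro x
    simp [hF, one_add_one_eq_two]
  have h1 : ‖F.aeval (a : ℤ_[p])‖ < ‖F.derivative.aeval (a : ℤ_[p])‖ ^ 2 := by
    rw [hFev, hFd]
    have e1 : (a : ℤ_[p]) ^ 2 - (a : ℤ_[p]) * a + p = p := by ring
    have e2 : 2 * (a : ℤ_[p]) - (a : ℤ_[p]) = a := by ring
    rw [e1, e2, hna, one_pow]
    rw [PadicInt.norm_p]
    exact inv_lt_one_of_one_lt₀ (by exact_mod_cast hp.out.one_lt)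
  obtain ⟨z, hz, hz2, -, -⟩ := hensels_lemma h1
  have hzn : ‖z‖ = 1 := by
    have e2 : ‖F.derivative.aeval (a : ℤ_[p])‖ = 1 := by
      rw [hFd]
      have e2 : 2 * (a : ℤ_[p]) - (a : ℤ_[p]) = a := by ring
      rw [e2, hna]
    rw [e2] at hz2
    have h3 : ‖z - (a : ℤ_[p])‖ ≠ ‖(a : ℤ_[p])‖ := by
      rw [hna]
      exact hz2.ne
    have h4 := PadicInt.norm_add_eq_max_of_ne h3
    rw [sub_add_cancel] at h4
    rw [h4, hna, max_eq_right hz2.le]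
  refine ⟨(PadicInt.isUnit_iff.2 hzn).unit, ?_⟩
  rw [IsUnit.unit_spec]
  rw [hFev] at hz
  exact hz

theorem dvd_iff_norm {p : ℕ} [hp : Fact p.Prime] (x : ℤ_[p]) (K : ℕ) :
    (p : ℤ_[p]) ^ K ∣ x ↔ ‖x‖ ≤ ((p : ℝ) ^ K)⁻¹ := by
  have := PadicInt.norm_le_pow_iff_mem_span_pow x K
  rw [Ideal.mem_span_singleton] at this
  rw [← this, zpow_neg, zpow_natCast]

/-- The valuation of a nonzero integer. -/
theorem exists_norm_int {p : ℕ} [hp : Fact p.Prime] {u : ℤ} (hu : u ≠ 0) :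
    ∃ K : ℕ, ‖(u : ℚ_[p])‖ = ((p : ℝ) ^ K)⁻¹ ∧ (p : ℤ) ^ K ∣ u := by
  have hfin : FiniteMultiplicity (p : ℤ) u := by
    rw [Int.finiteMultiplicity_iff]
    refine ⟨?_, hu⟩
    rw [Int.natAbs_natCast]
    exact hp.out.one_lt.ne'
  obtain ⟨c, hc, hnd⟩ := hfin.exists_eq_pow_mul_and_not_dvd
  refine ⟨multiplicity (p : ℤ) u, ?_, ⟨c, hc⟩⟩
  have h1 : ‖(c : ℚ_[p])‖ = 1 := by
    rw [Padic.norm_intCast_eq_one_iff, Int.isCoprime_iff_gcd_eq_one, Int.gcd_comm]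
    exact (Nat.Prime.coprime_iff_not_dvd hp.out).2 (fun h => hnd (Int.natCast_dvd.2 h))
  have h2 : (u : ℚ_[p]) = (p : ℚ_[p]) ^ (multiplicity (p : ℤ) u) * (c : ℚ_[p]) := by
    exact_mod_cast congrArg (fun t : ℤ => (t : ℚ_[p])) hc
  rw [h2, norm_mul, norm_pow, Padic.norm_p, h1, mul_one, inv_pow]

/-- Uniqueness of the `p`-adic `L`-function. -/
theorem isMSD_unique {p : ℕ} [hp : Fact p.Prime] (hp2 : p ≠ 2) {a : ℕ → ℤ} {Ω : ℝ} (hΩ : Ω ≠ 0)
    {α : ℤ_[p]ˣ} {L₁ L₂ : PowerSeries ℚ_[p]} (h₁ : IsMSD p a Ω α L₁) (h₂ : IsMSD p a Ω α L₂) :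
    L₁ = L₂ := by
  rw [← sub_eq_zero]
  have hΩc : (Ω : ℂ) ≠ 0 := by exact_mod_cast hΩ
  have halg : Algebra.IsAlgebraic ℚ Qbar := algebraicClosure.isAlgebraic ℚ ℂ
  have hclosed : IsAlgClosed Qbar := (algebraicClosure.isAlgClosure ℚ ℂ).isAlgClosed
  have hemb : Nonempty (Qbar →ₐ[ℚ] ℂ_[p]) := ⟨IsAlgClosed.lift⟩
  obtain ⟨j₀⟩ := hemb
  set j : Qbar →+* ℂ_[p] := (j₀ : Qbar →+* ℂ_[p]) with hj
  have hχ : ∀ n : ℕ, ∃ χ : DirichletCharacter Qbar (p ^ (n + 1 + 1)), χ.IsPrimitive ∧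
      χ ^ (p ^ (n + 1)) = 1 ∧ χ ((1 + p : ℕ) : ZMod (p ^ (n + 1 + 1))) ^ (p ^ n) ≠ 1 := by
    intro n
    exact exists_wild hp.out hp2 (n := n + 1) (by omega)
  choose χ hprim hpow hne using hχ
  refine eq_zero_of_zeros _ ?_ (fun n => j (χ n ((1 + p : ℕ) : ZMod (p ^ (n + 1 + 1))))) ?_ ?_
  · obtain ⟨B₁, hB₁⟩ := h₁.bdd
    obtain ⟨B₂, hB₂⟩ := h₂.bdd
    refine ⟨B₁ + B₂, fun i => ?_⟩
    rw [map_sub]
    exact (norm_sub_le _ _).trans (add_le_add (hB₁ i) (hB₂ i))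
  · intro n
    constructor
    · rw [← map_pow, chi_pow, map_one]
    · rw [← map_pow]
      intro h
      apply hne n
      rw [← map_one j] at h
      exact j.injective h
  · intro n
    obtain ⟨v₁, hv₁, hs₁⟩ := h₁.chi (n + 1) (χ n) (hprim n) ⟨n + 1, hpow n⟩ j
    obtain ⟨v₂, hv₂, hs₂⟩ := h₂.chi (n + 1) (χ n) (hprim n) ⟨n + 1, hpow n⟩ j
    have hNZ : NeZero (p ^ (n + 1 + 1)) := ⟨pow_ne_zero _ hp.out.ne_zero⟩
    have hv : v₁ = v₂ := by
      have h1 := hv₁.unique hv₂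
      have hpc : ((p : ℂ) ^ (n + 1 + 1)) ≠ 0 := pow_ne_zero _ (by exact_mod_cast hp.out.ne_zero)
      have hτ : gaussSum ((χ n)⁻¹.ringHomComp (algebraMap Qbar ℂ)) ZMod.stdAddChar ≠ 0 := by
        intro h0
        have hprim' : DirichletCharacter.IsPrimitive
            ((χ n).ringHomComp (algebraMap Qbar ℂ)) := (isPrimitive_ringHomComp _ _).2 (hprim n)
        have h2 := gauss_mul_inv hprim'
        rw [MulChar.ringHomComp_inv, h0, mul_zero, MulChar.ringHomComp_apply,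
          even_of_pow hp.out hp2 (hpow n), map_one, one_mul] at h2
        push_cast at h2
        exact hpc h2.symm
      rw [div_left_inj' hpc, mul_left_inj' hτ, mul_left_inj' hΩc] at h1
      exact Subtype.ext h1
    have h3 := hs₁.sub hs₂
    rw [hv, sub_self] at h3
    convert! h3 using 2 with i
    rw [map_sub, map_sub, sub_mul]

/-- **The `p`-adic `L`-function of a cusp form of weight two.** -/
theorem main {N : ℕ} (hN : N ≠ 0) {p : ℕ} [hp : Fact p.Prime] (hp2 : p ≠ 2) (hpN : ¬ p ∣ N)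
    (f : CuspForm (Gamma0 N) 2) {a : ℕ → ℤ}
    (ha : ∀ n, (UpperHalfPlane.qExpansion 1 f).coeff n = a n) (ha1 : a 1 = 1)
    (hH : HeckeRel N a) (hord : ¬ (p : ℤ) ∣ a p) {Ω : ℝ} (hΩ : Ω ≠ 0)
    (hper : {r : ℝ | ∃ γ ∈ Gamma1 N, r = (period f γ).re} = {r : ℝ | ∃ k : ℤ, r = k * Ω}) :
    ∃ α : ℤ_[p]ˣ, (α : ℤ_[p]) ^ 2 - (a p : ℤ_[p]) * α + p = 0 ∧
      ∃ L : PowerSeries ℚ_[p], IsMSD p a Ω α L ∧ (∀ L', IsMSD p a Ω α L' → L' = L) ∧
        (∀ i, ‖PowerSeries.coeff i L‖ ≤ 1) ∧ (p = 3 → ∃ i, ‖PowerSeries.coeff i L‖ = 1) := by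
  have hNZ : NeZero N := ⟨hN⟩
  obtain ⟨α, hα⟩ := exists_unit_root hord
  refine ⟨α, hα, ?_⟩
  -- the auxiliary prime
  have hf0 : ∃ τ : UpperHalfPlane, f τ ≠ 0 := by
    by_contra hcon
    push Not at hcon
    have h1 : (f : UpperHalfPlane → ℂ) = 0 := by
      ext τ
      exact hcon τ
    have h2 := ha 1
    rw [h1, UpperHalfPlane.qExpansion_zero, map_zero, ha1] at h2
    norm_num at h2
  obtain ⟨l, hl, -, hl1, hlN, hal⟩ := exists_prime_ne f hf0 (a := fun n => ((a n : ℤ) : ℂ)) ha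
    (by
      intro l hl hlN n
      have := hH l hl hlN n
      rw [← Int.cast_mul, ← this]
      push_cast
      rfl) 0
  set u : ℤ := (l : ℤ) + 1 - a l with hu
  have hu0 : u ≠ 0 := by
    intro h0
    apply hal
    have h1 : a l = (l : ℤ) + 1 := by linarith
    rw [h1]
    push_cast
    rfl
  have hl1' : (N : ℤ) ∣ (l : ℤ) - 1 := by
    have := (Nat.modEq_iff_dvd.1 hl1.symm)
    exact_mod_cast this
  have hper' : ∀ γ ∈ Gamma1 N, (period f γ).re ∈ AddSubgroup.zmultiples Ω := by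
    intro γ hγ
    have h1 : (period f γ).re ∈ {r : ℝ | ∃ k : ℤ, r = k * Ω} := by
      rw [← hper]
      exact ⟨γ, hγ, rfl⟩
    obtain ⟨k, hk⟩ := h1
    rw [AddSubgroup.mem_zmultiples_iff]
    exact ⟨k, by rw [hk, zsmul_eq_mul]⟩
  obtain ⟨φ, hφ, hsign, hhecke⟩ := exists_int_sym f ha hH hΩ hper' hl hl1'
  obtain ⟨hdiv, γ₀, hγ₀, hγ₀u⟩ := int_sym_periods hΩ hper hφ
  set φp : ModSym N ℤ_[p] := φ.map (Int.castRingHom ℤ_[p]) with hφp
  have hHp : ∀ q : ℕ, q.Prime → ¬ q ∣ N → φp.HeckeEigen q ((a q : ℤ) : ℤ_[p]) :=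
    fun q hq hqN => (hhecke q hq hqN).map _
  obtain ⟨L, hL, -⟩ := existsUnique_padicL hp2 φp α _ (hHp p hp.out hpN) hα
  have hMSD := isMSD_exists hp2 f ha hα hu0 hφ (hhecke p hp.out hpN) hL
  have hint : ∀ i, ‖PowerSeries.coeff i (PowerSeries.mk fun i =>
      ((PowerSeries.coeff i L : ℤ_[p]) : ℚ_[p]) / (u : ℚ_[p]))‖ ≤ 1 := by
    -- integrality
    intro i
    obtain ⟨K, hK, hKu⟩ := exists_norm_int (p := p) hu0
    rw [PowerSeries.coeff_mk, norm_div, hK]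
    have h1 : ∀ γ ∈ Gamma1 N, (p : ℤ_[p]) ^ K ∣ φp.val ∞ (mapGL ℚ γ • ∞) := by
      intro γ hγ
      obtain ⟨c, hc⟩ := hKu.trans (hdiv γ hγ)
      refine ⟨(c : ℤ_[p]), ?_⟩
      rw [hφp, ModSym.map_val, hc]
      simp
    have h2 := (periods_content hN hp2 hpN φp (fun q => ((a q : ℤ) : ℤ_[p])) hHp α hα K).2 h1
    have h3 := (content_iff K (fun n j => cc φp p α n j) L (by
      intro n
      rw [← theta_eq]
      exact hL n)).2 (by
        intro n j _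
        rw [cc]
        refine Finset.dvd_sum fun b hb => ?_
        rw [Finset.mem_filter] at hb
        exact h2 n b (fun h => hb.2.1 (by exact_mod_cast h))) i
    rw [dvd_iff_norm] at h3
    have hpos : 0 < ((p : ℝ) ^ K)⁻¹ := by
      have : (0 : ℝ) < p := by exact_mod_cast hp.out.pos
      positivity
    rw [div_le_one hpos]
    exact h3
  refine ⟨_, hMSD, fun L' hL' => isMSD_unique hp2 hΩ hL' hMSD, hint, ?_⟩
  · -- the case `p = 3`
    intro hp3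
    subst hp3
    by_contra hcon
    push Not at hcon
    obtain ⟨K, hK, hKu⟩ := exists_norm_int (p := 3) hu0
    have hpos : 0 < (((3 : ℕ) : ℝ) ^ K)⁻¹ := by positivity
    have h1 : ∀ i, ((3 : ℕ) : ℤ_[3]) ^ (K + 1) ∣ PowerSeries.coeff i L := by
      intro i
      have h2 := hcon i
      have h3 := hint i
      rw [PowerSeries.coeff_mk, norm_div, hK] at h2 h3
      have h4 : ‖((PowerSeries.coeff i L : ℤ_[3]) : ℚ_[3])‖ < (((3 : ℕ) : ℝ) ^ K)⁻¹ := by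
        rw [div_le_one hpos] at h3
        refine lt_of_le_of_ne h3 fun h => h2 ?_
        rw [h, div_self hpos.ne']
      rw [dvd_iff_norm]
      have h5 := (PadicInt.norm_le_pow_iff_norm_lt_pow_add_one (PowerSeries.coeff i L)
        (-((K : ℤ) + 1))).2 (by
          have : (-((K : ℤ) + 1)) + 1 = -(K : ℤ) := by ring
          rw [this, zpow_neg, zpow_natCast]
          exact h4)
      have h6 : (-((K : ℤ) + 1)) = -((K + 1 : ℕ) : ℤ) := by push_cast; ring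
      rw [h6, zpow_neg, zpow_natCast] at h5
      exact h5
    have hs3 : φp.HasSign 1 := by
      intro x y
      rw [hφp, ModSym.map_val, hsign x y, one_mul, one_mul, ModSym.map_val]
    have h2 := (content3 hN hpN φp hs3 (fun q => ((a q : ℤ) : ℤ_[3])) hHp α
      (by exact_mod_cast hα) L hL (K + 1)).1 (by exact_mod_cast h1) γ₀ hγ₀
    rw [hφp, ModSym.map_val, hγ₀u] at h2
    have h3 := (dvd_iff_norm (p := 3) ((Int.castRingHom ℤ_[3]) u) (K + 1)).1 (by exact_mod_cast h2)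
    have h4 : ‖(Int.castRingHom ℤ_[3]) u‖ = (((3 : ℕ) : ℝ) ^ K)⁻¹ := by
      rw [← hK]
      simp [PadicInt.norm_def]
    rw [h4] at h3
    have h5 : (((3 : ℕ) : ℝ) ^ (K + 1))⁻¹ < (((3 : ℕ) : ℝ) ^ K)⁻¹ := by
      rw [inv_lt_inv₀ (by positivity) (by positivity)]
      exact pow_lt_pow_right₀ (by norm_num) (Nat.lt_succ_self K)
    linarith

end Pool.Agent.MZ.Per
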