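import Pool.Agent.MZ.PerM

/-!
# Change of the period
-/

set_option autoImplicit false

open Filter Topology Complex Function CongruenceSubgroup
open Matrix.SpecialLinearGroup (mapGL)
open scoped MatrixGroups Real ModularForm OnePoint ComplexConjugate

namespace Pool.Agent.MZ.Per

/-- Change of the period. -/
theorem IsMSD.scale {p : ℕ} [hp : Fact p.Prime] {a : ℕ → ℤ} {Ω : ℝ} {q : ℚ}
    {α : ℤ_[p]ˣ} {L : PowerSeries ℚ_[p]} (h : IsMSD p a (q * Ω) α L) :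
    IsMSD p a Ω α (PowerSeries.C (q : ℚ_[p]) * L) := by
  refine ⟨?_, ?_, ?_⟩
  · obtain ⟨B, hB⟩ := h.bdd
    refine ⟨‖(q : ℚ_[p])‖ * B, fun i => ?_⟩
    rw [PowerSeries.coeff_C_mul, norm_mul]
    exact mul_le_mul_of_nonneg_left (hB i) (norm_nonneg _)
  · obtain ⟨r, hr, hc⟩ := h.one
    refine ⟨r * q, ?_, ?_⟩
    · convert! hr using 1
      push_cast
      ring
    · rw [PowerSeries.coeff_C_mul, hc]
      push_cast
      ring
  · intro n χ hχ hk j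
    obtain ⟨v, hv, hs⟩ := h.chi n χ hχ hk j
    refine ⟨(q : Qbar) * v, ?_, ?_⟩
    · convert! hv using 1
      push_cast
      ring
    · have h1 := hs.mul_left (algebraMap ℚ_[p] ℂ_[p] (q : ℚ_[p]))
      convert! h1 using 1
      · ext i
        rw [PowerSeries.coeff_C_mul, map_mul]
        ring
      · rw [map_mul, map_ratCast, map_ratCast]
        ring

/-- The `p`-adic `L`-function for an arbitrary real period. -/
theorem main_q {N : ℕ} (hN : N ≠ 0) {p : ℕ} [hp : Fact p.Prime] (hp2 : p ≠ 2) (hpN : ¬ p ∣ N)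
    (f : CuspForm (Gamma0 N) 2) {a : ℕ → ℤ}
    (ha : ∀ n, (UpperHalfPlane.qExpansion 1 f).coeff n = a n) (ha1 : a 1 = 1)
    (hH : HeckeRel N a) (hord : ¬ (p : ℤ) ∣ a p) {Ω : ℝ} (hΩ : Ω ≠ 0) {q : ℚ} (hq : q ≠ 0)
    (hper : {r : ℝ | ∃ γ ∈ Gamma1 N, r = (period f γ).re} =
      {r : ℝ | ∃ k : ℤ, r = k * (q * Ω)}) :
    ∃ α : ℤ_[p]ˣ, (α : ℤ_[p]) ^ 2 - (a p : ℤ_[p]) * α + p = 0 ∧
      ∃ L : PowerSeries ℚ_[p], IsMSD p a Ω α L ∧ (∀ L', IsMSD p a Ω α L' → L' = L) ∧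
        (∀ i, ‖PowerSeries.coeff i L‖ ≤ ‖(q : ℚ_[p])‖) ∧
        (p = 3 → ∃ i, ‖PowerSeries.coeff i L‖ = ‖(q : ℚ_[p])‖) := by
  have hqΩ : (q : ℝ) * Ω ≠ 0 := mul_ne_zero (by exact_mod_cast hq) hΩ
  obtain ⟨α, hα, L, hL, -, hint, hthree⟩ := main hN hp2 hpN f ha ha1 hH hord hqΩ hper
  refine ⟨α, hα, PowerSeries.C (q : ℚ_[p]) * L, hL.scale,
    fun L' hL' => isMSD_unique hp2 hΩ hL' hL.scale, fun i => ?_, fun h3 => ?_⟩
  · rw [PowerSeries.coeff_C_mul, norm_mul]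
    exact mul_le_of_le_one_right (norm_nonneg _) (hint i)
  · obtain ⟨i, hi⟩ := hthree h3
    exact ⟨i, by rw [PowerSeries.coeff_C_mul, norm_mul, hi, mul_one]⟩

end Pool.Agent.MZ.Per
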