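import Pool.Agent.MZ.PerN
import Pool.Agent.MZ.GaussBr
import Pool.Agent.MZ.Exact

/-!
# The tame branches of the `p`-adic `L`-function of a cusp form of weight two
-/

set_option autoImplicit false

open Filter Topology Complex Function CongruenceSubgroup
open Matrix.SpecialLinearGroup (mapGL)
open scoped MatrixGroups Real ModularForm OnePoint ComplexConjugate

namespace Pool.Agent.MZ.Per

/-- `L` is the `ψ`-branch of the `p`-adic `L`-function of Mazur and Swinnerton-Dyer of a form with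
`q`-expansion `∑ a(k) q^k`, for the period `Ω`. -/
structure IsMSDBr (p : ℕ) [Fact p.Prime] (a : ℕ → ℤ) (Ω : ℝ) (α : ℤ_[p]ˣ)
    (ψ : DirichletCharacter ℤ_[p] p) (L : PowerSeries ℚ_[p]) : Prop where
  bdd : ∃ B : ℝ, ∀ i, ‖PowerSeries.coeff i L‖ ≤ B
  one : ψ = 1 → ∃ r : ℚ, IsLValue (fun k => (a k : ℂ)) ((r : ℂ) * Ω) ∧
    PowerSeries.coeff 0 L = (1 - (((α⁻¹ : ℤ_[p]ˣ) : ℤ_[p]) : ℚ_[p])) ^ 2 * (r : ℚ_[p])
  chi : ∀ (n : ℕ) (χ : DirichletCharacter Qbar (p ^ (n + 1))), χ.IsPrimitive →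
    ∀ j : Qbar →+* ℂ_[p], (∀ b : ℕ, b ^ (p - 1) ≡ 1 [MOD p ^ (n + 1)] →
      j (χ (b : ZMod (p ^ (n + 1)))) =
        algebraMap ℚ_[p] ℂ_[p] ((ψ (b : ZMod p) : ℤ_[p]) : ℚ_[p])) → ∃ v : Qbar,
      IsLValue (fun k => ((χ⁻¹ (k : ZMod (p ^ (n + 1))) : Qbar) : ℂ) * (a k : ℂ))
        ((v : ℂ) * Ω * gaussSum (χ⁻¹.ringHomComp (algebraMap Qbar ℂ)) ZMod.stdAddChar /
          (p : ℂ) ^ (n + 1)) ∧
      HasSum (fun i => algebraMap ℚ_[p] ℂ_[p] (PowerSeries.coeff i L) *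
          (j (χ ((1 + p : ℕ) : ZMod (p ^ (n + 1)))) - 1) ^ i)
        (algebraMap ℚ_[p] ℂ_[p] (((α⁻¹ : ℤ_[p]ˣ) : ℤ_[p]) : ℚ_[p]) ^ (n + 1) * j v)

/-- the parity of a character with tame part `ψ` -/
theorem even_of_tame {p : ℕ} [hp : Fact p.Prime] (hp2 : p ≠ 2) {ψ : DirichletCharacter ℤ_[p] p}
    (hψ : ψ (-1) = 1) {n : ℕ} {χ : DirichletCharacter Qbar (p ^ (n + 1))} {j : Qbar →+* ℂ_[p]}
    (h : ∀ b : ℕ, b ^ (p - 1) ≡ 1 [MOD p ^ (n + 1)] → j (χ (b : ZMod (p ^ (n + 1)))) =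
        algebraMap ℚ_[p] ℂ_[p] ((ψ (b : ZMod p) : ℤ_[p]) : ℚ_[p])) : χ (-1) = 1 := by
  have hpos : 0 < p ^ (n + 1) := pow_pos hp.out.pos _
  have h1 : (((p ^ (n + 1) - 1 : ℕ)) : ZMod (p ^ (n + 1))) = -1 := by
    rw [Nat.cast_sub hpos]
    simp
  have h2 : (((p ^ (n + 1) - 1 : ℕ)) : ZMod p) = -1 := by
    rw [Nat.cast_sub hpos]
    simp
  have h3 : (p ^ (n + 1) - 1) ^ (p - 1) ≡ 1 [MOD p ^ (n + 1)] := by
    rw [← ZMod.natCast_eq_natCast_iff]
    push_cast [h1]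
    have heven : Even (p - 1) := by
      have := hp.out.odd_of_ne_two hp2
      exact Nat.Odd.sub_odd this odd_one
    rw [heven.neg_one_pow]
  have h4 := h _ h3
  rw [h1, h2, hψ] at h4
  apply j.injective
  rw [h4]
  simp

theorem isMSDBr_exists {N : ℕ} [NeZero N] {p : ℕ} [hp : Fact p.Prime] (hp2 : p ≠ 2)
    (f : CuspForm (Gamma0 N) 2) {a : ℕ → ℤ}
    (ha : ∀ n, (UpperHalfPlane.qExpansion 1 f).coeff n = a n) {α : ℤ_[p]ˣ}
    (hα : (α : ℤ_[p]) ^ 2 - (a p : ℤ_[p]) * α + p = 0) {u : ℤ} (hu : u ≠ 0) {Ω : ℝ}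
    {φ : ModSym N ℤ} (hφ : ∀ x : OnePoint ℚ, (u : ℝ) * S f x = (φ.val ∞ x : ℤ) * Ω)
    (hH : φ.HeckeEigen p (a p)) {ψ : DirichletCharacter ℤ_[p] p} (hψ : ψ (-1) = 1)
    {L : PowerSeries ℤ_[p]}
    (hL : IsPadicLBr (φ.map (Int.castRingHom ℤ_[p])) p α ψ L) :
    IsMSDBr p a Ω α ψ
      (PowerSeries.mk fun i => ((PowerSeries.coeff i L : ℤ_[p]) : ℚ_[p]) / (u : ℚ_[p])) := by
  have huq : (u : ℚ_[p]) ≠ 0 := by exact_mod_cast hu
  have hH' : (φ.map (Int.castRingHom ℤ_[p])).HeckeEigen p ((a p : ℤ) : ℤ_[p]) := hH.map _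
  refine ⟨⟨1 / ‖(u : ℚ_[p])‖, fun i => ?_⟩, ?_, ?_⟩
  · rw [PowerSeries.coeff_mk, norm_div]
    have h1 : ‖((PowerSeries.coeff i L : ℤ_[p]) : ℚ_[p])‖ ≤ 1 := PadicInt.norm_le_one _
    gcongr
  · intro hψ1
    subst hψ1
    have hL1 : IsPadicL (φ.map (Int.castRingHom ℤ_[p])) p α L := by
      intro n
      have := hL n
      rwa [thetaBr_one _ hp.out] at this
    refine ⟨((φ.val ∞ ((0 : ℚ) : OnePoint ℚ) : ℤ) : ℚ) / (u : ℚ), isLValue_one f ha hu hφ, ?_⟩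
    rw [PowerSeries.coeff_mk, coeff_zero_padicL _ α _ hH' hα L hL1]
    simp only [ModSym.map_val, eq_intCast]
    push_cast
    ring
  · intro n χ hχ j hj
    have hm : 0 < p ^ (n + 1) := pow_pos hp.out.pos _
    have hNZ : NeZero (p ^ (n + 1)) := ⟨hm.ne'⟩
    have h1 := isLValue_Qbar f ha hu hφ χ hχ (even_of_tame hp2 hψ hj)
    refine ⟨_, by
      convert! h1 using 2
      push_cast
      rfl, ?_⟩
    -- the `p`-adic side
    set ι : ℤ_[p] →+* ℂ_[p] := (algebraMap ℚ_[p] ℂ_[p]).comp PadicInt.Coe.ringHom with hι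
    set χ' : DirichletCharacter ℂ_[p] (p ^ (n + 1)) := χ.ringHomComp j with hχ'
    have hprim : χ'.IsPrimitive := (isPrimitive_ringHomComp χ _).2 hχ
    have hk' : ∀ b : ℕ, b ^ (p - 1) ≡ 1 [MOD p ^ (n + 1)] →
        χ' (b : ZMod (p ^ (n + 1))) = ι (ψ (b : ZMod p)) := by
      intro b hb
      exact hj b hb
    set z : ℂ_[p] := χ' ((1 + p : ℕ) : ZMod (p ^ (n + 1))) with hz
    have hzp : z ^ (p ^ n) = 1 := chi_pow χ'
    have h2 := hasSum_eval L n (ccBr (φ.map (Int.castRingHom ℤ_[p])) p α ψ n) (by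
      rw [← thetaBr_eq]
      exact hL n) z hzp
    have h3 := thetaBr_eval hp2 (φ.map (Int.castRingHom ℤ_[p])) α ι ψ n hprim hk'
    have h4 : ∑ j ∈ Finset.range (p ^ n), algebraMap ℚ_[p] ℂ_[p]
        ((ccBr (φ.map (Int.castRingHom ℤ_[p])) p α ψ n j : ℤ_[p]) : ℚ_[p]) * z ^ j =
      ι ((α⁻¹ : ℤ_[p]ˣ) : ℤ_[p]) ^ (n + 1) * ∑ b ∈ Finset.range (p ^ (n + 1)),
        χ' (b : ZMod (p ^ (n + 1))) * ι ((φ.map (Int.castRingHom ℤ_[p])).val ∞
          (((b : ℚ) / (p : ℚ) ^ (n + 1) : ℚ) : OnePoint ℚ)) := by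
      rw [← h3]
      have h5 : ∀ j : ℕ, algebraMap ℚ_[p] ℂ_[p]
          ((ccBr (φ.map (Int.castRingHom ℤ_[p])) p α ψ n j : ℤ_[p]) : ℚ_[p]) * z ^ j =
          ∑ b ∈ (Finset.range (p ^ (n + 1))).filter
            (fun b => ¬ p ∣ b ∧ b ^ (p - 1) ≡ (1 + p) ^ (j * (p - 1)) [MOD p ^ (n + 1)]),
            ι (ψ (b : ZMod p) * msd (φ.map (Int.castRingHom ℤ_[p])) p α n b) * z ^ j := by
        intro j
        show ι (ccBr (φ.map (Int.castRingHom ℤ_[p])) p α ψ n j) * z ^ j = _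
        rw [ccBr, map_sum, Finset.sum_mul]
      rw [Finset.sum_congr rfl fun j _ => h5 j]
      refine Finset.sum_comm' ?_
      intro x y
      simp only [Finset.mem_filter]
      tauto
    rw [h4] at h2
    have h5 := h2.mul_right (algebraMap ℚ_[p] ℂ_[p] (u : ℚ_[p]))⁻¹
    convert! h5 using 1
    · ext i
      rw [PowerSeries.coeff_mk, map_div₀]
      show _ / _ * (z - 1) ^ i = _
      ring
    · rw [mul_assoc]
      congr 1
      rw [map_sum, Finset.sum_mul]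
      refine Finset.sum_congr rfl fun b _ => ?_
      rw [map_div₀, map_mul, map_intCast, map_intCast, ModSym.map_val]
      simp only [eq_intCast, map_intCast]
      push_cast
      rw [div_eq_mul_inv]
      rfl

/-- A character over `ℚ̄` with given tame part. -/
theorem exists_tame {p : ℕ} [hp : Fact p.Prime] (ψ : DirichletCharacter ℤ_[p] p)
    (j : Qbar →+* ℂ_[p]) : ∃ χ : DirichletCharacter Qbar p,
      ∀ b : ZMod p, j (χ b) = algebraMap ℚ_[p] ℂ_[p] ((ψ b : ℤ_[p]) : ℚ_[p]) := by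
  have hclosed : IsAlgClosed Qbar := (algebraicClosure.isAlgClosure ℚ ℂ).isAlgClosed
  have hNZ : NeZero p := ⟨hp.out.ne_zero⟩
  have hex1 : NeZero ((Monoid.exponent (ZMod p)ˣ : ℕ) : Qbar) :=
    ⟨by exact_mod_cast Monoid.exponent_ne_zero_of_finite⟩
  have hex2 : NeZero ((Monoid.exponent (ZMod p)ˣ : ℕ) : ℂ_[p]) :=
    ⟨by exact_mod_cast Monoid.exponent_ne_zero_of_finite⟩
  have hinj : Function.Injective
      (fun χ : DirichletCharacter Qbar p => (χ.ringHomComp j : DirichletCharacter ℂ_[p] p)) := by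
    intro χ₁ χ₂ h
    apply MulChar.ext
    intro x
    apply j.injective
    have := congrArg (fun χ : DirichletCharacter ℂ_[p] p => χ (x : ZMod p)) h
    simpa using this
  have hcard : Fintype.card (DirichletCharacter Qbar p) =
      Fintype.card (DirichletCharacter ℂ_[p] p) := by
    rw [← Nat.card_eq_fintype_card, ← Nat.card_eq_fintype_card,
      DirichletCharacter.card_eq_totient_of_hasEnoughRootsOfUnity,
      DirichletCharacter.card_eq_totient_of_hasEnoughRootsOfUnity]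
  have hbij := (Fintype.bijective_iff_injective_and_card _).2 ⟨hinj, hcard⟩
  obtain ⟨χ, hχ⟩ := hbij.2
    (ψ.ringHomComp ((algebraMap ℚ_[p] ℂ_[p]).comp PadicInt.Coe.ringHom))
  refine ⟨χ, fun b => ?_⟩
  have := congrArg (fun χ : DirichletCharacter ℂ_[p] p => χ b) hχ
  simp only [MulChar.ringHomComp_apply] at this
  exact this

/-- Characters over `ℚ̄` of large conductor with given tame part. -/
theorem exists_wild_tame {p : ℕ} [hp : Fact p.Prime] (hp2 : p ≠ 2)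
    (ψ : DirichletCharacter ℤ_[p] p) (j : Qbar →+* ℂ_[p]) {n : ℕ} (hn : 1 ≤ n) :
    ∃ χ : DirichletCharacter Qbar (p ^ (n + 1)), χ.IsPrimitive ∧
      (∀ b : ℕ, b ^ (p - 1) ≡ 1 [MOD p ^ (n + 1)] → j (χ (b : ZMod (p ^ (n + 1)))) =
        algebraMap ℚ_[p] ℂ_[p] ((ψ (b : ZMod p) : ℤ_[p]) : ℚ_[p])) ∧
      χ ((1 + p : ℕ) : ZMod (p ^ (n + 1))) ^ (p ^ (n - 1)) ≠ 1 := by
  have hclosed : IsAlgClosed Qbar := (algebraicClosure.isAlgClosure ℚ ℂ).isAlgClosed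
  have hNZ : NeZero (p ^ (n + 1)) := ⟨pow_ne_zero _ hp.out.ne_zero⟩
  obtain ⟨χw, hw, hwp, hw1⟩ := exists_wild (K := Qbar) hp.out hp2 hn
  obtain ⟨χt, ht⟩ := exists_tame ψ j
  have hdvd : p ∣ p ^ (n + 1) := dvd_pow_self p (Nat.succ_ne_zero n)
  set χt' : DirichletCharacter Qbar (p ^ (n + 1)) := DirichletCharacter.changeLevel hdvd χt with hχt'
  have hval : ∀ b : ℕ, Nat.Coprime b (p ^ (n + 1)) → χt' (b : ZMod (p ^ (n + 1))) =
      χt (b : ZMod p) := by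
    intro b hb
    have h1 := DirichletCharacter.changeLevel_eq_cast_of_dvd' χt hdvd (a := (b : ℤ))
      (Nat.isCoprime_iff_coprime.2 hb)
    push_cast at h1
    exact h1
  have hcu : Nat.Coprime (1 + p) (p ^ (n + 1)) := by
    apply Nat.Coprime.pow_right
    simp
  refine ⟨χw * χt', ?_, ?_, ?_⟩
  · obtain ⟨x, hx, hx1⟩ := exists_ne_one_of_primitive hp.out hw
    refine primitive_of_ne_one hp.out _ x hx ?_
    rw [MulChar.mul_apply]
    have h1 : χt' (x : ZMod (p ^ (n + 1))) = 1 := by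
      rw [hχt', DirichletCharacter.changeLevel_eq_cast_of_dvd]
      have h2 : (ZMod.cast (x : ZMod (p ^ (n + 1))) : ZMod p) = 1 := by
        have h3 := congrArg (fun z : (ZMod (p ^ n))ˣ => (z : ZMod (p ^ n))) hx
        beta_reduce at h3
        rw [ZMod.unitsMap_val, Units.val_one] at h3
        have hpn : p ∣ p ^ n := dvd_pow_self p (by omega)
        have h4 := congrArg (fun z : ZMod (p ^ n) => (ZMod.cast z : ZMod p)) h3
        beta_reduce at h4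
        rw [ZMod.cast_one hpn] at h4
        rw [← h4]
        have h5 : (x : ZMod (p ^ (n + 1))) = (((x : ZMod (p ^ (n + 1))).val : ℕ) :
            ZMod (p ^ (n + 1))) := (ZMod.natCast_zmod_val _).symm
        rw [h5, ZMod.cast_natCast hdvd, ZMod.cast_natCast (pow_dvd_pow p (Nat.le_succ n)),
          ZMod.cast_natCast hpn]
      rw [h2, map_one]
    rw [h1, mul_one]
    exact hx1
  · intro b hb
    have hpb : ¬ p ∣ b := by
      intro hh
      have h1 : b ^ (p - 1) ≡ 1 [MOD p] := hb.of_dvd hdvd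
      have h2 : b ^ (p - 1) ≡ 0 [MOD p] := by
        rw [Nat.modEq_zero_iff_dvd]
        exact hh.trans (dvd_pow_self b (by have := hp.out.two_le; omega))
      have h3 := (h2.symm.trans h1)
      have h4 := (Nat.modEq_iff_dvd' (Nat.zero_le 1)).1 h3
      simp only [Nat.sub_zero] at h4
      exact hp.out.one_lt.ne' (Nat.dvd_one.1 h4)
    have hcb : Nat.Coprime b (p ^ (n + 1)) :=
      (Nat.Coprime.pow_left _ ((Nat.Prime.coprime_iff_not_dvd hp.out).2 hpb)).symm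
    have h1 := chi_eq_pow hp.out hwp (j := 0) hpb (by simpa using hb)
    rw [pow_zero] at h1
    rw [MulChar.mul_apply, h1, one_mul, hval b hcb, ht]
  · rw [MulChar.mul_apply, hval _ hcu]
    have h1 : (((1 + p : ℕ)) : ZMod p) = 1 := by simp
    rw [h1, map_one, mul_one]
    exact hw1

end Pool.Agent.MZ.Per
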