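import Pool.Agent.MZ.PerO

/-!
# The tame branches of the `p`-adic `L`-function of a cusp form of weight two: main theorem
-/

set_option autoImplicit false

open Filter Topology Complex Function CongruenceSubgroup
open Matrix.SpecialLinearGroup (mapGL)
open scoped MatrixGroups Real ModularForm OnePoint ComplexConjugate

namespace Pool.Agent.MZ.Per

/-- Uniqueness of the branches. -/
theorem isMSDBr_unique {p : ℕ} [hp : Fact p.Prime] (hp2 : p ≠ 2) {a : ℕ → ℤ} {Ω : ℝ} (hΩ : Ω ≠ 0)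
    {α : ℤ_[p]ˣ} {ψ : DirichletCharacter ℤ_[p] p} (hψ : ψ (-1) = 1)
    {L₁ L₂ : PowerSeries ℚ_[p]} (h₁ : IsMSDBr p a Ω α ψ L₁) (h₂ : IsMSDBr p a Ω α ψ L₂) :
    L₁ = L₂ := by
  rw [← sub_eq_zero]
  have hΩc : (Ω : ℂ) ≠ 0 := by exact_mod_cast hΩ
  have halg : Algebra.IsAlgebraic ℚ Qbar := algebraicClosure.isAlgebraic ℚ ℂ
  have hclosed : IsAlgClosed Qbar := (algebraicClosure.isAlgClosure ℚ ℂ).isAlgClosed
  have hemb : Nonempty (Qbar →ₐ[ℚ] ℂ_[p]) := ⟨IsAlgClosed.lift⟩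
  obtain ⟨j₀⟩ := hemb
  set j : Qbar →+* ℂ_[p] := (j₀ : Qbar →+* ℂ_[p]) with hj
  have hχ : ∀ n : ℕ, ∃ χ : DirichletCharacter Qbar (p ^ (n + 1 + 1)), χ.IsPrimitive ∧
      (∀ b : ℕ, b ^ (p - 1) ≡ 1 [MOD p ^ (n + 1 + 1)] → j (χ (b : ZMod (p ^ (n + 1 + 1)))) =
        algebraMap ℚ_[p] ℂ_[p] ((ψ (b : ZMod p) : ℤ_[p]) : ℚ_[p])) ∧
      χ ((1 + p : ℕ) : ZMod (p ^ (n + 1 + 1))) ^ (p ^ n) ≠ 1 := by
    intro n
    exact exists_wild_tame hp2 ψ j (n := n + 1) (by omega)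
  choose χ hprim htame hne using hχ
  refine eq_zero_of_zeros _ ?_ (fun n => j (χ n ((1 + p : ℕ) : ZMod (p ^ (n + 1 + 1))))) ?_ ?_
  · obtain ⟨B₁, hB₁⟩ := h₁.bdd
    obtain ⟨B₂, hB₂⟩ := h₂.bdd
    refine ⟨B₁ + B₂, fun i => ?_⟩
    rw [map_sub]
    exact (norm_sub_le _ _).trans (add_le_add (hB₁ i) (hB₂ i))
  · intro n
    constructor
    · rw [← map_pow, chi_pow, map_one]
    · rw [← map_pow]
      intro h
      apply hne n
      rw [← map_one j] at h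
      exact j.injective h
  · intro n
    obtain ⟨v₁, hv₁, hs₁⟩ := h₁.chi (n + 1) (χ n) (hprim n) j (htame n)
    obtain ⟨v₂, hv₂, hs₂⟩ := h₂.chi (n + 1) (χ n) (hprim n) j (htame n)
    have hNZ : NeZero (p ^ (n + 1 + 1)) := ⟨pow_ne_zero _ hp.out.ne_zero⟩
    have hv : v₁ = v₂ := by
      have h1 := hv₁.unique hv₂
      have hpc : ((p : ℂ) ^ (n + 1 + 1)) ≠ 0 := pow_ne_zero _ (by exact_mod_cast hp.out.ne_zero)
      have hτ : gaussSum ((χ n)⁻¹.ringHomComp (algebraMap Qbar ℂ)) ZMod.stdAddChar ≠ 0 := by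
        intro h0
        have hprim' : DirichletCharacter.IsPrimitive
            ((χ n).ringHomComp (algebraMap Qbar ℂ)) := (isPrimitive_ringHomComp _ _).2 (hprim n)
        have h2 := gauss_mul_inv hprim'
        rw [MulChar.ringHomComp_inv, h0, mul_zero, MulChar.ringHomComp_apply,
          even_of_tame hp2 hψ (htame n), map_one, one_mul] at h2
        push_cast at h2
        exact hpc h2.symm
      rw [div_left_inj' hpc, mul_left_inj' hτ, mul_left_inj' hΩc] at h1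
      exact Subtype.ext h1
    have h3 := hs₁.sub hs₂
    rw [hv, sub_self] at h3
    convert! h3 using 2 with i
    rw [map_sub, map_sub, sub_mul]

/-- Change of the period. -/
theorem IsMSDBr.scale {p : ℕ} [hp : Fact p.Prime] {a : ℕ → ℤ} {Ω : ℝ} {q : ℚ}
    {α : ℤ_[p]ˣ} {ψ : DirichletCharacter ℤ_[p] p} {L : PowerSeries ℚ_[p]}
    (h : IsMSDBr p a (q * Ω) α ψ L) :
    IsMSDBr p a Ω α ψ (PowerSeries.C (q : ℚ_[p]) * L) := by
  refine ⟨?_, ?_, ?_⟩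
  · obtain ⟨B, hB⟩ := h.bdd
    refine ⟨‖(q : ℚ_[p])‖ * B, fun i => ?_⟩
    rw [PowerSeries.coeff_C_mul, norm_mul]
    exact mul_le_mul_of_nonneg_left (hB i) (norm_nonneg _)
  · intro hψ
    obtain ⟨r, hr, hc⟩ := h.one hψ
    refine ⟨r * q, ?_, ?_⟩
    · convert! hr using 1
      push_cast
      ring
    · rw [PowerSeries.coeff_C_mul, hc]
      push_cast
      ring
  · intro n χ hχ j hk
    obtain ⟨v, hv, hs⟩ := h.chi n χ hχ j hk
    refine ⟨(q : Qbar) * v, ?_, ?_⟩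
    · convert! hv using 1
      push_cast
      ring
    · have h1 := hs.mul_left (algebraMap ℚ_[p] ℂ_[p] (q : ℚ_[p]))
      convert! h1 using 1
      · ext i
        rw [PowerSeries.coeff_C_mul, map_mul]
        ring
      · rw [map_mul, map_ratCast, map_ratCast]
        ring

/-- **The branches of the `p`-adic `L`-function of a cusp form of weight two.** -/
theorem mainBr {N : ℕ} (hN : N ≠ 0) {p : ℕ} [hp : Fact p.Prime] (hp2 : p ≠ 2) (hpN : ¬ p ∣ N)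
    (f : CuspForm (Gamma0 N) 2) {a : ℕ → ℤ}
    (ha : ∀ n, (UpperHalfPlane.qExpansion 1 f).coeff n = a n) (ha1 : a 1 = 1)
    (hH : HeckeRel N a) (hord : ¬ (p : ℤ) ∣ a p) {Ω : ℝ} (hΩ : Ω ≠ 0)
    (hper : {r : ℝ | ∃ γ ∈ Gamma1 N, r = (period f γ).re} = {r : ℝ | ∃ k : ℤ, r = k * Ω}) :
    ∃ α : ℤ_[p]ˣ, (α : ℤ_[p]) ^ 2 - (a p : ℤ_[p]) * α + p = 0 ∧
      ∃ L : DirichletCharacter ℤ_[p] p → PowerSeries ℚ_[p],
        (∀ ψ, ψ (-1) = 1 → IsMSDBr p a Ω α ψ (L ψ) ∧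
          (∀ L', IsMSDBr p a Ω α ψ L' → L' = L ψ) ∧ (∀ i, ‖PowerSeries.coeff i (L ψ)‖ ≤ 1)) ∧
        (∃ ψ, ψ (-1) = 1 ∧ ∃ i, ‖PowerSeries.coeff i (L ψ)‖ = 1) := by
  have hNZ : NeZero N := ⟨hN⟩
  obtain ⟨α, hα⟩ := exists_unit_root hord
  refine ⟨α, hα, ?_⟩
  -- the auxiliary prime
  have hf0 : ∃ τ : UpperHalfPlane, f τ ≠ 0 := by
    by_contra hcon
    push Not at hcon
    have h1 : (f : UpperHalfPlane → ℂ) = 0 := by
      ext τ
      exact hcon τ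
    have h2 := ha 1
    rw [h1, UpperHalfPlane.qExpansion_zero, map_zero, ha1] at h2
    norm_num at h2
  obtain ⟨l, hl, -, hl1, hlN, hal⟩ := exists_prime_ne f hf0 (a := fun n => ((a n : ℤ) : ℂ)) ha
    (by
      intro l hl hlN n
      have := hH l hl hlN n
      rw [← Int.cast_mul, ← this]
      push_cast
      rfl) 0
  set u : ℤ := (l : ℤ) + 1 - a l with hu
  have hu0 : u ≠ 0 := by
    intro h0
    apply hal
    have h1 : a l = (l : ℤ) + 1 := by linarith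
    rw [h1]
    push_cast
    rfl
  have hl1' : (N : ℤ) ∣ (l : ℤ) - 1 := by
    have := (Nat.modEq_iff_dvd.1 hl1.symm)
    exact_mod_cast this
  have hper' : ∀ γ ∈ Gamma1 N, (period f γ).re ∈ AddSubgroup.zmultiples Ω := by
    intro γ hγ
    have h1 : (period f γ).re ∈ {r : ℝ | ∃ k : ℤ, r = k * Ω} := by
      rw [← hper]
      exact ⟨γ, hγ, rfl⟩
    obtain ⟨k, hk⟩ := h1
    rw [AddSubgroup.mem_zmultiples_iff]
    exact ⟨k, by rw [hk, zsmul_eq_mul]⟩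
  obtain ⟨φ, hφ, hsign, hhecke⟩ := exists_int_sym f ha hH hΩ hper' hl hl1'
  obtain ⟨hdiv, γ₀, hγ₀, hγ₀u⟩ := int_sym_periods hΩ hper hφ
  set φp : ModSym N ℤ_[p] := φ.map (Int.castRingHom ℤ_[p]) with hφp
  have hHp : ∀ q : ℕ, q.Prime → ¬ q ∣ N → φp.HeckeEigen q ((a q : ℤ) : ℤ_[p]) :=
    fun q hq hqN => (hhecke q hq hqN).map _
  have hsp : φp.HasSign 1 := by
    intro x y
    rw [hφp, ModSym.map_val, hsign x y, one_mul, one_mul, ModSym.map_val]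
  have hex : ∀ ψ : DirichletCharacter ℤ_[p] p, ∃! L : PowerSeries ℤ_[p], IsPadicLBr φp p α ψ L :=
    existsUnique_padicLBr hp2 φp α _ (hHp p hp.out hpN) hα
  choose L hL hLu using fun ψ => (hex ψ)
  beta_reduce at hL hLu
  obtain ⟨K, hK, hKu⟩ := exists_norm_int (p := p) hu0
  have hp0 : (0 : ℝ) < p := by exact_mod_cast hp.out.pos
  have hpos : 0 < ((p : ℝ) ^ K)⁻¹ := by positivity
  have hcontent : ∀ K' : ℕ, (∀ ψ : DirichletCharacter ℤ_[p] p, ψ (-1) = 1 → ∀ m,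
      (p : ℤ_[p]) ^ K' ∣ PowerSeries.coeff m (L ψ)) ↔
      ∀ γ ∈ Gamma1 N, (p : ℤ_[p]) ^ K' ∣ φp.val ∞ (mapGL ℚ γ • ∞) := by
    intro K'
    rw [← contentBr hN hp2 hpN φp (fun q => ((a q : ℤ) : ℤ_[p])) hHp α hα (Or.inl rfl) hsp K']
    constructor
    · intro h ψ hψ L' hL' m
      rw [hLu ψ L' hL']
      exact h ψ hψ m
    · intro h ψ hψ m
      exact h ψ hψ (L ψ) (hL ψ) m
  have hint : ∀ ψ : DirichletCharacter ℤ_[p] p, ψ (-1) = 1 → ∀ i,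
      ‖PowerSeries.coeff i (PowerSeries.mk fun i =>
        ((PowerSeries.coeff i (L ψ) : ℤ_[p]) : ℚ_[p]) / (u : ℚ_[p]))‖ ≤ 1 := by
    intro ψ hψ i
    rw [PowerSeries.coeff_mk, norm_div, hK]
    have h3 := (hcontent K).2 (by
      intro γ hγ
      obtain ⟨c, hc⟩ := hKu.trans (hdiv γ hγ)
      refine ⟨(c : ℤ_[p]), ?_⟩
      rw [hφp, ModSym.map_val, hc]
      simp) ψ hψ i
    rw [dvd_iff_norm] at h3
    rw [div_le_one hpos]
    exact h3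
  refine ⟨fun ψ => PowerSeries.mk fun i =>
    ((PowerSeries.coeff i (L ψ) : ℤ_[p]) : ℚ_[p]) / (u : ℚ_[p]), ?_, ?_⟩
  · intro ψ hψ
    have hMSD := isMSDBr_exists hp2 f ha hα hu0 hφ (hhecke p hp.out hpN) hψ (hL ψ)
    exact ⟨hMSD, fun L' hL' => isMSDBr_unique hp2 hΩ hψ hL' hMSD, hint ψ hψ⟩
  · by_contra hcon
    push Not at hcon
    have h1 : ∀ ψ : DirichletCharacter ℤ_[p] p, ψ (-1) = 1 → ∀ m,
        (p : ℤ_[p]) ^ (K + 1) ∣ PowerSeries.coeff m (L ψ) := by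
      intro ψ hψ i
      have h2 := hcon ψ hψ i
      have h3 := hint ψ hψ i
      rw [PowerSeries.coeff_mk, norm_div, hK] at h2 h3
      have h4 : ‖((PowerSeries.coeff i (L ψ) : ℤ_[p]) : ℚ_[p])‖ < ((p : ℝ) ^ K)⁻¹ := by
        rw [div_le_one hpos] at h3
        refine lt_of_le_of_ne h3 fun h => h2 ?_
        rw [h, div_self hpos.ne']
      rw [dvd_iff_norm]
      have h5 := (PadicInt.norm_le_pow_iff_norm_lt_pow_add_one (PowerSeries.coeff i (L ψ))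
        (-((K : ℤ) + 1))).2 (by
          have : (-((K : ℤ) + 1)) + 1 = -(K : ℤ) := by ring
          rw [this, zpow_neg, zpow_natCast]
          exact h4)
      have h6 : (-((K : ℤ) + 1)) = -((K + 1 : ℕ) : ℤ) := by push_cast; ring
      rw [h6, zpow_neg, zpow_natCast] at h5
      exact h5
    have h2 := (hcontent (K + 1)).1 h1 γ₀ hγ₀
    rw [hφp, ModSym.map_val, hγ₀u] at h2
    have h3 := (dvd_iff_norm (p := p) ((Int.castRingHom ℤ_[p]) u) (K + 1)).1 h2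
    have h4 : ‖(Int.castRingHom ℤ_[p]) u‖ = ((p : ℝ) ^ K)⁻¹ := by
      rw [← hK]
      simp [PadicInt.norm_def]
    rw [h4] at h3
    have h5 : ((p : ℝ) ^ (K + 1))⁻¹ < ((p : ℝ) ^ K)⁻¹ := by
      rw [inv_lt_inv₀ (by positivity) (by positivity)]
      exact pow_lt_pow_right₀ (by exact_mod_cast hp.out.one_lt) (Nat.lt_succ_self K)
    linarith

/-- The branches for an arbitrary real period. -/
theorem mainBr_q {N : ℕ} (hN : N ≠ 0) {p : ℕ} [hp : Fact p.Prime] (hp2 : p ≠ 2) (hpN : ¬ p ∣ N)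
    (f : CuspForm (Gamma0 N) 2) {a : ℕ → ℤ}
    (ha : ∀ n, (UpperHalfPlane.qExpansion 1 f).coeff n = a n) (ha1 : a 1 = 1)
    (hH : HeckeRel N a) (hord : ¬ (p : ℤ) ∣ a p) {Ω : ℝ} (hΩ : Ω ≠ 0) {q : ℚ} (hq : q ≠ 0)
    (hper : {r : ℝ | ∃ γ ∈ Gamma1 N, r = (period f γ).re} =
      {r : ℝ | ∃ k : ℤ, r = k * (q * Ω)}) :
    ∃ α : ℤ_[p]ˣ, (α : ℤ_[p]) ^ 2 - (a p : ℤ_[p]) * α + p = 0 ∧
      ∃ L : DirichletCharacter ℤ_[p] p → PowerSeries ℚ_[p],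
        (∀ ψ, ψ (-1) = 1 → IsMSDBr p a Ω α ψ (L ψ) ∧
          (∀ L', IsMSDBr p a Ω α ψ L' → L' = L ψ) ∧
          (∀ i, ‖PowerSeries.coeff i (L ψ)‖ ≤ ‖(q : ℚ_[p])‖)) ∧
        (∃ ψ, ψ (-1) = 1 ∧ ∃ i, ‖PowerSeries.coeff i (L ψ)‖ = ‖(q : ℚ_[p])‖) := by
  have hqΩ : (q : ℝ) * Ω ≠ 0 := mul_ne_zero (by exact_mod_cast hq) hΩ
  obtain ⟨α, hα, L, hL, ψ₀, hψ₀, i₀, hi₀⟩ := mainBr hN hp2 hpN f ha ha1 hH hord hqΩ hper
  refine ⟨α, hα, fun ψ => PowerSeries.C (q : ℚ_[p]) * L ψ, fun ψ hψ => ?_, ψ₀, hψ₀, i₀, ?_⟩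
  · obtain ⟨h1, -, h3⟩ := hL ψ hψ
    refine ⟨h1.scale, fun L' hL' => isMSDBr_unique hp2 hΩ hψ hL' h1.scale, fun i => ?_⟩
    rw [PowerSeries.coeff_C_mul, norm_mul]
    exact mul_le_of_le_one_right (norm_nonneg _) (h3 i)
  · rw [PowerSeries.coeff_C_mul, norm_mul, hi₀, mul_one]

end Pool.Agent.MZ.Per
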